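import Mathlib
import Pool.Agent.Helper38.AutF.Final3

/-!
# TOR: finite-index subgroups of `Aut(F_n)` containing the Torelli group

Definitions. `T i (u, v)` (Helper38/AutF/Autos.lean) is `x_i ↦ u⁻¹ x_i v`, `Sx i` = words without `x_i`,
`Sy Y` = words in the letters of `Y`, `eps i` = inversion of `x_i` (Helper38/AutF/Final3.lean).
-/

namespace TOR

open Helper38.AutF
open scoped commutatorElement

/-- `Aut(F_n)` -/
abbrev AF (n : ℕ) := MulAut (FreeGroup (Fin n))

/-- The Torelli subgroup `IA_n`: automorphisms acting trivially on the abelianization. -/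
def IA (n : ℕ) : Subgroup (AF n) where
  carrier := {φ | ∀ x, Abelianization.of (φ x) = Abelianization.of x}
  mul_mem' := by
    intro a b ha hb x
    rw [MulAut.mul_apply, ha, hb]
  one_mem' := by intro x; rfl
  inv_mem' := by
    intro a ha x
    have := ha (a⁻¹ x)
    rw [MulAut.apply_inv_self] at this
    exact this.symm

theorem mem_IA {n : ℕ} {φ : AF n} :
    φ ∈ IA n ↔ ∀ x, Abelianization.of (φ x) = Abelianization.of x := Iff.rfl

instance IA_normal (n : ℕ) : (IA n).Normal := by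
  refine ⟨fun φ hφ g x => ?_⟩
  rw [MulAut.mul_apply, MulAut.mul_apply]
  have h1 := hφ (g⁻¹ x)
  have h2 : Abelianization.of (g (φ (g⁻¹ x))) = Abelianization.of (g (g⁻¹ x)) := by
    have h3 := congrArg (Abelianization.map (g : FreeGroup (Fin n) →* FreeGroup (Fin n))) h1
    rw [Abelianization.map_of, Abelianization.map_of] at h3
    exact h3
  rw [h2, MulAut.apply_inv_self]

/-- the letter `x_j` as a word without `x_i` (trivial if `j = i`) -/
def lx {n : ℕ} (i j : Fin n) : Sx i :=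
  if h : j = i then 1 else ⟨FreeGroup.of j, of_mem_Sx h⟩

theorem lx_self {n : ℕ} (i : Fin n) : lx i i = 1 := by simp [lx]

theorem lx_ne {n : ℕ} {i j : Fin n} (h : j ≠ i) :
    ((lx i j : Sx i) : FreeGroup (Fin n)) = FreeGroup.of j := by simp [lx, h]

/-- `x_i ↦ w⁻¹ x_i w` -/
def dl {n : ℕ} (i : Fin n) : Sx i →* AF n := (T i).comp ((MonoidHom.id _).prod (MonoidHom.id _))

theorem dl_apply {n : ℕ} (i : Fin n) (w : Sx i) : dl i w = T i (w, w) := rfl

/-- `x_i ↦ x_j⁻¹ x_i x_j` -/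
def Kc {n : ℕ} (i j : Fin n) : AF n := T i (lx i j, lx i j)

/-- `x_i ↦ x_i [x_j, x_k]` -/
def Kd {n : ℕ} (i j k : Fin n) : AF n := T i (1, ⁅lx i j, lx i k⁆)

/-- the transvection `x_i ↦ x_i x_j` -/
def R {n : ℕ} (i j : Fin n) : AF n := T i (1, lx i j)

/-- the set of generators -/
def gens (n : ℕ) : Set (AF n) := {κ | ∃ i j, κ = Kc i j} ∪ {κ | ∃ i j k, κ = Kd i j k}

/-- the subgroup generated by all `Kc i j`, `Kd i j k` -/
def MM (n : ℕ) : Subgroup (AF n) := Subgroup.closure (gens n)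

/-- permutation of the letters -/
def pm {n : ℕ} (σ : Equiv.Perm (Fin n)) : AF n := FreeGroup.freeGroupCongr σ

/-- automorphisms fixing `x_i` and preserving the words without `x_i` -/
def Sti {n : ℕ} (i : Fin n) : Subgroup (AF n) where
  carrier := {φ | φ (FreeGroup.of i) = FreeGroup.of i ∧ ∀ w, w ∈ Sx i ↔ φ w ∈ Sx i}
  mul_mem' := by
    rintro a b ⟨ha, ha'⟩ ⟨hb, hb'⟩
    refine ⟨by rw [MulAut.mul_apply, hb, ha], fun w => ?_⟩
    rw [MulAut.mul_apply, ← ha', ← hb']
  one_mem' := ⟨rfl, fun _ => Iff.rfl⟩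
  inv_mem' := by
    rintro a ⟨ha, ha'⟩
    refine ⟨?_, fun w => ?_⟩
    · have h := congrArg (a⁻¹ : AF n) ha
      rw [MulAut.inv_apply_self] at h
      exact h.symm
    · rw [ha' (a⁻¹ w), MulAut.apply_inv_self]

/-- `{w : ∀ y, tr ψ(w y) = tr ψ(y)}`: the kernel of the semisimplification of `ψ` -/
def TR {G V : Type*} [Group G] [AddCommGroup V] [Module ℂ V] (ψ : G →* Module.End ℂ V) :
    Subgroup G where
  carrier := {w | ∀ y, LinearMap.trace ℂ V (ψ (w * y)) = LinearMap.trace ℂ V (ψ y)}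
  mul_mem' := by
    intro a b ha hb y
    rw [mul_assoc, ha, hb]
  one_mem' := by intro y; rw [one_mul]
  inv_mem' := by
    intro a ha y
    rw [← ha (a⁻¹ * y), mul_inv_cancel_left]

theorem mem_TR {G V : Type*} [Group G] [AddCommGroup V] [Module ℂ V] {ψ : G →* Module.End ℂ V}
    {w : G} : w ∈ TR ψ ↔ ∀ y, LinearMap.trace ℂ V (ψ (w * y)) = LinearMap.trace ℂ V (ψ y) :=
  Iff.rfl

instance TR_normal {G V : Type*} [Group G] [AddCommGroup V] [Module ℂ V]
    (ψ : G →* Module.End ℂ V) : (TR ψ).Normal := by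
  refine ⟨fun w hw g y => ?_⟩
  have h : ∀ a b : G, LinearMap.trace ℂ V (ψ (a * b)) = LinearMap.trace ℂ V (ψ (b * a)) := by
    intro a b
    rw [map_mul ψ, map_mul ψ, LinearMap.trace_mul_comm]
  have h1 : g * w * g⁻¹ * y = g * (w * (g⁻¹ * y)) := by group
  have h2 : w * (g⁻¹ * y) * g = w * (g⁻¹ * y * g) := by group
  rw [h1, h, h2, hw, h (g⁻¹ * y) g]
  congr 2
  group

end TOR
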