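import Mathlib
import Pool.Agent.Helper34.TOR.Defs

/-!
# TOR: evaluation lemmas
-/

namespace TOR

open Helper38.AutF
open scoped commutatorElement

variable {n : ℕ}

theorem R_self {i j : Fin n} (h : j ≠ i) :
    R i j (FreeGroup.of i) = FreeGroup.of i * FreeGroup.of j := by
  rw [R, T_self]
  simp [lx_ne h]

theorem R_ne {i j c : Fin n} (h : c ≠ i) : R i j (FreeGroup.of c) = FreeGroup.of c := by
  rw [R, T_ne h]

theorem R_fix {i j : Fin n} {w : FreeGroup (Fin n)} (hw : w ∈ Sx i) : R i j w = w := by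
  rw [R, T_fix _ _ hw]

theorem Kc_self {i j : Fin n} (h : j ≠ i) :
    Kc i j (FreeGroup.of i) = (FreeGroup.of j)⁻¹ * FreeGroup.of i * FreeGroup.of j := by
  rw [Kc, T_self]
  simp [lx_ne h]

theorem Kc_ne {i j c : Fin n} (h : c ≠ i) : Kc i j (FreeGroup.of c) = FreeGroup.of c := by
  rw [Kc, T_ne h]

theorem Kc_fix {i j : Fin n} {w : FreeGroup (Fin n)} (hw : w ∈ Sx i) : Kc i j w = w := by
  rw [Kc, T_fix _ _ hw]

theorem Kd_self {i j k : Fin n} (hj : j ≠ i) (hk : k ≠ i) :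
    Kd i j k (FreeGroup.of i) = FreeGroup.of i * ⁅FreeGroup.of j, FreeGroup.of k⁆ := by
  rw [Kd, T_self]
  simp [lx_ne hj, lx_ne hk, commutatorElement_def]

theorem Kd_ne {i j k c : Fin n} (h : c ≠ i) : Kd i j k (FreeGroup.of c) = FreeGroup.of c := by
  rw [Kd, T_ne h]

theorem dl_self (i : Fin n) (w : Sx i) :
    dl i w (FreeGroup.of i) = (w : FreeGroup (Fin n))⁻¹ * FreeGroup.of i * w := by
  rw [dl_apply, T_self]

theorem dl_fix (i : Fin n) (w : Sx i) {v : FreeGroup (Fin n)} (hv : v ∈ Sx i) : dl i w v = v := by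
  rw [dl_apply, T_fix _ _ hv]

theorem Kc_eq_dl (i j : Fin n) : Kc i j = dl i (lx i j) := rfl

/-- a homomorphism of free groups maps `Sx i` into a subgroup if it maps the letters there -/
theorem map_Sx {i : Fin n} (φ : FreeGroup (Fin n) →* FreeGroup (Fin n))
    (P : Subgroup (FreeGroup (Fin n))) (h : ∀ c, c ≠ i → φ (FreeGroup.of c) ∈ P)
    {w : FreeGroup (Fin n)} (hw : w ∈ Sx i) : φ w ∈ P := by
  have : Sx i ≤ P.comap φ := by
    rw [Sx, Sy, Subgroup.closure_le]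
    rintro _ ⟨c, hc, rfl⟩
    exact h c (by simpa using hc)
  exact this hw

theorem mem_Sti {i : Fin n} {φ : AF n} :
    φ ∈ Sti i ↔ φ (FreeGroup.of i) = FreeGroup.of i ∧ ∀ w, w ∈ Sx i ↔ φ w ∈ Sx i := Iff.rfl

/-- criterion for membership in `Sti i` -/
theorem mem_Sti_of {i : Fin n} {φ : AF n} (h0 : φ (FreeGroup.of i) = FreeGroup.of i)
    (h1 : ∀ c, c ≠ i → φ (FreeGroup.of c) ∈ Sx i)
    (h2 : ∀ c, c ≠ i → φ⁻¹ (FreeGroup.of c) ∈ Sx i) : φ ∈ Sti i := by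
  refine ⟨h0, fun w => ⟨fun hw => ?_, fun hw => ?_⟩⟩
  · exact map_Sx (φ : FreeGroup (Fin n) →* FreeGroup (Fin n)) (Sx i) h1 hw
  · have := map_Sx ((φ⁻¹ : AF n) : FreeGroup (Fin n) →* FreeGroup (Fin n)) (Sx i) h2 hw
    change φ⁻¹ (φ w) ∈ Sx i at this
    rwa [MulAut.inv_apply_self] at this

theorem T_mem_Sti {i a : Fin n} (ha : i ≠ a) (p : Sx i × Sx i)
    (h1 : (p.1 : FreeGroup (Fin n)) ∈ Sx a) (h2 : (p.2 : FreeGroup (Fin n)) ∈ Sx a) :
    T i p ∈ Sti a := by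
  refine mem_Sti_of (T_ne ha.symm _) (fun c hc => ?_) (fun c hc => ?_)
  · by_cases h : c = i
    · subst h
      rw [T_self]
      exact mul_mem (mul_mem (inv_mem h1) (of_mem_Sx hc)) h2
    · rw [T_ne h]; exact of_mem_Sx hc
  · rw [← map_inv]
    by_cases h : c = i
    · subst h
      rw [T_self]
      refine mul_mem (mul_mem (inv_mem ?_) (of_mem_Sx hc)) ?_
      · simpa using h1
      · simpa using h2
    · rw [T_ne h]; exact of_mem_Sx hc

theorem lx_mem_Sx {i j a : Fin n} (h : a ≠ j) : ((lx i j : Sx i) : FreeGroup (Fin n)) ∈ Sx a := by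
  by_cases hj : j = i
  · subst hj
    rw [lx_self]; exact one_mem _
  · rw [lx_ne hj]; exact of_mem_Sx h.symm

theorem R_mem_Sti {i j a : Fin n} (hi : i ≠ a) (hj : j ≠ a) : R i j ∈ Sti a :=
  T_mem_Sti hi _ (one_mem _) (lx_mem_Sx hj.symm)

theorem Kc_mem_Sti {i j a : Fin n} (hi : i ≠ a) (hj : j ≠ a) : Kc i j ∈ Sti a :=
  T_mem_Sti hi _ (lx_mem_Sx hj.symm) (lx_mem_Sx hj.symm)

theorem Kd_mem_Sti {i j k a : Fin n} (hi : i ≠ a) (hj : j ≠ a) (hk : k ≠ a) : Kd i j k ∈ Sti a := by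
  refine T_mem_Sti hi _ (one_mem _) ?_
  have h1 := lx_mem_Sx (i := i) hj.symm
  have h2 := lx_mem_Sx (i := i) hk.symm
  rw [commutatorElement_def]
  exact mul_mem (mul_mem (mul_mem h1 h2) (inv_mem h1)) (inv_mem h2)

/-- the action of `Sti i` on `Sx i` -/
def act {i : Fin n} (σ : AF n) (hσ : σ ∈ Sti i) : Sx i →* Sx i :=
  ((σ : FreeGroup (Fin n) →* FreeGroup (Fin n)).comp (Sx i).subtype).codRestrict (Sx i)
    (fun w => (hσ.2 w).1 w.2)

theorem act_coe {i : Fin n} (σ : AF n) (hσ : σ ∈ Sti i) (w : Sx i) :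
    ((act σ hσ w : Sx i) : FreeGroup (Fin n)) = σ w := rfl

/-- conjugating `T i` by elements of `Sti i` -/
theorem Sti_conj {i : Fin n} (σ : AF n) (hσ : σ ∈ Sti i) (p : Sx i × Sx i) :
    σ * T i p * σ⁻¹ = T i (act σ hσ p.1, act σ hσ p.2) := by
  rw [mul_inv_eq_iff_eq_mul]
  exact T_conj σ hσ.1 (fun j hj => (hσ.2 _).1 (of_mem_Sx hj)) _ _ rfl rfl

theorem Sti_dl {i : Fin n} (σ : AF n) (hσ : σ ∈ Sti i) (w : Sx i) :
    σ * dl i w * σ⁻¹ = dl i (act σ hσ w) := Sti_conj σ hσ (w, w)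

end TOR
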