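import Mathlib
import Pool.Agent.Helper34.TOR.Defs
import Pool.Agent.Helper34.TOR.Api

/-!
# TOR-11: a basis adapted to a character of finite order

PROOF. (Compare `Pool/Agent/Helper85/NS/Basis.lean`, `exists_basis`.) Let `ω` be a primitive `N`-th root of unity in `ℂˣ`; every
`χ w` is `ω ^ a` for some `a : ℕ` (it is an `N`-th root of unity; `IsPrimitiveRoot.eq_pow_of_pow_eq_one` or
`rootsOfUnity` cyclic). For `σ ∈ Sti i` and a letter `c` let `m σ c` be the least `a` with `χ (σ (of c)) = ω ^ a`, and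
`s σ = Σ_{c ≠ i} m σ c`. Choose `σ ∈ Sti i` with `s σ` minimal. CLAIM: at most one `c ≠ i` has `m σ c ≠ 0`. Otherwise take
`c ≠ d`, both `≠ i`, `0 < m σ d ≤ m σ c`, `σ' = σ * (R c d)⁻¹ ∈ Sti i` (`R_mem_Sti`): `σ' (of c) = σ (of c * (of d)⁻¹)`, so
`χ (σ' (of c)) = ω ^ (m σ c - m σ d)`, `σ' (of e) = σ (of e)` for `e ≠ c`; hence `s σ' < s σ`. `m σ c = 0` means
`χ (σ (of c)) = 1`. Let `c0` be the exceptional letter (if there is none, any letter `≠ i`; it exists because `2 ≤ n`).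
-/

namespace TOR

open Helper38.AutF

private theorem R_inv_self {n : ℕ} {c d : Fin n} (h : d ≠ c) :
    (R c d)⁻¹ (FreeGroup.of c) = FreeGroup.of c * (FreeGroup.of d)⁻¹ := by
  have h1 : R c d (FreeGroup.of c * (FreeGroup.of d)⁻¹) = FreeGroup.of c := by
    rw [map_mul, map_inv, R_self h, R_ne h, mul_inv_cancel_right]
  have h2 := congrArg ((R c d)⁻¹ : AF n) h1
  rw [MulAut.inv_apply_self] at h2
  exact h2.symm

private theorem R_inv_ne {n : ℕ} {c d e : Fin n} (h : e ≠ c) :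
    (R c d)⁻¹ (FreeGroup.of e) = FreeGroup.of e := by
  have h1 : R c d (FreeGroup.of e) = FreeGroup.of e := R_ne h
  have h2 := congrArg ((R c d)⁻¹ : AF n) h1
  rw [MulAut.inv_apply_self] at h2
  exact h2.symm

private theorem exists_root {N : ℕ} (hN : 0 < N) :
    ∃ ω : ℂˣ, ∀ z : ℂˣ, z ^ N = 1 → ∃ a : ℕ, z = ω ^ a := by
  have h := Complex.isPrimitiveRoot_exp N hN.ne'
  refine ⟨(h.isUnit hN.ne').unit, fun z hz => ?_⟩
  have hz' : (z : ℂ) ^ N = 1 := by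
    rw [← Units.val_pow_eq_pow_val, hz, Units.val_one]
  have : NeZero N := ⟨hN.ne'⟩
  obtain ⟨a, -, ha⟩ := h.eq_pow_of_pow_eq_one hz'
  refine ⟨a, Units.ext ?_⟩
  rw [Units.val_pow_eq_pow_val, IsUnit.unit_spec]
  exact ha.symm

theorem adapt {n : ℕ} (hn : 2 ≤ n) (i : Fin n) (χ : FreeGroup (Fin n) →* ℂˣ) {N : ℕ}
    (hN : 0 < N) (hχ : ∀ w, χ w ^ N = 1) :
    ∃ σ ∈ Sti i, ∃ c0, c0 ≠ i ∧
      ∀ c, c ≠ i → c ≠ c0 → χ (σ (FreeGroup.of c)) = 1 := by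
  classical
  obtain ⟨ω, hω⟩ := exists_root hN
  let μ : ℂˣ → ℕ := fun z => sInf {a : ℕ | z = ω ^ a}
  have hμ : ∀ z : ℂˣ, z ^ N = 1 → z = ω ^ μ z := by
    intro z hz
    have hne : {a : ℕ | z = ω ^ a}.Nonempty := hω z hz
    exact Nat.sInf_mem hne
  have hμle : ∀ (z : ℂˣ) (a : ℕ), z = ω ^ a → μ z ≤ a := fun z a h => Nat.sInf_le h
  let v : AF n → Fin n → ℂˣ := fun σ c => χ (σ (FreeGroup.of c))
  let s : AF n → ℕ := fun σ => ∑ c ∈ Finset.univ.erase i, μ (v σ c)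
  obtain ⟨σ, hσ, hmin⟩ := (measure s).wf.has_min (Sti i : Set (AF n)) ⟨1, (Sti i).one_mem⟩
  have key : ∀ c d, c ≠ i → d ≠ i → c ≠ d → μ (v σ d) ≠ 0 → μ (v σ d) ≤ μ (v σ c) → False := by
    intro c d hc hd hcd h0 hle
    have hσ' : σ * (R c d)⁻¹ ∈ Sti i := (Sti i).mul_mem hσ ((Sti i).inv_mem (R_mem_Sti hc hd))
    refine hmin (σ * (R c d)⁻¹) hσ' ?_
    change s (σ * (R c d)⁻¹) < s σ
    have e1 : v (σ * (R c d)⁻¹) c = ω ^ (μ (v σ c) - μ (v σ d)) := by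
      change χ ((σ * (R c d)⁻¹) (FreeGroup.of c)) = _
      rw [MulAut.mul_apply, R_inv_self hcd.symm, map_mul, map_mul, map_inv, map_inv]
      have h1 : χ (σ (FreeGroup.of c)) = ω ^ μ (v σ c) := hμ _ (hχ _)
      have h2 : χ (σ (FreeGroup.of d)) = ω ^ μ (v σ d) := hμ _ (hχ _)
      rw [h1, h2, mul_inv_eq_iff_eq_mul, ← pow_add, Nat.sub_add_cancel hle]
    have e2 : ∀ e, e ≠ c → v (σ * (R c d)⁻¹) e = v σ e := by
      intro e he
      change χ ((σ * (R c d)⁻¹) (FreeGroup.of e)) = _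
      rw [MulAut.mul_apply, R_inv_ne he]
    have e3 : μ (v (σ * (R c d)⁻¹) c) < μ (v σ c) := by
      have := hμle _ _ e1
      omega
    refine Finset.sum_lt_sum ?_ ⟨c, Finset.mem_erase.2 ⟨hc, Finset.mem_univ _⟩, e3⟩
    intro e _
    rcases eq_or_ne e c with rfl | he
    · exact e3.le
    · rw [e2 e he]
  have key2 : ∀ c d, c ≠ i → d ≠ i → c ≠ d → μ (v σ c) ≠ 0 → μ (v σ d) ≠ 0 → False := by
    intro c d hc hd hcd h1 h2
    rcases le_total (μ (v σ d)) (μ (v σ c)) with h | h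
    · exact key c d hc hd hcd h2 h
    · exact key d c hd hc hcd.symm h1 h
  have hz : ∀ c, μ (v σ c) = 0 → χ (σ (FreeGroup.of c)) = 1 := by
    intro c hc
    have h1 : χ (σ (FreeGroup.of c)) = ω ^ μ (v σ c) := hμ _ (hχ _)
    rw [h1, hc, pow_zero]
  refine ⟨σ, hσ, ?_⟩
  by_cases hex : ∃ c0, c0 ≠ i ∧ μ (v σ c0) ≠ 0
  · obtain ⟨c0, hc0, hc0'⟩ := hex
    refine ⟨c0, hc0, fun c hc hcc => hz c ?_⟩
    by_contra hne
    exact key2 c c0 hc hc0 hcc hne hc0'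
  · push Not at hex
    have : Nontrivial (Fin n) := Fin.nontrivial_iff_two_le.2 hn
    obtain ⟨c0, hc0⟩ := exists_ne i
    exact ⟨c0, hc0, fun c hc _ => hz c (hex c hc)⟩

end TOR
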