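import Mathlib
import Pool.Agent.Helper34.TOR.Defs
import Pool.Agent.Helper34.TOR.Api

/-!
# TOR-10: the elements `T i (u, v)` of the Torelli group

Notation `F = FreeGroup (Fin n)`, `F' = commutator F`.

PROOFS.
`closure_lx`: `Sx i` is by definition the closure of the letters `≠ i`; lift a closure induction to the subtype.
`mem_comm_iff`: `→`: the inclusion `Sx i → F` maps commutators to commutators (`Subgroup.map_commutator`/induction).
`←`: the retraction `ret = FreeGroup.lift (lx i) : F →* Sx i` (kills `x_i`) satisfies `ret w = w` for `w ∈ Sx i` (check on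
`closure_lx`), and maps `commutator F` into `commutator (Sx i)`.
`T_mem_IA_iff`: an automorphism is in `IA n` iff `Abelianization.of (φ (of c)) = Abelianization.of (of c)` for all letters
(both sides are homs `F → Abelianization F`, `FreeGroup.ext_hom`). `T i p` fixes the letters `≠ i` and maps `x_i` to
`u⁻¹ x_i v`, whose class is `[x_i] + [v] - [u]`. So `T i p ∈ IA n` iff `Abelianization.of (u⁻¹ v) = 1` iff `u⁻¹ v ∈ F'`
(`Abelianization.ker_of` / `QuotientGroup.eq_one_iff`).
`T_mem_MM`: by the previous, `c := p.1⁻¹ * p.2 ∈ commutator (Sx i)`. `T i p = T i (u,u) * T i (1,c)`. (a) `T i (w,w) = dl i w ∈ MM n` for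
all `w`: closure induction on `closure_lx` (`dl i (lx i j) = Kc i j`). (b) `T i (1, c) ∈ MM n` for `c ∈ commutator (Sx i)`:
the set of `c` with `T i (1,c) ∈ MM n` is a subgroup `Y` of `Sx i`, normal because
`T i (1, s c s⁻¹) = T i (s,s) * T i (1,c) * (T i (s,s))⁻¹` and (a); it contains all `⁅lx i j, lx i k⁆` (`Kd i j k`). In
`Sx i ⧸ Y` the classes of the generators commute, so the quotient is commutative and `commutator (Sx i) ≤ Y`
(`Subgroup.Normal.quotient_commutative_iff_commutator_le` or by hand).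
`MM_le_IA`: generators: `T_mem_IA_iff` with `u⁻¹ v = 1` resp. a commutator (`lx` may be `1`).
-/

namespace TOR

open Helper38.AutF
open scoped commutatorElement

variable {n : ℕ}

theorem closure_lx (i : Fin n) : Subgroup.closure (Set.range (lx i)) = ⊤ := by
  have h := Subgroup.closure_closure_coe_preimage (k := (FreeGroup.of '' ({i}ᶜ : Set (Fin n))))
  rw [eq_top_iff]
  refine h.ge.trans (Subgroup.closure_mono ?_)
  rintro ⟨w, hw⟩ ⟨j, hj, rfl⟩
  have hj' : j ≠ i := by simpa using hj
  exact ⟨j, Subtype.ext (lx_ne hj')⟩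

theorem mem_comm_iff (i : Fin n) (w : Sx i) :
    w ∈ commutator (Sx i) ↔ (w : FreeGroup (Fin n)) ∈ commutator (FreeGroup (Fin n)) := by
  constructor
  · intro h
    have h1 : (commutator (Sx i)).map (Sx i).subtype ≤ commutator (FreeGroup (Fin n)) := by
      rw [commutator_def, Subgroup.map_commutator, commutator_def]
      exact Subgroup.commutator_mono le_top le_top
    exact h1 (Subgroup.mem_map_of_mem _ h)
  · intro h
    have h1 : (commutator (FreeGroup (Fin n))).map (FreeGroup.lift (lx i)) ≤ commutator (Sx i) := by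
      rw [commutator_def, Subgroup.map_commutator, commutator_def]
      exact Subgroup.commutator_mono le_top le_top
    have h2 : (FreeGroup.lift (lx i)).comp (Sx i).subtype = MonoidHom.id (Sx i) := by
      refine MonoidHom.eq_of_eqOn_dense (closure_lx i) ?_
      rintro _ ⟨j, rfl⟩
      rw [MonoidHom.comp_apply, Subgroup.subtype_apply, MonoidHom.id_apply]
      by_cases hj : j = i
      · subst hj
        rw [lx_self]
        simp
      · rw [lx_ne hj, FreeGroup.lift_apply_of]
    have h3 := h1 (Subgroup.mem_map_of_mem _ h)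
    have h4 := DFunLike.congr_fun h2 w
    rw [MonoidHom.comp_apply, Subgroup.subtype_apply, MonoidHom.id_apply] at h4
    rwa [h4] at h3

theorem T_mem_IA_iff (i : Fin n) (p : Sx i × Sx i) :
    T i p ∈ IA n ↔
      ((p.1 : FreeGroup (Fin n))⁻¹ * (p.2 : FreeGroup (Fin n))) ∈
        commutator (FreeGroup (Fin n)) := by
  have hk : ∀ w : FreeGroup (Fin n), w ∈ commutator (FreeGroup (Fin n)) ↔
      Abelianization.of w = 1 := by
    intro w
    rw [← Abelianization.ker_of, MonoidHom.mem_ker]
  rw [hk, map_mul, map_inv]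
  constructor
  · intro h
    have h1 := h (FreeGroup.of i)
    rw [T_self, map_mul, map_mul, map_inv, mul_right_comm] at h1
    exact mul_eq_right.1 h1
  · intro h
    have h1 : Abelianization.of.comp (T i p : FreeGroup (Fin n) ≃* FreeGroup (Fin n)).toMonoidHom =
        Abelianization.of := by
      refine FreeGroup.ext_hom _ _ fun c => ?_
      show Abelianization.of (T i p (FreeGroup.of c)) = Abelianization.of (FreeGroup.of c)
      by_cases hc : c = i
      · subst hc
        rw [T_self, map_mul, map_mul, map_inv, mul_right_comm, h, one_mul]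
      · rw [T_ne hc]
    exact fun x => DFunLike.congr_fun h1 x

theorem dl_mem_IA (i : Fin n) (w : Sx i) : dl i w ∈ IA n := by
  rw [dl_apply, T_mem_IA_iff]
  simp

private theorem dl_mem_MM (i : Fin n) (w : Sx i) : dl i w ∈ MM n := by
  have h : Subgroup.closure (Set.range (lx i)) ≤ (MM n).comap (dl i) := by
    rw [Subgroup.closure_le]
    rintro _ ⟨j, rfl⟩
    exact Subgroup.subset_closure (Or.inl ⟨i, j, rfl⟩)
  rw [closure_lx] at h
  exact h (Subgroup.mem_top w)

/-- the words `c` with `T i (1, c)` in `MM n` -/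
private def YY (i : Fin n) : Subgroup (Sx i) :=
  (MM n).comap ((T i).comp (MonoidHom.inr (Sx i) (Sx i)))

private theorem mem_YY {i : Fin n} {c : Sx i} : c ∈ YY i ↔ T i (1, c) ∈ MM n := Iff.rfl

private theorem YY_normal (i : Fin n) : (YY i).Normal := by
  refine ⟨fun c hc s => ?_⟩
  rw [mem_YY] at hc ⊢
  have h1 : T i (1, s * c * s⁻¹) = dl i s * T i (1, c) * (dl i s)⁻¹ := by
    rw [dl_apply, ← map_inv, ← map_mul, ← map_mul]
    congr 1
    ext <;> simp
  rw [h1]
  exact mul_mem (mul_mem (dl_mem_MM i s) hc) (inv_mem (dl_mem_MM i s))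

private theorem comm_le_YY (i : Fin n) : commutator (Sx i) ≤ YY i := by
  have := YY_normal i
  have h0 : ∀ j k, (QuotientGroup.mk' (YY i)) (lx i j) * (QuotientGroup.mk' (YY i)) (lx i k) =
      (QuotientGroup.mk' (YY i)) (lx i k) * (QuotientGroup.mk' (YY i)) (lx i j) := by
    intro j k
    have h : ⁅lx i j, lx i k⁆ ∈ YY i := by
      rw [mem_YY]
      exact Subgroup.subset_closure (Or.inr ⟨i, j, k, rfl⟩)
    have h1 : (QuotientGroup.mk' (YY i)) ⁅lx i j, lx i k⁆ = 1 :=
      (QuotientGroup.eq_one_iff _).2 h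
    rw [map_commutatorElement, commutatorElement_eq_one_iff_mul_comm] at h1
    exact h1
  have hcl : ∀ (P : Subgroup (Sx i ⧸ YY i)),
      (∀ j, (QuotientGroup.mk' (YY i)) (lx i j) ∈ P) → ∀ a, (QuotientGroup.mk' (YY i)) a ∈ P := by
    intro P hP a
    have h : Subgroup.closure (Set.range (lx i)) ≤ P.comap (QuotientGroup.mk' (YY i)) := by
      rw [Subgroup.closure_le]
      rintro _ ⟨j, rfl⟩
      exact hP j
    rw [closure_lx] at h
    exact h (Subgroup.mem_top a)
  have h1 : ∀ j b, (QuotientGroup.mk' (YY i)) (lx i j) * (QuotientGroup.mk' (YY i)) b =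
      (QuotientGroup.mk' (YY i)) b * (QuotientGroup.mk' (YY i)) (lx i j) := by
    intro j b
    have h := hcl (Subgroup.centralizer {(QuotientGroup.mk' (YY i)) (lx i j)}) (fun k => by
      rw [Subgroup.mem_centralizer_singleton_iff]
      exact h0 k j) b
    rw [Subgroup.mem_centralizer_singleton_iff] at h
    exact h.symm
  have h2 : ∀ a b, (QuotientGroup.mk' (YY i)) a * (QuotientGroup.mk' (YY i)) b =
      (QuotientGroup.mk' (YY i)) b * (QuotientGroup.mk' (YY i)) a := by
    intro a b
    have h := hcl (Subgroup.centralizer {(QuotientGroup.mk' (YY i)) b}) (fun k => by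
      rw [Subgroup.mem_centralizer_singleton_iff]
      exact h1 k b) a
    rw [Subgroup.mem_centralizer_singleton_iff] at h
    exact h
  rw [commutator_def, Subgroup.commutator_le]
  intro a _ b _
  rw [← QuotientGroup.eq_one_iff]
  have h3 : (QuotientGroup.mk' (YY i)) ⁅a, b⁆ = 1 := by
    rw [map_commutatorElement, commutatorElement_eq_one_iff_mul_comm]
    exact h2 a b
  exact h3

theorem T_mem_MM (i : Fin n) (p : Sx i × Sx i) (h : T i p ∈ IA n) : T i p ∈ MM n := by
  rw [T_mem_IA_iff] at h
  have h1 : p.1⁻¹ * p.2 ∈ commutator (Sx i) := (mem_comm_iff i _).2 h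
  have h2 := mem_YY.1 (comm_le_YY i h1)
  have h3 : T i p = dl i p.1 * T i (1, p.1⁻¹ * p.2) := by
    rw [dl_apply, ← map_mul]
    congr 1
    ext <;> simp
  rw [h3]
  exact mul_mem (dl_mem_MM i p.1) h2

theorem MM_le_IA (n : ℕ) : MM n ≤ IA n := by
  rw [MM, Subgroup.closure_le]
  rintro _ (⟨i, j, rfl⟩ | ⟨i, j, k, rfl⟩)
  · exact dl_mem_IA i (lx i j)
  · show T i (1, ⁅lx i j, lx i k⁆) ∈ IA n
    rw [T_mem_IA_iff]
    have h : (((1 : Sx i) : FreeGroup (Fin n))⁻¹ * ((⁅lx i j, lx i k⁆ : Sx i) :
        FreeGroup (Fin n))) = ⁅((lx i j : Sx i) : FreeGroup (Fin n)), ((lx i k : Sx i) :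
        FreeGroup (Fin n))⁆ := by
      simp [commutatorElement_def]
    show (((1 : Sx i) : FreeGroup (Fin n))⁻¹ * ((⁅lx i j, lx i k⁆ : Sx i) :
        FreeGroup (Fin n))) ∈ commutator (FreeGroup (Fin n))
    rw [h]
    exact Subgroup.commutator_mem_commutator (Subgroup.mem_top _) (Subgroup.mem_top _)

end TOR
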