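import Mathlib
import Pool.Agent.Helper34.TOR.Defs
import Pool.Agent.Helper34.TOR.Api
import Pool.Agent.Helper34.TOR.LemG

/-!
# TOR: the representation `ψ w = f (x_i ↦ w⁻¹ x_i w)` of the free group `Sx i`
-/

namespace TOR

open Helper38.AutF
open scoped commutatorElement

variable {n : ℕ} {V : Type*} [AddCommGroup V] [Module ℂ V]

/-- `w ↦ f (x_i ↦ w⁻¹ x_i w)` -/
def psi (H : Subgroup (AF n)) (hI : IA n ≤ H) (f : H →* Module.End ℂ V) (i : Fin n) :
    Sx i →* Module.End ℂ V :=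
  f.comp ((dl i).codRestrict H (fun w => hI (dl_mem_IA i w)))

theorem psi_apply (H : Subgroup (AF n)) (hI : IA n ≤ H) (f : H →* Module.End ℂ V) (i : Fin n)
    (w : Sx i) : psi H hI f i w = f ⟨dl i w, hI (dl_mem_IA i w)⟩ := rfl

end TOR
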