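import Mathlib

/-!
# TOR-02: common eigenvectors of a finite commuting family

PROOF. Induction on the finset `S`, for all `V` (all types in a fixed universe). `S = ∅`: any nonzero vector.
`S = insert a S'`: `u a` has an eigenvalue `μ` (`Module.End.exists_eigenvalue`); its eigenspace
`E = (u a).eigenspace μ ≠ ⊥` is invariant under every `u b` (commutation,
`Module.End.mapsTo_eigenspace_of_comm` or by hand); apply the induction hypothesis to the restrictions
`(u b).restrict _ : E →ₗ E` (they commute), get `v ∈ E`, `v ≠ 0`.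
-/

namespace TOR

private theorem common_eig_aux {ι : Type*} (S : Finset ι) :
    ∀ (V : Type*) [AddCommGroup V] [Module ℂ V] [FiniteDimensional ℂ V] [Nontrivial V]
      (u : ι → Module.End ℂ V), (∀ a ∈ S, ∀ b ∈ S, Commute (u a) (u b)) →
      ∃ v : V, v ≠ 0 ∧ ∀ a ∈ S, ∃ μ : ℂ, u a v = μ • v := by
  classical
  induction S using Finset.induction_on with
  | empty =>
    intro V _ _ _ _ u _
    obtain ⟨v, hv⟩ := exists_ne (0 : V)
    exact ⟨v, hv, fun a ha => absurd ha (Finset.notMem_empty a)⟩
  | insert a S' ha ih =>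
    intro V _ _ _ _ u hcomm
    obtain ⟨μ, hμ⟩ := Module.End.exists_eigenvalue (u a)
    have : Nontrivial ((u a).eigenspace μ) := (Submodule.nontrivial_iff_ne_bot).2 hμ
    have hinv : ∀ b ∈ S', ∀ x ∈ (u a).eigenspace μ, u b x ∈ (u a).eigenspace μ := by
      intro b hb x hx
      rw [Module.End.mem_eigenspace_iff] at hx ⊢
      have h1 := hcomm a (Finset.mem_insert_self a S') b (Finset.mem_insert_of_mem hb)
      have h2 : u a (u b x) = u b (u a x) := by
        have h3 := congrArg (fun f : Module.End ℂ V => f x) h1.eq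
        exact h3
      rw [h2, hx, map_smul]
    let w : ι → Module.End ℂ ((u a).eigenspace μ) := fun b =>
      if h : b ∈ S' then (u b).restrict (hinv b h) else 0
    have hw : ∀ b ∈ S', ∀ x : (u a).eigenspace μ, ((w b x : (u a).eigenspace μ) : V) = u b x := by
      intro b hb x
      simp only [w, dif_pos hb]
      rfl
    obtain ⟨v, hv0, hv⟩ := ih ((u a).eigenspace μ) w (by
      intro b hb c hc
      refine LinearMap.ext fun x => Subtype.ext ?_
      have h1 := hcomm b (Finset.mem_insert_of_mem hb) c (Finset.mem_insert_of_mem hc)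
      have h3 : u b (u c (x : V)) = u c (u b (x : V)) :=
        congrArg (fun f : Module.End ℂ V => f (x : V)) h1.eq
      change ((w b (w c x) : (u a).eigenspace μ) : V) = ((w c (w b x) : (u a).eigenspace μ) : V)
      rw [hw b hb, hw c hc, hw c hc, hw b hb]
      exact h3)
    refine ⟨(v : V), fun h => hv0 (Subtype.ext h), ?_⟩
    intro b hb
    rcases Finset.mem_insert.1 hb with rfl | hb
    · exact ⟨μ, Module.End.mem_eigenspace_iff.1 v.2⟩
    · obtain ⟨ν, hν⟩ := hv b hb
      refine ⟨ν, ?_⟩
      rw [← hw b hb v, hν]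
      rfl

theorem common_eig {V : Type*} [AddCommGroup V] [Module ℂ V] [FiniteDimensional ℂ V] [Nontrivial V]
    {ι : Type*} (S : Finset ι) (u : ι → Module.End ℂ V)
    (hcomm : ∀ a ∈ S, ∀ b ∈ S, Commute (u a) (u b)) :
    ∃ v : V, v ≠ 0 ∧ ∀ a ∈ S, ∃ μ : ℂ, u a v = μ • v :=
  common_eig_aux S V u hcomm

end TOR
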