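import Mathlib
import Pool.Agent.Helper34.TOR.Defs
import Pool.Agent.Helper34.TOR.Eig

/-!
# TOR-03: the filtration lemma FA

`G` is generated by letters `x c` (`c : L`); `φ b` (`b ∈ S`) are endomorphisms of `G` fixing all letters but `x b`;
`u b` are commuting invertible operators with `u b ψ(w) = ψ(φ b w) u b`. If `dim V ≤ |S|` then for some `b ∈ S` the
element `φ b (x b) (x b)⁻¹` is in `TR ψ`.

PROOF. `fa_aux`: induction on `dim V` (for all `V`, fixed universe, fixed `G, L, x, S, φ`).
`V = 0` (`finrank = 0`): `T = ∅`; nilpotency is trivial (`Subsingleton`).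
`V ≠ 0`: by `common_eig` choose `v ≠ 0` with `u b v = lam b • v` for `b ∈ S`; `lam b ≠ 0` as `u b` is invertible.
For a finset `T` of letters let `W T = span {ψ(w) v : w ∈ closure (x '' T)}`, `W = span {ψ(w) v : w ∈ G}`.
GREEDY: there is a finset `T` with `W T = W` and `T.card + 1 ≤ finrank (W)`: start with `T = ∅`, `dim W ∅ = 1` (`v ≠ 0`);
if `ψ(x c) (W T) ≤ W T` for all `c` then (finite dimension, `ψ (x c)` injective) `ψ(x c)⁻¹ = ψ((x c)⁻¹)` also
preserves `W T`, so `W T` is invariant under `ψ(G)` (closure induction on `hx`), contains `v`, so `W T = W`; otherwise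
some `c ∉ T` has `ψ(x c) (W T) ⊄ W T` and `W (insert c T) ⊋ W T` has larger dimension. So one can keep
`T.card + 1 ≤ finrank (W T)`; take `T` maximal (or strong induction on `finrank V - finrank (W T)`).
`W` is invariant under `ψ(G)` and under all `u b`, `b ∈ S` (`u b ψ(w) v = ψ(φ b w) (lam b • v)`). If `b ∈ S`, `b ∉ T`, then
`φ b w = w` for `w ∈ closure (x '' T)`, so `u b = lam b` on `W T = W`; hence on `W`:
`lam b • ψ(x b) = u b ψ(x b) = ψ(φ b (x b)) u b = lam b • ψ(φ b (x b))`, so `ψ(φ b (x b)) - ψ(x b)` kills `W`.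
QUOTIENT: `V' = V ⧸ W` has smaller dimension and carries the induced `ψ'`, `u'` (`Submodule.mapQ`; `u' b` is again
a unit: surjective endomorphism of a finite-dimensional space, or `mapQ` of the inverse — the inverse of `u b`
preserves `W` because `u b` is injective on the finite-dimensional `W`); the relations pass to `V'`. Induction gives
`T'` with `T'.card + 1 ≤ finrank V'` (or `V' = 0`, `T' = ∅`). Take `T ∪ T'`: cardinality `≤ (dim W - 1) + dim V'`
`≤ dim V - 1`. For `b ∈ S \ (T ∪ T')`, `y ∈ G`, `X := (ψ(φ b (x b)) - ψ(x b)) ψ(y)`: `X'` is nilpotent on `V'`, so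
`X^j V ⊆ W`, and `X` kills `W` (`ψ(y) W ⊆ W`), so `X^(j+1) = 0`.
`fa`: `T.card < finrank V ≤ S.card` (or `finrank V = 0`), so some `b ∈ S` is not in `T` (`S` nonempty);
trace of a nilpotent endomorphism is `0` (`LinearMap.isNilpotent_trace_of_isNilpotent`), so
`tr ψ(φ b (x b) y') = tr ψ(x b y')` for all `y'`; put `y' = (x b)⁻¹ * y`... precisely: for `w = φ b (x b) (x b)⁻¹`,
`tr ψ(w y) = tr (ψ(φ b (x b)) ψ((x b)⁻¹ y)) = tr (ψ(x b) ψ((x b)⁻¹ y)) = tr ψ(y)`.
-/

namespace TOR

/-- the span of the vectors `ψ w v`, `w` a word in the letters of `T` -/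
private def WT {G L : Type*} [Group G] (x : L → G) {V : Type*} [AddCommGroup V] [Module ℂ V]
    (ψ : G →* Module.End ℂ V) (v : V) (T : Finset L) : Submodule ℂ V :=
  Submodule.span ℂ {z | ∃ w ∈ Subgroup.closure (x '' (T : Set L)), z = ψ w v}

private theorem WT_mem {G L : Type*} [Group G] (x : L → G) {V : Type*} [AddCommGroup V]
    [Module ℂ V] (ψ : G →* Module.End ℂ V) (v : V) (T : Finset L) {w : G}
    (hw : w ∈ Subgroup.closure (x '' (T : Set L))) : ψ w v ∈ WT x ψ v T :=
  Submodule.subset_span ⟨w, hw, rfl⟩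

private theorem WT_v {G L : Type*} [Group G] (x : L → G) {V : Type*} [AddCommGroup V]
    [Module ℂ V] (ψ : G →* Module.End ℂ V) (v : V) (T : Finset L) : v ∈ WT x ψ v T := by
  have h := WT_mem x ψ v T (one_mem (Subgroup.closure (x '' (T : Set L))))
  rwa [map_one, Module.End.one_apply] at h

private theorem WT_mono {G L : Type*} [Group G] (x : L → G) {V : Type*} [AddCommGroup V]
    [Module ℂ V] (ψ : G →* Module.End ℂ V) (v : V) {T T' : Finset L} (h : T ⊆ T') :
    WT x ψ v T ≤ WT x ψ v T' := by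
  refine Submodule.span_mono ?_
  rintro z ⟨w, hw, rfl⟩
  exact ⟨w, Subgroup.closure_mono (Set.image_mono (Finset.coe_subset.2 h)) hw, rfl⟩

private theorem WT_map {G L : Type*} [Group G] [DecidableEq L] (x : L → G) {V : Type*}
    [AddCommGroup V] [Module ℂ V] (ψ : G →* Module.End ℂ V) (v : V) (T : Finset L) (c : L) :
    (WT x ψ v T).map (ψ (x c)) ≤ WT x ψ v (insert c T) := by
  rw [Submodule.map_le_iff_le_comap, WT, Submodule.span_le]
  rintro z ⟨w, hw, rfl⟩
  have h1 : x c * w ∈ Subgroup.closure (x '' ((insert c T : Finset L) : Set L)) := by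
    refine mul_mem ?_ ?_
    · exact Subgroup.subset_closure ⟨c, Finset.mem_coe.2 (Finset.mem_insert_self c T), rfl⟩
    · exact Subgroup.closure_mono (Set.image_mono
        (Finset.coe_subset.2 (Finset.subset_insert c T))) hw
  have h2 := WT_mem x ψ v (insert c T) h1
  rw [map_mul, Module.End.mul_apply] at h2
  exact h2

private theorem inv_of {G L : Type*} [Group G] (x : L → G)
    (hx : Subgroup.closure (Set.range x) = ⊤) {V : Type*} [AddCommGroup V] [Module ℂ V]
    [FiniteDimensional ℂ V] (ψ : G →* Module.End ℂ V) (W : Submodule ℂ V)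
    (h : ∀ c, W.map (ψ (x c)) ≤ W) (g : G) : W.map (ψ g) = W := by
  have hinj : ∀ g, Function.Injective (ψ g) := by
    intro g a b hab
    have h1 : ψ g⁻¹ (ψ g a) = ψ g⁻¹ (ψ g b) := by rw [hab]
    rwa [← Module.End.mul_apply, ← Module.End.mul_apply, ← map_mul, inv_mul_cancel, map_one,
      Module.End.one_apply, Module.End.one_apply] at h1
  let H : Subgroup G :=
    { carrier := {g | W.map (ψ g) = W}
      mul_mem' := by
        intro a b ha hb
        change W.map (ψ (a * b)) = W
        rw [map_mul, Module.End.mul_eq_comp, Submodule.map_comp, hb, ha]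
      one_mem' := by
        change W.map (ψ 1) = W
        rw [map_one, Module.End.one_eq_id, Submodule.map_id]
      inv_mem' := by
        intro a ha
        change W.map (ψ a⁻¹) = W
        have ha' : W.map (ψ a) = W := ha
        conv_lhs => rw [← ha']
        rw [← Submodule.map_comp, ← Module.End.mul_eq_comp, ← map_mul, inv_mul_cancel, map_one,
          Module.End.one_eq_id, Submodule.map_id] }
  have hH : (⊤ : Subgroup G) ≤ H := by
    rw [← hx, Subgroup.closure_le]
    rintro _ ⟨c, rfl⟩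
    change W.map (ψ (x c)) = W
    refine Submodule.eq_of_le_of_finrank_eq (h c) ?_
    exact (LinearEquiv.finrank_eq (Submodule.equivMapOfInjective (ψ (x c)) (hinj _) W)).symm
  exact hH (Subgroup.mem_top g)

private theorem greedy {G L : Type*} [Group G] (x : L → G)
    (hx : Subgroup.closure (Set.range x) = ⊤) {V : Type*} [AddCommGroup V] [Module ℂ V]
    [FiniteDimensional ℂ V] (ψ : G →* Module.End ℂ V) (v : V) (hv : v ≠ 0) :
    ∃ T : Finset L, T.card + 1 ≤ Module.finrank ℂ (WT x ψ v T) ∧
      ∀ g, (WT x ψ v T).map (ψ g) = WT x ψ v T := by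
  classical
  have key : ∀ k : ℕ, ∀ T : Finset L, T.card + 1 ≤ Module.finrank ℂ (WT x ψ v T) →
      Module.finrank ℂ V ≤ Module.finrank ℂ (WT x ψ v T) + k →
      ∃ T : Finset L, T.card + 1 ≤ Module.finrank ℂ (WT x ψ v T) ∧
        ∀ c, (WT x ψ v T).map (ψ (x c)) ≤ WT x ψ v T := by
    intro k
    induction k with
    | zero =>
      intro T hT hk
      refine ⟨T, hT, fun c => ?_⟩
      have h1 : WT x ψ v T = ⊤ := by
        refine Submodule.eq_top_of_finrank_eq (le_antisymm (Submodule.finrank_le _) ?_)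
        omega
      rw [h1]
      exact le_top
    | succ k ih =>
      intro T hT hk
      by_cases hinv : ∀ c, (WT x ψ v T).map (ψ (x c)) ≤ WT x ψ v T
      · exact ⟨T, hT, hinv⟩
      · push Not at hinv
        obtain ⟨c, hc⟩ := hinv
        have h1 := WT_mono x ψ v (Finset.subset_insert c T)
        have h2 := WT_map x ψ v T c
        have h3 : WT x ψ v T < WT x ψ v (insert c T) := by
          refine lt_of_le_of_ne h1 fun heq => hc ?_
          rw [← heq] at h2
          exact h2
        have h4 := Submodule.finrank_lt_finrank_of_lt h3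
        have h5 := Finset.card_insert_le c T
        exact ih (insert c T) (by omega) (by omega)
  obtain ⟨T, hT, hinv⟩ := key (Module.finrank ℂ V) ∅ (by
    rw [Finset.card_empty]
    have h1 : WT x ψ v ∅ ≠ ⊥ := by
      intro h
      have h2 := WT_v x ψ v ∅
      rw [h, Submodule.mem_bot] at h2
      exact hv h2
    have h2 := Submodule.one_le_finrank_iff.2 h1
    omega) (by omega)
  exact ⟨T, hT, inv_of x hx ψ _ hinv⟩

private theorem fa_main {G L : Type*} [Group G] (x : L → G)
    (hx : Subgroup.closure (Set.range x) = ⊤)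
    (S : Finset L) (φ : L → G →* G) (hφ : ∀ b ∈ S, ∀ c, c ≠ b → φ b (x c) = x c) (n : ℕ) :
    ∀ (V : Type*) [AddCommGroup V] [Module ℂ V] [FiniteDimensional ℂ V]
    (ψ : G →* Module.End ℂ V) (u : L → Module.End ℂ V) (_ : Module.finrank ℂ V = n)
    (_ : ∀ b ∈ S, IsUnit (u b)) (_ : ∀ b ∈ S, ∀ c ∈ S, Commute (u b) (u c))
    (_ : ∀ b ∈ S, ∀ w, u b * ψ w = ψ (φ b w) * u b),
    ∃ T : Finset L, (T = ∅ ∨ T.card + 1 ≤ Module.finrank ℂ V) ∧
      ∀ b ∈ S, b ∉ T → ∀ y, IsNilpotent ((ψ (φ b (x b)) - ψ (x b)) * ψ y) := by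
  classical
  induction n using Nat.strong_induction_on with
  | _ n ih =>
  intro V _ _ _ ψ u hn hu hcomm hint
  rcases Nat.eq_zero_or_pos n with h0 | h0
  · refine ⟨∅, Or.inl rfl, fun b _ _ y => ⟨1, ?_⟩⟩
    have : Subsingleton V := Module.finrank_zero_iff.1 (by rw [hn, h0])
    exact LinearMap.ext fun z => Subsingleton.elim _ _
  have hnt : Nontrivial V := Module.finrank_pos_iff.1 (by rw [hn]; exact h0)
  obtain ⟨v, hv, hμ⟩ := common_eig S u hcomm
  obtain ⟨T, hT, hinv⟩ := greedy x hx ψ v hv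
  set W := WT x ψ v T with hW
  have hψW : ∀ (g : G) (z : V), z ∈ W → ψ g z ∈ W := by
    intro g z hz
    rw [← hinv g]
    exact Submodule.mem_map_of_mem hz
  have hvW : v ∈ W := WT_v x ψ v T
  have huW : ∀ b ∈ S, ∀ z ∈ W, u b z ∈ W := by
    intro b hb z hz
    have h1 : W ≤ W.comap (u b) := by
      rw [hW, WT, Submodule.span_le]
      rintro z ⟨w, hw, rfl⟩
      obtain ⟨μ, hμb⟩ := hμ b hb
      have h2 : u b (ψ w v) = μ • ψ (φ b w) v := by
        have h3 := LinearMap.congr_fun (hint b hb w) v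
        rw [Module.End.mul_apply, Module.End.mul_apply, hμb, map_smul] at h3
        exact h3
      change u b (ψ w v) ∈ W
      rw [h2]
      exact W.smul_mem _ (hψW _ _ hvW)
    exact h1 hz
  -- off `T` the operators are scalars on `W`
  have hkill : ∀ b ∈ S, b ∉ T → ∀ z ∈ W, ψ (φ b (x b)) z = ψ (x b) z := by
    intro b hb hbT z hz
    obtain ⟨μ, hμb⟩ := hμ b hb
    have hμ0 : μ ≠ 0 := by
      rintro rfl
      rw [zero_smul] at hμb
      obtain ⟨U, hU⟩ := hu b hb
      apply hv
      have h1 : (↑U⁻¹ * u b) v = v := by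
        rw [← hU, Units.inv_mul, Module.End.one_apply]
      rw [← h1, Module.End.mul_apply, hμb, map_zero]
    have hfix : ∀ w ∈ Subgroup.closure (x '' (T : Set L)), φ b w = w := by
      intro w hw
      induction hw using Subgroup.closure_induction with
      | mem y hy =>
        obtain ⟨c, hc, rfl⟩ := hy
        refine hφ b hb c ?_
        rintro rfl
        exact hbT (Finset.mem_coe.1 hc)
      | one => exact map_one _
      | mul a c _ _ ha hc => rw [map_mul, ha, hc]
      | inv a _ ha => rw [map_inv, ha]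
    have hsc : ∀ z ∈ W, u b z = μ • z := by
      intro z hz
      have h1 : W ≤ LinearMap.eqLocus (u b) (μ • LinearMap.id) := by
        rw [hW, WT, Submodule.span_le]
        rintro z ⟨w, hw, rfl⟩
        change u b (ψ w v) = (μ • LinearMap.id : V →ₗ[ℂ] V) (ψ w v)
        have h3 := LinearMap.congr_fun (hint b hb w) v
        rw [Module.End.mul_apply, Module.End.mul_apply, hμb, map_smul, hfix w hw] at h3
        rw [h3]
        rfl
      exact h1 hz
    have h2 := LinearMap.congr_fun (hint b hb (x b)) z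
    rw [Module.End.mul_apply, Module.End.mul_apply, hsc _ (hψW (x b) z hz), hsc z hz,
      map_smul] at h2
    exact (smul_right_injective V hμ0 h2).symm
  -- the quotient
  let ψ' : G →* Module.End ℂ (V ⧸ W) :=
    { toFun := fun g => W.mapQ W (ψ g) (fun z hz => hψW g z hz)
      map_one' := by
        refine Submodule.linearMap_qext _ (LinearMap.ext fun z => ?_)
        change Submodule.Quotient.mk (ψ 1 z) = Submodule.Quotient.mk z
        rw [map_one, Module.End.one_apply]
      map_mul' := by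
        intro a b
        refine Submodule.linearMap_qext _ (LinearMap.ext fun z => ?_)
        change Submodule.Quotient.mk (ψ (a * b) z) = Submodule.Quotient.mk (ψ a (ψ b z))
        rw [map_mul, Module.End.mul_apply] }
  let u' : L → Module.End ℂ (V ⧸ W) := fun b =>
    if h : b ∈ S then W.mapQ W (u b) (fun z hz => huW b h z hz) else 0
  have hu' : ∀ b ∈ S, ∀ z : V, u' b (Submodule.Quotient.mk z) = Submodule.Quotient.mk (u b z) := by
    intro b hb z
    change (if h : b ∈ S then W.mapQ W (u b) (fun z hz => huW b h z hz) else 0) _ = _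
    rw [dif_pos hb]
    rfl
  have hψ' : ∀ g (z : V), ψ' g (Submodule.Quotient.mk z) = Submodule.Quotient.mk (ψ g z) :=
    fun g z => rfl
  have hfr := Submodule.finrank_quotient_add_finrank W
  obtain ⟨T', hT', hnil⟩ := ih (Module.finrank ℂ (V ⧸ W)) (by omega) (V ⧸ W) ψ' u' rfl
    (by
      intro b hb
      rw [LinearMap.isUnit_iff_range_eq_top, LinearMap.range_eq_top]
      intro y
      obtain ⟨z, rfl⟩ := Submodule.Quotient.mk_surjective W y
      obtain ⟨z', rfl⟩ := (LinearMap.range_eq_top.1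
        ((LinearMap.isUnit_iff_range_eq_top _).1 (hu b hb))) z
      exact ⟨Submodule.Quotient.mk z', hu' b hb z'⟩)
    (by
      intro b hb c hc
      refine Submodule.linearMap_qext _ (LinearMap.ext fun z => ?_)
      change u' b (u' c (Submodule.Quotient.mk z)) = u' c (u' b (Submodule.Quotient.mk z))
      rw [hu' c hc, hu' b hb, hu' b hb, hu' c hc]
      congr 1
      exact LinearMap.congr_fun (hcomm b hb c hc) z)
    (by
      intro b hb w
      refine Submodule.linearMap_qext _ (LinearMap.ext fun z => ?_)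
      change u' b (ψ' w (Submodule.Quotient.mk z)) =
        ψ' (φ b w) (u' b (Submodule.Quotient.mk z))
      rw [hψ', hu' b hb, hu' b hb, hψ']
      congr 1
      exact LinearMap.congr_fun (hint b hb w) z)
  refine ⟨T ∪ T', Or.inr ?_, fun b hb hbT y => ?_⟩
  · rcases hT' with h | h
    · rw [h, Finset.union_empty]
      omega
    · have := Finset.card_union_le T T'
      omega
  · rw [Finset.mem_union, not_or] at hbT
    obtain ⟨j, hj⟩ := hnil b hb hbT.2 y
    refine ⟨j + 1, ?_⟩
    have hpow : ∀ (i : ℕ) (z : V), (((ψ' (φ b (x b)) - ψ' (x b)) * ψ' y) ^ i)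
        (Submodule.Quotient.mk z) =
        Submodule.Quotient.mk ((((ψ (φ b (x b)) - ψ (x b)) * ψ y) ^ i) z) := by
      intro i
      induction i with
      | zero => intro z; rfl
      | succ i ihi =>
        intro z
        rw [pow_succ', pow_succ', Module.End.mul_apply, Module.End.mul_apply, ihi]
        rfl
    refine LinearMap.ext fun z => ?_
    rw [pow_succ', Module.End.mul_apply]
    have h1 := hpow j z
    rw [hj, LinearMap.zero_apply, eq_comm, Submodule.Quotient.mk_eq_zero] at h1
    rw [Module.End.mul_apply, LinearMap.sub_apply, hkill b hb hbT.1 _ (hψW y _ h1), sub_self,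
      LinearMap.zero_apply]

theorem fa_aux {G L : Type*} [Group G] (x : L → G) (hx : Subgroup.closure (Set.range x) = ⊤)
    (S : Finset L) (φ : L → G →* G) (hφ : ∀ b ∈ S, ∀ c, c ≠ b → φ b (x c) = x c)
    {V : Type*} [AddCommGroup V] [Module ℂ V] [FiniteDimensional ℂ V]
    (ψ : G →* Module.End ℂ V) (u : L → Module.End ℂ V) (hu : ∀ b ∈ S, IsUnit (u b))
    (hcomm : ∀ b ∈ S, ∀ c ∈ S, Commute (u b) (u c))
    (hint : ∀ b ∈ S, ∀ w, u b * ψ w = ψ (φ b w) * u b) :
    ∃ T : Finset L, (T = ∅ ∨ T.card + 1 ≤ Module.finrank ℂ V) ∧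
      ∀ b ∈ S, b ∉ T → ∀ y, IsNilpotent ((ψ (φ b (x b)) - ψ (x b)) * ψ y) :=
  fa_main x hx S φ hφ _ V ψ u rfl hu hcomm hint

theorem fa {G L : Type*} [Group G] (x : L → G) (hx : Subgroup.closure (Set.range x) = ⊤)
    (S : Finset L) (hS : S.Nonempty) (φ : L → G →* G)
    (hφ : ∀ b ∈ S, ∀ c, c ≠ b → φ b (x c) = x c)
    {V : Type*} [AddCommGroup V] [Module ℂ V] [FiniteDimensional ℂ V]
    (hcard : Module.finrank ℂ V ≤ S.card)
    (ψ : G →* Module.End ℂ V) (u : L → Module.End ℂ V) (hu : ∀ b ∈ S, IsUnit (u b))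
    (hcomm : ∀ b ∈ S, ∀ c ∈ S, Commute (u b) (u c))
    (hint : ∀ b ∈ S, ∀ w, u b * ψ w = ψ (φ b w) * u b) :
    ∃ b ∈ S, φ b (x b) * (x b)⁻¹ ∈ TR ψ := by
  obtain ⟨T, hT, hnil⟩ := fa_aux x hx S φ hφ ψ u hu hcomm hint
  have hb : ∃ b ∈ S, b ∉ T := by
    rcases hT with h | h
    · obtain ⟨b, hb⟩ := hS
      exact ⟨b, hb, by rw [h]; exact Finset.notMem_empty b⟩
    · exact Finset.exists_mem_notMem_of_card_lt_card (by omega)
  obtain ⟨b, hbS, hbT⟩ := hb
  refine ⟨b, hbS, fun y => ?_⟩
  have h1 := LinearMap.isNilpotent_trace_of_isNilpotent (hnil b hbS hbT ((x b)⁻¹ * y))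
  have h2 := h1.eq_zero
  rw [sub_mul, map_sub, ← map_mul, ← map_mul, mul_inv_cancel_left, sub_eq_zero] at h2
  rw [mul_assoc]
  exact h2

end TOR
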