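import Mathlib
import Pool.Agent.Helper34.TOR.Defs
import Pool.Agent.Helper34.TOR.Api

/-!
# TOR-12: a basis outside a subgroup

PROOF. Let `C = {c : c ≠ i, c ≠ k, of c ∈ Z}` (`b0 ∉ C`). Let `σ` be the automorphism `x_c ↦ x_c x_{b0}` for `c ∈ C`, `x_c ↦ x_c`
otherwise (`FreeGroup.lift`, inverse `x_c ↦ x_c x_{b0}⁻¹`, `MonoidHom.toMulEquiv`; `x_{b0}` is fixed). `σ ∈ Sti i` by
`mem_Sti_of`. For `c ∈ C`: `of c ∈ Z`, `of b0 ∉ Z`, so `of c * of b0 ∉ Z`; for `c ∉ C`, `c ≠ i, k`: `of c ∉ Z`.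
-/

namespace TOR

open Helper38.AutF

theorem spread {n : ℕ} (i k b0 : Fin n) (hki : k ≠ i) (hb0i : b0 ≠ i) (hb0k : b0 ≠ k)
    (Z : Subgroup (FreeGroup (Fin n))) (hZ : FreeGroup.of b0 ∉ Z) :
    ∃ σ ∈ Sti i, σ (FreeGroup.of k) = FreeGroup.of k ∧
      ∀ c, c ≠ i → c ≠ k → σ (FreeGroup.of c) ∉ Z := by
  classical
  let C : Fin n → Prop := fun c => c ≠ i ∧ c ≠ k ∧ FreeGroup.of c ∈ Z
  let f : FreeGroup (Fin n) →* FreeGroup (Fin n) :=
    FreeGroup.lift fun c => if C c then FreeGroup.of c * FreeGroup.of b0 else FreeGroup.of c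
  let g : FreeGroup (Fin n) →* FreeGroup (Fin n) :=
    FreeGroup.lift fun c => if C c then FreeGroup.of c * (FreeGroup.of b0)⁻¹ else FreeGroup.of c
  have hCb : ¬ C b0 := fun h => hZ h.2.2
  have hCi : ¬ C i := fun h => h.1 rfl
  have hCk : ¬ C k := fun h => h.2.1 rfl
  have hf : ∀ c, f (FreeGroup.of c) =
      if C c then FreeGroup.of c * FreeGroup.of b0 else FreeGroup.of c := fun c =>
    FreeGroup.lift_apply_of
  have hg : ∀ c, g (FreeGroup.of c) =
      if C c then FreeGroup.of c * (FreeGroup.of b0)⁻¹ else FreeGroup.of c := fun c =>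
    FreeGroup.lift_apply_of
  have hfb : f (FreeGroup.of b0) = FreeGroup.of b0 := by rw [hf, if_neg hCb]
  have hgb : g (FreeGroup.of b0) = FreeGroup.of b0 := by rw [hg, if_neg hCb]
  have h1 : g.comp f = MonoidHom.id _ := by
    refine FreeGroup.ext_hom _ _ fun c => ?_
    rw [MonoidHom.comp_apply, MonoidHom.id_apply, hf]
    by_cases h : C c
    · rw [if_pos h, map_mul, hgb, hg, if_pos h, inv_mul_cancel_right]
    · rw [if_neg h, hg, if_neg h]
  have h2 : f.comp g = MonoidHom.id _ := by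
    refine FreeGroup.ext_hom _ _ fun c => ?_
    rw [MonoidHom.comp_apply, MonoidHom.id_apply, hg]
    by_cases h : C c
    · rw [if_pos h, map_mul, map_inv, hfb, hf, if_pos h, mul_inv_cancel_right]
    · rw [if_neg h, hf, if_neg h]
  let σ : AF n := MonoidHom.toMulEquiv f g h1 h2
  have hσ : ∀ w, σ w = f w := fun w => rfl
  have hσ' : ∀ w, σ⁻¹ w = g w := fun w => rfl
  refine ⟨σ, mem_Sti_of ?_ ?_ ?_, ?_, ?_⟩
  · rw [hσ, hf, if_neg hCi]
  · intro c hc
    rw [hσ, hf]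
    split
    · exact mul_mem (of_mem_Sx hc) (of_mem_Sx hb0i)
    · exact of_mem_Sx hc
  · intro c hc
    rw [hσ', hg]
    split
    · exact mul_mem (of_mem_Sx hc) (inv_mem (of_mem_Sx hb0i))
    · exact of_mem_Sx hc
  · rw [hσ, hf, if_neg hCk]
  · intro c hci hck
    rw [hσ, hf]
    by_cases h : C c
    · rw [if_pos h]
      intro hm
      exact hZ ((Subgroup.mul_mem_cancel_left Z h.2.2).1 hm)
    · rw [if_neg h]
      exact fun hm => h ⟨hci, hck, hm⟩

end TOR
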