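import Mathlib
import Pool.Agent.Helper34.TOR.Defs
import Pool.Agent.Helper34.TOR.Api
import Pool.Agent.Helper34.TOR.LemG
import Pool.Agent.Helper34.TOR.FA
import Pool.Agent.Helper34.TOR.Spread
import Pool.Agent.Helper34.TOR.C1Defs

/-!
# TOR-31: `TR (psi …)` contains the commutator subgroup and `N`-th powers

`ψ = psi H hI f i : Sx i →* End V`, `y c = act σ hσ (lx i c)` (`= σ (x_c)` for `c ≠ i`, `y i = 1`), `k ≠ i`.

PROOFS. Letters `L = Fin n`, `S = (univ.erase i).erase k` (`n - 2` elements, nonempty), `x = y`; `closure (range y) = ⊤` (`closure_lx`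
and surjectivity of `act σ hσ`, inverse `act σ⁻¹ _`).
`pow_mem_TR`: apply `fa` with `φ b = act (σ * R b k ^ N * σ⁻¹) _` for `b ∈ S` (`R b k ∈ Sti i` by `R_mem_Sti`; for `b ∉ S` put
`φ b = MonoidHom.id`, using `dite`), `u b = f ⟨(σ * R b k * σ⁻¹)^N, hN _⟩` (note `(σ g σ⁻¹)^N = σ g^N σ⁻¹`), units because `f` is a
homomorphism from a group. `hφ`: `(σ g σ⁻¹)(σ x_c) = σ (g x_c) = σ x_c` for `c ≠ b`, `g = (R b k)^N` (`R_ne`); `y i = 1`. `hcomm`: `R b k`, `R c k`
commute (`b ≠ c`, both `≠ k`; check on letters with `aut_ext`). `hint`: `Sti_dl`. Result: for some `b ∈ S`,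
`φ b (y b) * (y b)⁻¹ = y b * (y k)^N * (y b)⁻¹ ∈ TR ψ`, hence `(y k)^N ∈ TR ψ` (normal).
`comm_mem_TR`: (A) CLAIM: `⁅lx i b, lx i k⁆ ∈ TR ψ` for all `b, k`. Trivial if `b = i`, `k = i` or `b = k`. Let `k ≠ i` and suppose it fails for
some `b0 ≠ i, k`. `Z₀ = {w : Sx i | ⁅w, lx i k⁆ ∈ TR ψ}` is a subgroup of `Sx i` (it is the preimage of the centralizer of the
class of `lx i k` in `Sx i ⧸ TR ψ`); `Z = Z₀.map (Sx i).subtype`; `of b0 ∉ Z`. `spread` gives `σ ∈ Sti i` with `σ x_k = x_k`, `σ x_c ∉ Z` for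
`c ≠ i, k`. Apply `fa` with `x = y` (for this `σ`), `φ b = act (σ * Kc b k * σ⁻¹) _` (`Kc_mem_Sti`), `u b = f ⟨σ * Kc b k * σ⁻¹, _⟩`
(in `IA n ≤ H`: `IA_normal`, `Kc b k = dl b (lx b k) ∈ IA n`). `Kc b k`, `Kc c k` commute for `b ≠ c`. Result: for some `b ∈ S`
`φ b (y b) * (y b)⁻¹ = (y k)⁻¹ * y b * y k * (y b)⁻¹ ∈ TR ψ` with `y k = lx i k`, so `y b` commutes with `lx i k` modulo `TR ψ`, i.e.
`σ x_b ∈ Z`, contradiction. (B) So `Sx i ⧸ TR ψ` is generated by commuting elements (`closure_lx`), hence commutative.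
`pow_mem_TR'`: modulo `TR ψ` the group is commutative and generated by the `lx i k` of order dividing `N` (`pow_mem_TR` with
`σ = 1`), so `w^N ∈ TR ψ` for all `w`. `index_TR`: a finitely generated commutative group of exponent `N > 0` is finite.
-/

namespace TOR

open Helper38.AutF
open scoped commutatorElement

variable {n : ℕ} {V : Type*} [AddCommGroup V] [Module ℂ V] [FiniteDimensional ℂ V]

theorem closure_act {i : Fin n} (σ : AF n) (hσ : σ ∈ Sti i) :
    Subgroup.closure (Set.range (fun c => act σ hσ (lx i c))) = ⊤ := by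
  have h1 : Set.range (fun c => act σ hσ (lx i c)) = (act σ hσ) '' Set.range (lx i) := by
    rw [← Set.range_comp]
    rfl
  rw [h1, ← MonoidHom.map_closure, closure_lx, eq_top_iff]
  intro w _
  refine ⟨act σ⁻¹ (inv_mem hσ) w, Subgroup.mem_top _, ?_⟩
  apply Subtype.ext
  rw [act_coe, act_coe, MulAut.apply_inv_self]

/-- `fa` for automorphisms `σ g_b σ⁻¹`. -/
private theorem fa_conj (hn : 3 ≤ n) (H : Subgroup (AF n)) (hI : IA n ≤ H)
    (f : H →* Module.End ℂ V) (hdim : Module.finrank ℂ V + 2 ≤ n) (i k : Fin n) (hk : k ≠ i)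
    (σ : AF n) (hσ : σ ∈ Sti i) (g : Fin n → AF n) (hg : ∀ b, b ≠ i → b ≠ k → g b ∈ Sti i)
    (hgH : ∀ b, b ≠ i → b ≠ k → σ * g b * σ⁻¹ ∈ H)
    (hgc : ∀ b c, b ≠ i → b ≠ k → c ≠ b → g b (FreeGroup.of c) = FreeGroup.of c)
    (hcomm : ∀ b c, b ≠ i → b ≠ k → c ≠ i → c ≠ k → g b * g c = g c * g b) :
    ∃ b, b ≠ i ∧ b ≠ k ∧ ∃ z ∈ TR (psi H hI f i), ((z : Sx i) : FreeGroup (Fin n)) =
      σ (g b (FreeGroup.of b)) * (σ (FreeGroup.of b))⁻¹ := by
  classical
  set S : Finset (Fin n) := (Finset.univ.erase i).erase k with hS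
  have hScard : S.card = n - 2 := by
    rw [hS, Finset.card_erase_of_mem, Finset.card_erase_of_mem, Finset.card_univ, Fintype.card_fin]
    · omega
    · exact Finset.mem_univ i
    · exact Finset.mem_erase.2 ⟨hk, Finset.mem_univ k⟩
  have hSne : S.Nonempty := by
    rw [← Finset.card_pos, hScard]
    omega
  have hmem : ∀ b ∈ S, b ≠ i ∧ b ≠ k := by
    intro b hb
    rw [hS, Finset.mem_erase, Finset.mem_erase] at hb
    exact ⟨hb.2.1, hb.1⟩
  have hst : ∀ b, b ≠ i → b ≠ k → σ * g b * σ⁻¹ ∈ Sti i := fun b h1 h2 =>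
    mul_mem (mul_mem hσ (hg b h1 h2)) (inv_mem hσ)
  set φ : Fin n → Sx i →* Sx i := fun b => if h : b ≠ i ∧ b ≠ k then
    act (σ * g b * σ⁻¹) (hst b h.1 h.2) else MonoidHom.id _ with hφ
  set u : Fin n → Module.End ℂ V := fun b => if h : b ≠ i ∧ b ≠ k then
    f ⟨σ * g b * σ⁻¹, hgH b h.1 h.2⟩ else 1 with hu
  have hφb : ∀ b (h : b ≠ i ∧ b ≠ k), φ b = act (σ * g b * σ⁻¹) (hst b h.1 h.2) := fun b h => by
    rw [hφ]
    exact dif_pos h
  have hub : ∀ b (h : b ≠ i ∧ b ≠ k), u b = f ⟨σ * g b * σ⁻¹, hgH b h.1 h.2⟩ := fun b h => by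
    rw [hu]
    exact dif_pos h
  obtain ⟨b, hbS, hb⟩ := fa (fun c => act σ hσ (lx i c)) (closure_act σ hσ) S hSne φ (by
      intro b hb c hc
      have h := hmem b hb
      rw [hφb b h]
      apply Subtype.ext
      rw [act_coe, act_coe, MulAut.mul_apply, MulAut.mul_apply, MulAut.inv_apply_self]
      by_cases hci : c = i
      · subst hci
        rw [lx_self, Subgroup.coe_one, map_one]
      · rw [lx_ne hci, hgc b c h.1 h.2 hc]) (by omega : Module.finrank ℂ V ≤ S.card)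
    (psi H hI f i) u (by
      intro b hb
      rw [hub b (hmem b hb)]
      exact (Group.isUnit _).map f) (by
      intro b hb c hc
      have h1 := hmem b hb
      have h2 := hmem c hc
      rw [hub b h1, hub c h2]
      refine Commute.map ?_ f
      apply Subtype.ext
      show σ * g b * σ⁻¹ * (σ * g c * σ⁻¹) = σ * g c * σ⁻¹ * (σ * g b * σ⁻¹)
      have h3 : σ * g b * σ⁻¹ * (σ * g c * σ⁻¹) = σ * (g b * g c) * σ⁻¹ := by group
      have h4 : σ * g c * σ⁻¹ * (σ * g b * σ⁻¹) = σ * (g c * g b) * σ⁻¹ := by group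
      rw [h3, h4, hcomm b c h1.1 h1.2 h2.1 h2.2]) (by
      intro b hb w
      have h := hmem b hb
      rw [hub b h, hφb b h, psi_apply, psi_apply, ← map_mul, ← map_mul]
      congr 1
      apply Subtype.ext
      show σ * g b * σ⁻¹ * dl i w = dl i (act (σ * g b * σ⁻¹) (hst b h.1 h.2) w) * (σ * g b * σ⁻¹)
      rw [← Sti_dl, inv_mul_cancel_right])
  have h := hmem b hbS
  refine ⟨b, h.1, h.2, _, hb, ?_⟩
  rw [hφb b h, Subgroup.coe_mul, Subgroup.coe_inv, act_coe, act_coe, lx_ne h.1, MulAut.mul_apply,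
    MulAut.mul_apply, MulAut.inv_apply_self]

omit [FiniteDimensional ℂ V] in
private theorem R_comm {k b c : Fin n} (hb : b ≠ k) (hc : c ≠ k) : R b k * R c k = R c k * R b k := by
  by_cases hbc : b = c
  · rw [hbc]
  refine aut_ext fun j => ?_
  rw [MulAut.mul_apply, MulAut.mul_apply]
  by_cases hjb : j = b
  · subst hjb
    rw [R_ne hbc, R_self hb.symm, map_mul, R_ne hbc, R_ne hc.symm]
  · by_cases hjc : j = c
    · subst hjc
      rw [R_self hc.symm, map_mul, R_ne hjb, R_ne hb.symm, R_self hc.symm]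
    · rw [R_ne hjc, R_ne hjb, R_ne hjc]

private theorem Kc_comm {k b c : Fin n} (hb : b ≠ k) (hc : c ≠ k) :
    Kc b k * Kc c k = Kc c k * Kc b k := by
  by_cases hbc : b = c
  · rw [hbc]
  refine aut_ext fun j => ?_
  rw [MulAut.mul_apply, MulAut.mul_apply]
  by_cases hjb : j = b
  · subst hjb
    rw [Kc_ne hbc, Kc_self hb.symm, map_mul, map_mul, map_inv, Kc_ne hbc, Kc_ne hc.symm]
  · by_cases hjc : j = c
    · subst hjc
      rw [Kc_self hc.symm, map_mul, map_mul, map_inv, Kc_ne hjb, Kc_ne hb.symm, Kc_self hc.symm]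
    · rw [Kc_ne hjc, Kc_ne hjb, Kc_ne hjc]

private theorem R_pow_ne {b k c : Fin n} (h : c ≠ b) (N : ℕ) :
    (R b k ^ N : AF n) (FreeGroup.of c) = FreeGroup.of c := by
  induction N with
  | zero => rfl
  | succ N ih => rw [pow_succ, MulAut.mul_apply, R_ne h, ih]

private theorem R_pow_self {b k : Fin n} (h : k ≠ b) (N : ℕ) :
    (R b k ^ N : AF n) (FreeGroup.of b) = FreeGroup.of b * FreeGroup.of k ^ N := by
  induction N with
  | zero => rw [pow_zero, pow_zero, mul_one]; rfl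
  | succ N ih =>
    rw [pow_succ, MulAut.mul_apply, R_self h, map_mul, ih, R_pow_ne h, pow_succ, mul_assoc]

theorem pow_mem_TR (hn : 3 ≤ n) (H : Subgroup (AF n)) (hI : IA n ≤ H) (f : H →* Module.End ℂ V)
    (hdim : Module.finrank ℂ V + 2 ≤ n) (N : ℕ) (hN : ∀ g : AF n, g ^ N ∈ H) (i : Fin n)
    (σ : AF n) (hσ : σ ∈ Sti i) (k : Fin n) (hk : k ≠ i) :
    act σ hσ (lx i k) ^ N ∈ TR (psi H hI f i) := by
  obtain ⟨b, hbi, hbk, z, hz, hzb⟩ := fa_conj hn H hI f hdim i k hk σ hσ (fun b => R b k ^ N)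
    (fun b h1 _ => pow_mem (R_mem_Sti h1 hk) N) (fun b _ _ => by
      rw [← conj_pow]
      exact hN _) (fun b c _ _ hc => R_pow_ne hc N)
    (fun b c _ h1 _ h2 => ((show Commute (R b k) (R c k) from R_comm h1 h2).pow_pow N N).eq)
  have h1 : act σ hσ (lx i k) ^ N = (act σ hσ (lx i b))⁻¹ * z * act σ hσ (lx i b) := by
    apply Subtype.ext
    rw [Subgroup.coe_pow, Subgroup.coe_mul, Subgroup.coe_mul, Subgroup.coe_inv, act_coe, act_coe,
      hzb, lx_ne hk, lx_ne hbi]
    rw [R_pow_self hbk.symm, map_mul, map_pow]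
    group
  rw [h1]
  have h2 := (TR_normal (psi H hI f i)).conj_mem z hz (act σ hσ (lx i b))⁻¹
  rwa [inv_inv] at h2

private theorem gens_comm {G Q L : Type*} [Group G] [Group Q] (x : L → G)
    (hx : Subgroup.closure (Set.range x) = ⊤) (π : G →* Q)
    (h : ∀ a b, π (x a) * π (x b) = π (x b) * π (x a)) (v w : G) :
    π v * π w = π w * π v := by
  have hcl : ∀ (P : Subgroup Q), (∀ j, π (x j) ∈ P) → ∀ a, π a ∈ P := by
    intro P hP a
    have h : Subgroup.closure (Set.range x) ≤ P.comap π := by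
      rw [Subgroup.closure_le]
      rintro _ ⟨j, rfl⟩
      exact hP j
    rw [hx] at h
    exact h (Subgroup.mem_top a)
  have h1 : ∀ j b, π (x j) * π b = π b * π (x j) := by
    intro j b
    have h := hcl (Subgroup.centralizer {π (x j)}) (fun k => by
      rw [Subgroup.mem_centralizer_singleton_iff]
      exact h k j) b
    rw [Subgroup.mem_centralizer_singleton_iff] at h
    exact h.symm
  have h2 := hcl (Subgroup.centralizer {π w}) (fun k => by
    rw [Subgroup.mem_centralizer_singleton_iff]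
    exact h1 k w) v
  rw [Subgroup.mem_centralizer_singleton_iff] at h2
  exact h2

private theorem comm_letters (hn : 3 ≤ n) (H : Subgroup (AF n)) (hI : IA n ≤ H)
    (f : H →* Module.End ℂ V) (hdim : Module.finrank ℂ V + 2 ≤ n) (i b0 k : Fin n) :
    QuotientGroup.mk' (TR (psi H hI f i)) (lx i b0) * QuotientGroup.mk' (TR (psi H hI f i)) (lx i k) =
    QuotientGroup.mk' (TR (psi H hI f i)) (lx i k) *
      QuotientGroup.mk' (TR (psi H hI f i)) (lx i b0) := by
  set π := QuotientGroup.mk' (TR (psi H hI f i)) with hπ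
  by_contra hcon
  have hki : k ≠ i := by
    rintro rfl
    apply hcon
    rw [lx_self, map_one, mul_one, one_mul]
  have hbi : b0 ≠ i := by
    rintro rfl
    apply hcon
    rw [lx_self, map_one, mul_one, one_mul]
  have hbk : b0 ≠ k := by
    rintro rfl
    exact hcon rfl
  set Z₀ : Subgroup (Sx i) := (Subgroup.centralizer {π (lx i k)}).comap π with hZ₀
  have hmem : ∀ w, w ∈ Z₀ ↔ π w * π (lx i k) = π (lx i k) * π w := by
    intro w
    rw [hZ₀, Subgroup.mem_comap, Subgroup.mem_centralizer_singleton_iff]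
  have hZ : FreeGroup.of b0 ∉ Z₀.map (Sx i).subtype := by
    rintro ⟨w, hw, hwb⟩
    have h1 : w = lx i b0 := by
      apply Subtype.ext
      rw [lx_ne hbi]
      exact hwb
    rw [h1] at hw
    exact hcon ((hmem _).1 hw)
  obtain ⟨σ, hσ, hσk, hσc⟩ := spread i k b0 hki hbi hbk _ hZ
  obtain ⟨b, hb1, hb2, z, hz, hzb⟩ := fa_conj hn H hI f hdim i k hki σ hσ (fun b => Kc b k)
    (fun b h1 _ => Kc_mem_Sti h1 hki) (fun b _ _ => by
      refine hI ((IA_normal n).conj_mem _ ?_ σ)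
      rw [Kc_eq_dl]
      exact dl_mem_IA b _) (fun b c _ _ hc => Kc_ne hc) (fun b c _ h1 _ h2 => Kc_comm h1 h2)
  apply hσc b hb1 hb2
  refine ⟨act σ hσ (lx i b), ?_, ?_⟩
  · rw [SetLike.mem_coe, hmem]
    have h1 : z = (lx i k)⁻¹ * act σ hσ (lx i b) * lx i k * (act σ hσ (lx i b))⁻¹ := by
      apply Subtype.ext
      rw [hzb, Subgroup.coe_mul, Subgroup.coe_mul, Subgroup.coe_mul, Subgroup.coe_inv,
        Subgroup.coe_inv, act_coe, lx_ne hb1, lx_ne hki]
      rw [Kc_self hb2.symm, map_mul, map_mul, map_inv, hσk]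
    have h2 : π z = 1 := (QuotientGroup.eq_one_iff z).2 hz
    rw [h1, map_mul, map_mul, map_mul, map_inv, map_inv] at h2
    have h3 := mul_inv_eq_one.1 h2
    rw [mul_assoc, inv_mul_eq_iff_eq_mul] at h3
    exact h3
  · rw [Subgroup.subtype_apply, act_coe, lx_ne hb1]

private theorem comm_all (hn : 3 ≤ n) (H : Subgroup (AF n)) (hI : IA n ≤ H)
    (f : H →* Module.End ℂ V) (hdim : Module.finrank ℂ V + 2 ≤ n) (i : Fin n) (v w : Sx i) :
    QuotientGroup.mk' (TR (psi H hI f i)) v * QuotientGroup.mk' (TR (psi H hI f i)) w =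
    QuotientGroup.mk' (TR (psi H hI f i)) w * QuotientGroup.mk' (TR (psi H hI f i)) v :=
  gens_comm (lx i) (closure_lx i) _ (fun a b => comm_letters hn H hI f hdim i a b) v w

theorem comm_mem_TR (hn : 3 ≤ n) (H : Subgroup (AF n)) (hI : IA n ≤ H)
    (f : H →* Module.End ℂ V) (hdim : Module.finrank ℂ V + 2 ≤ n) (i : Fin n) (v w : Sx i) :
    v * w * v⁻¹ * w⁻¹ ∈ TR (psi H hI f i) := by
  rw [← QuotientGroup.eq_one_iff]
  have h := comm_all hn H hI f hdim i v w
  have h2 : QuotientGroup.mk' (TR (psi H hI f i)) (v * w * v⁻¹ * w⁻¹) = 1 := by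
    rw [map_mul, map_mul, map_mul, map_inv, map_inv, h]
    group
  exact h2

theorem pow_mem_TR' (hn : 3 ≤ n) (H : Subgroup (AF n)) (hI : IA n ≤ H)
    (f : H →* Module.End ℂ V) (hdim : Module.finrank ℂ V + 2 ≤ n) (N : ℕ)
    (hN : ∀ g : AF n, g ^ N ∈ H) (i : Fin n) (w : Sx i) : w ^ N ∈ TR (psi H hI f i) := by
  have hm : ∀ g, g ∈ TR (psi H hI f i) ↔ QuotientGroup.mk' (TR (psi H hI f i)) g = 1 := fun g =>
    (QuotientGroup.eq_one_iff g).symm
  let P : Subgroup (Sx i) :=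
    { carrier := {w | w ^ N ∈ TR (psi H hI f i)}
      mul_mem' := by
        intro a b ha hb
        have ha' : a ^ N ∈ TR (psi H hI f i) := ha
        have hb' : b ^ N ∈ TR (psi H hI f i) := hb
        show (a * b) ^ N ∈ TR (psi H hI f i)
        rw [hm, map_pow, map_mul, (show Commute (QuotientGroup.mk' (TR (psi H hI f i)) a)
          (QuotientGroup.mk' (TR (psi H hI f i)) b) from comm_all hn H hI f hdim i a b).mul_pow,
          ← map_pow, ← map_pow, (hm _).1 ha', (hm _).1 hb', one_mul]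
      one_mem' := by
        show (1 : Sx i) ^ N ∈ TR (psi H hI f i)
        rw [one_pow]
        exact one_mem _
      inv_mem' := by
        intro a ha
        have ha' : a ^ N ∈ TR (psi H hI f i) := ha
        show a⁻¹ ^ N ∈ TR (psi H hI f i)
        rw [inv_pow]
        exact inv_mem ha' }
  have hP : (⊤ : Subgroup (Sx i)) ≤ P := by
    rw [← closure_lx i, Subgroup.closure_le]
    rintro _ ⟨k, rfl⟩
    show lx i k ^ N ∈ TR (psi H hI f i)
    by_cases hk : k = i
    · subst hk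
      rw [lx_self, one_pow]
      exact one_mem _
    · have h1 := pow_mem_TR hn H hI f hdim N hN i 1 (one_mem _) k hk
      have h2 : act 1 (one_mem (Sti i)) (lx i k) = lx i k := Subtype.ext rfl
      rwa [h2] at h1
  exact hP (Subgroup.mem_top w)

theorem index_TR (hn : 3 ≤ n) (H : Subgroup (AF n)) (hI : IA n ≤ H)
    (f : H →* Module.End ℂ V) (hdim : Module.finrank ℂ V + 2 ≤ n) (N : ℕ) (hN0 : 0 < N)
    (hN : ∀ g : AF n, g ^ N ∈ H) (i : Fin n) : (TR (psi H hI f i)).index ≠ 0 := by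
  have hfg : Group.FG (Sx i) := by
    rw [Group.fg_iff]
    exact ⟨Set.range (lx i), closure_lx i, Set.finite_range _⟩
  let inst : CommGroup (Sx i ⧸ TR (psi H hI f i)) :=
    { (inferInstance : Group (Sx i ⧸ TR (psi H hI f i))) with
      mul_comm := by
        intro a b
        obtain ⟨v, rfl⟩ := QuotientGroup.mk'_surjective _ a
        obtain ⟨w, rfl⟩ := QuotientGroup.mk'_surjective _ b
        exact comm_all hn H hI f hdim i v w }
  have hfg2 : Group.FG (Sx i ⧸ TR (psi H hI f i)) := QuotientGroup.fg _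
  have hfin : Finite (Sx i ⧸ TR (psi H hI f i)) := by
    refine CommGroup.finite_of_fg_isMulTorsion _ ?_
    intro a
    obtain ⟨v, rfl⟩ := QuotientGroup.mk'_surjective _ a
    rw [isOfFinOrder_iff_pow_eq_one]
    refine ⟨N, hN0, ?_⟩
    have h1 := pow_mem_TR' hn H hI f hdim N hN i v
    have h2 : QuotientGroup.mk' (TR (psi H hI f i)) (v ^ N) = 1 := (QuotientGroup.eq_one_iff _).2 h1
    rwa [map_pow] at h2
  exact Subgroup.index_ne_zero_of_finite

end TOR
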