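import Mathlib
import Pool.Agent.Helper34.TOR.Eig

/-!
# TOR-05: the Heisenberg lemma (dimension bound)

PROOF. Let `t = ζ - 1` (in `End V`), nilpotent, commuting with all `a b`, `c b`. Suppose `t ≠ 0`, let `k ≥ 1` with `t^k ≠ 0`,
`t^(k+1) = 0`. `V₁ = range (t^(k-1))` is invariant under all `a b`, `c b`, `ζ`; on `V₁`: `t² = 0` and `t ≠ 0`
(`t t^(k-1) = t^k ≠ 0`). So `t² = 0 ≠ t`: the auxiliary lemma `hs_aux`, applied to `V₁`.
On `I = range t ≠ ⊥` (`I ≤ ker t`) `ζ = 1`, so all `a b`, `c b` commute there and preserve `I`;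
`common_eig` (with `ι = B ⊕ B`) gives `v` with `t v ≠ 0`, `a b (t v) = μ b • t v`, `c b (t v) = ν b • t v`, and
`μ b, ν b ≠ 0` (injectivity). Put `A b = a b - μ b`, `C b = c b - ν b`. Then `t (A b v) = A b (t v) = 0`, same for `C b`:
`A b v, C b v, t v ∈ ker t`. With `P x = Σ α b • A b + Σ γ b • C b`, `x = (α, γ)`:
`(P x P y - P y P x) v = ω (x, y) • t v`, `ω` symplectic.
-/

namespace TOR

open Module

/-- isotropic subspaces of `ℂ^B × ℂ^B` -/
private theorem iso_bound {B : Type*} [Fintype B] (w : B → ℂ) (hw : ∀ b, w b ≠ 0)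
    (S : Submodule ℂ ((B → ℂ) × (B → ℂ)))
    (hS : ∀ x ∈ S, ∀ y ∈ S, ∑ b, w b * (x.1 b * y.2 b - x.2 b * y.1 b) = 0) :
    finrank ℂ S ≤ Fintype.card B := by
  classical
  let ω : ((B → ℂ) × (B → ℂ)) →ₗ[ℂ] Module.Dual ℂ ((B → ℂ) × (B → ℂ)) :=
    LinearMap.mk₂ ℂ (fun x y => ∑ b, w b * (x.1 b * y.2 b - x.2 b * y.1 b))
      (by
        intro x x' y
        rw [← Finset.sum_add_distrib]
        refine Finset.sum_congr rfl fun b _ => ?_
        simp only [Prod.fst_add, Prod.snd_add, Pi.add_apply]
        ring)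
      (by
        intro r x y
        rw [smul_eq_mul, Finset.mul_sum]
        refine Finset.sum_congr rfl fun b _ => ?_
        simp only [Prod.smul_fst, Prod.smul_snd, Pi.smul_apply, smul_eq_mul]
        ring)
      (by
        intro x y y'
        rw [← Finset.sum_add_distrib]
        refine Finset.sum_congr rfl fun b _ => ?_
        simp only [Prod.fst_add, Prod.snd_add, Pi.add_apply]
        ring)
      (by
        intro r x y
        rw [smul_eq_mul, Finset.mul_sum]
        refine Finset.sum_congr rfl fun b _ => ?_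
        simp only [Prod.smul_fst, Prod.smul_snd, Pi.smul_apply, smul_eq_mul]
        ring)
  have hω : ∀ x y, ω x y = ∑ b, w b * (x.1 b * y.2 b - x.2 b * y.1 b) := fun x y => rfl
  have hinj : Function.Injective ω := by
    rw [← LinearMap.ker_eq_bot, LinearMap.ker_eq_bot']
    intro x hx
    have h1 : ∀ b, x.1 b = 0 := by
      intro b
      have h := LinearMap.congr_fun hx ((0 : B → ℂ), Pi.single b (1 : ℂ))
      rw [hω, LinearMap.zero_apply, Finset.sum_eq_single b] at h
      · simpa [hw b] using h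
      · intro b' _ hb'
        simp [Pi.single_eq_of_ne hb']
      · intro h
        exact absurd (Finset.mem_univ b) h
    have h2 : ∀ b, x.2 b = 0 := by
      intro b
      have h := LinearMap.congr_fun hx (Pi.single b (1 : ℂ), (0 : B → ℂ))
      rw [hω, LinearMap.zero_apply, Finset.sum_eq_single b] at h
      · simpa [hw b] using h
      · intro b' _ hb'
        simp [Pi.single_eq_of_ne hb']
      · intro h
        exact absurd (Finset.mem_univ b) h
    exact Prod.ext (funext h1) (funext h2)
  have hle : S.map ω ≤ S.dualAnnihilator := by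
    rintro _ ⟨x, hx, rfl⟩
    rw [Submodule.mem_dualAnnihilator]
    intro y hy
    exact hS x hx y hy
  have h3 : finrank ℂ (S.map ω) = finrank ℂ S :=
    (Submodule.equivMapOfInjective ω hinj S).finrank_eq.symm
  have h4 := Submodule.finrank_mono hle
  have h5 := Subspace.finrank_add_finrank_dualAnnihilator_eq S
  have h6 : finrank ℂ ((B → ℂ) × (B → ℂ)) = 2 * Fintype.card B := by
    rw [finrank_prod, finrank_fintype_fun_eq_card]
    ring
  omega

private theorem hs_aux {V : Type*} [AddCommGroup V] [Module ℂ V] [FiniteDimensional ℂ V]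
    {B : Type*} [Fintype B] (a c : B → End ℂ V) (t : End ℂ V)
    (ha : ∀ b, Function.Injective (a b)) (hc : ∀ b, Function.Injective (c b))
    (h1 : ∀ b d, a b * a d = a d * a b) (h2 : ∀ b d, c b * c d = c d * c b)
    (h3 : ∀ b d, b ≠ d → a b * c d = c d * a b) (h4 : ∀ b, a b * c b = (1 + t) * (c b * a b))
    (h5 : ∀ b, t * a b = a b * t) (h6 : ∀ b, t * c b = c b * t) (ht2 : t * t = 0)
    (ht : t ≠ 0) : Fintype.card B + 2 ≤ finrank ℂ V := by
  classical
  have e1 : ∀ b d x, a b (a d x) = a d (a b x) := fun b d x => LinearMap.congr_fun (h1 b d) x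
  have e2 : ∀ b d x, c b (c d x) = c d (c b x) := fun b d x => LinearMap.congr_fun (h2 b d) x
  have e3 : ∀ b d, b ≠ d → ∀ x, a b (c d x) = c d (a b x) :=
    fun b d hbd x => LinearMap.congr_fun (h3 b d hbd) x
  have e4 : ∀ b x, a b (c b x) = c b (a b x) + t (c b (a b x)) := by
    intro b x
    have h := LinearMap.congr_fun (h4 b) x
    rw [add_mul, one_mul] at h
    exact h
  have e5 : ∀ b x, t (a b x) = a b (t x) := fun b x => LinearMap.congr_fun (h5 b) x
  have e6 : ∀ b x, t (c b x) = c b (t x) := fun b x => LinearMap.congr_fun (h6 b) x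
  have ett : ∀ x, t (t x) = 0 := fun x => LinearMap.congr_fun ht2 x
  -- the range of `t`
  let I : Submodule ℂ V := LinearMap.range t
  have hIne : Nontrivial I := by
    rw [Submodule.nontrivial_iff_ne_bot]
    intro h
    exact ht (LinearMap.range_eq_bot.1 h)
  have hIa : ∀ b, ∀ x ∈ I, a b x ∈ I := by
    rintro b _ ⟨x, rfl⟩
    exact ⟨a b x, e5 b x⟩
  have hIc : ∀ b, ∀ x ∈ I, c b x ∈ I := by
    rintro b _ ⟨x, rfl⟩
    exact ⟨c b x, e6 b x⟩
  have hIt : ∀ x ∈ I, t x = 0 := by
    rintro _ ⟨x, rfl⟩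
    exact ett x
  let u : B ⊕ B → End ℂ I := fun i => match i with
    | Sum.inl b => (a b).restrict (hIa b)
    | Sum.inr b => (c b).restrict (hIc b)
  have hul : ∀ b (x : I), ((u (Sum.inl b) x : I) : V) = a b x := fun b x => rfl
  have hur : ∀ b (x : I), ((u (Sum.inr b) x : I) : V) = c b x := fun b x => rfl
  have hlr : ∀ b d (x : I), a b (c d (x : V)) = c d (a b (x : V)) := by
    intro b d x
    by_cases hbd : b = d
    · subst hbd
      rw [e4, e6, e5, hIt x x.2, map_zero, map_zero, add_zero]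
    · exact e3 b d hbd x
  have hcomm : ∀ i ∈ (Finset.univ : Finset (B ⊕ B)), ∀ j ∈ (Finset.univ : Finset (B ⊕ B)),
      Commute (u i) (u j) := by
    intro i _ j _
    refine LinearMap.ext fun x => Subtype.ext ?_
    rcases i with b | b <;> rcases j with d | d
    · change a b (a d (x : V)) = a d (a b (x : V))
      exact e1 b d x
    · change a b (c d (x : V)) = c d (a b (x : V))
      exact hlr b d x
    · change c b (a d (x : V)) = a d (c b (x : V))
      exact (hlr d b x).symm
    · change c b (c d (x : V)) = c d (c b (x : V))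
      exact e2 b d x
  obtain ⟨w, hw0, hw⟩ := common_eig Finset.univ u hcomm
  obtain ⟨v, hv⟩ := w.2
  have htv : t v ≠ 0 := by
    rw [hv]
    exact fun h => hw0 (Subtype.ext h)
  choose μ hμ using fun b => hw (Sum.inl b) (Finset.mem_univ _)
  choose ν hν using fun b => hw (Sum.inr b) (Finset.mem_univ _)
  have hμ' : ∀ b, a b (t v) = μ b • t v := by
    intro b
    have h := congrArg Subtype.val (hμ b)
    rw [hul] at h
    rw [hv]
    exact h
  have hν' : ∀ b, c b (t v) = ν b • t v := by
    intro b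
    have h := congrArg Subtype.val (hν b)
    rw [hur] at h
    rw [hv]
    exact h
  have hμ0 : ∀ b, μ b ≠ 0 := by
    intro b h
    have h7 := hμ' b
    rw [h, zero_smul] at h7
    exact htv (ha b (by rw [h7, map_zero]))
  have hν0 : ∀ b, ν b ≠ 0 := by
    intro b h
    have h7 := hν' b
    rw [h, zero_smul] at h7
    exact htv (hc b (by rw [h7, map_zero]))
  -- the shifted operators
  let A : B → End ℂ V := fun b => a b - μ b • 1
  let C : B → End ℂ V := fun b => c b - ν b • 1
  have hA : ∀ b x, A b x = a b x - μ b • x := fun b x => rfl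
  have hC : ∀ b x, C b x = c b x - ν b • x := fun b x => rfl
  have hAt : ∀ b, A b (t v) = 0 := fun b => by rw [hA, hμ', sub_self]
  have hCt : ∀ b, C b (t v) = 0 := fun b => by rw [hC, hν', sub_self]
  have htA : ∀ b x, t (A b x) = A b (t x) := by
    intro b x
    rw [hA, hA, map_sub, map_smul, e5]
  have htC : ∀ b x, t (C b x) = C b (t x) := by
    intro b x
    rw [hC, hC, map_sub, map_smul, e6]
  have kAA : ∀ b d, A b (A d v) = A d (A b v) := by
    intro b d
    simp only [hA, map_sub, map_smul, e1 b d v, smul_sub]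
    rw [smul_comm (μ b) (μ d) v]
    abel
  have kCC : ∀ b d, C b (C d v) = C d (C b v) := by
    intro b d
    simp only [hC, map_sub, map_smul, e2 b d v, smul_sub]
    rw [smul_comm (ν b) (ν d) v]
    abel
  have kAC : ∀ b d, A b (C d v) - C d (A b v) = if b = d then (μ b * ν b) • t v else 0 := by
    intro b d
    simp only [hA, hC, map_sub, map_smul, smul_sub]
    rw [smul_comm (μ b) (ν d) v]
    split_ifs with hbd
    · subst hbd
      have h7 : t (c b (a b v)) = (μ b * ν b) • t v := by
        rw [e6, e5, hμ', map_smul, hν', smul_smul]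
      rw [e4, h7]
      abel
    · rw [e3 b d hbd]
      abel
  -- the linear family
  let P : (B → ℂ) × (B → ℂ) → End ℂ V := fun x =>
    ∑ b, x.1 b • A b + ∑ b, x.2 b • C b
  have hP : ∀ x z, P x z = ∑ b, x.1 b • A b z + ∑ b, x.2 b • C b z := by
    intro x z
    simp only [P, LinearMap.add_apply, LinearMap.sum_apply, LinearMap.smul_apply]
  have hPt : ∀ x, P x (t v) = 0 := by
    intro x
    rw [hP]
    simp only [hAt, hCt, smul_zero, Finset.sum_const_zero, add_zero]
  have htP : ∀ x, t (P x v) = 0 := by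
    intro x
    rw [hP, map_add, map_sum, map_sum]
    simp only [map_smul, htA, htC, hAt, hCt, smul_zero, Finset.sum_const_zero, add_zero]
  have hPP : ∀ x y, P x (P y v) - P y (P x v) =
      (∑ b, (μ b * ν b) * (x.1 b * y.2 b - x.2 b * y.1 b)) • t v := by
    intro x y
    have q1 : ∀ x y : (B → ℂ) × (B → ℂ), P x (P y v) =
        ∑ b, ∑ d, (x.1 b * y.1 d) • A b (A d v) + ∑ b, ∑ d, (x.1 b * y.2 d) • A b (C d v) +
          (∑ b, ∑ d, (x.2 b * y.1 d) • C b (A d v) +
            ∑ b, ∑ d, (x.2 b * y.2 d) • C b (C d v)) := by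
      intro x y
      rw [hP x, hP y]
      simp only [map_add, map_sum, map_smul, smul_add, Finset.smul_sum, Finset.sum_add_distrib,
        smul_smul]
    have q2 : ∑ b, ∑ d, (x.1 b * y.1 d) • A b (A d v) =
        ∑ b, ∑ d, (y.1 b * x.1 d) • A b (A d v) := by
      rw [Finset.sum_comm]
      refine Finset.sum_congr rfl fun b _ => Finset.sum_congr rfl fun d _ => ?_
      rw [kAA d b, mul_comm]
    have q3 : ∑ b, ∑ d, (x.2 b * y.2 d) • C b (C d v) =
        ∑ b, ∑ d, (y.2 b * x.2 d) • C b (C d v) := by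
      rw [Finset.sum_comm]
      refine Finset.sum_congr rfl fun b _ => Finset.sum_congr rfl fun d _ => ?_
      rw [kCC d b, mul_comm]
    have q4 : ∀ x y : (B → ℂ) × (B → ℂ), ∑ b, ∑ d, (x.1 b * y.2 d) • A b (C d v) =
        ∑ b, ∑ d, (y.2 b * x.1 d) • C b (A d v) + (∑ b, (μ b * ν b) * (x.1 b * y.2 b)) • t v := by
      intro x y
      have q5 : ∀ b d, (x.1 b * y.2 d) • A b (C d v) = (x.1 b * y.2 d) • C d (A b v) +
          (x.1 b * y.2 d) • (if b = d then (μ b * ν b) • t v else 0) := by
        intro b d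
        rw [← kAC b d, ← smul_add]
        congr 1
        abel
      simp only [q5, Finset.sum_add_distrib]
      congr 1
      · rw [Finset.sum_comm]
        refine Finset.sum_congr rfl fun b _ => Finset.sum_congr rfl fun d _ => ?_
        rw [mul_comm]
      · rw [Finset.sum_smul]
        refine Finset.sum_congr rfl fun b _ => ?_
        rw [Finset.sum_eq_single b]
        · rw [if_pos rfl, smul_smul]
          congr 1
          ring
        · intro d _ hd
          rw [if_neg (Ne.symm hd), smul_zero]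
        · intro h
          exact absurd (Finset.mem_univ b) h
    rw [q1 x y, q1 y x, q2, q3, q4 x y, q4 y x]
    have q6 : (∑ b, (μ b * ν b) * (x.1 b * y.2 b - x.2 b * y.1 b)) =
        (∑ b, (μ b * ν b) * (x.1 b * y.2 b)) - ∑ b, (μ b * ν b) * (y.1 b * x.2 b) := by
      rw [← Finset.sum_sub_distrib]
      exact Finset.sum_congr rfl fun b _ => by ring
    rw [q6, sub_smul]
    abel
  -- the evaluation map
  let Ψ : (((B → ℂ) × (B → ℂ)) × ℂ) →ₗ[ℂ] V :=
    { toFun := fun z => P z.1 v + z.2 • t v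
      map_add' := by
        intro z z'
        rw [hP, hP, hP]
        simp only [Prod.fst_add, Prod.snd_add, Pi.add_apply, add_smul, Finset.sum_add_distrib]
        abel
      map_smul' := by
        intro r z
        rw [hP, hP]
        simp only [Prod.smul_fst, Prod.smul_snd, Pi.smul_apply, smul_eq_mul, mul_smul,
          RingHom.id_apply, smul_add, Finset.smul_sum] }
  have hΨ : ∀ z, Ψ z = P z.1 v + z.2 • t v := fun z => rfl
  let S : Submodule ℂ ((B → ℂ) × (B → ℂ)) :=
    (LinearMap.ker Ψ).map (LinearMap.fst ℂ ((B → ℂ) × (B → ℂ)) ℂ)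
  have hSiso : ∀ x ∈ S, ∀ y ∈ S, ∑ b, (μ b * ν b) * (x.1 b * y.2 b - x.2 b * y.1 b) = 0 := by
    rintro _ ⟨z, hz, rfl⟩ _ ⟨z', hz', rfl⟩
    have hz1 : P z.1 v = -(z.2 • t v) := eq_neg_of_add_eq_zero_left hz
    have hz2 : P z'.1 v = -(z'.2 • t v) := eq_neg_of_add_eq_zero_left hz'
    have h7 := hPP z.1 z'.1
    rw [hz1, hz2, map_neg, map_neg, map_smul, map_smul, hPt, hPt, smul_zero, smul_zero,
      sub_self] at h7
    exact (smul_eq_zero.1 h7.symm).resolve_right htv
  have hS := iso_bound (fun b => μ b * ν b) (fun b => mul_ne_zero (hμ0 b) (hν0 b)) S hSiso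
  have hK : finrank ℂ (LinearMap.ker Ψ) = finrank ℂ S := by
    have hinj : Function.Injective
        ((LinearMap.fst ℂ ((B → ℂ) × (B → ℂ)) ℂ).domRestrict (LinearMap.ker Ψ)) := by
      rw [← LinearMap.ker_eq_bot, LinearMap.ker_eq_bot']
      rintro ⟨⟨x, κ⟩, hz⟩ hx
      have hx' : x = 0 := hx
      subst hx'
      have h7 : P 0 v + κ • t v = 0 := hz
      have h8 : P 0 v = 0 := by
        rw [hP]
        simp
      rw [h8, zero_add] at h7
      have h9 := (smul_eq_zero.1 h7).resolve_right htv
      subst h9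
      rfl
    have h7 := LinearMap.finrank_range_of_inj hinj
    rw [LinearMap.range_domRestrict] at h7
    exact h7.symm
  have hrn := LinearMap.finrank_range_add_finrank_ker Ψ
  have hE : finrank ℂ (((B → ℂ) × (B → ℂ)) × ℂ) = 2 * Fintype.card B + 1 := by
    rw [finrank_prod, finrank_prod, finrank_fintype_fun_eq_card, finrank_self]
    ring
  have hle : LinearMap.range Ψ ≤ LinearMap.ker t := by
    rintro _ ⟨z, rfl⟩
    rw [LinearMap.mem_ker, hΨ, map_add, map_smul, ett, htP, smul_zero, add_zero]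
  have hlt : LinearMap.ker t < ⊤ := by
    rw [lt_top_iff_ne_top]
    intro h
    exact ht (LinearMap.ker_eq_top.1 h)
  have h8 := Submodule.finrank_mono hle
  have h9 := Submodule.finrank_lt hlt.ne
  omega

theorem hs_uni {V : Type*} [AddCommGroup V] [Module ℂ V] [FiniteDimensional ℂ V]
    {B : Type*} [Fintype B] (a c : B → (Module.End ℂ V)ˣ) (ζ : (Module.End ℂ V)ˣ)
    (h1 : ∀ b d, Commute (a b) (a d)) (h2 : ∀ b d, Commute (c b) (c d))
    (h3 : ∀ b d, b ≠ d → Commute (a b) (c d)) (h4 : ∀ b, a b * c b = ζ * c b * a b)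
    (h5 : ∀ b, Commute ζ (a b)) (h6 : ∀ b, Commute ζ (c b))
    (hζ : IsNilpotent ((ζ : Module.End ℂ V) - 1))
    (hdim : Module.finrank ℂ V ≤ Fintype.card B + 1) : ζ = 1 := by
  classical
  by_contra hne
  set t : End ℂ V := (ζ : Module.End ℂ V) - 1 with htdef
  have ht0 : t ≠ 0 := by
    intro h
    exact hne (Units.ext (sub_eq_zero.1 h))
  have hζt : (ζ : Module.End ℂ V) = 1 + t := by
    rw [htdef]
    abel
  have hta : ∀ b, Commute t (a b : End ℂ V) := by
    intro b
    have h := (h5 b)
    have h' : Commute (ζ : End ℂ V) (a b : End ℂ V) := by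
      have := congrArg Units.val h
      exact this
    exact h'.sub_left (Commute.one_left _)
  have htc : ∀ b, Commute t (c b : End ℂ V) := by
    intro b
    have h' : Commute (ζ : End ℂ V) (c b : End ℂ V) := congrArg Units.val (h6 b)
    exact h'.sub_left (Commute.one_left _)
  have hex : ∃ n, t ^ n = 0 := hζ
  obtain ⟨n, hn, hmin⟩ : ∃ n, t ^ n = 0 ∧ ∀ m, m < n → t ^ m ≠ 0 :=
    ⟨Nat.find hex, Nat.find_spec hex, fun m hm => Nat.find_min hex hm⟩
  have hn2 : 2 ≤ n := by
    by_contra h
    rcases (by omega : n = 0 ∨ n = 1) with rfl | rfl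
    · rw [pow_zero] at hn
      exact ht0 (by rw [← mul_one t, hn, mul_zero])
    · exact ht0 (by rwa [pow_one] at hn)
  obtain ⟨m, rfl⟩ : ∃ m, n = m + 2 := ⟨n - 2, by omega⟩
  have hm1 : t ^ (m + 1) ≠ 0 := hmin _ (by omega)
  let W : Submodule ℂ V := LinearMap.range (t ^ m)
  have hW : ∀ f : End ℂ V, Commute t f → ∀ x ∈ W, f x ∈ W := by
    rintro f hf _ ⟨x, rfl⟩
    exact ⟨f x, LinearMap.congr_fun ((hf.pow_left m).eq) x⟩
  have hinja : ∀ f : (End ℂ V)ˣ, Function.Injective (f : End ℂ V) := by
    intro f x y hxy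
    have h := congrArg (((f⁻¹ : (End ℂ V)ˣ) : End ℂ V)) hxy
    have h7 : ∀ z, ((f⁻¹ : (End ℂ V)ˣ) : End ℂ V) ((f : End ℂ V) z) = z := fun z => by
      have := LinearMap.congr_fun (f.inv_mul) z
      exact this
    rwa [h7, h7] at h
  let a' : B → End ℂ W := fun b => (a b : End ℂ V).restrict (hW _ (hta b))
  let c' : B → End ℂ W := fun b => (c b : End ℂ V).restrict (hW _ (htc b))
  let t' : End ℂ W := t.restrict (hW _ (Commute.refl t))
  have key := hs_aux (V := W) (B := B) a' c' t' ?_ ?_ ?_ ?_ ?_ ?_ ?_ ?_ ?_ ?_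
  · have h7 := Submodule.finrank_le W
    omega
  · intro b x y hxy
    exact Subtype.ext (hinja (a b) (congrArg Subtype.val hxy))
  · intro b x y hxy
    exact Subtype.ext (hinja (c b) (congrArg Subtype.val hxy))
  · intro b d
    refine LinearMap.ext fun x => Subtype.ext ?_
    exact LinearMap.congr_fun (congrArg Units.val (h1 b d)) (x : V)
  · intro b d
    refine LinearMap.ext fun x => Subtype.ext ?_
    exact LinearMap.congr_fun (congrArg Units.val (h2 b d)) (x : V)
  · intro b d hbd
    refine LinearMap.ext fun x => Subtype.ext ?_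
    exact LinearMap.congr_fun (congrArg Units.val (h3 b d hbd)) (x : V)
  · intro b
    refine LinearMap.ext fun x => Subtype.ext ?_
    have h7 := LinearMap.congr_fun (congrArg Units.val (h4 b)) (x : V)
    rw [Units.val_mul, Units.val_mul, Units.val_mul, hζt, mul_assoc] at h7
    exact h7
  · intro b
    refine LinearMap.ext fun x => Subtype.ext ?_
    exact LinearMap.congr_fun (hta b).eq (x : V)
  · intro b
    refine LinearMap.ext fun x => Subtype.ext ?_
    exact LinearMap.congr_fun (htc b).eq (x : V)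
  · refine LinearMap.ext fun x => Subtype.ext ?_
    obtain ⟨y, hy⟩ := x.2
    change t (t (x : V)) = 0
    rw [← hy]
    have h7 : (t ^ (m + 2)) y = 0 := by rw [hn]; rfl
    rw [pow_succ', pow_succ'] at h7
    exact h7
  · intro h
    refine hm1 (LinearMap.ext fun y => ?_)
    have h7 := congrArg Subtype.val (LinearMap.congr_fun h ⟨(t ^ m) y, ⟨y, rfl⟩⟩)
    change t ((t ^ m) y) = 0 at h7
    rw [pow_succ']
    exact h7

end TOR
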