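import Mathlib
import Pool.Agent.Helper34.TOR.HSb

/-!
# TOR-32: the Heisenberg family of a two-step action

Abstract situation: `F` a group (the free group `Sx i`), `P ≤ F` normal, `Θ : F → End W` additive on `P` with products zero,
`Θ (d r d⁻¹) = χ(d) • Θ r`. `y : L → F` letters, `k : L`, `B` a finite set of letters different from `k` with `χ (y b) = 1`; `a b` commuting units
of `End W` with `a b * Θ r = Θ (φ b r) * a b` for `r ∈ P`, where `φ b : F →* F` satisfies `φ b (y b) = y b * (y k)^N`, `φ b (y c) = y c` for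
`c ≠ b`, `φ b P ⊆ P`. `N`-th powers of the `y c` are in `P`. If `dim W ≤ |B| + 1` then `Θ ((y k)^N) = 0`.

PROOF. For `b ∈ B` let `c b = 1 + Θ ((y b)^N)`, a unit with inverse `1 - Θ ((y b)^N)`, and `ζ = 1 + N • Θ ((y k)^N)` (inverse `1 - …`). All
`c b`, `ζ` commute (products of `Θ`'s are zero on both sides). `a b * Θ ((y d)^N) = Θ (φ b ((y d)^N)) * a b = Θ ((y d)^N) * a b` for `d ≠ b`, in
particular for `d = k`: so `a b` commutes with `c d` (`d ≠ b`) and with `ζ`. For `d = b`: `φ b ((y b)^N) = (y b * (y k)^N)^N`, and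
`(y z)^M = (∏_{j=1}^{M} y^j z y^{-j}) * y^M` for all `M` (induction: `(y z)^(M+1) = (y z)^M * (y z)` or `(y z) (y z)^M`), with `y = y b`,
`z = (y k)^N ∈ P`; so (all factors and partial products that are needed lie in `P`; use `M = N`)
`Θ ((y z)^N) = Σ_{j=1}^N χ(y)^j • Θ z + Θ (y^N) = N • Θ z + Θ (y^N)`. To avoid big products: prove by induction on `M`:
`(y z)^M * (y^M)⁻¹ ∈ P` and `Θ ((y z)^M * (y^M)⁻¹) = M • Θ z`: `(y z)^(M+1) y^{-(M+1)} = y (z ((y z)^M y^{-M})) y⁻¹ …` (choose the form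
`(y z)^(M+1) y^(-(M+1)) = (y z y⁻¹) * (y ((y z)^M y^{-M}) y⁻¹)`, and `Θ (y r y⁻¹) = Θ r` for `r ∈ P` since `χ y = 1`). Then
`(y z)^N = ((y z)^N y^{-N}) * y^N`. Hence `a b * c b = (1 + Θ ((y b)^N) + N • Θ ((y k)^N)) * a b = ζ * c b * a b`. `ζ - 1` has square zero.
`hs_uni` (index type `B` as a subtype of the finset) gives `ζ = 1`, so `N • Θ ((y k)^N) = 0` and `N > 0`.
-/

namespace TOR

/-- the unit `1 + u`, `u * u = 0` -/
private def mkU {R : Type*} [Ring R] (u : R) (hu : u * u = 0) : Rˣ where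
  val := 1 + u
  inv := 1 - u
  val_inv := by
    have h : (1 + u) * (1 - u) = 1 - u * u := by noncomm_ring
    rw [h, hu, sub_zero]
  inv_val := by
    have h : (1 - u) * (1 + u) = 1 - u * u := by noncomm_ring
    rw [h, hu, sub_zero]

private theorem mkU_val {R : Type*} [Ring R] (u : R) (hu : u * u = 0) :
    ((mkU u hu : Rˣ) : R) = 1 + u := rfl

private theorem comm_mkU {R : Type*} [Ring R] (u v : R) (hu : u * u = 0) (hv : v * v = 0)
    (huv : u * v = 0) (hvu : v * u = 0) : Commute (mkU u hu) (mkU v hv) := by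
  refine Units.ext ?_
  change (1 + u) * (1 + v) = (1 + v) * (1 + u)
  rw [mul_add, add_mul, add_mul, mul_add, add_mul, add_mul, huv, hvu]
  simp only [mul_one, one_mul, add_zero]
  abel

theorem heis_zero {F L W : Type*} [Group F] [AddCommGroup W] [Module ℂ W]
    [FiniteDimensional ℂ W] (P : Subgroup F) [P.Normal] (Θ : F → Module.End ℂ W)
    (χ : F →* ℂˣ) (hadd : ∀ r ∈ P, ∀ r' ∈ P, Θ (r * r') = Θ r + Θ r')
    (hmul : ∀ r ∈ P, ∀ r' ∈ P, Θ r * Θ r' = 0)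
    (hconj : ∀ d, ∀ r ∈ P, Θ (d * r * d⁻¹) = ((χ d : ℂˣ) : ℂ) • Θ r)
    (N : ℕ) (hN : 0 < N) (y : L → F) (hyN : ∀ c, y c ^ N ∈ P) (k : L) (B : Finset L)
    (hkB : k ∉ B) (hχ : ∀ b ∈ B, χ (y b) = 1) (φ : L → F →* F)
    (hφP : ∀ b ∈ B, ∀ r ∈ P, φ b r ∈ P)
    (hφb : ∀ b ∈ B, φ b (y b) = y b * y k ^ N) (hφc : ∀ b ∈ B, ∀ c, c ≠ b → φ b (y c) = y c)
    (a : L → (Module.End ℂ W)ˣ) (hcomm : ∀ b ∈ B, ∀ c ∈ B, Commute (a b) (a c))
    (hint : ∀ b ∈ B, ∀ r ∈ P, (a b : Module.End ℂ W) * Θ r = Θ (φ b r) * a b)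
    (hdim : Module.finrank ℂ W ≤ B.card + 1) : Θ (y k ^ N) = 0 := by
  classical
  have hT1 : Θ 1 = 0 := by
    have h := hadd 1 P.one_mem 1 P.one_mem
    rw [mul_one] at h
    exact left_eq_add.1 h
  have hcj : ∀ b ∈ B, ∀ r ∈ P, y b * r * (y b)⁻¹ ∈ P ∧ Θ (y b * r * (y b)⁻¹) = Θ r := by
    intro b hb r hr
    refine ⟨Subgroup.Normal.conj_mem inferInstance r hr (y b), ?_⟩
    rw [hconj (y b) r hr, hχ b hb, Units.val_one, one_smul]
  have hpow : ∀ b ∈ B, ∀ z ∈ P, ∀ M : ℕ, (y b * z) ^ M * (y b ^ M)⁻¹ ∈ P ∧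
      Θ ((y b * z) ^ M * (y b ^ M)⁻¹) = M • Θ z := by
    intro b hb z hz M
    induction M with
    | zero =>
      rw [pow_zero, pow_zero, inv_one, mul_one, zero_smul]
      exact ⟨P.one_mem, hT1⟩
    | succ M ih =>
      have h1 : (y b * z) ^ (M + 1) * (y b ^ (M + 1))⁻¹ =
          (y b * z * (y b)⁻¹) * (y b * ((y b * z) ^ M * (y b ^ M)⁻¹) * (y b)⁻¹) := by
        rw [pow_succ', pow_succ', mul_inv_rev]
        group
      obtain ⟨h2, h3⟩ := hcj b hb z hz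
      obtain ⟨h4, h5⟩ := hcj b hb _ ih.1
      rw [h1]
      refine ⟨P.mul_mem h2 h4, ?_⟩
      rw [hadd _ h2 _ h4, h3, h5, ih.2, add_smul, one_smul, add_comm]
  have hz : y k ^ N ∈ P := hyN k
  have hkey : ∀ b ∈ B, Θ ((y b * y k ^ N) ^ N) = N • Θ (y k ^ N) + Θ (y b ^ N) := by
    intro b hb
    obtain ⟨h1, h2⟩ := hpow b hb _ hz N
    have h3 : (y b * y k ^ N) ^ N = ((y b * y k ^ N) ^ N * (y b ^ N)⁻¹) * y b ^ N := by group
    rw [h3, hadd _ h1 _ (hyN b), h2]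
  set Z : Module.End ℂ W := Θ (y k ^ N) with hZ
  have hZZ : Z * Z = 0 := hmul _ hz _ hz
  have hNZ : (N • Z) * (N • Z) = 0 := by
    rw [smul_mul_assoc, mul_smul_comm, hZZ, smul_zero, smul_zero]
  have huu : ∀ b d, Θ (y b ^ N) * Θ (y d ^ N) = 0 := fun b d => hmul _ (hyN b) _ (hyN d)
  have hZu : ∀ b, (N • Z) * Θ (y b ^ N) = 0 := by
    intro b
    rw [smul_mul_assoc, hZ, huu, smul_zero]
  have huZ : ∀ b, Θ (y b ^ N) * (N • Z) = 0 := by
    intro b
    rw [mul_smul_comm, hZ, huu, smul_zero]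
  let cc : L → (Module.End ℂ W)ˣ := fun b => mkU (Θ (y b ^ N)) (huu b b)
  let ζ : (Module.End ℂ W)ˣ := mkU (N • Z) hNZ
  have hcc : ∀ b, ((cc b : (Module.End ℂ W)ˣ) : Module.End ℂ W) = 1 + Θ (y b ^ N) :=
    fun b => rfl
  have hζv : ((ζ : (Module.End ℂ W)ˣ) : Module.End ℂ W) = 1 + N • Z := rfl
  have hac : ∀ b ∈ B, ∀ d, d ≠ b →
      (a b : Module.End ℂ W) * Θ (y d ^ N) = Θ (y d ^ N) * a b := by
    intro b hb d hd
    rw [hint b hb _ (hyN d), map_pow, hφc b hb d hd]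
  have key := hs_uni (B := B) (fun b => a b) (fun b => cc b) ζ
    (fun b d => hcomm b b.2 d d.2)
    (fun b d => comm_mkU _ _ _ _ (huu b d) (huu d b))
    (fun b d hbd => by
      refine Units.ext ?_
      change (a b : Module.End ℂ W) * (1 + Θ (y d ^ N)) = (1 + Θ (y d ^ N)) * a b
      have hdb : (d : L) ≠ b := fun h => hbd (Subtype.ext h.symm)
      rw [mul_add, add_mul, hac b b.2 d hdb, mul_one, one_mul])
    (fun b => by
      refine Units.ext ?_
      change (a b : Module.End ℂ W) * (1 + Θ (y b ^ N)) =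
        (1 + N • Z) * (1 + Θ (y b ^ N)) * a b
      rw [mul_add, hint b b.2 _ (hyN b), map_pow, hφb b b.2, hkey b b.2, add_mul 1 (N • Z),
        mul_add (N • Z), hZu, mul_one, mul_one, one_mul, add_mul, add_mul, add_mul, add_mul,
        zero_mul, one_mul]
      abel)
    (fun b => by
      refine Units.ext ?_
      change (1 + N • Z) * (a b : Module.End ℂ W) = a b * (1 + N • Z)
      have hkb : k ≠ (b : L) := fun h => hkB (h ▸ b.2)
      rw [mul_add, add_mul, mul_smul_comm, smul_mul_assoc, hac b b.2 k hkb, mul_one, one_mul])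
    (fun b => comm_mkU _ _ _ _ (hZu b) (huZ b))
    ⟨2, by
      rw [hζv, add_sub_cancel_left, pow_two, hNZ]⟩
    (by rw [Fintype.card_coe]; exact hdim)
  have h1 : (1 : Module.End ℂ W) + N • Z = 1 := by
    have h2 := congrArg Units.val key
    rw [hζv] at h2
    exact h2
  have h2 : N • Z = 0 := by
    rwa [add_eq_left] at h1
  have h3 : (N : ℂ) • Z = 0 := by
    rw [Nat.cast_smul_eq_nsmul, h2]
  rcases smul_eq_zero.1 h3 with h4 | h4
  · exact absurd (Nat.cast_eq_zero.1 h4) hN.ne'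
  · exact h4

end TOR
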