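import Mathlib

/-!
# TOR-07: the `χ`-component of a two-step unipotent action

PROOF. For `r ∈ P` put `θ r = f r - 1`. `h2` gives `θ (r r') = θ r + θ r'` (`f r f r' - 1 = θ r + θ r' + θ r θ r'`),
`θ r θ r' = 0`, and for `p ∈ P`: `f p = 1 + θ p`, `f p⁻¹ = 1 - θ p`, so
`θ (p r p⁻¹) = f p θ r f p⁻¹ = θ r`. In general `f γ θ r = θ (γ r γ⁻¹) f γ`.
`Q = D ⧸ P.subgroupOf D` is a finite abelian group (`hfin`, `hab`). For `d ∈ D` the operator `θ (d r d⁻¹)` depends only on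
the class of `d` in `Q` (write `d' = p d` with `p ∈ P`, using normality). For a character `ξ : Q →* ℂˣ` put
`Θ_ξ r = Σ_{q : Q} (ξ q)⁻¹ • θ (q̃ r q̃⁻¹)`, `q̃ = (Quotient.out q : D)`.
* additive, `Θ_ξ r Θ_ξ r' = 0` : termwise.
* `Θ_ξ (d r d⁻¹) = ξ(d) • Θ_ξ r` : substitute `q ↦ q d`.
* if `γ d γ⁻¹ d⁻¹ ∈ P` for all `d ∈ D`, then `f γ θ (q r q⁻¹) = θ ((γ q γ⁻¹) (γ r γ⁻¹) (γ q γ⁻¹)⁻¹) f γ` and `γ q γ⁻¹ ∈ P q`,
  so `f γ Θ_ξ r = Θ_ξ (γ r γ⁻¹) f γ`.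
* some `Θ_ξ ≠ 0` on `P`: `Σ_ξ Θ_ξ r = (number of ξ) • θ r`, because `Σ_ξ ξ(q)⁻¹ = 0` for `q ≠ 1`: there is `ξ₀` with
  `ξ₀ q ≠ 1` (`CommGroup.exists_apply_ne_one_of_hasEnoughRootsOfUnity` for the finite commutative group `Q` and `ℂ`), and
  multiplying by `ξ₀` permutes the characters. `θ r = f r - 1 ≠ 0` for some `r ∈ P` (`hne`).
`χ d = ξ (class of d)`.
-/

namespace TOR

private theorem cp_orth {Q : Type*} [CommGroup Q] [Finite Q] [Fintype (Q →* ℂˣ)] (q : Q)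
    (hq : q ≠ 1) : ∑ ξ : Q →* ℂˣ, (((ξ q)⁻¹ : ℂˣ) : ℂ) = 0 := by
  have h1 : NeZero ((Monoid.exponent Q : ℕ) : ℂ) :=
    ⟨Nat.cast_ne_zero.2 Monoid.exponent_ne_zero_of_finite⟩
  have : HasEnoughRootsOfUnity ℂ (Monoid.exponent Q) :=
    IsSepClosed.hasEnoughRootsOfUnity ℂ (Monoid.exponent Q)
  obtain ⟨ξ₀, hξ₀⟩ := CommGroup.exists_apply_ne_one_of_hasEnoughRootsOfUnity Q ℂ hq
  have h2 : ∑ ξ : Q →* ℂˣ, (((ξ q)⁻¹ : ℂˣ) : ℂ) =
      (((ξ₀ q)⁻¹ : ℂˣ) : ℂ) * ∑ ξ : Q →* ℂˣ, (((ξ q)⁻¹ : ℂˣ) : ℂ) := by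
    rw [Finset.mul_sum]
    refine (Equiv.sum_comp (Equiv.mulLeft ξ₀)
      (fun ξ : Q →* ℂˣ => (((ξ q)⁻¹ : ℂˣ) : ℂ))).symm.trans ?_
    refine Finset.sum_congr rfl fun ξ _ => ?_
    rw [Equiv.coe_mulLeft, MonoidHom.mul_apply, mul_inv, Units.val_mul]
  have h3 : ((((ξ₀ q)⁻¹ : ℂˣ) : ℂ) - 1) * ∑ ξ : Q →* ℂˣ, (((ξ q)⁻¹ : ℂˣ) : ℂ) = 0 := by
    rw [sub_mul, one_mul, ← h2, sub_self]
  rcases mul_eq_zero.1 h3 with h4 | h4
  · exfalso
    refine hξ₀ ?_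
    rw [sub_eq_zero] at h4
    have h5 : (ξ₀ q)⁻¹ = 1 := Units.ext h4
    exact inv_eq_one.1 h5
  · exact h4

theorem chi_part {Γ W : Type*} [Group Γ] [AddCommGroup W] [Module ℂ W]
    (f : Γ →* Module.End ℂ W) (D P : Subgroup Γ) [D.Normal] [P.Normal] (hPD : P ≤ D)
    (hfin : P.relIndex D ≠ 0) (hab : ∀ a ∈ D, ∀ b ∈ D, a * b * a⁻¹ * b⁻¹ ∈ P)
    (h2 : ∀ r ∈ P, ∀ r' ∈ P, (f r - 1) * (f r' - 1) = 0) (hne : ∃ r ∈ P, f r ≠ 1) :
    ∃ (χ : D →* ℂˣ) (Θ : Γ → Module.End ℂ W),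
      (∀ r (hr : r ∈ P), χ ⟨r, hPD hr⟩ = 1) ∧
      (∀ r ∈ P, ∀ r' ∈ P, Θ (r * r') = Θ r + Θ r') ∧
      (∀ r ∈ P, ∀ r' ∈ P, Θ r * Θ r' = 0) ∧
      (∀ d : D, ∀ r ∈ P, Θ (d * r * (d : Γ)⁻¹) = ((χ d : ℂˣ) : ℂ) • Θ r) ∧
      (∀ γ : Γ, (∀ d ∈ D, γ * d * γ⁻¹ * d⁻¹ ∈ P) →
        ∀ r ∈ P, f γ * Θ r = Θ (γ * r * γ⁻¹) * f γ) ∧
      ∃ r ∈ P, Θ r ≠ 0 := by
  classical
  obtain ⟨θ, hθ⟩ : ∃ θ : Γ → Module.End ℂ W, ∀ r, θ r = f r - 1 := ⟨_, fun _ => rfl⟩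
  have hinv' : ∀ γ : Γ, f γ⁻¹ * f γ = 1 := fun γ => by
    rw [← map_mul, inv_mul_cancel, map_one]
  have hadd : ∀ r ∈ P, ∀ r' ∈ P, θ (r * r') = θ r + θ r' := by
    intro r hr r' hr'
    have h := h2 r hr r' hr'
    rw [sub_mul, mul_sub, one_mul, mul_one, sub_sub, sub_eq_zero] at h
    rw [hθ, hθ, hθ, map_mul, h]
    abel
  have hmul : ∀ r ∈ P, ∀ r' ∈ P, θ r * θ r' = 0 := by
    intro r hr r' hr'
    rw [hθ, hθ]
    exact h2 r hr r' hr'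
  have hγ : ∀ γ r, f γ * θ r = θ (γ * r * γ⁻¹) * f γ := by
    intro γ r
    rw [hθ, hθ, map_mul, map_mul, mul_sub, sub_mul, mul_one, one_mul, mul_assoc (f γ * f r),
      hinv', mul_one]
  have hcm : ∀ r ∈ P, ∀ g : Γ, g * r * g⁻¹ ∈ P := fun r hr g =>
    Subgroup.Normal.conj_mem inferInstance r hr g
  have hconj : ∀ p ∈ P, ∀ r ∈ P, θ (p * r * p⁻¹) = θ r := by
    intro p hp r hr
    have h := hγ p r
    have h3 : f p = 1 + θ p := by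
      rw [hθ]
      abel
    have h4 : f p * θ r = θ r := by
      rw [h3, add_mul, one_mul, hmul p hp r hr, add_zero]
    have h5 : θ (p * r * p⁻¹) * f p = θ (p * r * p⁻¹) := by
      rw [h3, mul_add, mul_one, hmul _ (hcm r hr p) p hp, add_zero]
    rw [h4, h5] at h
    exact h.symm
  have hL1 : ∀ d d' r : Γ, d⁻¹ * d' ∈ P → r ∈ P → θ (d * r * d⁻¹) = θ (d' * r * d'⁻¹) := by
    intro d d' r hdd hr
    have h3 := hconj (d * (d⁻¹ * d') * d⁻¹) (hcm _ hdd d) (d * r * d⁻¹) (hcm r hr d)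
    rw [← h3]
    congr 1
    group
  have hPn : (P.subgroupOf D).Normal := inferInstance
  let _ : CommGroup (D ⧸ P.subgroupOf D) := { QuotientGroup.Quotient.group (P.subgroupOf D) with
    mul_comm := by
      intro x y
      induction x using QuotientGroup.induction_on with
      | H a =>
        induction y using QuotientGroup.induction_on with
        | H b =>
          refine QuotientGroup.eq.2 ?_
          rw [Subgroup.mem_subgroupOf]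
          have h3 := hab _ (D.inv_mem b.2) _ (D.inv_mem a.2)
          rw [inv_inv, inv_inv] at h3
          have h4 : (((a * b)⁻¹ * (b * a) : D) : Γ) = (b : Γ)⁻¹ * (a : Γ)⁻¹ * b * a := by
            push_cast
            group
          rw [h4]
          exact h3 }
  have : (P.subgroupOf D).FiniteIndex := ⟨hfin⟩
  have : Finite (D ⧸ P.subgroupOf D) := Subgroup.finite_quotient_of_finiteIndex
  let _ : Fintype (D ⧸ P.subgroupOf D) := Fintype.ofFinite _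
  have hfinite : Finite ((D ⧸ P.subgroupOf D) →* ℂˣ) := by
    have h1 : NeZero ((Monoid.exponent (D ⧸ P.subgroupOf D) : ℕ) : ℂ) :=
      ⟨Nat.cast_ne_zero.2 Monoid.exponent_ne_zero_of_finite⟩
    have : HasEnoughRootsOfUnity ℂ (Monoid.exponent (D ⧸ P.subgroupOf D)) :=
      IsSepClosed.hasEnoughRootsOfUnity ℂ _
    obtain ⟨e⟩ := CommGroup.monoidHom_mulEquiv_of_hasEnoughRootsOfUnity
      (D ⧸ P.subgroupOf D) ℂ
    exact Finite.of_equiv _ e.toEquiv.symm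
  let _ : Fintype ((D ⧸ P.subgroupOf D) →* ℂˣ) := Fintype.ofFinite _
  have hcls : ∀ d d' : D, (QuotientGroup.mk d : D ⧸ P.subgroupOf D) = QuotientGroup.mk d' →
      (d : Γ)⁻¹ * (d' : Γ) ∈ P := by
    intro d d' h
    have h3 := QuotientGroup.eq.1 h
    rw [Subgroup.mem_subgroupOf] at h3
    exact h3
  obtain ⟨o, ho⟩ : ∃ o : (D ⧸ P.subgroupOf D) → D, ∀ q, (QuotientGroup.mk (o q) :
      D ⧸ P.subgroupOf D) = q := ⟨Quotient.out, QuotientGroup.out_eq'⟩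
  obtain ⟨Θ, hΘ⟩ : ∃ Θ : ((D ⧸ P.subgroupOf D) →* ℂˣ) → Γ → Module.End ℂ W, ∀ ξ r, Θ ξ r =
      ∑ q, (((ξ q)⁻¹ : ℂˣ) : ℂ) • θ ((o q : Γ) * r * (o q : Γ)⁻¹) := ⟨_, fun _ _ => rfl⟩
  have hexist : ∃ ξ, ∃ r ∈ P, Θ ξ r ≠ 0 := by
    by_contra hcon
    push Not at hcon
    obtain ⟨r, hr, hr1⟩ := hne
    have h3 : ∑ ξ, Θ ξ r = (Fintype.card ((D ⧸ P.subgroupOf D) →* ℂˣ) : ℂ) • θ r := by
      simp only [hΘ]
      rw [Finset.sum_comm]
      have h4 : ∀ q : D ⧸ P.subgroupOf D, ∑ ξ : (D ⧸ P.subgroupOf D) →* ℂˣ,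
          (((ξ q)⁻¹ : ℂˣ) : ℂ) • θ ((o q : Γ) * r * (o q : Γ)⁻¹) =
          (if q = 1 then (Fintype.card ((D ⧸ P.subgroupOf D) →* ℂˣ) : ℂ) • θ r else 0) := by
        intro q
        rw [← Finset.sum_smul]
        by_cases hq : q = 1
        · rw [if_pos hq, hq]
          simp only [map_one, inv_one, Units.val_one, Finset.sum_const, Finset.card_univ,
            nsmul_eq_mul, mul_one]
          congr 1
          have h5 := hL1 1 (o 1 : Γ) r (by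
            have := hcls 1 (o 1) (ho 1).symm
            simpa using this) hr
          rw [← h5, one_mul, inv_one, mul_one]
        · rw [if_neg hq, cp_orth q hq, zero_smul]
      rw [Finset.sum_congr rfl fun q _ => h4 q, Finset.sum_ite_eq', if_pos (Finset.mem_univ _)]
    rw [Finset.sum_eq_zero fun ξ _ => hcon ξ r hr] at h3
    rcases smul_eq_zero.1 h3.symm with h4 | h4
    · exact Fintype.card_ne_zero (Nat.cast_eq_zero.1 h4)
    · rw [hθ, sub_eq_zero] at h4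
      exact hr1 h4
  obtain ⟨ξ, hξ⟩ := hexist
  refine ⟨ξ.comp (QuotientGroup.mk' (P.subgroupOf D)), Θ ξ, ?_, ?_, ?_, ?_, ?_, hξ⟩
  · intro r hr
    rw [MonoidHom.comp_apply]
    have h3 : (QuotientGroup.mk' (P.subgroupOf D)) ⟨r, hPD hr⟩ = 1 := by
      rw [QuotientGroup.mk'_apply, QuotientGroup.eq_one_iff, Subgroup.mem_subgroupOf]
      exact hr
    rw [h3, map_one]
  · intro r hr r' hr'
    rw [hΘ, hΘ, hΘ, ← Finset.sum_add_distrib]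
    refine Finset.sum_congr rfl fun q _ => ?_
    rw [← smul_add, ← hadd _ (hcm r hr _) _ (hcm r' hr' _)]
    congr 2
    group
  · intro r hr r' hr'
    rw [hΘ, hΘ, Finset.sum_mul]
    refine Finset.sum_eq_zero fun q _ => ?_
    rw [Finset.mul_sum]
    refine Finset.sum_eq_zero fun q' _ => ?_
    rw [smul_mul_smul_comm, hmul _ (hcm r hr _) _ (hcm r' hr' _), smul_zero]
  · intro d r hr
    rw [hΘ, hΘ, Finset.smul_sum]
    refine Eq.trans ?_ (Equiv.sum_comp (Equiv.mulRight (QuotientGroup.mk d : D ⧸ P.subgroupOf D))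
      (fun q => ((((ξ.comp (QuotientGroup.mk' (P.subgroupOf D))) d : ℂˣ) : ℂ) •
        (((ξ q)⁻¹ : ℂˣ) : ℂ) • θ ((o q : Γ) * r * (o q : Γ)⁻¹))))
    refine Finset.sum_congr rfl fun q _ => ?_
    rw [Equiv.coe_mulRight, smul_smul]
    congr 1
    · rw [← Units.val_mul]
      congr 1
      rw [MonoidHom.comp_apply, QuotientGroup.mk'_apply, map_mul, mul_inv]
      rw [mul_comm ((ξ q)⁻¹), mul_inv_cancel_left]
    · have h3 := hL1 ((o q : Γ) * d) (o (q * QuotientGroup.mk d) : Γ) r (by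
        have := hcls (o q * d) (o (q * QuotientGroup.mk d)) (by
          rw [ho, QuotientGroup.mk_mul, ho])
        simpa using this) hr
      rw [← h3]
      congr 1
      group
  · intro γ hγD r hr
    rw [hΘ, hΘ, Finset.mul_sum, Finset.sum_mul]
    refine Finset.sum_congr rfl fun q _ => ?_
    rw [mul_smul_comm, smul_mul_assoc, hγ]
    congr 2
    have h3 := hL1 (γ * (o q : Γ) * γ⁻¹) (o q : Γ) (γ * r * γ⁻¹) (by
      have h4 := hcm _ (P.inv_mem (hγD _ (o q).2)) ((o q : Γ)⁻¹)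
      have h5 : (o q : Γ)⁻¹ * (γ * (o q : Γ) * γ⁻¹ * (o q : Γ)⁻¹)⁻¹ * ((o q : Γ)⁻¹)⁻¹ =
          (γ * (o q : Γ) * γ⁻¹)⁻¹ * (o q : Γ) := by group
      rw [h5] at h4
      exact h4) (hcm r hr γ)
    rw [← h3]
    congr 1
    group

end TOR
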