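import Mathlib

/-!
# TOR-01: Kolchin's theorem, trace form, over `ℂ`

PROOF. Copy of `Pool/Agent/Helper42/AutF/Kolchin.lean` (there over `ℚ`, matrices), with `ℂ` and `Module.End ℂ V`.
(1) Every `A ∈ S` is nilpotent: `p(A) A ∈ S` for all polynomials `p`, so by Fitting (`A.charpoly = X^a g`, `X ∤ g`,
`u X^(a+1) + v g = 1`) `E = u(A) A^(a+1) ∈ S` is idempotent of trace 0, hence `E = 0` and `A^(a+1) = 0`
(`nilp_of_trace` there; `LinearMap.charpoly`, `LinearMap.aeval_self_charpoly`,
`LinearMap.IsIdempotentElem.eq_zero_of_trace_eq_zero`). (2) `S` is a Lie subalgebra of `Module.End ℂ V` acting by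
nilpotent endomorphisms, so `V` is a nilpotent Lie module (Engel, `LieModule.isNilpotent_iff_forall'`) and products of
`K` elements of `S` map `V` into the `K`-th term of the lower central series, which is `0`.
-/

namespace TOR

open Polynomial

/-- an endomorphism all of whose polynomial expressions without constant term lie in a space of
endomorphisms of trace zero is nilpotent -/
private theorem nilp_of_trace {V : Type*} [AddCommGroup V] [Module ℂ V] [FiniteDimensional ℂ V]
    (S : Submodule ℂ (Module.End ℂ V)) (hmul : ∀ A ∈ S, ∀ B ∈ S, A * B ∈ S)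
    (htr : ∀ A ∈ S, LinearMap.trace ℂ V A = 0)
    {A : Module.End ℂ V} (hA : A ∈ S) : IsNilpotent A := by
  have hpoly : ∀ q : ℂ[X], aeval A (q * X) ∈ S := by
    intro q
    induction q using Polynomial.induction_on' with
    | add p q hp hq =>
      rw [add_mul, map_add]
      exact S.add_mem hp hq
    | monomial n a =>
      rw [← C_mul_X_pow_eq_monomial, mul_assoc, ← pow_succ, map_mul, aeval_C, map_pow, aeval_X,
        ← Algebra.smul_def]
      refine S.smul_mem _ ?_
      induction n with
      | zero => simpa using hA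
      | succ n ih =>
        rw [pow_succ]
        exact hmul _ ih _ hA
  have hp0 : A.charpoly ≠ 0 := A.charpoly_monic.ne_zero
  obtain ⟨g, hg, hgX⟩ := Polynomial.exists_eq_pow_rootMultiplicity_mul_and_not_dvd A.charpoly hp0 0
  rw [C_0, sub_zero] at hg hgX
  set a := A.charpoly.rootMultiplicity 0 with ha
  have hco : IsCoprime (X ^ (a + 1)) g :=
    IsCoprime.pow_left ((Polynomial.irreducible_X (R := ℂ)).coprime_iff_not_dvd.2 hgX)
  obtain ⟨u, v, huv⟩ := hco
  have hCH : aeval A (X ^ (a + 1) * g) = 0 := by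
    have : (X ^ (a + 1) * g : ℂ[X]) = X * A.charpoly := by
      rw [hg, pow_succ]
      ring
    rw [this, map_mul, LinearMap.aeval_self_charpoly, mul_zero]
  set E := aeval A (u * X ^ (a + 1)) with hE
  have hES : E ∈ S := by
    have : (u * X ^ (a + 1) : ℂ[X]) = u * X ^ a * X := by rw [pow_succ]; ring
    rw [hE, this]
    exact hpoly _
  have hidem : E * E = E := by
    have h1 : (u * X ^ (a + 1)) * (u * X ^ (a + 1)) =
        u * X ^ (a + 1) - u * v * (X ^ (a + 1) * g) := by
      linear_combination (u * X ^ (a + 1)) * huv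
    rw [hE, ← map_mul, h1, map_sub, map_mul _ (u * v), hCH, mul_zero, sub_zero]
  have hE0 : E = 0 :=
    LinearMap.IsIdempotentElem.eq_zero_of_trace_eq_zero hidem (htr E hES)
  refine ⟨a + 1, ?_⟩
  have h1 : (X ^ (a + 1) : ℂ[X]) = X ^ (a + 1) * (u * X ^ (a + 1)) + v * (X ^ (a + 1) * g) := by
    linear_combination (-(X ^ (a + 1) : ℂ[X])) * huv
  have h2 := congrArg (aeval A) h1
  rw [map_add, map_mul _ (X ^ (a + 1)) (u * X ^ (a + 1)), ← hE, hE0, mul_zero, zero_add,
    map_mul _ v, hCH, mul_zero, map_pow, aeval_X] at h2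
  exact h2

attribute [local instance 100] LieRing.ofAssociativeRing

theorem kol {V : Type*} [AddCommGroup V] [Module ℂ V] [FiniteDimensional ℂ V]
    (S : Submodule ℂ (Module.End ℂ V)) (hmul : ∀ A ∈ S, ∀ B ∈ S, A * B ∈ S)
    (htr : ∀ A ∈ S, LinearMap.trace ℂ V A = 0) :
    ∃ K : ℕ, ∀ L : List (Module.End ℂ V), L.length = K → (∀ A ∈ L, A ∈ S) → L.prod = 0 := by
  let Lg : LieSubalgebra ℂ (Module.End ℂ V) :=
    { S with
      lie_mem' := by
        intro A B hA hB
        exact S.sub_mem (hmul A hA B hB) (hmul B hB A hA) }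
  have hnil : LieModule.IsNilpotent Lg V := by
    rw [LieModule.isNilpotent_iff_forall' (R := ℂ)]
    rintro ⟨A, hA⟩
    obtain ⟨n, hn⟩ := nilp_of_trace S hmul htr hA
    exact ⟨n, hn⟩
  obtain ⟨K, hK⟩ := (LieModule.isNilpotent_iff ℂ Lg V).1 hnil
  have key : ∀ L : List (Module.End ℂ V), (∀ A ∈ L, A ∈ S) → ∀ v : V,
      L.prod v ∈ LieModule.lowerCentralSeries ℂ Lg V L.length := by
    intro L
    induction L with
    | nil => intro _ v; simp
    | cons A L ih =>
      intro hL v
      rw [List.prod_cons, List.length_cons, LieModule.lowerCentralSeries_succ,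
        Module.End.mul_apply]
      have hA : A ∈ S := hL A (List.mem_cons_self ..)
      have hv := ih (fun B hB => hL B (List.mem_cons_of_mem _ hB)) v
      let x : Lg := ⟨A, hA⟩
      have := LieSubmodule.lie_mem_lie (I := (⊤ : LieIdeal ℂ Lg)) (LieSubmodule.mem_top x) hv
      exact this
  refine ⟨K, fun L hL hLT => ?_⟩
  apply LinearMap.ext
  intro v
  have := key L hLT v
  rw [hL, hK, LieSubmodule.mem_bot] at this
  simpa using this

end TOR
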