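import Mathlib

/-!
# TOR-08: vanishing of `Θ`

PROOF. Write `[a,b] = a b a⁻¹ b⁻¹`. `Θ 1 = 0`, `Θ (r⁻¹) = - Θ r` on `P`.
(1) `Θ [x j, x k] = 0` for `k ≠ c0` (any `j`): `[x j, (x k)^N] = ∏_{i<N} (x k)^i [x j, x k] (x k)^(-i)` (by induction from
`[a, b c] = [a,b] (b [a,c] b⁻¹)`), all factors in `P`, so `Θ [x j, (x k)^N] = Σ_{i<N} χ(x k)^i • Θ [x j, x k] = N • Θ [x j, x k]`
(`χ (x k) = 1`); on the other hand `[x j, (x k)^N] = (x j (x k)^N (x j)⁻¹) ((x k)^N)⁻¹`, so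
`Θ = χ(x j) • Θ ((x k)^N) - Θ ((x k)^N) = 0`. Divide by `N`. If `k = c0` and `j ≠ c0`: `[x j, x k] = [x k, x j]⁻¹`;
`j = k`: trivial. So `Θ [x j, x k] = 0` for all `j, k`.
(2) `Θ = 0` on `commutator G`, which is the normal closure of `{[x j, x k]}` (mod that normal closure the generators
commute, so the quotient is abelian): `{g ∈ P : Θ (d g d⁻¹) = 0 ∀ d}`-type subgroup is normal and contains the
generators.
(3) `g^N ∈ P` for all `g` (`G/P` is abelian and generated by the classes of `x c`, whose `N`-th powers are trivial).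
`{g : Θ (g^N) = 0}` is a subgroup: `(g h)^N = g^N h^N d` with `d ∈ commutator G ≤ P`. It contains all `x c`, so it is
`G`. For `r ∈ P`: `0 = Θ (r^N) = N • Θ r`.
-/

namespace TOR

theorem theta_zero {G L E : Type*} [Group G] (x : L → G)
    (hx : Subgroup.closure (Set.range x) = ⊤) (P : Subgroup G) [P.Normal]
    (hab : ∀ a b : G, a * b * a⁻¹ * b⁻¹ ∈ P) [AddCommGroup E] [Module ℂ E] (Θ : G → E)
    (χ : G →* ℂˣ) (N : ℕ) (hN : 0 < N)
    (hadd : ∀ r ∈ P, ∀ r' ∈ P, Θ (r * r') = Θ r + Θ r')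
    (hconj : ∀ d, ∀ r ∈ P, Θ (d * r * d⁻¹) = ((χ d : ℂˣ) : ℂ) • Θ r)
    (hxN : ∀ c, x c ^ N ∈ P) (hΘ : ∀ c, Θ (x c ^ N) = 0) (c0 : L)
    (hχ : ∀ c, c ≠ c0 → χ (x c) = 1) : ∀ r ∈ P, Θ r = 0 := by
  have h1 : Θ 1 = 0 := by
    have h := hadd 1 P.one_mem 1 P.one_mem
    rw [mul_one] at h
    exact left_eq_add.1 h
  have hinv : ∀ r ∈ P, Θ r⁻¹ = -Θ r := by
    intro r hr
    have h := hadd r hr r⁻¹ (P.inv_mem hr)
    rw [mul_inv_cancel, h1] at h
    exact (neg_eq_of_add_eq_zero_right h.symm).symm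
  have hdiv : ∀ e : E, N • e = 0 → e = 0 := by
    intro e he
    have hNC : (N : ℂ) ≠ 0 := Nat.cast_ne_zero.2 hN.ne'
    rw [← Nat.cast_smul_eq_nsmul ℂ] at he
    rw [← inv_smul_smul₀ hNC e, he, smul_zero]
  have hu : ∀ (g : G) (e : E), ((χ g : ℂˣ) : ℂ) • e = 0 → e = 0 := by
    intro g e he
    rw [← inv_smul_smul₀ (χ g).ne_zero e, he, smul_zero]
  have hmul : ∀ a g h : G, Θ (a * (g * h) * a⁻¹ * (g * h)⁻¹) =
      Θ (a * g * a⁻¹ * g⁻¹) + ((χ g : ℂˣ) : ℂ) • Θ (a * h * a⁻¹ * h⁻¹) := by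
    intro a g h
    have e1 : a * (g * h) * a⁻¹ * (g * h)⁻¹ =
        (a * g * a⁻¹ * g⁻¹) * (g * (a * h * a⁻¹ * h⁻¹) * g⁻¹) := by group
    rw [e1, hadd _ (hab a g) _ (Subgroup.Normal.conj_mem inferInstance _ (hab a h) g),
      hconj g _ (hab a h)]
  -- the subgroup of all `g` with `Θ [a, g] = 0`
  let T : G → Subgroup G := fun a =>
    { carrier := {g | Θ (a * g * a⁻¹ * g⁻¹) = 0}
      mul_mem' := fun {g h} hg hh => by
        rw [Set.mem_setOf_eq] at hg hh ⊢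
        rw [hmul, hg, hh, smul_zero, add_zero]
      one_mem' := by
        rw [Set.mem_setOf_eq]
        have e1 : a * 1 * a⁻¹ * 1⁻¹ = 1 := by group
        rw [e1, h1]
      inv_mem' := fun {g} hg => by
        rw [Set.mem_setOf_eq] at hg ⊢
        have h := hmul a g g⁻¹
        have e1 : a * (g * g⁻¹) * a⁻¹ * (g * g⁻¹)⁻¹ = 1 := by group
        rw [e1, h1, hg, zero_add] at h
        exact hu g _ h.symm }
  have hTmem : ∀ a g, g ∈ T a ↔ Θ (a * g * a⁻¹ * g⁻¹) = 0 := fun a g => Iff.rfl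
  have hTtop : ∀ a, (∀ c, x c ∈ T a) → ∀ g, g ∈ T a := by
    intro a ha g
    have h2 : Subgroup.closure (Set.range x) ≤ T a := by
      rw [Subgroup.closure_le]
      rintro _ ⟨c, rfl⟩
      exact ha c
    rw [hx] at h2
    exact h2 (Subgroup.mem_top g)
  have hk : ∀ a k, k ≠ c0 → x k ∈ T a := by
    intro a k hk
    rw [hTmem]
    have hpow : ∀ n : ℕ, Θ (a * x k ^ n * a⁻¹ * (x k ^ n)⁻¹) =
        n • Θ (a * x k * a⁻¹ * (x k)⁻¹) := by
      intro n
      induction n with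
      | zero =>
        have e1 : a * x k ^ 0 * a⁻¹ * (x k ^ 0)⁻¹ = 1 := by
          rw [pow_zero]; group
        rw [e1, h1, zero_smul]
      | succ n ih =>
        rw [pow_succ, hmul, ih, map_pow, hχ k hk, one_pow, Units.val_one, one_smul, succ_nsmul]
    refine hdiv _ ?_
    rw [← hpow N, hadd _ (Subgroup.Normal.conj_mem inferInstance _ (hxN k) a) _
      (P.inv_mem (hxN k)), hconj a _ (hxN k), hinv _ (hxN k), hΘ k, smul_zero, neg_zero, add_zero]
  have hc0 : ∀ g, g ∈ T (x c0) := by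
    refine hTtop _ fun c => ?_
    by_cases hc : c = c0
    · rw [hc, hTmem]
      have e1 : x c0 * x c0 * (x c0)⁻¹ * (x c0)⁻¹ = 1 := by group
      rw [e1, h1]
    · exact hk _ _ hc
  have hall : ∀ a g, g ∈ T a := by
    intro a
    refine hTtop _ fun c => ?_
    by_cases hc : c = c0
    · rw [hc, hTmem]
      have e1 : a * x c0 * a⁻¹ * (x c0)⁻¹ = (x c0 * a * (x c0)⁻¹ * a⁻¹)⁻¹ := by group
      have h2 : Θ (x c0 * a * (x c0)⁻¹ * a⁻¹) = 0 := hc0 a
      rw [e1, hinv _ (hab _ _), h2, neg_zero]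
    · exact hk _ _ hc
  -- the kernel of `Θ`, a normal subgroup with abelian quotient
  let K : Subgroup G :=
    { carrier := {g | g ∈ P ∧ Θ g = 0}
      mul_mem' := fun {g h} hg hh => ⟨P.mul_mem hg.1 hh.1, by
        rw [hadd _ hg.1 _ hh.1, hg.2, hh.2, add_zero]⟩
      one_mem' := ⟨P.one_mem, h1⟩
      inv_mem' := fun {g} hg => ⟨P.inv_mem hg.1, by rw [hinv _ hg.1, hg.2, neg_zero]⟩ }
  have hKmem : ∀ g, g ∈ K ↔ g ∈ P ∧ Θ g = 0 := fun g => Iff.rfl
  haveI hKn : K.Normal := ⟨fun g hg d => by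
    rw [hKmem] at hg ⊢
    exact ⟨Subgroup.Normal.conj_mem inferInstance _ hg.1 d, by
      rw [hconj d _ hg.1, hg.2, smul_zero]⟩⟩
  have hcomm : ∀ a b : G, Commute (QuotientGroup.mk' K a) (QuotientGroup.mk' K b) := by
    intro a b
    have h2 : a * b * a⁻¹ * b⁻¹ ∈ K := ⟨hab a b, hall a b⟩
    have h3 : QuotientGroup.mk' K (a * b * a⁻¹ * b⁻¹) = 1 := by
      rw [QuotientGroup.mk'_apply, QuotientGroup.eq_one_iff]
      exact h2
    rw [map_mul, map_mul, map_mul, map_inv, map_inv, mul_inv_eq_one, mul_inv_eq_iff_eq_mul] at h3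
    exact h3
  let Q : Subgroup G :=
    { carrier := {g | (QuotientGroup.mk' K g) ^ N = 1}
      mul_mem' := fun {g h} hg hh => by
        rw [Set.mem_setOf_eq] at hg hh ⊢
        rw [map_mul, (hcomm g h).mul_pow, hg, hh, mul_one]
      one_mem' := by
        rw [Set.mem_setOf_eq, map_one, one_pow]
      inv_mem' := fun {g} hg => by
        rw [Set.mem_setOf_eq] at hg ⊢
        rw [map_inv, inv_pow, hg, inv_one] }
  have hQ : Subgroup.closure (Set.range x) ≤ Q := by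
    rw [Subgroup.closure_le]
    rintro _ ⟨c, rfl⟩
    change (QuotientGroup.mk' K (x c)) ^ N = 1
    rw [← map_pow, QuotientGroup.mk'_apply, QuotientGroup.eq_one_iff]
    exact ⟨hxN c, hΘ c⟩
  rw [hx] at hQ
  intro r hr
  have h2 : (QuotientGroup.mk' K r) ^ N = 1 := hQ (Subgroup.mem_top r)
  rw [← map_pow, QuotientGroup.mk'_apply, QuotientGroup.eq_one_iff] at h2
  have hpow : ∀ n : ℕ, Θ (r ^ n) = n • Θ r := by
    intro n
    induction n with
    | zero => rw [pow_zero, h1, zero_smul]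
    | succ n ih => rw [pow_succ, hadd _ (P.pow_mem hr n) _ hr, ih, succ_nsmul]
  exact hdiv _ (by rw [← hpow N]; exact h2.2)

end TOR
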