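import Mathlib

/-!
# TOR-06: a two-step invariant subspace

PROOF. `W = {v : ∀ r r' ∈ P, (f r - 1) ((f r' - 1) v) = 0}`. Invariance: for `γ ∈ Γ`,
`(f r - 1)(f r' - 1) f γ = f γ (f (γ⁻¹ r γ) - 1)(f (γ⁻¹ r' γ) - 1)` (`P` normal; `f` multiplicative).
Let `K` be minimal with the property `hK` (`Nat.find`). `K ≠ 0`: otherwise `1 = 0` in `End V` (empty list), so `V` is
trivial and `f r = 1`, against `hne`. `K ≠ 1` by `hne`. So `K = j + 2`, and by minimality there is a list `L` of length
`j + 1` of elements `f r - 1` with `L.prod ≠ 0`: `L = A :: L'`; choose `v` with `A (L'.prod v) ≠ 0`, `A = f r - 1`, and put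
`v' = L'.prod v`. `v' ∈ W`, since `(f s - 1) (f s' - 1) L'.prod` is a product of `j + 2` factors, and
`(f r - 1) v' ≠ 0`.
-/

namespace TOR

private theorem ts_conj {Γ V : Type*} [Group Γ] [AddCommGroup V] [Module ℂ V]
    (f : Γ →* Module.End ℂ V) (γ r : Γ) (v : V) :
    (f r - 1) (f γ v) = f γ ((f (γ⁻¹ * r * γ) - 1) v) := by
  have h1 : f r * f γ = f γ * f (γ⁻¹ * r * γ) := by
    rw [← map_mul, ← map_mul]
    congr 1
    group
  have h2 : f r (f γ v) = f γ (f (γ⁻¹ * r * γ) v) := LinearMap.congr_fun h1 v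
  rw [LinearMap.sub_apply, LinearMap.sub_apply, map_sub, h2]
  rfl

theorem two_step {Γ V : Type*} [Group Γ] [AddCommGroup V] [Module ℂ V]
    (f : Γ →* Module.End ℂ V) (P : Subgroup Γ) [P.Normal]
    (hK : ∃ K : ℕ, ∀ L : List (Module.End ℂ V), L.length = K →
      (∀ A ∈ L, ∃ r ∈ P, A = f r - 1) → L.prod = 0)
    (hne : ∃ r ∈ P, f r ≠ 1) :
    ∃ W : Submodule ℂ V, (∀ γ : Γ, ∀ v ∈ W, f γ v ∈ W) ∧
      (∀ r ∈ P, ∀ r' ∈ P, ∀ v ∈ W, (f r - 1) ((f r' - 1) v) = 0) ∧
      ∃ r ∈ P, ∃ v ∈ W, (f r - 1) v ≠ 0 := by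
  classical
  have hconj : ∀ (γ r : Γ), r ∈ P → γ⁻¹ * r * γ ∈ P := by
    intro γ r hr
    have h1 := Subgroup.Normal.conj_mem (inferInstance : P.Normal) r hr γ⁻¹
    rwa [inv_inv] at h1
  let W : Submodule ℂ V :=
    { carrier := {v | ∀ r ∈ P, ∀ r' ∈ P, (f r - 1) ((f r' - 1) v) = 0}
      zero_mem' := fun r _ r' _ => by rw [map_zero, map_zero]
      add_mem' := fun {v w} hv hw r hr r' hr' => by
        rw [map_add, map_add, hv r hr r' hr', hw r hr r' hr', add_zero]
      smul_mem' := fun c v hv r hr r' hr' => by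
        rw [map_smul, map_smul, hv r hr r' hr', smul_zero] }
  refine ⟨W, ?_, fun r hr r' hr' v hv => hv r hr r' hr', ?_⟩
  · intro γ v hv r hr r' hr'
    rw [ts_conj, ts_conj, hv _ (hconj γ r hr) _ (hconj γ r' hr'), map_zero]
  · have hspec := Nat.find_spec hK
    have hmin : ∀ m, m < Nat.find hK → ¬ _ := fun m hm => Nat.find_min hK hm
    obtain ⟨r₀, hr₀, hr₁⟩ := hne
    generalize Nat.find hK = k at hspec hmin
    match k, hspec, hmin with
    | 0, hspec, _ =>
      exfalso
      have h1 := hspec [] rfl (fun A hA => absurd hA (by simp))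
      rw [List.prod_nil] at h1
      apply hr₁
      have h2 : f r₀ = f r₀ * 1 := (mul_one _).symm
      rw [h2, h1, mul_zero]
    | 1, hspec, _ =>
      exfalso
      have h1 := hspec [f r₀ - 1] rfl (fun A hA => ⟨r₀, hr₀, List.mem_singleton.1 hA⟩)
      rw [List.prod_singleton] at h1
      exact hr₁ (sub_eq_zero.1 h1)
    | j + 2, hspec, hmin =>
      have h1 := hmin (j + 1) (Nat.lt_succ_self _)
      push Not at h1
      obtain ⟨L, hL, hLP, hL0⟩ := h1
      match L, hL, hLP, hL0 with
      | A :: L', hL, hLP, hL0 =>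
        rw [List.prod_cons] at hL0
        obtain ⟨v, hv⟩ : ∃ v, (A * L'.prod) v ≠ 0 := by
          by_contra hcon
          push Not at hcon
          exact hL0 (LinearMap.ext fun v => by rw [hcon v, LinearMap.zero_apply])
        obtain ⟨r, hr, hA⟩ := hLP A List.mem_cons_self
        refine ⟨r, hr, L'.prod v, ?_, ?_⟩
        · intro s hs s' hs'
          have h2 := hspec ((f s - 1) :: (f s' - 1) :: L') (by
            rw [List.length_cons, List.length_cons]
            rw [List.length_cons] at hL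
            omega) (by
            intro B hB
            rcases List.mem_cons.1 hB with h3 | h3
            · exact ⟨s, hs, h3⟩
            · rcases List.mem_cons.1 h3 with h4 | h4
              · exact ⟨s', hs', h4⟩
              · exact hLP B (List.mem_cons_of_mem _ h4))
          rw [List.prod_cons, List.prod_cons] at h2
          exact LinearMap.congr_fun h2 v
        · rw [← hA]
          exact hv

end TOR
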