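import Mathlib
import Pool.Agent.Helper34.TOR.Defs
import Pool.Agent.Helper34.TOR.Api
import Pool.Agent.Helper34.TOR.LemG
import Pool.Agent.Helper34.TOR.Kol
import Pool.Agent.Helper34.TOR.TwoStep
import Pool.Agent.Helper34.TOR.ChiPart
import Pool.Agent.Helper34.TOR.Adapt
import Pool.Agent.Helper34.TOR.Theta0
import Pool.Agent.Helper34.TOR.C1Defs
import Pool.Agent.Helper34.TOR.C1a
import Pool.Agent.Helper34.TOR.C1b

/-!
# TOR: the partial conjugations `x_i ↦ w⁻¹ x_i w` in a representation of dimension `≤ n - 2`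
-/

namespace TOR

open Helper38.AutF
open scoped commutatorElement

variable {n : ℕ} {V : Type*} [AddCommGroup V] [Module ℂ V]

/-- trace of a conjugate -/
theorem trace_conj {G V : Type*} [Group G] [AddCommGroup V] [Module ℂ V]
    (f : G →* Module.End ℂ V) (g : G) (A : Module.End ℂ V) :
    LinearMap.trace ℂ V (f g * A * f g⁻¹) = LinearMap.trace ℂ V A := by
  rw [LinearMap.trace_mul_comm, ← mul_assoc, ← map_mul, inv_mul_cancel, map_one, one_mul]

/-- elements of `H` normalising the range of `dl i` preserve `TR (psi …)` -/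
theorem TR_conj (H : Subgroup (AF n)) (hI : IA n ≤ H) (f : H →* Module.End ℂ V) (i : Fin n)
    (γ : AF n) (hγ : γ ∈ H) (hγn : γ ∈ Subgroup.normalizer ((dl i).range : Set (AF n)))
    (w w' : Sx i) (hw : w ∈ TR (psi H hI f i)) (h : γ * dl i w * γ⁻¹ = dl i w') :
    w' ∈ TR (psi H hI f i) := by
  intro y
  have hy : γ⁻¹ * dl i y * γ ∈ (dl i).range := by
    rw [Subgroup.mem_normalizer_iff] at hγn
    refine (hγn _).2 ?_
    have : γ * (γ⁻¹ * dl i y * γ) * γ⁻¹ = dl i y := by group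
    rw [this]
    exact ⟨y, rfl⟩
  obtain ⟨y', hy'⟩ := hy
  have e0 : dl i y = γ * dl i y' * γ⁻¹ := by rw [hy']; group
  have e1 : psi H hI f i (w' * y) =
      f ⟨γ, hγ⟩ * psi H hI f i (w * y') * f (⟨γ, hγ⟩ : H)⁻¹ := by
    rw [psi_apply, psi_apply, ← map_mul f, ← map_mul f]
    congr 1
    apply Subtype.ext
    show dl i (w' * y) = γ * dl i (w * y') * γ⁻¹
    rw [map_mul, map_mul, e0, ← h]
    group
  have e2 : psi H hI f i y = f ⟨γ, hγ⟩ * psi H hI f i y' * f (⟨γ, hγ⟩ : H)⁻¹ := by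
    rw [psi_apply, psi_apply, ← map_mul f, ← map_mul f]
    congr 1
    apply Subtype.ext
    exact e0
  rw [e1, e2, trace_conj, trace_conj]
  exact hw y'

/-- `Sti i` normalises the range of `dl i` -/
theorem Sti_le_normalizer (i : Fin n) (σ : AF n) (hσ : σ ∈ Sti i) :
    σ ∈ Subgroup.normalizer ((dl i).range : Set (AF n)) := by
  rw [Subgroup.mem_normalizer_iff]
  intro h
  constructor
  · rintro ⟨w, rfl⟩
    exact ⟨act σ hσ w, (Sti_dl σ hσ w).symm⟩
  · rintro ⟨w, hw⟩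
    refine ⟨act σ⁻¹ ((Sti i).inv_mem hσ) w, ?_⟩
    rw [← Sti_dl, hw]
    group

/-- the span of the `ψ w - 1`, `w ∈ TR ψ`, is nilpotent -/
theorem TR_kol {G : Type*} [Group G] [FiniteDimensional ℂ V] (ψ : G →* Module.End ℂ V) :
    ∃ K : ℕ, ∀ L : List (Module.End ℂ V), L.length = K →
      (∀ A ∈ L, ∃ w ∈ TR ψ, A = ψ w - 1) → L.prod = 0 := by
  let X : Set (Module.End ℂ V) := {A | ∃ w ∈ TR ψ, A = ψ w - 1}
  have hmul : ∀ A ∈ Submodule.span ℂ X, ∀ B ∈ Submodule.span ℂ X,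
      A * B ∈ Submodule.span ℂ X := by
    intro A hA B hB
    have h1 : ∀ A ∈ X, ∀ B ∈ X, A * B ∈ Submodule.span ℂ X := by
      rintro _ ⟨w, hw, rfl⟩ _ ⟨w', hw', rfl⟩
      have : (ψ w - 1) * (ψ w' - 1) = (ψ (w * w') - 1) - (ψ w - 1) - (ψ w' - 1) := by
        rw [map_mul]; noncomm_ring
      rw [this]
      exact Submodule.sub_mem _ (Submodule.sub_mem _
        (Submodule.subset_span ⟨_, (TR ψ).mul_mem hw hw', rfl⟩)
        (Submodule.subset_span ⟨_, hw, rfl⟩)) (Submodule.subset_span ⟨_, hw', rfl⟩)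
    have h2 : ∀ A ∈ X, ∀ B ∈ Submodule.span ℂ X, A * B ∈ Submodule.span ℂ X := by
      intro A hA B hB
      refine Submodule.span_induction (p := fun B _ => A * B ∈ Submodule.span ℂ X)
        ?_ ?_ ?_ ?_ hB
      · intro B hB
        exact h1 A hA B hB
      · rw [mul_zero]; exact Submodule.zero_mem _
      · intro x y _ _ hx hy
        rw [mul_add]; exact Submodule.add_mem _ hx hy
      · intro c x _ hx
        rw [mul_smul_comm]; exact Submodule.smul_mem _ _ hx
    refine Submodule.span_induction (p := fun A _ => A * B ∈ Submodule.span ℂ X)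
      ?_ ?_ ?_ ?_ hA
    · intro A hA
      exact h2 A hA B hB
    · rw [zero_mul]; exact Submodule.zero_mem _
    · intro x y _ _ hx hy
      rw [add_mul]; exact Submodule.add_mem _ hx hy
    · intro c x _ hx
      rw [smul_mul_assoc]; exact Submodule.smul_mem _ _ hx
  have htr : ∀ A ∈ Submodule.span ℂ X, LinearMap.trace ℂ V A = 0 := by
    intro A hA
    refine Submodule.span_induction (p := fun A _ => LinearMap.trace ℂ V A = 0) ?_ ?_ ?_ ?_ hA
    · rintro _ ⟨w, hw, rfl⟩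
      have h := hw 1
      rw [mul_one, map_one] at h
      rw [map_sub, h, sub_self]
    · exact map_zero _
    · intro x y _ _ hx hy
      rw [map_add, hx, hy, add_zero]
    · intro c x _ hx
      rw [map_smul, hx, smul_zero]
  obtain ⟨K, hK⟩ := kol _ hmul htr
  exact ⟨K, fun L hL hA => hK L hL (fun A h => Submodule.subset_span (hA A h))⟩

/-- the main step: the two-step case -/
theorem c1_aux {n : ℕ} (hn : 4 ≤ n) (H : Subgroup (AF n)) (hI : IA n ≤ H)
    {V : Type*} [AddCommGroup V] [Module ℂ V] [FiniteDimensional ℂ V]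
    (f : H →* Module.End ℂ V) (hdim : Module.finrank ℂ V + 2 ≤ n) (N : ℕ) (hN0 : 0 < N)
    (hN : ∀ g : AF n, g ^ N ∈ H) (i : Fin n)
    {W : Type*} [AddCommGroup W] [Module ℂ W] [FiniteDimensional ℂ W]
    (hW : Module.finrank ℂ W ≤ Module.finrank ℂ V)
    (Γ : Subgroup (AF n))
    (hΓ : Γ = H ⊓ Subgroup.normalizer ((dl i).range : Set (AF n)))
    (F : Γ →* Module.End ℂ W)
    (h2 : ∀ (r r' : Γ), (∃ w ∈ TR (psi H hI f i), (r : AF n) = dl i w) →
      (∃ w ∈ TR (psi H hI f i), (r' : AF n) = dl i w) → (F r - 1) * (F r' - 1) = 0) :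
    ∀ (r : Γ), (∃ w ∈ TR (psi H hI f i), (r : AF n) = dl i w) → F r = 1 := by
  classical
  by_contra hcon
  push Not at hcon
  obtain ⟨r0, hr0, hr0'⟩ := hcon
  have hdlΓ : ∀ w, dl i w ∈ Γ := by
    intro w
    rw [hΓ]
    refine ⟨hI (dl_mem_IA i w), ?_⟩
    exact Subgroup.le_normalizer ⟨w, rfl⟩
  -- the homomorphism `Sx i → Γ`
  let q' : Sx i →* Γ := (dl i).codRestrict Γ hdlΓ
  have hq'c : ∀ w, ((q' w : Γ) : AF n) = dl i w := fun w => rfl
  set TT := TR (psi H hI f i) with hTT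
  let P : Subgroup Γ := TT.map q'
  let D : Subgroup Γ := q'.range
  have hP : ∀ r : Γ, r ∈ P ↔ ∃ w ∈ TT, (r : AF n) = dl i w := by
    intro r
    constructor
    · rintro ⟨w, hw, h⟩
      exact ⟨w, hw, by rw [← h]; rfl⟩
    · rintro ⟨w, hw, h⟩
      exact ⟨w, hw, Subtype.ext h.symm⟩
  have hPD : P ≤ D := by
    rintro _ ⟨w, hw, rfl⟩
    exact ⟨w, rfl⟩
  have hconjr : ∀ (γ : Γ) (w : Sx i), ∃ w' : Sx i, γ * q' w * γ⁻¹ = q' w' := by
    intro γ w
    have hγ2 : (γ : AF n) ∈ Subgroup.normalizer ((dl i).range : Set (AF n)) := (hΓ.le γ.2).2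
    obtain ⟨w', hw'⟩ := ((Subgroup.mem_normalizer_iff.1 hγ2) (dl i w)).1 ⟨w, rfl⟩
    exact ⟨w', Subtype.ext hw'.symm⟩
  have hTRc : ∀ (γ : Γ) (w w' : Sx i), w ∈ TT → γ * q' w * γ⁻¹ = q' w' → w' ∈ TT := by
    intro γ w w' hw h
    have hγ2 := hΓ.le γ.2
    exact TR_conj H hI f i γ hγ2.1 hγ2.2 w w' hw (congrArg Subtype.val h)
  have hPn : P.Normal := by
    refine ⟨?_⟩
    rintro _ ⟨w, hw, rfl⟩ γ
    obtain ⟨w', hw'⟩ := hconjr γ w
    rw [hw']
    exact ⟨w', hTRc γ w w' hw hw', rfl⟩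
  have hDn : D.Normal := by
    refine ⟨?_⟩
    rintro _ ⟨w, rfl⟩ γ
    obtain ⟨w', hw'⟩ := hconjr γ w
    rw [hw']
    exact ⟨w', rfl⟩
  have hcomm := fun v w => comm_mem_TR (by omega) H hI f hdim i v w
  have hpow := fun w => pow_mem_TR' (by omega) H hI f hdim N hN i w
  have hidx := index_TR (by omega) H hI f hdim N hN0 hN i
  rw [← hTT] at hidx
  have hfin : P.relIndex D ≠ 0 := by
    have h1 : Function.Surjective q'.rangeRestrict := q'.rangeRestrict_surjective
    have h3 : ((P.subgroupOf D).comap q'.rangeRestrict).index = (P.subgroupOf D).index :=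
      Subgroup.index_comap_of_surjective _ h1
    have h4 : TT ≤ (P.subgroupOf D).comap q'.rangeRestrict := by
      intro w hw
      exact ⟨w, hw, rfl⟩
    intro h5
    have h6 := Subgroup.index_dvd_of_le h4
    rw [h3] at h6
    rw [Subgroup.relIndex] at h5
    rw [h5] at h6
    exact hidx (zero_dvd_iff.1 h6)
  have hab : ∀ a ∈ D, ∀ b ∈ D, a * b * a⁻¹ * b⁻¹ ∈ P := by
    rintro _ ⟨v, rfl⟩ _ ⟨w, rfl⟩
    refine ⟨v * w * v⁻¹ * w⁻¹, hcomm v w, ?_⟩
    simp only [map_mul, map_inv]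
  have h2' : ∀ r ∈ P, ∀ r' ∈ P, (F r - 1) * (F r' - 1) = 0 := by
    intro r hr r' hr'
    exact h2 r r' ((hP r).1 hr) ((hP r').1 hr')
  obtain ⟨χ, Θ, hχP, hadd, hmul, hconj, hint, r1, hr1, hΘ1⟩ :=
    chi_part F D P hPD hfin hab h2' ⟨r0, (hP r0).2 hr0, hr0'⟩
  let χt : Sx i →* ℂˣ := χ.comp q'.rangeRestrict
  let Θt : Sx i → Module.End ℂ W := fun w => Θ (q' w)
  have hqP : ∀ w ∈ TT, q' w ∈ P := fun w hw => ⟨w, hw, rfl⟩
  have hχTT : ∀ w ∈ TT, χt w = 1 := fun w hw => hχP (q' w) (hqP w hw)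
  -- adapted basis
  let χ1 : FreeGroup (Fin n) →* ℂˣ := χt.comp (FreeGroup.lift (lx i))
  have hχ1 : ∀ w, χ1 w ^ N = 1 := by
    intro w
    rw [← map_pow]
    show χt (FreeGroup.lift (lx i) (w ^ N)) = 1
    rw [map_pow]
    exact hχTT _ (hpow _)
  obtain ⟨σ, hσ, c0, hc0, hχσ⟩ := adapt (by omega) i χ1 hN0 hχ1
  have hlift : ∀ w : Sx i, FreeGroup.lift (lx i) (w : FreeGroup (Fin n)) = w := by
    have h2 : (FreeGroup.lift (lx i)).comp (Sx i).subtype = MonoidHom.id (Sx i) := by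
      refine MonoidHom.eq_of_eqOn_dense (closure_lx i) ?_
      rintro _ ⟨j, rfl⟩
      by_cases hj : j = i
      · subst hj
        simp [lx_self]
      · show FreeGroup.lift (lx i) ((lx i j : Sx i) : FreeGroup (Fin n)) = lx i j
        rw [lx_ne hj, FreeGroup.lift_apply_of]
    exact fun w => DFunLike.congr_fun h2 w
  let y : Fin n → Sx i := fun c => act σ hσ (lx i c)
  have hyi : y i = 1 := by
    show act σ hσ (lx i i) = 1
    rw [lx_self, map_one]
  have hyc : ∀ c, c ≠ i → ((y c : Sx i) : FreeGroup (Fin n)) = σ (FreeGroup.of c) := by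
    intro c hc
    show ((act σ hσ (lx i c) : Sx i) : FreeGroup (Fin n)) = _
    rw [act_coe, lx_ne hc]
  have hχy : ∀ c, c ≠ c0 → χt (y c) = 1 := by
    intro c hc
    by_cases hci : c = i
    · subst hci
      rw [hyi, map_one]
    · have h := hχσ c hci hc
      rw [← hyc c hci] at h
      have h' : χ1 ((y c : Sx i) : FreeGroup (Fin n)) = χt (y c) := by
        show χt (FreeGroup.lift (lx i) ((y c : Sx i) : FreeGroup (Fin n))) = χt (y c)
        rw [hlift]
      rw [← h', h]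
  have hycl : Subgroup.closure (Set.range y) = ⊤ := closure_act σ hσ
  have haddt : ∀ r ∈ TT, ∀ r' ∈ TT, Θt (r * r') = Θt r + Θt r' := by
    intro r hr r' hr'
    show Θ (q' (r * r')) = _
    rw [map_mul]
    exact hadd _ (hqP r hr) _ (hqP r' hr')
  have hmult : ∀ r ∈ TT, ∀ r' ∈ TT, Θt r * Θt r' = 0 := by
    intro r hr r' hr'
    exact hmul _ (hqP r hr) _ (hqP r' hr')
  have hconjt : ∀ d, ∀ r ∈ TT, Θt (d * r * d⁻¹) = ((χt d : ℂˣ) : ℂ) • Θt r := by
    intro d r hr
    have h := hconj (q'.rangeRestrict d) (q' r) (hqP r hr)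
    show Θ (q' (d * r * d⁻¹)) = _
    rw [map_mul, map_mul, map_inv]
    exact h
  have hΘ1' : Θt 1 = 0 := by
    have h := haddt 1 TT.one_mem 1 TT.one_mem
    rw [mul_one] at h
    exact left_eq_add.1 h
  -- the key vanishing
  have hkey : ∀ k, Θt (y k ^ N) = 0 := by
    intro k
    by_cases hk : k = i
    · subst hk
      rw [hyi, one_pow, hΘ1']
    let B : Finset (Fin n) := ((Finset.univ.erase i).erase c0).erase k
    have hB : ∀ b ∈ B, b ≠ i ∧ b ≠ c0 ∧ b ≠ k := by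
      intro b hb
      simp only [B, Finset.mem_erase, Finset.mem_univ, and_true] at hb
      exact ⟨hb.2.2, hb.2.1, hb.1⟩
    have hgH : ∀ b, σ * R b k ^ N * σ⁻¹ ∈ H := by
      intro b
      rw [← conj_pow]
      exact hN _
    have hgS : ∀ b, b ≠ i → σ * R b k ^ N * σ⁻¹ ∈ Sti i := by
      intro b hb
      exact (Sti i).mul_mem ((Sti i).mul_mem hσ ((Sti i).pow_mem (R_mem_Sti hb hk) N))
        ((Sti i).inv_mem hσ)
    have hgΓ : ∀ b, b ≠ i → σ * R b k ^ N * σ⁻¹ ∈ Γ := by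
      intro b hb
      rw [hΓ]
      exact ⟨hgH b, Sti_le_normalizer i _ (hgS b hb)⟩
    let φ : Fin n → Sx i →* Sx i := fun b =>
      if hb : b ≠ i then act (σ * R b k ^ N * σ⁻¹) (hgS b hb) else MonoidHom.id _
    have hφd : ∀ b (hb : b ≠ i), φ b = act (σ * R b k ^ N * σ⁻¹) (hgS b hb) := by
      intro b hb
      show (if hb : b ≠ i then act (σ * R b k ^ N * σ⁻¹) (hgS b hb) else MonoidHom.id _) = _
      rw [dif_pos hb]
    let a : Fin n → (Module.End ℂ W)ˣ := fun b =>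
      if hb : b ≠ i then F.toHomUnits ⟨σ * R b k ^ N * σ⁻¹, hgΓ b hb⟩ else 1
    have had : ∀ b (hb : b ≠ i), a b = F.toHomUnits ⟨σ * R b k ^ N * σ⁻¹, hgΓ b hb⟩ := by
      intro b hb
      show (if hb : b ≠ i then F.toHomUnits ⟨σ * R b k ^ N * σ⁻¹, hgΓ b hb⟩ else 1) = _
      rw [dif_pos hb]
    have hγφ : ∀ b (hb : b ≠ i) (w : Sx i),
        (⟨σ * R b k ^ N * σ⁻¹, hgΓ b hb⟩ : Γ) * q' w *
          (⟨σ * R b k ^ N * σ⁻¹, hgΓ b hb⟩ : Γ)⁻¹ = q' (φ b w) := by
      intro b hb w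
      apply Subtype.ext
      rw [hφd b hb]
      exact Sti_dl _ (hgS b hb) w
    have hRk : ∀ b, b ≠ k → ∀ M : ℕ, (R b k ^ M) (FreeGroup.of b) =
        FreeGroup.of b * FreeGroup.of k ^ M := by
      intro b hb M
      induction M with
      | zero => simp
      | succ M ih =>
        rw [pow_succ', MulAut.mul_apply, ih, map_mul, R_self hb.symm, map_pow, R_ne hb.symm,
          pow_succ', mul_assoc]
    have hRc : ∀ b c, c ≠ b → ∀ M : ℕ, (R b k ^ M) (FreeGroup.of c) = FreeGroup.of c := by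
      intro b c hc M
      induction M with
      | zero => simp
      | succ M ih => rw [pow_succ', MulAut.mul_apply, ih, R_ne hc]
    have hφb : ∀ b ∈ B, φ b (y b) = y b * y k ^ N := by
      intro b hb
      obtain ⟨hbi, hbc, hbk⟩ := hB b hb
      apply Subtype.ext
      rw [hφd b hbi, act_coe, hyc b hbi, Subgroup.coe_mul, Subgroup.coe_pow, hyc b hbi, hyc k hk,
        MulAut.mul_apply, MulAut.mul_apply, MulAut.inv_apply_self, hRk b hbk, map_mul, map_pow]
    have hφc : ∀ b ∈ B, ∀ c, c ≠ b → φ b (y c) = y c := by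
      intro b hb c hc
      obtain ⟨hbi, hbc, hbk⟩ := hB b hb
      by_cases hci : c = i
      · rw [hci, hyi, map_one]
      apply Subtype.ext
      rw [hφd b hbi, act_coe, hyc c hci, MulAut.mul_apply, MulAut.mul_apply,
        MulAut.inv_apply_self, hRc b c hc]
    have hφTT : ∀ b ∈ B, ∀ r ∈ TT, φ b r ∈ TT := by
      intro b hb r hr
      obtain ⟨hbi, hbc, hbk⟩ := hB b hb
      exact hTRc _ r _ hr (hγφ b hbi r)
    have hφ1 : ∀ b ∈ B, ∀ w : Sx i, φ b w * w⁻¹ ∈ TT := by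
      intro b hb w
      have h1 : (QuotientGroup.mk' TT).comp (φ b) = QuotientGroup.mk' TT := by
        refine MonoidHom.eq_of_eqOn_dense hycl ?_
        rintro _ ⟨c, rfl⟩
        show QuotientGroup.mk' TT (φ b (y c)) = QuotientGroup.mk' TT (y c)
        by_cases hcb : c = b
        · rw [hcb, hφb b hb, map_mul]
          have : QuotientGroup.mk' TT (y k ^ N) = 1 :=
            (QuotientGroup.eq_one_iff _).2 (hpow _)
          rw [this, mul_one]
        · rw [hφc b hb c hcb]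
      have h2 := DFunLike.congr_fun h1 w
      have h3 : QuotientGroup.mk' TT (φ b w * w⁻¹) = 1 := by
        rw [map_mul, map_inv]
        rw [MonoidHom.comp_apply] at h2
        rw [h2, mul_inv_cancel]
      exact (QuotientGroup.eq_one_iff _).1 h3
    have hcardB : n ≤ B.card + 3 := by
      have h1 : (Finset.univ.erase i : Finset (Fin n)).card = n - 1 := by
        rw [Finset.card_erase_of_mem (Finset.mem_univ _), Finset.card_univ, Fintype.card_fin]
      have h2 := Finset.pred_card_le_card_erase (s := (Finset.univ.erase i : Finset (Fin n)))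
        (a := c0)
      have h3 := Finset.pred_card_le_card_erase (s := (Finset.univ.erase i).erase c0) (a := k)
      show n ≤ (((Finset.univ.erase i).erase c0).erase k).card + 3
      omega
    refine heis_zero TT Θt χt haddt hmult hconjt N hN0 y (fun c => hpow _) k B ?_ ?_ φ hφTT hφb
      hφc a ?_ ?_ ?_
    · intro h
      exact (hB k h).2.2 rfl
    · intro b hb
      exact hχy b (hB b hb).2.1
    · intro b hb c hc
      obtain ⟨hbi, hbc, hbk⟩ := hB b hb
      obtain ⟨hci, hcc, hck⟩ := hB c hc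
      by_cases hbc' : b = c
      · rw [hbc']
      have hR : Commute (R b k) (R c k) := by
        refine aut_ext fun d => ?_
        rw [MulAut.mul_apply, MulAut.mul_apply]
        by_cases hdb : d = b
        · rw [hdb, R_ne hbc', R_self hbk.symm, map_mul, R_ne hbc', R_ne hck.symm]
        · by_cases hdc : d = c
          · rw [hdc, R_self hck.symm, R_ne (Ne.symm hbc'), R_self hck.symm, map_mul,
              R_ne (Ne.symm hbc'), R_ne hbk.symm]
          · rw [R_ne hdb, R_ne hdc, R_ne hdb]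
      rw [had b hbi, had c hci]
      rw [Commute, SemiconjBy, ← map_mul, ← map_mul]
      congr 1
      apply Subtype.ext
      show σ * R b k ^ N * σ⁻¹ * (σ * R c k ^ N * σ⁻¹) =
        σ * R c k ^ N * σ⁻¹ * (σ * R b k ^ N * σ⁻¹)
      have h := (hR.pow_pow N N).eq
      calc σ * R b k ^ N * σ⁻¹ * (σ * R c k ^ N * σ⁻¹) = σ * (R b k ^ N * R c k ^ N) * σ⁻¹ := by
            group
        _ = σ * (R c k ^ N * R b k ^ N) * σ⁻¹ := by rw [h]
        _ = _ := by group
    · intro b hb r hr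
      obtain ⟨hbi, hbc, hbk⟩ := hB b hb
      have h := hint ⟨σ * R b k ^ N * σ⁻¹, hgΓ b hbi⟩ ?_ (q' r) (hqP r hr)
      · rw [had b hbi]
        rw [hγφ b hbi r] at h
        exact h
      · rintro _ ⟨w, rfl⟩
        rw [hγφ b hbi w, ← map_inv, ← map_mul]
        exact hqP _ (hφ1 b hb w)
    · omega
  have hzero := theta_zero y hycl TT hcomm Θt χt N hN0 haddt hconjt (fun c => hpow _) hkey c0 hχy
  obtain ⟨w1, hw1, hw1'⟩ := hr1
  apply hΘ1
  rw [← hw1']
  exact hzero w1 hw1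

/-- `f` is trivial on the partial conjugations by elements of `TR ψ` -/
theorem c1 {n : ℕ} (hn : 4 ≤ n) (H : Subgroup (AF n)) (hI : IA n ≤ H)
    {V : Type*} [AddCommGroup V] [Module ℂ V] [FiniteDimensional ℂ V]
    (f : H →* Module.End ℂ V) (hdim : Module.finrank ℂ V + 2 ≤ n) (N : ℕ) (hN0 : 0 < N)
    (hN : ∀ g : AF n, g ^ N ∈ H) (i : Fin n) :
    ∀ w ∈ TR (psi H hI f i), psi H hI f i w = 1 := by
  by_contra hcon
  push Not at hcon
  obtain ⟨w0, hw0, hw0'⟩ := hcon
  set Γ : Subgroup (AF n) := H ⊓ Subgroup.normalizer ((dl i).range : Set (AF n)) with hΓ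
  have hdlΓ : ∀ w, dl i w ∈ Γ := by
    intro w
    refine ⟨hI (dl_mem_IA i w), ?_⟩
    exact Subgroup.le_normalizer ⟨w, rfl⟩
  let f' : Γ →* Module.End ℂ V := f.comp (Subgroup.inclusion inf_le_left)
  let P : Subgroup Γ := ((TR (psi H hI f i)).map (dl i)).subgroupOf Γ
  have hP : ∀ r : Γ, r ∈ P ↔ ∃ w ∈ TR (psi H hI f i), (r : AF n) = dl i w := by
    intro r
    constructor
    · rintro ⟨w, hw, h⟩
      exact ⟨w, hw, h.symm⟩
    · rintro ⟨w, hw, h⟩
      exact ⟨w, hw, h.symm⟩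
  have hPn : P.Normal := by
    refine ⟨fun r hr γ => ?_⟩
    obtain ⟨w, hw, h⟩ := (hP r).1 hr
    rw [hP]
    have h1 : (γ : AF n) * dl i w * (γ : AF n)⁻¹ ∈ (dl i).range :=
      ((Subgroup.mem_normalizer_iff.1 γ.2.2) _).1 ⟨w, rfl⟩
    obtain ⟨w', hw'⟩ := h1
    refine ⟨w', TR_conj H hI f i γ γ.2.1 γ.2.2 w w' hw hw'.symm, ?_⟩
    rw [hw', ← h]
    rfl
  have hfP : ∀ (w : Sx i), f' ⟨dl i w, hdlΓ w⟩ = psi H hI f i w := fun w => rfl
  have hK : ∃ K : ℕ, ∀ L : List (Module.End ℂ V), L.length = K →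
      (∀ A ∈ L, ∃ r ∈ P, A = f' r - 1) → L.prod = 0 := by
    obtain ⟨K, hK⟩ := TR_kol (psi H hI f i)
    refine ⟨K, fun L hL hA => hK L hL (fun A h => ?_)⟩
    obtain ⟨r, hr, hr'⟩ := hA A h
    obtain ⟨w, hw, hrw⟩ := (hP r).1 hr
    refine ⟨w, hw, ?_⟩
    rw [hr', ← hfP]
    congr 2
    exact Subtype.ext hrw
  have hne : ∃ r ∈ P, f' r ≠ 1 := ⟨⟨dl i w0, hdlΓ w0⟩, (hP _).2 ⟨w0, hw0, rfl⟩, hw0'⟩
  obtain ⟨W, hWinv, hW2, r1, hr1, v1, hv1, hrv⟩ := two_step f' P hK hne
  let F : Γ →* Module.End ℂ W :=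
    { toFun := fun γ => (f' γ).restrict (hWinv γ)
      map_one' := by
        ext v
        rw [LinearMap.coe_restrict_apply, map_one]
        rfl
      map_mul' := by
        intro a b
        ext v
        rw [LinearMap.coe_restrict_apply, map_mul]
        rfl }
  have hFc : ∀ γ (v : W), ((F γ v : W) : V) = f' γ v := fun γ v => rfl
  have hF1 := c1_aux hn H hI f hdim N hN0 hN i (W := W) (Submodule.finrank_le W) Γ hΓ F ?_ r1
    ((hP _).1 hr1)
  · apply hrv
    have h := congrArg (fun A : Module.End ℂ W => ((A ⟨v1, hv1⟩ : W) : V)) hF1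
    simp only [hFc] at h
    rw [LinearMap.sub_apply, h]
    exact sub_self _
  · intro r r' hr hr'
    ext v
    have h := hW2 r ((hP r).2 hr) r' ((hP r').2 hr') v v.2
    simpa [hFc, Module.End.mul_apply] using h

end TOR
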