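import Mathlib

/-!
# TOR-04: a central commutator has eigenvalues of bounded order

PROOF. `Z = (ζ : End V)`, `m = finrank V`. Let `μ` be an eigenvalue of `Z`, `E = Z.maxGenEigenspace μ ≠ ⊥`, invariant under
`a`, `c` and `Z` (commutation, `Module.End.mapsTo_maxGenEigenspace_of_comm`). Restrict `a c = ζ c a` to `E`:
`det (a|E) det (c|E) = det (Z|E) det (c|E) det (a|E)`, and `det (a|E), det (c|E) ≠ 0` (injective restrictions), so
`det (Z|E) = 1`. `Z|E - μ` is nilpotent, so `det (Z|E) = μ ^ finrank E`
(e.g. `LinearMap.charpoly` of a nilpotent map is `X^d`: `LinearMap.charpoly_eq_X_pow_iff`/`IsNilpotent.charpoly_eq_X_pow_finrank`,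
evaluate `det (X - N)` at `X = -μ`; or: all eigenvalues of `Z|E` are `μ` and `det` = product of roots of the charpoly).
Hence `μ ^ finrank E = 1`, `1 ≤ finrank E ≤ m`, so `μ ^ m! = 1`.
Now `Z^(m!) - 1 = Z^(m!) - μ^(m!)` is a multiple of `Z - μ` by an operator commuting with it, so it is nilpotent (power
`m`) on every `Z.maxGenEigenspace μ` (for `μ` not an eigenvalue this space is `⊥`); these spaces span `V`
(`Module.End.iSup_maxGenEigenspace_eq_top`), so `(Z^(m!) - 1)^m = 0`.
-/

namespace TOR

open Module Module.End Set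

private theorem hs_det_nil {E : Type*} [AddCommGroup E] [Module ℂ E] [FiniteDimensional ℂ E]
    (f : Module.End ℂ E) (μ : ℂ) (h : IsNilpotent (f - algebraMap ℂ (Module.End ℂ E) μ)) :
    LinearMap.det f = μ ^ finrank ℂ E := by
  have h1 : IsNilpotent (-(f - algebraMap ℂ (Module.End ℂ E) μ)) := h.neg
  have h2 := LinearMap.eval_charpoly (-(f - algebraMap ℂ (Module.End ℂ E) μ)) μ
  rw [h1.charpoly_eq_X_pow_finrank, Polynomial.eval_pow, Polynomial.eval_X] at h2
  rw [h2]
  congr 1
  abel

private theorem hs_det_ne {V : Type*} [AddCommGroup V] [Module ℂ V] [FiniteDimensional ℂ V]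
    (a : (Module.End ℂ V)ˣ) (E : Submodule ℂ V) (h : MapsTo (a : Module.End ℂ V) E E) :
    LinearMap.det ((a : Module.End ℂ V).restrict h) ≠ 0 := by
  have hk : LinearMap.ker ((a : Module.End ℂ V).restrict h) = ⊥ := by
    rw [LinearMap.ker_eq_bot']
    intro x hx
    have h1 : (a : Module.End ℂ V) (x : V) = 0 := by
      have := congrArg Subtype.val hx
      simpa using this
    have h2 : ((a⁻¹ * a : (Module.End ℂ V)ˣ) : Module.End ℂ V) (x : V) = 0 := by
      rw [Units.val_mul, Module.End.mul_apply, h1, map_zero]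
    rw [inv_mul_cancel, Units.val_one, Module.End.one_apply] at h2
    exact Subtype.ext h2
  exact (LinearMap.isUnit_det _ ((LinearMap.isUnit_iff_ker_eq_bot _).2 hk)).ne_zero

theorem hs_root {V : Type*} [AddCommGroup V] [Module ℂ V] [FiniteDimensional ℂ V]
    (a c ζ : (Module.End ℂ V)ˣ) (h : a * c = ζ * c * a) (ha : Commute ζ a) (hc : Commute ζ c) :
    IsNilpotent (((ζ ^ (Module.finrank ℂ V).factorial : (Module.End ℂ V)ˣ) :
      Module.End ℂ V) - 1) := by
  set m := Module.finrank ℂ V with hm
  set Z : Module.End ℂ V := (ζ : Module.End ℂ V) with hZ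
  have hZa : Commute Z (a : Module.End ℂ V) := by
    have := congrArg Units.val ha.eq
    exact this
  have hZc : Commute Z (c : Module.End ℂ V) := by
    have := congrArg Units.val hc.eq
    exact this
  have hac : (a : Module.End ℂ V) * (c : Module.End ℂ V) = Z * (c : Module.End ℂ V) * (a : Module.End ℂ V) := by
    have := congrArg Units.val h
    simpa using this
  -- eigenvalues are roots of unity
  have key : ∀ μ : ℂ, Z.maxGenEigenspace μ ≠ ⊥ → μ ^ m.factorial = 1 := by
    intro μ hμ
    set E := Z.maxGenEigenspace μ with hE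
    have mA : MapsTo (a : Module.End ℂ V) E E := mapsTo_maxGenEigenspace_of_comm hZa μ
    have mC : MapsTo (c : Module.End ℂ V) E E := mapsTo_maxGenEigenspace_of_comm hZc μ
    have mZ : MapsTo Z E E := mapsTo_maxGenEigenspace_of_comm (Commute.refl Z) μ
    have dA := hs_det_ne a E mA
    have dC := hs_det_ne c E mC
    have hr : (a : Module.End ℂ V).restrict mA * (c : Module.End ℂ V).restrict mC =
        Z.restrict mZ * (c : Module.End ℂ V).restrict mC * (a : Module.End ℂ V).restrict mA := by
      refine LinearMap.ext fun x => Subtype.ext ?_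
      have h1 := LinearMap.congr_fun hac (x : V)
      simpa [Module.End.mul_apply, LinearMap.restrict_apply] using h1
    have hd := congrArg LinearMap.det hr
    rw [map_mul, map_mul, map_mul] at hd
    have hZ1 : LinearMap.det (Z.restrict mZ) = 1 := by
      have h3 : (LinearMap.det (Z.restrict mZ) - 1) *
          (LinearMap.det ((c : Module.End ℂ V).restrict mC) *
            LinearMap.det ((a : Module.End ℂ V).restrict mA)) = 0 := by
        linear_combination -hd
      rcases mul_eq_zero.1 h3 with h4 | h4
      · exact sub_eq_zero.1 h4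
      · exact absurd h4 (mul_ne_zero dC dA)
    have hnil : IsNilpotent (Z.restrict mZ - algebraMap ℂ (Module.End ℂ E) μ) := by
      have h5 := isNilpotent_restrict_maxGenEigenspace_sub_algebraMap Z μ
      convert h5 using 1
      refine LinearMap.ext fun x => Subtype.ext ?_
      rfl
    have h6 := hs_det_nil _ μ hnil
    rw [hZ1] at h6
    have h7 : 1 ≤ finrank ℂ E := by
      rw [Nat.one_le_iff_ne_zero]
      intro h8
      exact hμ (Submodule.finrank_eq_zero.1 h8)
    have h8 : finrank ℂ E ≤ m := Submodule.finrank_le E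
    obtain ⟨t, ht⟩ := Nat.dvd_factorial h7 h8
    rw [ht, pow_mul, ← h6, one_pow]
  have hP : ((ζ ^ m.factorial : (Module.End ℂ V)ˣ) : Module.End ℂ V) - 1 = Z ^ m.factorial - 1 := by
    rw [Units.val_pow_eq_pow_val]
  rw [hP]
  refine ⟨m, ?_⟩
  have htop : (⊤ : Submodule ℂ V) ≤ LinearMap.ker ((Z ^ m.factorial - 1) ^ m) := by
    rw [← iSup_maxGenEigenspace_eq_top Z]
    refine iSup_le fun μ => ?_
    by_cases hμ : Z.maxGenEigenspace μ = ⊥
    · rw [hμ]
      exact bot_le
    · intro x hx
      have h1 := key μ hμ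
      rw [maxGenEigenspace_eq_genEigenspace_finrank, ← hm, mem_genEigenspace_nat,
        LinearMap.mem_ker] at hx
      rw [LinearMap.mem_ker]
      have hcomm : Commute Z (μ • (1 : Module.End ℂ V)) := (Commute.one_right Z).smul_right μ
      have h2 := hcomm.mul_geom_sum₂ m.factorial
      rw [smul_pow, one_pow, h1, one_smul] at h2
      set Q := ∑ i ∈ Finset.range m.factorial, Z ^ i * (μ • (1 : Module.End ℂ V)) ^ (m.factorial - 1 - i)
        with hQ
      have hcomm2 : Commute (Z - μ • (1 : Module.End ℂ V)) Q := by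
        rw [hQ]
        refine Commute.sum_right _ _ _ fun i _ => ?_
        refine Commute.mul_right ?_ ?_
        · exact ((Commute.refl Z).sub_left hcomm.symm).pow_right _
        · exact (hcomm.sub_left (Commute.refl _)).pow_right _
      rw [← h2, hcomm2.mul_pow, (hcomm2.pow_pow m m).eq, Module.End.mul_apply, hx, map_zero]
  refine LinearMap.ext fun x => ?_
  exact htop (Submodule.mem_top (x := x))

end TOR
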