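import Mathlib
import Pool.Agent.Helper34.TOR.Defs
import Pool.Agent.Helper34.TOR.Api
import Pool.Agent.Helper34.TOR.LemG
import Pool.Agent.Helper34.TOR.HSa
import Pool.Agent.Helper34.TOR.HSb

/-!
# TOR-30: powers of transvections die

`H ⊇ IA n`, `f : H →* End V`, `dim V + 1 ≤ n`, `A = f (MM n)` finite with `a` elements, `MM n` normal.

PROOF. `A` (a set of operators) is a finite group under multiplication (image of `MM n ≤ IA n ≤ H`), every element has order
dividing `a`, so `x^a = 1` for `x ∈ A`; it is normalised by `f H`. For `h ∈ H` the conjugation by `f h` is a permutation of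
the finite set `A`, so its `a!`-th power is trivial: `f (h ^ a!)` commutes with all elements of `A`.
Let `q = N * a!`, `i ≠ k`, `B = {b : b ≠ i, b ≠ k}` (`n - 2` elements). `(R b k)^N ∈ H`, so `α b := f ((R b k)^q)`,
`γ b := f ((R i b)^q)` commute with `A`. Let `z := f ((R i k)^(q^2))` (`q^2` is a multiple of `N`). All are units of `End V`.
`(R b k)^q : x_b ↦ x_b x_k^q`, `(R b k)^q * T i (1, w) * ((R b k)^q)⁻¹ = T i (1, (R b k)^q w)` for `w ∈ Sx i` (`Sti_conj`).
* `α b, α d` commute (`R b k`, `R d k` commute for `b ≠ d`: check on letters). `α b`, `γ d` commute for `b ≠ d`; `α b`, `z` commute.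
* `γ b γ d γ b⁻¹ γ d⁻¹ = f (T i (1, ⁅x_b^q, x_d^q⁆)) ∈ A` (`T_mem_MM`, `T_mem_IA_iff`), `z γ b z⁻¹ γ b⁻¹ ∈ A` in the same way.
* `α b γ b (α b)⁻¹ (γ b)⁻¹ = f (T i (1, (x_b x_k^q)^q x_b^{-q}))` and `(x_b x_k^q)^q x_b^{-q} = w_b x_k^(q^2)` with `w_b` in the commutator
  subgroup; so it is `m_b z` with `m_b = f (T i (1, w_b)) ∈ A`.
Since elements of `A` are central in the group generated by `α, γ, z, A` and have `a`-th power `1`: if `⁅x,y⁆ ∈ A` then
`x^a` commutes with `y` (`x^a y x^{-a} = ⁅x,y⁆^a y`).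
Put `c b = (γ b)^a`, `ζ = z^(a^2)`, `a' b = (α b)^a`. Then: `a'`s commute; `c`s commute (`(γ b)^a` commutes with `γ d`); `a' b`, `c d` commute
(`b ≠ d`); `z^a` commutes with `γ b` and `α b`, so `ζ` commutes with everything; `α b γ b (α b)⁻¹ = m_b z γ b`, so
`(α b)^a γ b (α b)^{-a} = (m_b z)^a γ b = z^a γ b` (`α b` commutes with `m_b`, `z`), hence `a' b * c b * (a' b)⁻¹ = (z^a γ b)^a = z^(a^2) (γ b)^a = ζ * c b`.
So (`B` is nonempty, `n ≥ 3`) `hs_root` gives: `ζ^((dim V)!) - 1` nilpotent; apply `hs_uni` to `(a' b)^((dim V)!)`, `c b`, `ζ^((dim V)!)`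
(`dim V ≤ n - 1 = |B| + 1`): `ζ^((dim V)!) = 1`. Now `ζ^(d!) = f ((R i k)^(q^2 * a^2 * d!))`, `d = dim V`.
-/

namespace TOR

open Helper38.AutF

private theorem c2_pow_left {G : Type*} [Group G] {x y m : G} (h : x * y = m * y * x)
    (hm : Commute m x) (k : ℕ) : x ^ k * y = m ^ k * y * x ^ k := by
  induction k with
  | zero => simp
  | succ k ih =>
    have h1 : m ^ k * x = x * m ^ k := (hm.pow_left k).eq
    calc x ^ (k + 1) * y = x * (x ^ k * y) := by rw [pow_succ', mul_assoc]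
      _ = (x * m ^ k) * y * x ^ k := by rw [ih]; simp only [mul_assoc]
      _ = m ^ k * (x * y) * x ^ k := by rw [← h1]; simp only [mul_assoc]
      _ = m ^ (k + 1) * y * x ^ (k + 1) := by
        rw [h, pow_succ, pow_succ']; simp only [mul_assoc]

private theorem c2_pow_right {G : Type*} [Group G] {x y m : G} (h : x * y = m * y * x)
    (hm : Commute m y) (k : ℕ) : x * y ^ k = m ^ k * y ^ k * x := by
  induction k with
  | zero => simp
  | succ k ih =>
    have h1 : y ^ k * m = m * y ^ k := (hm.pow_right k).eq.symm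
    calc x * y ^ (k + 1) = (x * y ^ k) * y := by rw [pow_succ, mul_assoc]
      _ = m ^ k * y ^ k * (x * y) := by rw [ih]; simp only [mul_assoc]
      _ = m ^ k * (y ^ k * m) * y * x := by rw [h]; simp only [mul_assoc]
      _ = m ^ (k + 1) * y ^ (k + 1) * x := by
        rw [h1, pow_succ, pow_succ]; simp only [mul_assoc]

private theorem c2_core {V : Type*} [AddCommGroup V] [Module ℂ V] [FiniteDimensional ℂ V]
    {B : Type*} [Fintype B] [Nonempty B] (a : ℕ) (α γ : B → (Module.End ℂ V)ˣ)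
    (z : (Module.End ℂ V)ˣ) (A : Set (Module.End ℂ V)ˣ) (hA : ∀ m ∈ A, m ^ a = 1)
    (hAα : ∀ m ∈ A, ∀ b, Commute m (α b)) (hAγ : ∀ m ∈ A, ∀ b, Commute m (γ b))
    (hAz : ∀ m ∈ A, Commute m z) (h1 : ∀ b d, Commute (α b) (α d))
    (h2 : ∀ b d, b ≠ d → Commute (α b) (γ d)) (h3 : ∀ b, Commute (α b) z)
    (h4 : ∀ b d, ∃ m ∈ A, γ b * γ d = m * γ d * γ b)
    (h5 : ∀ b, ∃ m ∈ A, z * γ b = m * γ b * z)
    (h6 : ∀ b, ∃ m ∈ A, α b * γ b = (m * z) * γ b * α b)
    (hdim : Module.finrank ℂ V ≤ Fintype.card B + 1) :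
    z ^ (a ^ 2 * (Module.finrank ℂ V).factorial) = 1 := by
  have cγ : ∀ b d, Commute (γ b ^ a) (γ d) := by
    intro b d
    obtain ⟨m, hm, he⟩ := h4 b d
    have h := c2_pow_left he (hAγ m hm b) a
    rw [hA m hm, one_mul] at h
    exact h
  have cz : ∀ b, Commute (z ^ a) (γ b) := by
    intro b
    obtain ⟨m, hm, he⟩ := h5 b
    have h := c2_pow_left he (hAz m hm) a
    rw [hA m hm, one_mul] at h
    exact h
  have e : z ^ (a ^ 2) = (z ^ a) ^ a := by rw [← pow_mul, sq]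
  set ζ := z ^ (a ^ 2) with hζ
  have hζα : ∀ b, Commute ζ (α b ^ a) := fun b => ((h3 b).symm.pow_pow _ _)
  have hζγ : ∀ b, Commute ζ (γ b ^ a) := fun b => by
    rw [e]
    exact (cz b).pow_pow _ _
  have key : ∀ b, α b ^ a * γ b ^ a = ζ * γ b ^ a * α b ^ a := by
    intro b
    obtain ⟨m, hm, he⟩ := h6 b
    have h := c2_pow_left he ((hAα m hm b).mul_left (h3 b).symm) a
    rw [(hAz m hm).mul_pow, hA m hm, one_mul] at h
    have h' := c2_pow_right h (cz b) a
    rw [← e] at h'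
    exact h'
  obtain ⟨b0⟩ := ‹Nonempty B›
  have hnil := hs_root (α b0 ^ a) (γ b0 ^ a) ζ (key b0) (hζα b0) (hζγ b0)
  have hfin := hs_uni (fun b => (α b ^ a) ^ (Module.finrank ℂ V).factorial) (fun b => γ b ^ a)
    (ζ ^ (Module.finrank ℂ V).factorial)
    (fun b d => ((h1 b d).pow_pow _ _).pow_pow _ _)
    (fun b d => (cγ b d).pow_right _)
    (fun b d hbd => ((h2 b d hbd).pow_pow _ _).pow_left _)
    (fun b => c2_pow_left (key b) (hζα b) _)
    (fun b => (hζα b).pow_pow _ _)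
    (fun b => (hζγ b).pow_left _) hnil hdim
  rw [pow_mul]
  exact hfin

private theorem c2_commR {n : ℕ} {b c d e : Fin n} (hbd : b ≠ d) (hce : c ≠ d) (heb : e ≠ b)
    (hcb : c ≠ b) (hed : e ≠ d) : Commute (R b c) (R d e) := by
  refine aut_ext fun j => ?_
  rw [MulAut.mul_apply, MulAut.mul_apply]
  by_cases h1 : j = b
  · subst h1
    rw [R_ne hbd, R_self hcb, map_mul, R_ne hbd, R_ne hce]
  · by_cases h2 : j = d
    · subst h2
      rw [R_self hed, R_ne h1, map_mul, R_self hed, R_ne h1, R_ne heb]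
    · rw [R_ne h1, R_ne h2, R_ne h1]

private theorem c2_Rpow {n : ℕ} (i j : Fin n) (m : ℕ) : R i j ^ m = T i (1, lx i j ^ m) := by
  rw [R, ← map_pow]
  congr 1
  ext <;> simp

private theorem c2_T_MM {n : ℕ} (i : Fin n) (w : Sx i)
    (hw : (w : FreeGroup (Fin n)) ∈ commutator (FreeGroup (Fin n))) : T i (1, w) ∈ MM n := by
  refine T_mem_MM i _ ((T_mem_IA_iff i _).2 ?_)
  simpa using hw

open scoped commutatorElement in
/-- commutator of two elements `T i (1, u)` -/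
private theorem c2_T_comm {n : ℕ} (i : Fin n) (u v : Sx i) :
    ∃ m ∈ MM n, T i (1, u) * T i (1, v) = m * T i (1, v) * T i (1, u) := by
  refine ⟨T i (1, u * v * u⁻¹ * v⁻¹), c2_T_MM i _ ?_, ?_⟩
  · have : ((u * v * u⁻¹ * v⁻¹ : Sx i) : FreeGroup (Fin n)) =
        ⁅(u : FreeGroup (Fin n)), (v : FreeGroup (Fin n))⁆ := by
      simp [commutatorElement_def]
    rw [this]
    exact Subgroup.commutator_mem_commutator (Subgroup.mem_top _) (Subgroup.mem_top _)
  · rw [← map_mul, ← map_mul, ← map_mul]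
    congr 1
    ext <;> simp

/-- the conjugate of `T i (1, x_b ^ q)` by `(R b k) ^ q` -/
private theorem c2_conj {n : ℕ} {i k b : Fin n} (hik : i ≠ k) (hbi : b ≠ i) (hbk : b ≠ k) (q : ℕ) :
    ∃ m ∈ MM n, R b k ^ q * R i b ^ q = (m * R i k ^ (q ^ 2)) * R i b ^ q * R b k ^ q := by
  have hS : R b k ^ q ∈ Sti i := pow_mem (R_mem_Sti hbi hik.symm) q
  have h1 := Sti_conj (R b k ^ q) hS (1, lx i b ^ q)
  have hRk : ∀ m : ℕ, (R b k ^ m) (FreeGroup.of b) = FreeGroup.of b * FreeGroup.of k ^ m := by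
    intro m
    induction m with
    | zero => simp
    | succ m ih =>
      rw [pow_succ', MulAut.mul_apply, ih, map_mul, map_pow, R_self hbk.symm, R_ne hbk.symm,
        pow_succ', mul_assoc]
  have h2 : act (R b k ^ q) hS (lx i b ^ q) = (lx i b * lx i k ^ q) ^ q := by
    rw [map_pow]
    congr 1
    apply Subtype.ext
    rw [act_coe, lx_ne hbi, hRk]
    simp [lx_ne hbi, lx_ne hik.symm]
  rw [map_one, h2] at h1
  refine ⟨T i (1, (lx i b * lx i k ^ q) ^ q * (lx i b ^ q)⁻¹ * (lx i k ^ (q ^ 2))⁻¹), ?_, ?_⟩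
  · refine c2_T_MM i _ ?_
    rw [← Abelianization.ker_of, MonoidHom.mem_ker]
    simp only [Subgroup.coe_mul, Subgroup.coe_inv, Subgroup.coe_pow, map_mul, map_inv, map_pow,
      mul_pow, ← pow_mul, sq]
    rw [mul_comm (Abelianization.of ((lx i b : Sx i) : FreeGroup (Fin n)) ^ q),
      mul_inv_cancel_right, mul_inv_cancel]
  · rw [mul_inv_eq_iff_eq_mul] at h1
    rw [c2_Rpow i b, h1, c2_Rpow i k, ← map_mul, ← map_mul]
    congr 2
    ext
    · simp
    · simp [mul_assoc]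

theorem c2 {n : ℕ} (hn : 3 ≤ n) (hMn : (MM n).Normal) (H : Subgroup (AF n)) (hI : IA n ≤ H)
    {V : Type*} [AddCommGroup V] [Module ℂ V] [FiniteDimensional ℂ V]
    (f : H →* Module.End ℂ V) (hdim : Module.finrank ℂ V + 1 ≤ n) (N : ℕ)
    (hN : ∀ g : AF n, g ^ N ∈ H) (a : ℕ)
    (hfin : {A : Module.End ℂ V | ∃ κ : H, (κ : AF n) ∈ MM n ∧ A = f κ}.Finite)
    (ha : {A : Module.End ℂ V | ∃ κ : H, (κ : AF n) ∈ MM n ∧ A = f κ}.ncard = a)
    {i k : Fin n} (hik : i ≠ k) :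
    ∀ h : R i k ^ ((N * a.factorial) ^ 2 * a ^ 2 * (Module.finrank ℂ V).factorial) ∈ H,
      f ⟨_, h⟩ = 1 := by
  classical
  intro h
  set F : H →* (Module.End ℂ V)ˣ := f.toHomUnits with hF
  have hFv : ∀ x : H, ((F x : (Module.End ℂ V)ˣ) : Module.End ℂ V) = f x := fun x => rfl
  set AA : Subgroup (Module.End ℂ V)ˣ := ((MM n).subgroupOf H).map F with hAA
  have hMH : MM n ≤ H := (MM_le_IA n).trans hI
  have hset : {A : Module.End ℂ V | ∃ κ : H, (κ : AF n) ∈ MM n ∧ A = f κ} =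
      Units.val '' (AA : Set (Module.End ℂ V)ˣ) := by
    ext A
    constructor
    · rintro ⟨κ, hκ, rfl⟩
      exact ⟨F κ, ⟨κ, hκ, rfl⟩, rfl⟩
    · rintro ⟨_, ⟨κ, hκ, rfl⟩, rfl⟩
      exact ⟨κ, hκ, rfl⟩
  rw [hset] at hfin ha
  have hfinA : (AA : Set (Module.End ℂ V)ˣ).Finite := Set.Finite.of_finite_image hfin
    (Units.val_injective.injOn)
  rw [Set.ncard_image_of_injective _ Units.val_injective] at ha
  have hcard : Nat.card AA = a := ha
  have : Finite AA := hfinA.to_subtype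
  have hpow : ∀ m ∈ AA, m ^ a = 1 := by
    intro m hm
    have h1 : (⟨m, hm⟩ : AA) ^ Nat.card AA = 1 := pow_card_eq_one'
    rw [hcard] at h1
    exact congrArg Subtype.val h1
  have hnorm : ∀ (x : H), ∀ m ∈ AA, F x * m * (F x)⁻¹ ∈ AA := by
    rintro x _ ⟨κ, hκ, rfl⟩
    refine ⟨x * κ * x⁻¹, ?_, by rw [map_mul, map_mul, map_inv]⟩
    have h1 : (κ : AF n) ∈ MM n := hκ
    exact hMn.conj_mem _ h1 (x : AF n)
  -- the action on `AA`
  let σ : H →* Equiv.Perm AA :=
    { toFun := fun x =>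
        { toFun := fun m => ⟨F x * m * (F x)⁻¹, hnorm x m m.2⟩
          invFun := fun m => ⟨F x⁻¹ * m * (F x⁻¹)⁻¹, hnorm x⁻¹ m m.2⟩
          left_inv := by
            intro m
            apply Subtype.ext
            simp only [map_inv]
            group
          right_inv := by
            intro m
            apply Subtype.ext
            simp only [map_inv]
            group }
      map_one' := by
        ext m
        simp
      map_mul' := by
        intro x y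
        apply Equiv.ext
        intro m
        apply Subtype.ext
        simp [mul_assoc] }
  have hcent : ∀ (x : H), ∀ m ∈ AA, Commute m (F x ^ a.factorial) := by
    intro x m hm
    have h1 : (σ x) ^ Nat.card (Equiv.Perm AA) = 1 := pow_card_eq_one'
    rw [Nat.card_perm, hcard, ← map_pow] at h1
    have h2 := congrArg Subtype.val (Equiv.congr_fun h1 ⟨m, hm⟩)
    have h3 : F (x ^ a.factorial) * m * (F (x ^ a.factorial))⁻¹ = m := h2
    rw [map_pow] at h3
    exact (mul_inv_eq_iff_eq_mul.1 h3).symm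
  have hmemMM : ∀ (m : AF n) (hm : m ∈ MM n), F ⟨m, hMH hm⟩ ∈ AA := fun m hm => ⟨_, hm, rfl⟩
  set q := N * a.factorial with hq
  have hqH : ∀ g : AF n, g ^ q ∈ H := by
    intro g
    rw [hq, pow_mul]
    exact pow_mem (hN g) _
  have hqC : ∀ g : AF n, ∀ m ∈ AA, Commute m (F ⟨g ^ q, hqH g⟩) := by
    intro g m hm
    have h1 : (⟨g ^ q, hqH g⟩ : H) = ⟨g ^ N, hN g⟩ ^ a.factorial := by
      apply Subtype.ext
      rw [SubmonoidClass.mk_pow]
      show g ^ q = (g ^ N) ^ a.factorial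
      rw [← pow_mul]
    rw [h1, map_pow]
    exact hcent _ m hm
  have hq2 : R i k ^ (q ^ 2) ∈ H := by
    rw [sq, pow_mul]
    exact pow_mem (hqH _) _
  have hzC : ∀ m ∈ AA, Commute m (F ⟨R i k ^ (q ^ 2), hq2⟩) := by
    intro m hm
    have h1 : (⟨R i k ^ (q ^ 2), hq2⟩ : H) = ⟨R i k ^ q, hqH _⟩ ^ q := by
      apply Subtype.ext
      rw [SubmonoidClass.mk_pow]
      show R i k ^ (q ^ 2) = (R i k ^ q) ^ q
      rw [← pow_mul, sq]
    rw [h1, map_pow]
    exact (hqC _ m hm).pow_right _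
  have hcomm : ∀ (x y : AF n) (hx : x ∈ H) (hy : y ∈ H), Commute x y →
      Commute (F ⟨x, hx⟩) (F ⟨y, hy⟩) := by
    intro x y hx hy hxy
    have h1 : (⟨x, hx⟩ : H) * ⟨y, hy⟩ = ⟨y, hy⟩ * ⟨x, hx⟩ := Subtype.ext hxy
    have h2 := congrArg F h1
    rwa [map_mul, map_mul] at h2
  have hrel : ∀ (x y m : AF n) (hx : x ∈ H) (hy : y ∈ H) (hm : m ∈ MM n), x * y = m * y * x →
      F ⟨x, hx⟩ * F ⟨y, hy⟩ = F ⟨m, hMH hm⟩ * F ⟨y, hy⟩ * F ⟨x, hx⟩ := by
    intro x y m hx hy hm hxy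
    have h1 : (⟨x, hx⟩ : H) * ⟨y, hy⟩ = ⟨m, hMH hm⟩ * ⟨y, hy⟩ * ⟨x, hx⟩ := Subtype.ext hxy
    have h2 := congrArg F h1
    rwa [map_mul, map_mul, map_mul] at h2
  let B := {b : Fin n // b ≠ i ∧ b ≠ k}
  have hBcard : Fintype.card B = n - 2 := by
    have h1 : Fintype.card B = (({i, k} : Finset (Fin n))ᶜ).card := by
      rw [Fintype.card_subtype]
      congr 1
      ext b
      simp
    rw [h1, Finset.card_compl, Fintype.card_fin, Finset.card_pair hik]
  have : Nonempty B := by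
    rw [← Fintype.card_pos_iff, hBcard]
    omega
  have hmain := c2_core (B := B) a (fun b => F ⟨R b.1 k ^ q, hqH _⟩)
    (fun b => F ⟨R i b.1 ^ q, hqH _⟩) (F ⟨R i k ^ (q ^ 2), hq2⟩) (AA : Set (Module.End ℂ V)ˣ)
    hpow (fun m hm b => hqC _ m hm) (fun m hm b => hqC _ m hm) hzC
    (by
      intro b d
      apply hcomm
      by_cases hbd : b = d
      · rw [hbd]
      · have hbd' : b.1 ≠ d.1 := fun h => hbd (Subtype.ext h)
        exact (c2_commR hbd' d.2.2.symm b.2.2.symm b.2.2.symm d.2.2.symm).pow_pow _ _)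
    (by
      intro b d hbd
      apply hcomm
      have hbd' : b.1 ≠ d.1 := fun h => hbd (Subtype.ext h)
      exact (c2_commR b.2.1 hik.symm hbd'.symm b.2.2.symm d.2.1).pow_pow _ _)
    (by
      intro b
      apply hcomm
      exact (c2_commR b.2.1 hik.symm b.2.2.symm b.2.2.symm hik.symm).pow_pow _ _)
    (by
      intro b d
      obtain ⟨m, hm, he⟩ := c2_T_comm i (lx i b.1 ^ q) (lx i d.1 ^ q)
      rw [← c2_Rpow, ← c2_Rpow] at he
      exact ⟨_, hmemMM m hm, hrel _ _ _ _ _ hm he⟩)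
    (by
      intro b
      obtain ⟨m, hm, he⟩ := c2_T_comm i (lx i k ^ (q ^ 2)) (lx i b.1 ^ q)
      rw [← c2_Rpow, ← c2_Rpow] at he
      exact ⟨_, hmemMM m hm, hrel _ _ _ _ _ hm he⟩)
    (by
      intro b
      obtain ⟨m, hm, he⟩ := c2_conj hik b.2.1 b.2.2 q
      refine ⟨_, hmemMM m hm, ?_⟩
      have h1 : (⟨R b.1 k ^ q, hqH _⟩ : H) * ⟨R i b.1 ^ q, hqH _⟩ =
          (⟨m, hMH hm⟩ * ⟨R i k ^ (q ^ 2), hq2⟩) * ⟨R i b.1 ^ q, hqH _⟩ *
            ⟨R b.1 k ^ q, hqH _⟩ := Subtype.ext he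
      have h2 := congrArg F h1
      rwa [map_mul, map_mul, map_mul, map_mul] at h2)
    (by rw [hBcard]; omega)
  have h1 : (⟨_, h⟩ : H) =
      ⟨R i k ^ (q ^ 2), hq2⟩ ^ (a ^ 2 * (Module.finrank ℂ V).factorial) := by
    apply Subtype.ext
    rw [SubmonoidClass.mk_pow]
    show R i k ^ (q ^ 2 * a ^ 2 * (Module.finrank ℂ V).factorial) =
      (R i k ^ (q ^ 2)) ^ (a ^ 2 * (Module.finrank ℂ V).factorial)
    rw [← pow_mul, mul_assoc]
  have h2 : F ⟨_, h⟩ = 1 := by rw [h1, map_pow, hmain]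
  have h3 := congrArg Units.val h2
  exact h3

end TOR
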