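import Mathlib

/-!
# TOR: definitions for the Steinberg lemma
-/

namespace TOR

open scoped commutatorElement

/-- matrices of determinant 1 which are the identity outside `J × J` -/
def SLJ {n N : ℕ} (J : Finset (Fin n)) : Set (Matrix (Fin n) (Fin n) (ZMod N)) :=
  {M | M.det = 1 ∧ ∀ i j, (i ∉ J ∨ j ∉ J) → M i j = (1 : Matrix (Fin n) (Fin n) (ZMod N)) i j}

/-- `1 + v ⊗ e_k` (column `k`) -/
def colm {n N : ℕ} (k : Fin n) (v : Fin n → ZMod N) : Matrix (Fin n) (Fin n) (ZMod N) :=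
  1 + Matrix.of (fun i j => if j = k then v i else 0)

/-- `1 + e_k ⊗ v` (row `k`) -/
def rowm {n N : ℕ} (k : Fin n) (v : Fin n → ZMod N) : Matrix (Fin n) (Fin n) (ZMod N) :=
  1 + Matrix.of (fun i j => if i = k then v j else 0)

/-- `v` vanishes outside `J` -/
def Supp {n N : ℕ} (J : Finset (Fin n)) (v : Fin n → ZMod N) : Prop := ∀ i, i ∉ J → v i = 0

/-- a group generated by elements `e i j` with the Steinberg relations, of order dividing `N`, with a
matrix representation over `ZMod N` -/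
structure StData (n N : ℕ) (G : Type*) [Group G] where
  e : Fin n → Fin n → G
  π : G →* Matrix (Fin n) (Fin n) (ZMod N)
  hπ : ∀ i j, i ≠ j → π (e i j) = Matrix.transvection i j 1
  hord : ∀ i j, i ≠ j → e i j ^ N = 1
  hst1 : ∀ i j k l, i ≠ j → k ≠ l → i ≠ l → j ≠ k → Commute (e i j) (e k l)
  hst2 : ∀ i j k, i ≠ j → j ≠ k → i ≠ k → ⁅e i j, e j k⁆ = e i k
  hgen : Subgroup.closure {g | ∃ i j, i ≠ j ∧ g = e i j} = ⊤

variable {n N : ℕ} {G : Type*} [Group G]

/-- the subgroup generated by the `e i j`, `i, j ∈ J` -/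
def StData.GJ (D : StData n N G) (J : Finset (Fin n)) : Subgroup G :=
  Subgroup.closure {g | ∃ i ∈ J, ∃ j ∈ J, i ≠ j ∧ g = D.e i j}

/-- the column group `⟨e j k : j ∈ J⟩` -/
def StData.PJ (D : StData n N G) (J : Finset (Fin n)) (k : Fin n) : Subgroup G :=
  Subgroup.closure {g | ∃ j ∈ J, g = D.e j k}

/-- the row group `⟨e k j : j ∈ J⟩` -/
def StData.QJ (D : StData n N G) (J : Finset (Fin n)) (k : Fin n) : Subgroup G :=
  Subgroup.closure {g | ∃ j ∈ J, g = D.e k j}

end TOR
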