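import Mathlib

/-!
# TOR-22: stable range for `ZMod N`

PROOF. `sr1`: for integers (naturals) `a, b` (lifts): let `t = ∏ p` over the primes `p ∣ N` with `p ∤ a`. For a prime `p ∣ N`:
if `p ∤ a` then `p ∣ t`, so `a + t b ≡ a`, not divisible by `p`; if `p ∣ a` then `p ∤ t` and `a + t b ≡ t b`, which is not divisible by
`p` unless `p ∣ b`. So: for every prime `p ∣ N`, `p ∣ a + t b → p ∣ a ∧ p ∣ b`.
`sr`: let `i₀ ∈ J`, `a, b` lifts of `c i₀` and `d`, `t` as above, `p = - t` at `i₀` and `0` elsewhere. The elements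
`c i - p i * d` (`i ∈ J`) generate the unit ideal of `ZMod N`: otherwise some prime `q ∣ N` divides (lifts of) all of them
(the ideal of `ℤ` generated by `N` and the lifts is `(m)`, `m ∣ N`, `m ≠ 1`, take a prime `q ∣ m`), so `q ∣ c i` for `i ≠ i₀` and
`q ∣ a + t b`, hence `q ∣ a`, `q ∣ b`; then `q` divides `α d + Σ β c = 1` modulo `N`, contradiction. The ideal
`Ideal.span {c i - p i * d | i ∈ J} = ⊤` gives the coefficients `r` (`Ideal.mem_span_…`/`Submodule.mem_span_finset` or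
`Finset` induction). (`N = 0` is excluded by `hN`; `N = 1` is trivial.)
-/

namespace TOR

theorem sr1 (N a b : ℕ) (hN : 0 < N) :
    ∃ t : ℕ, ∀ p, p.Prime → p ∣ N → p ∣ a + t * b → p ∣ a ∧ p ∣ b := by
  refine ⟨∏ p ∈ N.primeFactors.filter (fun p => ¬ p ∣ a), p, fun p hp hpN hpd => ?_⟩
  by_cases ha : p ∣ a
  · refine ⟨ha, ?_⟩
    have h1 : p ∣ (∏ p ∈ N.primeFactors.filter (fun p => ¬ p ∣ a), p) * b :=
      (Nat.dvd_add_right ha).1 hpd
    rcases (Nat.Prime.dvd_mul hp).1 h1 with h2 | h2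
    · exfalso
      obtain ⟨q, hq, hpq⟩ := (Prime.dvd_finsetProd_iff hp.prime _).1 h2
      rw [Finset.mem_filter, Nat.mem_primeFactors] at hq
      have h3 : p = q := (Nat.prime_dvd_prime_iff_eq hp hq.1.1).1 hpq
      subst h3
      exact hq.2 ha
    · exact h2
  · exfalso
    have h1 : p ∣ ∏ p ∈ N.primeFactors.filter (fun p => ¬ p ∣ a), p := by
      refine Finset.dvd_prod_of_mem _ ?_
      rw [Finset.mem_filter, Nat.mem_primeFactors]
      exact ⟨⟨hp, hpN, hN.ne'⟩, ha⟩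
    exact ha ((Nat.dvd_add_left (Dvd.dvd.mul_right h1 b)).1 hpd)

theorem sr {N : ℕ} (hN : 0 < N) {ι : Type*} (J : Finset ι) (hJ : J.Nonempty) (c : ι → ZMod N)
    (d : ZMod N) (h : ∃ (α : ZMod N) (β : ι → ZMod N), α * d + ∑ i ∈ J, β i * c i = 1) :
    ∃ p : ι → ZMod N, (∀ i, i ∉ J → p i = 0) ∧ ∃ r : ι → ZMod N, (∀ i, i ∉ J → r i = 0) ∧
      ∑ i ∈ J, r i * (c i - p i * d) = 1 := by
  classical
  have : NeZero N := ⟨hN.ne'⟩
  obtain ⟨i₀, hi₀⟩ := hJ
  obtain ⟨α, β, hαβ⟩ := h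
  obtain ⟨t, ht⟩ := sr1 N (c i₀).val d.val hN
  set p : ι → ZMod N := fun i => if i = i₀ then -(t : ZMod N) else 0 with hp
  have hI : Ideal.span ((fun i => c i - p i * d) '' (J : Set ι)) = ⊤ := by
    by_contra hne
    obtain ⟨M, hM, hle⟩ := Ideal.exists_le_maximal _ hne
    have hmem : ∀ i ∈ J, c i - p i * d ∈ M := fun i hi => hle (Ideal.subset_span ⟨i, hi, rfl⟩)
    obtain ⟨q, hq⟩ := CharP.exists (ZMod N ⧸ M)
    have hmk : ∀ n : ℕ, q ∣ n ↔ (n : ZMod N) ∈ M := by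
      intro n
      rw [← CharP.cast_eq_zero_iff (ZMod N ⧸ M) q n, ← Ideal.Quotient.eq_zero_iff_mem, map_natCast]
    have hqN : q ∣ N := (hmk N).2 (by rw [ZMod.natCast_self]; exact M.zero_mem)
    have hq0 : q ≠ 0 := by
      rintro rfl
      exact hN.ne' (Nat.eq_zero_of_zero_dvd hqN)
    have : (M : Ideal (ZMod N)).IsPrime := hM.isPrime
    have hqp : q.Prime := (CharP.char_is_prime_or_zero (ZMod N ⧸ M) q).resolve_right hq0
    have h1 : q ∣ (c i₀).val + t * d.val := by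
      rw [hmk]
      have h2 := hmem i₀ hi₀
      have h3 : c i₀ - p i₀ * d = (((c i₀).val + t * d.val : ℕ) : ZMod N) := by
        push_cast
        rw [ZMod.natCast_zmod_val, ZMod.natCast_zmod_val, hp]
        simp
      rwa [h3] at h2
    obtain ⟨h4, h5⟩ := ht q hqp hqN h1
    have hd : d ∈ M := by
      have h6 := (hmk _).1 h5
      rwa [ZMod.natCast_zmod_val] at h6
    have hc : ∀ i ∈ J, c i ∈ M := by
      intro i hi
      have h7 : c i = (c i - p i * d) + p i * d := by ring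
      rw [h7]
      exact M.add_mem (hmem i hi) (M.mul_mem_left _ hd)
    apply hM.ne_top
    rw [Ideal.eq_top_iff_one, ← hαβ]
    exact M.add_mem (M.mul_mem_left _ hd) (M.sum_mem fun i hi => M.mul_mem_left _ (hc i hi))
  have h1 : (1 : ZMod N) ∈ Submodule.span (ZMod N) ((fun i => c i - p i * d) '' (J : Set ι)) := by
    have h2 : (1 : ZMod N) ∈ Ideal.span ((fun i => c i - p i * d) '' (J : Set ι)) := by
      rw [hI]; trivial
    exact h2
  rw [Submodule.mem_span_image_finset_iff_exists_fun] at h1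
  obtain ⟨r, hr⟩ := h1
  refine ⟨p, fun i hi => ?_, fun i => if h : i ∈ J then r ⟨i, h⟩ else 0,
    fun i hi => dif_neg hi, ?_⟩
  · have : i ≠ i₀ := fun h => hi (h ▸ hi₀)
    simp [hp, this]
  · rw [← hr, ← Finset.sum_coe_sort J]
    refine Finset.sum_congr rfl fun i _ => ?_
    show (if h : (i : ι) ∈ J then r ⟨i, h⟩ else 0) * (c i - p i * d) = r i • (c i - p i * d)
    rw [dif_pos i.2, smul_eq_mul]

end TOR
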