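import Mathlib
import Pool.Agent.Helper34.TOR.StDefs
import Pool.Agent.Helper34.TOR.Zm

/-!
# TOR-23: factorisation of matrices over `ZMod N`

PROOFS. `SLJ_mul`, `SLJ_inv` (closed under products; `M⁻¹ = adjugate M` is again the identity outside `J`: `M` is block diagonal;
e.g. from `M * M⁻¹ = 1`: for `i ∉ J` row `i` of `M` is `e_i`, so row `i` of `M⁻¹` is `e_i`; columns likewise from `M⁻¹ * M = 1`),
`SLJ_transpose`. `colm k v * colm k w = colm k (v + w)` if `w k = 0`… (if `v k = w k = 0`), `colm k 0 = 1`, `det (colm k v) = 1` if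
`v k = 0` (product of transvections, or `det (1 + u ⊗ v) = 1 + v·u`: `Matrix.det_one_add_replicateCol_mul_replicateRow`-type lemma),
`(colm k v)ᵀ = rowm k v`.
`factor`: `J' = J.erase k`, column `k` of `M`: `c i = M i k` (`i ∈ J'`), `d = M k k`; `M i k = 0` for `i ∉ J`. From
`(M⁻¹ * M) k k = 1` (or `adjugate`): `Σ_{i ∈ J} (M⁻¹ k i) M i k = 1`, the hypothesis of `sr`. Get `p, r` with `v := c - p d` (on `J'`),
`Σ r v = 1`. Put `r' = (d - 1) r`. Then `M₁ = colm k (-v) * rowm k (-r') * colm k (-p) * M` has column `k` equal to `e_k`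
(`(c; d) ↦ (v; d) ↦ (v; d - r'·v) = (v; 1) ↦ (0; 1)`), determinant 1, and is the identity outside `J`. Let `ρ` = row `k` of `M₁` without
the entry `k` (supported on `J'`) and `M' = M₁` with row `k` replaced by `e_k`: `M₁ = M' + e_k ⊗ ρ = rowm k (ρ M'⁻¹) * M'`
(`e_k` row of `M'`; `det M' = det M₁ = 1`: expand, or `rowm k (-ρ'') …`; e.g. `M₁ = rowm k ρ₀ * M'` with the unknown `ρ₀` solves
`ρ₀ ᵥ* M' = ρ`; to see `det M' = 1` use `Matrix.det` column expansion along column `k`, which is `e_k` in both matrices, so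
both determinants equal the same minor). `M' ∈ SLJ J'`, `ρ M'⁻¹` is supported on `J'`. So
`M = colm k p * rowm k r' * colm k v * rowm k (ρ M'⁻¹) * M'`.
`factor'`: apply `factor` to `(M⁻¹)ᵀ ∈ SLJ J` and apply the homomorphism `X ↦ (X⁻¹)ᵀ` of invertible matrices to the result:
`((colm k p)⁻¹)ᵀ = (colm k (-p))ᵀ = rowm k (-p)`, `((rowm k q)⁻¹)ᵀ = colm k (-q)`, `(M'⁻¹)ᵀ ∈ SLJ J'`.
-/

namespace TOR

variable {n N : ℕ}

theorem SLJ_mul {J : Finset (Fin n)} {M M' : Matrix (Fin n) (Fin n) (ZMod N)} (h : M ∈ SLJ J)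
    (h' : M' ∈ SLJ J) : M * M' ∈ SLJ J := by
  refine ⟨by rw [Matrix.det_mul, h.1, h'.1, one_mul], fun i j hij => ?_⟩
  rw [Matrix.mul_apply]
  rcases hij with hi | hj
  · have h1 : ∀ l, M i l * M' l j = (1 : Matrix (Fin n) (Fin n) (ZMod N)) i l * M' l j := by
      intro l
      rw [h.2 i l (Or.inl hi)]
    rw [Finset.sum_congr rfl fun l _ => h1 l, ← Matrix.mul_apply, one_mul]
    exact h'.2 i j (Or.inl hi)
  · have h1 : ∀ l, M i l * M' l j = M i l * (1 : Matrix (Fin n) (Fin n) (ZMod N)) l j := by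
      intro l
      rw [h'.2 l j (Or.inr hj)]
    rw [Finset.sum_congr rfl fun l _ => h1 l, ← Matrix.mul_apply, mul_one]
    exact h.2 i j (Or.inr hj)

theorem SLJ_inv {J : Finset (Fin n)} {M : Matrix (Fin n) (Fin n) (ZMod N)} (h : M ∈ SLJ J) :
    M⁻¹ ∈ SLJ J ∧ M * M⁻¹ = 1 ∧ M⁻¹ * M = 1 := by
  have hu : IsUnit M.det := by rw [h.1]; exact isUnit_one
  have h1 := Matrix.mul_nonsing_inv M hu
  have h2 := Matrix.nonsing_inv_mul M hu
  refine ⟨⟨?_, fun i j hij => ?_⟩, h1, h2⟩
  · have h3 := congrArg Matrix.det h1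
    rw [Matrix.det_mul, h.1, one_mul, Matrix.det_one] at h3
    exact h3
  · rcases hij with hi | hj
    · have h3 : (M * M⁻¹) i j = M⁻¹ i j := by
        rw [Matrix.mul_apply]
        have h4 : ∀ l, M i l * M⁻¹ l j =
            (1 : Matrix (Fin n) (Fin n) (ZMod N)) i l * M⁻¹ l j := by
          intro l
          rw [h.2 i l (Or.inl hi)]
        rw [Finset.sum_congr rfl fun l _ => h4 l, ← Matrix.mul_apply, one_mul]
      rw [← h3, h1]
    · have h3 : (M⁻¹ * M) i j = M⁻¹ i j := by
        rw [Matrix.mul_apply]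
        have h4 : ∀ l, M⁻¹ i l * M l j =
            M⁻¹ i l * (1 : Matrix (Fin n) (Fin n) (ZMod N)) l j := by
          intro l
          rw [h.2 l j (Or.inr hj)]
        rw [Finset.sum_congr rfl fun l _ => h4 l, ← Matrix.mul_apply, mul_one]
      rw [← h3, h2]

theorem SLJ_transpose {J : Finset (Fin n)} {M : Matrix (Fin n) (Fin n) (ZMod N)}
    (h : M ∈ SLJ J) : M.transpose ∈ SLJ J := by
  refine ⟨by rw [Matrix.det_transpose, h.1], fun i j hij => ?_⟩
  rw [Matrix.transpose_apply, h.2 j i hij.symm]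
  exact congrFun (congrFun (Matrix.transpose_one (n := Fin n) (α := ZMod N)) i) j

private theorem h86_colm_apply (k : Fin n) (v : Fin n → ZMod N) (i j : Fin n) :
    colm k v i j = (1 : Matrix (Fin n) (Fin n) (ZMod N)) i j + if j = k then v i else 0 := rfl

private theorem h86_rowm_apply (k : Fin n) (v : Fin n → ZMod N) (i j : Fin n) :
    rowm k v i j = (1 : Matrix (Fin n) (Fin n) (ZMod N)) i j + if i = k then v j else 0 := rfl

private theorem h86_colm_mul_apply (k : Fin n) (v : Fin n → ZMod N)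
    (M : Matrix (Fin n) (Fin n) (ZMod N)) (i j : Fin n) :
    (colm k v * M) i j = M i j + v i * M k j := by
  rw [colm, add_mul, one_mul, Matrix.add_apply, Matrix.mul_apply]
  congr 1
  simp only [Matrix.of_apply, ite_mul, zero_mul, Finset.sum_ite_eq', Finset.mem_univ, if_true]

private theorem h86_rowm_mul_apply (k : Fin n) (v : Fin n → ZMod N)
    (M : Matrix (Fin n) (Fin n) (ZMod N)) (i j : Fin n) :
    (rowm k v * M) i j = M i j + if i = k then ∑ l, v l * M l j else 0 := by
  rw [rowm, add_mul, one_mul, Matrix.add_apply, Matrix.mul_apply]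
  congr 1
  split_ifs with h
  · refine Finset.sum_congr rfl fun l _ => ?_
    simp only [Matrix.of_apply, if_pos h]
  · refine Finset.sum_eq_zero fun l _ => ?_
    simp only [Matrix.of_apply, if_neg h, zero_mul]

private theorem h86_mul_rowm_apply (k : Fin n) (v : Fin n → ZMod N)
    (M : Matrix (Fin n) (Fin n) (ZMod N)) (i j : Fin n) :
    (M * rowm k v) i j = M i j + M i k * v j := by
  rw [rowm, mul_add, mul_one, Matrix.add_apply, Matrix.mul_apply]
  congr 1
  simp only [Matrix.of_apply, mul_ite, mul_zero, Finset.sum_ite_eq', Finset.mem_univ, if_true]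

theorem colm_mul {k : Fin n} {v w : Fin n → ZMod N} (hw : w k = 0) :
    colm k v * colm k w = colm k (v + w) := by
  ext i j
  rw [h86_colm_mul_apply, h86_colm_apply, h86_colm_apply, h86_colm_apply, hw, ite_self, add_zero,
    Pi.add_apply]
  by_cases hj : j = k
  · subst hj
    rw [if_pos rfl, if_pos rfl, Matrix.one_apply_eq]
    ring
  · rw [if_neg hj, if_neg hj, Matrix.one_apply_ne (Ne.symm hj)]
    ring

theorem colm_transpose (k : Fin n) (v : Fin n → ZMod N) : (colm k v).transpose = rowm k v := by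
  ext i j
  rw [Matrix.transpose_apply, h86_colm_apply, h86_rowm_apply]
  congr 1
  exact congrFun (congrFun (Matrix.transpose_one (n := Fin n) (α := ZMod N)) i) j

theorem rowm_mul {k : Fin n} {v w : Fin n → ZMod N} (hv : v k = 0) :
    rowm k v * rowm k w = rowm k (v + w) := by
  rw [← colm_transpose, ← colm_transpose, ← Matrix.transpose_mul, colm_mul hv, colm_transpose,
    add_comm]

theorem colm_det {k : Fin n} {v : Fin n → ZMod N} (hv : v k = 0) : (colm k v).det = 1 := by
  have h1 : colm k v = 1 + Matrix.replicateCol Unit v *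
      Matrix.replicateRow Unit (Pi.single k (1 : ZMod N)) := by
    ext i j
    rw [h86_colm_apply, Matrix.add_apply, Matrix.mul_apply]
    simp [Pi.single_apply]
  rw [h1, Matrix.det_one_add_replicateCol_mul_replicateRow]
  simp [hv]

private theorem h86_colm_zero (k : Fin n) : colm k (0 : Fin n → ZMod N) = 1 := by
  ext i j
  rw [h86_colm_apply]
  simp

private theorem h86_colm_neg {k : Fin n} {v : Fin n → ZMod N} (hv : v k = 0) :
    colm k v * colm k (-v) = 1 := by
  rw [colm_mul (by rw [Pi.neg_apply, hv, neg_zero]), add_neg_cancel, h86_colm_zero]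

private theorem h86_rowm_neg {k : Fin n} {v : Fin n → ZMod N} (hv : v k = 0) :
    rowm k v * rowm k (-v) = 1 := by
  rw [rowm_mul hv, add_neg_cancel, ← colm_transpose, h86_colm_zero, Matrix.transpose_one]

private theorem h86_colm_mem {J : Finset (Fin n)} {k : Fin n} (hk : k ∈ J)
    {v : Fin n → ZMod N} (hv : Supp (J.erase k) v) : colm k v ∈ SLJ J := by
  refine ⟨colm_det (hv k (Finset.notMem_erase k J)), fun i j hij => ?_⟩
  rw [h86_colm_apply]
  rcases hij with hi | hj
  · rw [hv i fun h => hi (Finset.mem_of_mem_erase h), ite_self, add_zero]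
  · rw [if_neg, add_zero]
    rintro rfl
    exact hj hk

private theorem h86_rowm_mem {J : Finset (Fin n)} {k : Fin n} (hk : k ∈ J)
    {v : Fin n → ZMod N} (hv : Supp (J.erase k) v) : rowm k v ∈ SLJ J := by
  rw [← colm_transpose]
  exact SLJ_transpose (h86_colm_mem hk hv)

private theorem h86_supp_neg {J : Finset (Fin n)} {v : Fin n → ZMod N} (hv : Supp J v) :
    Supp J (-v) := fun i hi => by rw [Pi.neg_apply, hv i hi, neg_zero]

theorem factor (hN : 0 < N) {J : Finset (Fin n)} {k : Fin n} (hk : k ∈ J)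
    (hJ : (J.erase k).Nonempty) {M : Matrix (Fin n) (Fin n) (ZMod N)} (hM : M ∈ SLJ J) :
    ∃ p₁ q₁ p₂ q₂ : Fin n → ZMod N, Supp (J.erase k) p₁ ∧ Supp (J.erase k) q₁ ∧
      Supp (J.erase k) p₂ ∧ Supp (J.erase k) q₂ ∧ ∃ M' ∈ SLJ (N := N) (J.erase k),
      M = colm k p₁ * rowm k q₁ * colm k p₂ * rowm k q₂ * M' := by
  have hkJ : k ∉ J.erase k := Finset.notMem_erase k J
  have hcol : ∀ i, i ∉ J → M i k = 0 := by
    intro i hi
    rw [hM.2 i k (Or.inl hi), Matrix.one_apply_ne]
    rintro rfl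
    exact hi hk
  have hor : ∀ i, i ∉ J.erase k → i = k ∨ i ∉ J := by
    intro i hi
    by_cases h : i = k
    · exact Or.inl h
    · exact Or.inr fun h1 => hi (Finset.mem_erase.2 ⟨h, h1⟩)
  obtain ⟨hinv, hmi, him⟩ := SLJ_inv hM
  -- unimodularity of the column
  have hun : M⁻¹ k k * M k k + ∑ i ∈ J.erase k, M⁻¹ k i * M i k = 1 := by
    have h1 := congrFun (congrFun him k) k
    rw [Matrix.mul_apply, Matrix.one_apply_eq] at h1
    rw [← h1, Finset.add_sum_erase J (fun i => M⁻¹ k i * M i k) hk]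
    refine Finset.sum_subset (Finset.subset_univ J) fun i _ hi => ?_
    rw [hcol i hi, mul_zero]
  obtain ⟨p, hp, r, hr, hpr⟩ := sr hN (J.erase k) hJ (fun i => M i k) (M k k)
    ⟨M⁻¹ k k, fun i => M⁻¹ k i, hun⟩
  have hpk : p k = 0 := hp k hkJ
  have hrk : r k = 0 := hr k hkJ
  set v : Fin n → ZMod N := fun i => if i = k then 0 else M i k - p i * M k k with hv
  have hvk : v k = 0 := by rw [hv]; exact if_pos rfl
  have hvs : Supp (J.erase k) v := by
    intro i hi
    rcases hor i hi with h | h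
    · rw [h, hvk]
    · rw [hv]
      show (if i = k then 0 else M i k - p i * M k k) = 0
      rw [hcol i h, hp i hi, zero_mul, sub_zero, ite_self]
  set r' : Fin n → ZMod N := fun i => (M k k - 1) * r i with hr'
  have hrs : Supp (J.erase k) r' := by
    intro i hi
    rw [hr']
    show (M k k - 1) * r i = 0
    rw [hr i hi, mul_zero]
  set A := colm k (-p) * M with hA
  set B := rowm k (-r') * A with hB
  set M₁ := colm k (-v) * B with hM₁
  have hM₁J : M₁ ∈ SLJ J := by
    rw [hM₁, hB, hA]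
    exact SLJ_mul (h86_colm_mem hk (h86_supp_neg hvs))
      (SLJ_mul (h86_rowm_mem hk (h86_supp_neg hrs))
        (SLJ_mul (h86_colm_mem hk (h86_supp_neg hp)) hM))
  -- the column `k`
  have hAk : ∀ i, A i k = if i = k then M k k else v i := by
    intro i
    rw [hA, h86_colm_mul_apply, Pi.neg_apply]
    by_cases h : i = k
    · subst h
      rw [if_pos rfl, hpk]
      ring
    · rw [if_neg h, hv]
      show _ = (if i = k then 0 else M i k - p i * M k k)
      rw [if_neg h]
      ring
  have hsum : ∑ l, r' l * A l k = M k k - 1 := by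
    have h1 : ∀ l, r' l * A l k = (M k k - 1) * (r l * (if l = k then 0 else
        (M l k - p l * M k k))) := by
      intro l
      rw [hAk l, hr', hv]
      show (M k k - 1) * r l * (if l = k then M k k else if l = k then 0 else
        M l k - p l * M k k) = _
      by_cases h : l = k
      · subst h
        rw [if_pos rfl, if_pos rfl, hrk]
        ring
      · rw [if_neg h, if_neg h]
        ring
    rw [Finset.sum_congr rfl fun l _ => h1 l, ← Finset.mul_sum]
    have h2 : ∑ l, r l * (if l = k then 0 else (M l k - p l * M k k)) = 1 := by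
      rw [← hpr]
      symm
      have h3 : ∑ l ∈ J.erase k, r l * (M l k - p l * M k k) =
          ∑ l ∈ J.erase k, r l * (if l = k then 0 else (M l k - p l * M k k)) := by
        refine Finset.sum_congr rfl fun l hl => ?_
        rw [if_neg (Finset.ne_of_mem_erase hl)]
      rw [h3]
      refine Finset.sum_subset (Finset.subset_univ _) fun l _ hl => ?_
      rw [hr l hl, zero_mul]
    rw [h2, mul_one]
  have hBk : ∀ i, B i k = if i = k then 1 else v i := by
    intro i
    rw [hB, h86_rowm_mul_apply, hAk i]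
    by_cases h : i = k
    · rw [if_pos h, if_pos h, if_pos h]
      simp only [Pi.neg_apply, neg_mul, Finset.sum_neg_distrib]
      rw [hsum]
      ring
    · rw [if_neg h, if_neg h, if_neg h, add_zero]
  have hMk : ∀ i, M₁ i k = (1 : Matrix (Fin n) (Fin n) (ZMod N)) i k := by
    intro i
    rw [hM₁, h86_colm_mul_apply, hBk i, hBk k, if_pos rfl, Pi.neg_apply]
    by_cases h : i = k
    · rw [if_pos h, h, hvk, Matrix.one_apply_eq]
      ring
    · rw [if_neg h, Matrix.one_apply_ne h]
      ring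
  set ρ : Fin n → ZMod N := fun j => if j = k then 0 else M₁ k j with hρ
  have hρk : ρ k = 0 := by rw [hρ]; exact if_pos rfl
  have hρs : Supp (J.erase k) ρ := by
    intro j hj
    rcases hor j hj with h | h
    · rw [h, hρk]
    · rw [hρ]
      show (if j = k then 0 else M₁ k j) = 0
      by_cases h1 : j = k
      · rw [if_pos h1]
      · rw [if_neg h1, hM₁J.2 k j (Or.inr h), Matrix.one_apply_ne (Ne.symm h1)]
  set M' := M₁ * rowm k (-ρ) with hM'
  have hM'a : ∀ i j, M' i j = M₁ i j - (1 : Matrix (Fin n) (Fin n) (ZMod N)) i k * ρ j := by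
    intro i j
    rw [hM', h86_mul_rowm_apply, hMk i, Pi.neg_apply]
    ring
  have hM'J : M' ∈ SLJ (N := N) (J.erase k) := by
    refine ⟨?_, fun i j hij => ?_⟩
    · rw [hM']
      exact (SLJ_mul hM₁J (h86_rowm_mem hk (h86_supp_neg hρs))).1
    · rw [hM'a]
      rcases hij with hi | hj
      · rcases hor i hi with h | h
        · subst h
          rw [Matrix.one_apply_eq, one_mul, hρ]
          show M₁ i j - (if j = i then 0 else M₁ i j) = _
          by_cases h1 : j = i
          · subst h1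
            rw [if_pos rfl, sub_zero, hMk j]
          · rw [if_neg h1, sub_self, Matrix.one_apply_ne (Ne.symm h1)]
        · have h1 : i ≠ k := by
            rintro rfl
            exact h hk
          rw [Matrix.one_apply_ne h1, zero_mul, sub_zero, hM₁J.2 i j (Or.inl h)]
      · rcases hor j hj with h | h
        · subst h
          rw [hρk, mul_zero, sub_zero, hMk i]
        · rw [hρs j hj, mul_zero, sub_zero, hM₁J.2 i j (Or.inr h)]
  obtain ⟨hM'inv, hmi', him'⟩ := SLJ_inv hM'J
  set σ : Fin n → ZMod N := fun j => ∑ l, ρ l * M'⁻¹ l j with hσ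
  have hσs : Supp (J.erase k) σ := by
    intro j hj
    rw [hσ]
    show ∑ l, ρ l * M'⁻¹ l j = 0
    have h1 : ∀ l, ρ l * M'⁻¹ l j = ρ l * (1 : Matrix (Fin n) (Fin n) (ZMod N)) l j := by
      intro l
      rw [hM'inv.2 l j (Or.inr hj)]
    rw [Finset.sum_congr rfl fun l _ => h1 l, Finset.sum_eq_single j]
    · rw [hρs j hj, zero_mul]
    · intro l _ hl
      rw [Matrix.one_apply_ne hl, mul_zero]
    · intro h
      exact absurd (Finset.mem_univ j) h
  have hσM : ∀ j, ∑ l, σ l * M' l j = ρ j := by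
    intro j
    have h1 : ∑ l, σ l * M' l j = ∑ m, ρ m * (M'⁻¹ * M') m j := by
      rw [hσ]
      show ∑ l, (∑ m, ρ m * M'⁻¹ m l) * M' l j = _
      simp only [Matrix.mul_apply, Finset.sum_mul, Finset.mul_sum]
      rw [Finset.sum_comm]
      refine Finset.sum_congr rfl fun m _ => Finset.sum_congr rfl fun l _ => ?_
      ring
    rw [h1, him', Finset.sum_eq_single j]
    · rw [Matrix.one_apply_eq, mul_one]
    · intro l _ hl
      rw [Matrix.one_apply_ne hl, mul_zero]
    · intro h
      exact absurd (Finset.mem_univ j) h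
  have hfin : rowm k σ * M' = M₁ := by
    ext i j
    rw [h86_rowm_mul_apply, hσM, hM'a]
    by_cases h : i = k
    · subst h
      rw [if_pos rfl, Matrix.one_apply_eq]
      ring
    · rw [if_neg h, Matrix.one_apply_ne h]
      ring
  refine ⟨p, r', v, σ, hp, hrs, hvs, hσs, M', hM'J, ?_⟩
  have e1 : colm k v * M₁ = B := by
    rw [hM₁, ← mul_assoc, h86_colm_neg hvk, one_mul]
  have e2 : rowm k r' * B = A := by
    rw [hB, ← mul_assoc, h86_rowm_neg (hrs k hkJ), one_mul]
  have e3 : colm k p * A = M := by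
    rw [hA, ← mul_assoc, h86_colm_neg hpk, one_mul]
  rw [mul_assoc _ (rowm k σ) M', hfin, mul_assoc _ (colm k v) M₁, e1, mul_assoc, e2, e3]

theorem factor' (hN : 0 < N) {J : Finset (Fin n)} {k : Fin n} (hk : k ∈ J)
    (hJ : (J.erase k).Nonempty) {M : Matrix (Fin n) (Fin n) (ZMod N)} (hM : M ∈ SLJ J) :
    ∃ q₁ p₁ q₂ p₂ : Fin n → ZMod N, Supp (J.erase k) q₁ ∧ Supp (J.erase k) p₁ ∧
      Supp (J.erase k) q₂ ∧ Supp (J.erase k) p₂ ∧ ∃ M' ∈ SLJ (N := N) (J.erase k),
      M = rowm k q₁ * colm k p₁ * rowm k q₂ * colm k p₂ * M' := by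
  have hkJ : k ∉ J.erase k := Finset.notMem_erase k J
  obtain ⟨hinv, hmi, him⟩ := SLJ_inv hM
  obtain ⟨p₁, q₁, p₂, q₂, hp₁, hq₁, hp₂, hq₂, M', hM', hX⟩ :=
    factor hN hk hJ (SLJ_transpose hinv)
  obtain ⟨hM'inv, hmi', him'⟩ := SLJ_inv hM'
  refine ⟨-p₁, -q₁, -p₂, -q₂, h86_supp_neg hp₁, h86_supp_neg hq₁, h86_supp_neg hp₂,
    h86_supp_neg hq₂, M'⁻¹.transpose, SLJ_transpose hM'inv, ?_⟩
  set Y := M'⁻¹ * (rowm k (-q₂) * (colm k (-p₂) * (rowm k (-q₁) * colm k (-p₁)))) with hY
  have h1 : M⁻¹.transpose * Y = 1 := by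
    rw [hX, hY]
    have e : ∀ a b c d e f : Matrix (Fin n) (Fin n) (ZMod N),
        a * b * c * d * e * f = a * (b * (c * (d * (e * f)))) := by
      intro a b c d e f
      simp only [mul_assoc]
    rw [e, ← mul_assoc M', hmi', one_mul, ← mul_assoc (rowm k q₂),
      h86_rowm_neg (hq₂ k hkJ), one_mul, ← mul_assoc (colm k p₂), h86_colm_neg (hp₂ k hkJ),
      one_mul, ← mul_assoc (rowm k q₁), h86_rowm_neg (hq₁ k hkJ), one_mul,
      h86_colm_neg (hp₁ k hkJ)]
  have h2 : M.transpose * M⁻¹.transpose = 1 := by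
    rw [← Matrix.transpose_mul, him, Matrix.transpose_one]
  have h3 : M.transpose = Y := by
    calc M.transpose = M.transpose * (M⁻¹.transpose * Y) := by rw [h1, mul_one]
      _ = Y := by rw [← mul_assoc, h2, one_mul]
  have h4 : M = Y.transpose := by rw [← h3, Matrix.transpose_transpose]
  have hrt : ∀ v : Fin n → ZMod N, (rowm k v).transpose = colm k v := by
    intro v
    rw [← colm_transpose, Matrix.transpose_transpose]
  rw [h4, hY]
  simp only [Matrix.transpose_mul, hrt, colm_transpose, mul_assoc]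

end TOR
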