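import Mathlib

/-!
# TOR-29: induced representations

PROOF. `V = (L ⧸ H) → (Fin m → ℂ)`, `finrank = m * H.index` (`L ⧸ H` is finite with `Nat.card = H.index`; `Module.finrank_pi_fintype`,
`Module.finrank_fin_fun`; `Nat.card`/`Fintype.card` conversions). For `q : L ⧸ H` let `τ q = Quotient.out q`, so
`(τ (g • q))⁻¹ * g * τ q ∈ H`. For `g ∈ L` define `(F g v) (g • q) = f ((τ (g • q))⁻¹ * g * τ q) (v q)`, i.e.
`(F g v) q' = f ((τ q')⁻¹ * g * τ (g⁻¹ • q')) (v (g⁻¹ • q'))` (`f` acts on `Fin m → ℂ` by `Matrix.mulVec`). It is linear, `F 1 = 1`,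
`F (g g') = F g * F g'` (multiply the cocycle elements). If `h ∈ H` and `F h = 1`: let `q₀` be the class of `1`; `h • q₀ = q₀` and
`t := τ q₀ ∈ H`; for `v` supported at `q₀` with value `w`: `w = (F h v) q₀ = f (t⁻¹ h t) w`, so `f (t⁻¹ h t) = 1`, and
`f h = f t * f (t⁻¹ h t) * (f t)⁻¹ = 1`.
-/

namespace TOR

private theorem h90_mem {L : Type} [Group L] (H : Subgroup L) (g : L) (q : L ⧸ H) :
    (Quotient.out q)⁻¹ * g * Quotient.out (g⁻¹ • q) ∈ H := by
  rw [mul_assoc, ← QuotientGroup.eq]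
  have h1 : ((Quotient.out q : L) : L ⧸ H) = q := QuotientGroup.out_eq' q
  have h2 : ((g * Quotient.out (g⁻¹ • q) : L) : L ⧸ H) =
      g • ((Quotient.out (g⁻¹ • q) : L) : L ⧸ H) := rfl
  rw [h1, h2, QuotientGroup.out_eq', smul_inv_smul]

/-- the cocycle of the induced representation -/
private noncomputable def h90_c {L : Type} [Group L] (H : Subgroup L) (g : L) (q : L ⧸ H) : H :=
  ⟨(Quotient.out q)⁻¹ * g * Quotient.out (g⁻¹ • q), h90_mem H g q⟩

private theorem h90_c_one {L : Type} [Group L] (H : Subgroup L) (q : L ⧸ H) :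
    h90_c H 1 q = 1 := by
  apply Subtype.ext
  show (Quotient.out q)⁻¹ * 1 * Quotient.out ((1 : L)⁻¹ • q) = 1
  rw [inv_one, one_smul, mul_one, inv_mul_cancel]

private theorem h90_c_mul {L : Type} [Group L] (H : Subgroup L) (g g' : L) (q : L ⧸ H) :
    h90_c H (g * g') q = h90_c H g q * h90_c H g' (g⁻¹ • q) := by
  apply Subtype.ext
  show (Quotient.out q)⁻¹ * (g * g') * Quotient.out ((g * g')⁻¹ • q) =
    ((Quotient.out q)⁻¹ * g * Quotient.out (g⁻¹ • q)) *
      ((Quotient.out (g⁻¹ • q))⁻¹ * g' * Quotient.out (g'⁻¹ • g⁻¹ • q))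
  have h1 : (g * g')⁻¹ • q = g'⁻¹ • g⁻¹ • q := by rw [mul_inv_rev, mul_smul]
  rw [h1]
  group

/-- the operators of the induced representation -/
private noncomputable def h90_F {L : Type} [Group L] (H : Subgroup L) {m : ℕ}
    (f : H →* GL (Fin m) ℂ) : L →* Module.End ℂ ((L ⧸ H) → (Fin m → ℂ)) where
  toFun g :=
    { toFun := fun v q => ((f (h90_c H g q) : GL (Fin m) ℂ) : Matrix (Fin m) (Fin m) ℂ).mulVec
        (v (g⁻¹ • q))
      map_add' := fun v w => by
        funext q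
        rw [Pi.add_apply, Pi.add_apply, Matrix.mulVec_add]
      map_smul' := fun c v => by
        funext q
        rw [Pi.smul_apply, RingHom.id_apply, Pi.smul_apply, Matrix.mulVec_smul] }
  map_one' := by
    apply LinearMap.ext
    intro v
    funext q
    show ((f (h90_c H 1 q) : GL (Fin m) ℂ) : Matrix (Fin m) (Fin m) ℂ).mulVec
        (v ((1 : L)⁻¹ • q)) = v q
    rw [h90_c_one, map_one, Units.val_one, Matrix.one_mulVec, inv_one, one_smul]
  map_mul' g g' := by
    apply LinearMap.ext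
    intro v
    funext q
    show ((f (h90_c H (g * g') q) : GL (Fin m) ℂ) : Matrix (Fin m) (Fin m) ℂ).mulVec
        (v ((g * g')⁻¹ • q)) =
      ((f (h90_c H g q) : GL (Fin m) ℂ) : Matrix (Fin m) (Fin m) ℂ).mulVec
        (((f (h90_c H g' (g⁻¹ • q)) : GL (Fin m) ℂ) : Matrix (Fin m) (Fin m) ℂ).mulVec
          (v (g'⁻¹ • g⁻¹ • q)))
    rw [h90_c_mul, map_mul, Units.val_mul, Matrix.mulVec_mulVec, mul_inv_rev, mul_smul]

theorem induce {L : Type} [Group L] (H : Subgroup L) (hr : H.index ≠ 0) {m : ℕ}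
    (f : H →* GL (Fin m) ℂ) :
    ∃ (V : Type) (_ : AddCommGroup V) (_ : Module ℂ V) (_ : FiniteDimensional ℂ V)
      (F : L →* Module.End ℂ V), Module.finrank ℂ V = m * H.index ∧
        ∀ h : H, F (h : L) = 1 → f h = 1 := by
  have hfin : Finite (L ⧸ H) := Nat.finite_of_card_ne_zero hr
  letI : Fintype (L ⧸ H) := Fintype.ofFinite _
  refine ⟨(L ⧸ H) → (Fin m → ℂ), inferInstance, inferInstance, inferInstance, h90_F H f, ?_, ?_⟩
  · rw [Module.finrank_pi_fintype]
    simp only [Module.finrank_fin_fun, Finset.sum_const, Finset.card_univ, smul_eq_mul]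
    rw [mul_comm, ← Nat.card_eq_fintype_card]
    rfl
  · intro h hh
    set q₀ : L ⧸ H := ((1 : L) : L ⧸ H) with hq
    have h1 : (h : L)⁻¹ • q₀ = q₀ := by
      show (((h : L)⁻¹ * 1 : L) : L ⧸ H) = ((1 : L) : L ⧸ H)
      rw [QuotientGroup.eq]
      have : ((h : L)⁻¹ * 1)⁻¹ * 1 = (h : L) := by group
      rw [this]
      exact h.2
    have h2 : Quotient.out q₀ ∈ H := by
      have h3 : ((1 : L) : L ⧸ H) = ((Quotient.out q₀ : L) : L ⧸ H) := by
        rw [QuotientGroup.out_eq' q₀]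
      rw [QuotientGroup.eq, inv_one, one_mul] at h3
      exact h3
    set t : H := ⟨Quotient.out q₀, h2⟩ with ht
    have h4 : h90_c H (h : L) q₀ = t⁻¹ * h * t := by
      apply Subtype.ext
      show (Quotient.out q₀)⁻¹ * (h : L) * Quotient.out ((h : L)⁻¹ • q₀) =
        (Quotient.out q₀)⁻¹ * (h : L) * Quotient.out q₀
      rw [h1]
    have h5 : f (h90_c H (h : L) q₀) = 1 := by
      apply Units.ext
      rw [Units.val_one]
      apply Matrix.ext_of_mulVec_single
      intro i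
      have h6 := congrFun (LinearMap.congr_fun hh (fun _ => Pi.single i 1)) q₀
      rw [Matrix.one_mulVec]
      exact h6
    rw [h4, map_mul, map_mul, map_inv] at h5
    have h7 : f h = f t * ((f t)⁻¹ * f h * f t) * (f t)⁻¹ := by group
    rw [h7, h5, mul_one, mul_inv_cancel]

end TOR
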