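import Mathlib
import Pool.Agent.Helper34.TOR.Defs
import Pool.Agent.Helper34.TOR.Api
import Pool.Agent.Helper34.TOR.LemG

/-!
# TOR-13: commutators modulo a normal subgroup killing `x_i ↦ w⁻¹ x_i w` (`w` a commutator word)

`NN` is a normal subgroup of `Aut(F_n)` containing all `dl i w = T i (w, w)`, `w ∈ commutator (Sx i)`.
Write `S = Sx i`, `S' = commutator S`, `⁅a,b⁆ = a b a⁻¹ b⁻¹`.

PROOFS.
`mab_three`: `g = T i (1, v)`: `g * T i (w,w) * g⁻¹ = T i (w, v w v⁻¹) ∈ NN` (normality, `T i` is a homomorphism), and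
`T i (w,w)⁻¹ * T i (w, v w v⁻¹) = T i (1, w⁻¹ (v w v⁻¹))`; so `T i (1, w⁻¹ v w v⁻¹) ∈ NN` for all `w ∈ S'`, `v ∈ S`. Conjugate by
`T i (1, w)`: `T i (1, v w v⁻¹ w⁻¹) = T i (1, ⁅v,w⁆) ∈ NN`.
`three_sub` : consequently `T i (1, c) ∈ NN` for all `c ∈ ⁅S', ⊤⁆` (closure of such commutators; the set of `c` with
`T i (1,c) ∈ NN` is a normal subgroup of `S`).
`mab_same`: `p = (u, u c)`, `q = (u', u' c')` with `c, c' ∈ S'` (`T_mem_IA_iff`, `mem_comm_iff`). `⁅p,q⁆ = (⁅u,u'⁆, ⁅u c, u' c'⁆)`, and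
`⁅u c, u' c'⁆ ≡ ⁅u,u'⁆` modulo `⁅S',⊤⁆` (in the quotient `S ⧸ ⁅S',⊤⁆` the elements `c, c'` are central). So
`⁅T i p, T i q⁆ = T i ⁅p,q⁆ = T i (s, s) * T i (1, z)` with `s = ⁅u,u'⁆ ∈ S'`, `z ∈ ⁅S',⊤⁆`.
`mab_non`: let `κ = T i p`, `A = Sx a`, `A' = commutator A`. By `T_mem_Sti`, `κ ∈ Sti a`, so `κ * T a q * κ⁻¹ = T a (κ q.1, κ q.2)`
(`Sti_conj`), and `⁅κ, T a q⁆ = T a (κ(q.1) q.1⁻¹, κ(q.2) q.2⁻¹)`. As `κ ∈ IA n`, `κ(g) g⁻¹ ∈ A'` for all `g ∈ A`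
(`mem_comm_iff`: it lies in `A` and in `commutator F`). GENERAL FACT: if `κ` is an endomorphism of a group `A` with
`κ(g) g⁻¹ ∈ A'` for all `g`, then `κ(c) c⁻¹ ∈ ⁅A',⊤⁆` for `c ∈ A'` (modulo `⁅A',⊤⁆` the group `A'` is central, so
`κ ⁅g,h⁆ = ⁅κ g, κ h⁆ ≡ ⁅g,h⁆`, and `c ↦ κ(c) c⁻¹` is a homomorphism on `A'` modulo `⁅A',⊤⁆`). Write `q = (g, g c)`, `c ∈ A'`.
`s = κ(g) g⁻¹ ∈ A'`; `κ(g c) (g c)⁻¹ = κ(g) κ(c) c⁻¹ g⁻¹ ≡ κ(g) g⁻¹ = s` modulo `⁅A',⊤⁆`. So `⁅κ, T a q⁆ = T a (s,s) * T a (1,z)`,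
`z ∈ ⁅A',⊤⁆`.
-/

namespace TOR

open Helper38.AutF
open scoped commutatorElement

private theorem gen_central {A : Type*} [Group A] {c : A} (hc : c ∈ commutator A)
    (x : A ⧸ ⁅commutator A, (⊤ : Subgroup A)⁆) :
    (QuotientGroup.mk' ⁅commutator A, (⊤ : Subgroup A)⁆) c * x =
      x * (QuotientGroup.mk' ⁅commutator A, (⊤ : Subgroup A)⁆) c := by
  obtain ⟨y, rfl⟩ := QuotientGroup.mk'_surjective _ x
  have h : ⁅c, y⁆ ∈ ⁅commutator A, (⊤ : Subgroup A)⁆ :=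
    Subgroup.commutator_mem_commutator hc (Subgroup.mem_top y)
  have h1 : (QuotientGroup.mk' ⁅commutator A, (⊤ : Subgroup A)⁆) ⁅c, y⁆ = 1 :=
    (QuotientGroup.eq_one_iff _).2 h
  rwa [map_commutatorElement, commutatorElement_eq_one_iff_mul_comm] at h1

private theorem gen_comm {B : Type*} [Group B] {u v c d : B} (hc : ∀ x, c * x = x * c)
    (hd : ∀ x, d * x = x * d) : ⁅c * u, d * v⁆ = ⁅u, v⁆ := by
  simp only [commutatorElement_def, mul_inv_rev]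
  calc c * u * (d * v) * (u⁻¹ * c⁻¹) * (v⁻¹ * d⁻¹)
      = c * (u * d) * v * u⁻¹ * c⁻¹ * v⁻¹ * d⁻¹ := by group
    _ = c * (d * u) * v * u⁻¹ * c⁻¹ * v⁻¹ * d⁻¹ := by rw [hd u]
    _ = (c * (d * u * v * u⁻¹)) * c⁻¹ * v⁻¹ * d⁻¹ := by group
    _ = ((d * u * v * u⁻¹) * c) * c⁻¹ * v⁻¹ * d⁻¹ := by rw [hc (d * u * v * u⁻¹)]
    _ = (d * (u * v * u⁻¹ * v⁻¹)) * d⁻¹ := by group
    _ = ((u * v * u⁻¹ * v⁻¹) * d) * d⁻¹ := by rw [hd (u * v * u⁻¹ * v⁻¹)]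
    _ = u * v * u⁻¹ * v⁻¹ := by group

private theorem gen_same {A : Type*} [Group A] {u u' v v' : A} (hc : u⁻¹ * v ∈ commutator A)
    (hc' : u'⁻¹ * v' ∈ commutator A) :
    ⁅u, u'⁆⁻¹ * ⁅v, v'⁆ ∈ ⁅commutator A, (⊤ : Subgroup A)⁆ := by
  rw [← QuotientGroup.eq_one_iff]
  have h : (QuotientGroup.mk' ⁅commutator A, (⊤ : Subgroup A)⁆) (⁅u, u'⁆⁻¹ * ⁅v, v'⁆) = 1 := by
    have hv : (QuotientGroup.mk' ⁅commutator A, (⊤ : Subgroup A)⁆) v =
        (QuotientGroup.mk' ⁅commutator A, (⊤ : Subgroup A)⁆) (u⁻¹ * v) *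
          (QuotientGroup.mk' ⁅commutator A, (⊤ : Subgroup A)⁆) u := by
      rw [gen_central hc, ← map_mul]
      congr 1
      group
    have hv' : (QuotientGroup.mk' ⁅commutator A, (⊤ : Subgroup A)⁆) v' =
        (QuotientGroup.mk' ⁅commutator A, (⊤ : Subgroup A)⁆) (u'⁻¹ * v') *
          (QuotientGroup.mk' ⁅commutator A, (⊤ : Subgroup A)⁆) u' := by
      rw [gen_central hc', ← map_mul]
      congr 1
      group
    rw [map_mul, map_inv, map_commutatorElement, map_commutatorElement, inv_mul_eq_one, hv, hv']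
    exact (gen_comm (gen_central hc) (gen_central hc')).symm
  exact h

private theorem gen_eq {A : Type*} [Group A] (f : A →* A) (hf : ∀ g, f g * g⁻¹ ∈ commutator A)
    {c : A} (hc : c ∈ commutator A) :
    (QuotientGroup.mk' ⁅commutator A, (⊤ : Subgroup A)⁆) (f c) =
      (QuotientGroup.mk' ⁅commutator A, (⊤ : Subgroup A)⁆) c := by
  have h : (⁅(⊤ : Subgroup A), (⊤ : Subgroup A)⁆ : Subgroup A) ≤
      ((QuotientGroup.mk' ⁅commutator A, (⊤ : Subgroup A)⁆).comp f).eqLocus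
        (QuotientGroup.mk' ⁅commutator A, (⊤ : Subgroup A)⁆) := by
    rw [Subgroup.commutator_le]
    intro a _ b _
    show (QuotientGroup.mk' ⁅commutator A, (⊤ : Subgroup A)⁆) (f ⁅a, b⁆) =
      (QuotientGroup.mk' ⁅commutator A, (⊤ : Subgroup A)⁆) ⁅a, b⁆
    rw [map_commutatorElement, map_commutatorElement, map_commutatorElement]
    have ha : ∀ x, (QuotientGroup.mk' ⁅commutator A, (⊤ : Subgroup A)⁆) (f x) =
        (QuotientGroup.mk' ⁅commutator A, (⊤ : Subgroup A)⁆) (f x * x⁻¹) *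
          (QuotientGroup.mk' ⁅commutator A, (⊤ : Subgroup A)⁆) x := by
      intro x
      rw [← map_mul]
      congr 1
      group
    rw [ha a, ha b]
    exact gen_comm (gen_central (hf a)) (gen_central (hf b))
  exact h hc

private theorem gen_non {A : Type*} [Group A] (f : A →* A) (hf : ∀ g, f g * g⁻¹ ∈ commutator A)
    {g h : A} (hc : g⁻¹ * h ∈ commutator A) :
    (f g * g⁻¹)⁻¹ * (f h * h⁻¹) ∈ ⁅commutator A, (⊤ : Subgroup A)⁆ := by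
  rw [← QuotientGroup.eq_one_iff]
  have h0 : (QuotientGroup.mk' ⁅commutator A, (⊤ : Subgroup A)⁆)
      ((f g * g⁻¹)⁻¹ * (f h * h⁻¹)) = 1 := by
    have hh : h = g * (g⁻¹ * h) := by group
    rw [map_mul, map_inv, inv_mul_eq_one]
    have h1 : f h = f g * f (g⁻¹ * h) := by rw [← map_mul]; congr 1
    rw [h1, map_mul _ (f g * f (g⁻¹ * h)), map_mul _ (f g) (f (g⁻¹ * h)), gen_eq f hf hc,
      ← map_mul, ← map_mul]
    congr 1
    group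
  exact h0

variable {n : ℕ} (NN : Subgroup (AF n)) [NN.Normal]

theorem mab_three (h1 : ∀ i, ∀ w : Sx i, w ∈ commutator (Sx i) → dl i w ∈ NN)
    (i : Fin n) (v w : Sx i) (hw : w ∈ commutator (Sx i)) : T i (1, ⁅v, w⁆) ∈ NN := by
  have h2 : T i (w, w) ∈ NN := h1 i w hw
  have h3 : T i (1, v) * T i (w, w) * (T i (1, v))⁻¹ ∈ NN :=
    Subgroup.Normal.conj_mem inferInstance _ h2 _
  have h4 : (T i (w, w))⁻¹ * (T i (1, v) * T i (w, w) * (T i (1, v))⁻¹) ∈ NN :=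
    mul_mem (inv_mem h2) h3
  have h5 : T i (1, w) * ((T i (w, w))⁻¹ * (T i (1, v) * T i (w, w) * (T i (1, v))⁻¹)) *
      (T i (1, w))⁻¹ ∈ NN := Subgroup.Normal.conj_mem inferInstance _ h4 _
  have h6 : T i (1, w) * ((T i (w, w))⁻¹ * (T i (1, v) * T i (w, w) * (T i (1, v))⁻¹)) *
      (T i (1, w))⁻¹ = T i (1, ⁅v, w⁆) := by
    simp only [← map_inv, ← map_mul]
    congr 1
    refine Prod.ext ?_ ?_
    · show (1 : Sx i) * (w⁻¹ * (1 * w * 1⁻¹)) * 1⁻¹ = 1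
      group
    · show w * (w⁻¹ * (v * w * v⁻¹)) * w⁻¹ = ⁅v, w⁆
      rw [commutatorElement_def]
      group
  rwa [h6] at h5

theorem three_sub (h1 : ∀ i, ∀ w : Sx i, w ∈ commutator (Sx i) → dl i w ∈ NN)
    (i : Fin n) (c : Sx i) (hc : c ∈ ⁅commutator (Sx i), (⊤ : Subgroup (Sx i))⁆) :
    T i (1, c) ∈ NN := by
  have h : ⁅commutator (Sx i), (⊤ : Subgroup (Sx i))⁆ ≤
      NN.comap ((T i).comp (MonoidHom.inr (Sx i) (Sx i))) := by
    rw [Subgroup.commutator_le]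
    intro w hw v _
    rw [← inv_mem_iff, commutatorElement_inv]
    exact mab_three NN h1 i v w hw
  exact h hc

private theorem split_mem (h1 : ∀ i, ∀ w : Sx i, w ∈ commutator (Sx i) → dl i w ∈ NN)
    (i : Fin n) (x y : Sx i) (hx : x ∈ commutator (Sx i))
    (hy : x⁻¹ * y ∈ ⁅commutator (Sx i), (⊤ : Subgroup (Sx i))⁆) : T i (x, y) ∈ NN := by
  have h2 : T i (x, y) = dl i x * T i (1, x⁻¹ * y) := by
    rw [dl_apply, ← map_mul]
    congr 1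
    refine Prod.ext ?_ ?_
    · show x = x * 1
      group
    · show y = x * (x⁻¹ * y)
      group
  rw [h2]
  exact mul_mem (h1 i x hx) (three_sub NN h1 i _ hy)

private theorem mem_comm_of {i : Fin n} {p : Sx i × Sx i} (hp : T i p ∈ IA n) :
    p.1⁻¹ * p.2 ∈ commutator (Sx i) := by
  rw [mem_comm_iff]
  exact (T_mem_IA_iff i p).1 hp

theorem mab_same (h1 : ∀ i, ∀ w : Sx i, w ∈ commutator (Sx i) → dl i w ∈ NN)
    (i : Fin n) (p q : Sx i × Sx i) (hp : T i p ∈ IA n) (hq : T i q ∈ IA n) :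
    ⁅T i p, T i q⁆ ∈ NN := by
  rw [← map_commutatorElement]
  have h2 : ⁅p, q⁆ = (⁅p.1, q.1⁆, ⁅p.2, q.2⁆) := by
    refine Prod.ext ?_ ?_ <;> rfl
  rw [h2]
  refine split_mem NN h1 i _ _ ?_ (gen_same (mem_comm_of hp) (mem_comm_of hq))
  rw [commutator_def]
  exact Subgroup.commutator_mem_commutator (Subgroup.mem_top _) (Subgroup.mem_top _)

theorem mab_non (h1 : ∀ i, ∀ w : Sx i, w ∈ commutator (Sx i) → dl i w ∈ NN)
    {i a : Fin n} (hia : i ≠ a) (p : Sx i × Sx i) (hp : T i p ∈ IA n)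
    (hp1 : (p.1 : FreeGroup (Fin n)) ∈ Sx a) (hp2 : (p.2 : FreeGroup (Fin n)) ∈ Sx a)
    (q : Sx a × Sx a) (hq : T a q ∈ IA n) : ⁅T i p, T a q⁆ ∈ NN := by
  have hS : T i p ∈ Sti a := T_mem_Sti hia p hp1 hp2
  have h2 := Sti_conj (T i p) hS q
  have hf : ∀ g : Sx a, act (T i p) hS g * g⁻¹ ∈ commutator (Sx a) := by
    intro g
    rw [mem_comm_iff, ← Abelianization.ker_of, MonoidHom.mem_ker, Subgroup.coe_mul,
      Subgroup.coe_inv, map_mul, map_inv, act_coe, hp (g : FreeGroup (Fin n)), mul_inv_cancel]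
  have h3 : ⁅T i p, T a q⁆ = T a (act (T i p) hS q.1 * q.1⁻¹, act (T i p) hS q.2 * q.2⁻¹) := by
    rw [commutatorElement_def, h2, ← map_inv, ← map_mul]
    rfl
  rw [h3]
  exact split_mem NN h1 a _ _ (hf q.1) (gen_non _ hf (mem_comm_of hq))

end TOR
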