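import Mathlib
import Pool.Agent.Helper34.TOR.Defs
import Pool.Agent.Helper34.TOR.Api
import Pool.Agent.Helper34.TOR.LemG
import Pool.Agent.Helper34.TOR.Mab1

/-!
# TOR-14: mutual pairs of generators commute modulo `NN`

Work in the group `Q = AF n ⧸ NN` (or with congruences); `k_ij` = class of `Kc i j`, `d_ijk` = class of `Kd i j k`
(`Kc i j = T i (x_j, x_j) : x_i ↦ x_j⁻¹ x_i x_j`, `Kd i j k = T i (1, ⁅x_j,x_k⁆)`, product = composition, `⁅a,b⁆ = a b a⁻¹ b⁻¹`).
Letters `i, j, k, l` etc. are distinct where stated. All `Kc, Kd` are in `IA n` (`MM_le_IA`). `d_ijk = d_ikj⁻¹` exactly.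
All identities below are checked on the letters with `aut_ext`.

(3a) `i, j, k` distinct: `k_ij` commutes with `d_jki` (and `d_jik = d_jki⁻¹`). PROOF. `ρ = R j i` (`x_j ↦ x_j x_i`). Identities:
  `ρ * Kc i j * ρ⁻¹ = Kc j i * Kc i j` (`x_i ↦ x_i⁻¹ x_j⁻¹ x_i x_j x_i`, `x_j ↦ x_i⁻¹ x_j x_i`),
  `ρ * Kc i k * ρ⁻¹ = Kc i k * Kd j k i` (`x_i ↦ x_k⁻¹ x_i x_k`, `x_j ↦ x_j x_i x_k⁻¹ x_i⁻¹ x_k`).
  `⁅Kc i j, Kc i k⁆ ∈ NN` (`mab_same`), so its conjugate is: `(k_ji k_ij)(k_ik d_jki) = (k_ik d_jki)(k_ji k_ij)`. Using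
  `k_ij k_ik = k_ik k_ij` (`mab_same`), `k_ji k_ik = k_ik k_ji` (`mab_non` with `p` = the word pair of `Kc i k`, moved letter `i`,
  not involving `x_j`, and `a = j`), `k_ji d_jki = d_jki k_ji` (`mab_same`) one gets `k_ij d_jki = d_jki k_ij`.
(3b) `i ≠ j`, `l` a third letter (`3 ≤ n`): `k_ij k_ji = k_ji k_ij`. PROOF. `ρ = R l i`. Identities:
  `ρ * Kc i j * ρ⁻¹ = Kc i j * Kd l j i` (as above), `ρ * Kc j l * ρ⁻¹ = Kc j l * Kc j i` (`x_j ↦ (x_l x_i)⁻¹ x_j (x_l x_i)`).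
  `⁅Kc j l, Kc i j⁆ ∈ NN` (`mab_non`: `Kc j l` moves `j`, words without `x_i`; `a = i`). Conjugate: `k_ij d_lji` commutes with
  `k_jl k_ji`. Known: `k_ij`, `k_jl` commute; `d_lji`, `k_jl` commute ((3a) for `(j, l, i)`: `k_jl` commutes with `d_lij`);
  `k_ji`, `d_lji` commute (`mab_non`: `Kc j i` moves `j`, words without `x_l`, `a = l`). So `k_ij`, `k_ji` commute.
(3c) `i, j, k` distinct, `l ≠ i, j` (`l = k` allowed): `d_ikj` commutes with `d_jil`. PROOF. `ρ = R i k`. Identities: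
  `ρ * Kc i j * ρ⁻¹ = T i (x_j, x_k x_j x_k⁻¹) = Kc i j * T i (1, x_j⁻¹ x_k x_j x_k⁻¹)`, and
  `T i (1, x_j⁻¹ x_k x_j x_k⁻¹)` is conjugate by `T i (1, x_j)` to `T i (1, ⁅x_k,x_j⁆) = Kd i k j`, so has the same class `d_ikj`
  (`mab_three`/`three_sub`: `c` and `v c v⁻¹` differ by `⁅v,c⁆`).
  `ρ * Kd j i l * ρ⁻¹ = T j (1, ⁅x_i x_k, x_l⁆)`, `⁅x_i x_k, x_l⁆ = x_i ⁅x_k,x_l⁆ x_i⁻¹ ⁅x_i,x_l⁆`, so its class is `d_jkl d_jil`
  (`three_sub`; for `l = k`, `⁅x_k,x_k⁆ = 1` and `Kd j k k = 1`).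
  `⁅Kc i j, Kd j i l⁆ ∈ NN` by (3a). Conjugate: `k_ij d_ikj` commutes with `d_jkl d_jil`. Known: `k_ij`, `d_jkl` commute
  (`mab_non`: `Kd j k l` moves `j`, words without `x_i`, `a = i`), `k_ij`, `d_jil` commute (3a), `d_ikj`, `d_jkl` commute
  (`mab_non`, same). So `d_ikj` and `d_jil` commute.
-/

namespace TOR

open Helper38.AutF
open scoped commutatorElement

variable {n : ℕ} (NN : Subgroup (AF n)) [NN.Normal]

theorem q_comm_iff {a b : AF n} :
    ⁅a, b⁆ ∈ NN ↔ Commute (QuotientGroup.mk' NN a) (QuotientGroup.mk' NN b) := by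
  rw [← commutatorElement_eq_one_iff_commute, ← map_commutatorElement]
  exact (QuotientGroup.eq_one_iff _).symm

theorem q_comm_conj {a b : AF n} (ρ : AF n) (h : ⁅a, b⁆ ∈ NN) :
    Commute (QuotientGroup.mk' NN (ρ * a * ρ⁻¹)) (QuotientGroup.mk' NN (ρ * b * ρ⁻¹)) := by
  have h1 := (q_comm_iff NN).1 h
  rw [map_mul, map_mul, map_inv, map_mul, map_mul, map_inv]
  have h2 := h1.eq
  show _ * _ = _ * _
  simp only [mul_assoc, inv_mul_cancel_left]
  rw [← mul_assoc (QuotientGroup.mk' NN a), h2, mul_assoc]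

theorem Kc_mem_IA (i j : Fin n) : Kc i j ∈ IA n :=
  MM_le_IA n (Subgroup.subset_closure (Or.inl ⟨i, j, rfl⟩))

theorem Kd_mem_IA (i j k : Fin n) : Kd i j k ∈ IA n :=
  MM_le_IA n (Subgroup.subset_closure (Or.inr ⟨i, j, k, rfl⟩))

theorem Kd_swap (i j k : Fin n) : Kd i j k = (Kd i k j)⁻¹ := by
  rw [Kd, Kd, ← map_inv, Prod.inv_mk, inv_one, commutatorElement_inv]

theorem id_cc {i j : Fin n} (hij : i ≠ j) :
    R j i * Kc i j * (R j i)⁻¹ = Kc j i * Kc i j := by
  rw [mul_inv_eq_iff_eq_mul]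
  refine aut_ext (fun c => ?_)
  simp only [MulAut.mul_apply]
  by_cases h1 : c = i
  · subst h1
    rw [Kc_self hij.symm, R_ne hij, Kc_self hij.symm]
    simp only [map_mul, map_inv, R_self hij, R_ne hij, Kc_self hij, Kc_ne hij]
    group
  · by_cases h2 : c = j
    · subst h2
      rw [Kc_ne h1, R_self hij]
      simp only [map_mul, map_inv, Kc_self hij, Kc_ne hij, Kc_self hij.symm, Kc_ne hij.symm]
      group
    · rw [Kc_ne h1, R_ne h2, Kc_ne h1, Kc_ne h2]

theorem id_cd {i j k : Fin n} (hij : i ≠ j) (hki : k ≠ i) (hkj : k ≠ j) :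
    R j i * Kc i k * (R j i)⁻¹ = Kc i k * Kd j k i := by
  rw [mul_inv_eq_iff_eq_mul]
  refine aut_ext (fun c => ?_)
  simp only [MulAut.mul_apply]
  by_cases h1 : c = i
  · subst h1
    rw [Kc_self hki, R_ne hij, Kd_ne hij, Kc_self hki]
    simp only [map_mul, map_inv, R_ne hij, R_ne hkj]
  · by_cases h2 : c = j
    · subst h2
      rw [Kc_ne h1, R_self hij]
      simp only [map_mul, map_inv, Kd_self hkj hij, Kd_ne hij, commutatorElement_def, Kc_ne h1,
        Kc_ne hki, Kc_self hki]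
      group
    · rw [Kc_ne h1, R_ne h2, Kd_ne h2, Kc_ne h1]

theorem id_ll {i j l : Fin n} (hij : i ≠ j) (hli : l ≠ i) (hlj : l ≠ j) :
    R l i * Kc j l * (R l i)⁻¹ = Kc j l * Kc j i := by
  rw [mul_inv_eq_iff_eq_mul]
  refine aut_ext (fun c => ?_)
  simp only [MulAut.mul_apply]
  by_cases h1 : c = j
  · subst h1
    rw [Kc_self hlj, R_ne hlj.symm, Kc_self hij]
    simp only [map_mul, map_inv, R_self hli.symm, R_ne hlj.symm, Kc_self hlj, Kc_ne hij]
    group
  · by_cases h2 : c = l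
    · subst h2
      rw [Kc_ne h1, R_self hli.symm]
      simp only [map_mul, Kc_ne h1, Kc_ne hij]
    · rw [Kc_ne h1, R_ne h2, Kc_ne h1, Kc_ne h1]

theorem mab_3a (h1 : ∀ i, ∀ w : Sx i, w ∈ commutator (Sx i) → dl i w ∈ NN)
    {i j k : Fin n} (hij : i ≠ j) (hki : k ≠ i) (hkj : k ≠ j) :
    ⁅Kc i j, Kd j k i⁆ ∈ NN ∧ ⁅Kc i j, Kd j i k⁆ ∈ NN := by
  have key : Commute (QuotientGroup.mk' NN (Kc i j)) (QuotientGroup.mk' NN (Kd j k i)) := by
    have c0 : ⁅Kc i j, Kc i k⁆ ∈ NN :=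
      mab_same NN h1 i _ _ (Kc_mem_IA i j) (Kc_mem_IA i k)
    have c1 := q_comm_conj NN (R j i) c0
    rw [id_cc hij, id_cd hij hki hkj, map_mul, map_mul] at c1
    have c2 := ((q_comm_iff NN).1 c0).eq
    have c3 := ((q_comm_iff NN).1 (mab_non NN h1 hij (lx i k, lx i k) (Kc_mem_IA i k)
      (lx_mem_Sx hkj.symm) (lx_mem_Sx hkj.symm) (lx j i, lx j i) (Kc_mem_IA j i))).eq
    have c4 := ((q_comm_iff NN).1 (mab_same NN h1 j _ _ (Kc_mem_IA j i) (Kd_mem_IA j k i))).eq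
    change QuotientGroup.mk' NN (Kc i k) * QuotientGroup.mk' NN (Kc j i) =
      QuotientGroup.mk' NN (Kc j i) * QuotientGroup.mk' NN (Kc i k) at c3
    change QuotientGroup.mk' NN (Kc j i) * QuotientGroup.mk' NN (Kd j k i) =
      QuotientGroup.mk' NN (Kd j k i) * QuotientGroup.mk' NN (Kc j i) at c4
    have c5 := c1.eq
    generalize QuotientGroup.mk' NN (Kc i j) = a at *
    generalize QuotientGroup.mk' NN (Kc j i) = b at *
    generalize QuotientGroup.mk' NN (Kc i k) = c at *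
    generalize QuotientGroup.mk' NN (Kd j k i) = d at *
    show a * d = d * a
    have e1 : b * a * (c * d) = c * b * (a * d) := by
      calc b * a * (c * d) = b * (a * c) * d := by group
        _ = b * c * a * d := by rw [c2]; group
        _ = c * b * (a * d) := by rw [← c3]; group
    have e2 : c * d * (b * a) = c * b * (d * a) := by
      calc c * d * (b * a) = c * (d * b) * a := by group
        _ = c * b * (d * a) := by rw [← c4]; group
    rw [e1, e2] at c5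
    exact mul_left_cancel c5
  refine ⟨(q_comm_iff NN).2 key, (q_comm_iff NN).2 ?_⟩
  rw [Kd_swap, map_inv]
  exact key.inv_right

theorem mab_3b (h1 : ∀ i, ∀ w : Sx i, w ∈ commutator (Sx i) → dl i w ∈ NN) (hn : 3 ≤ n)
    {i j : Fin n} (hij : i ≠ j) : ⁅Kc i j, Kc j i⁆ ∈ NN := by
  obtain ⟨l, hli, hlj⟩ : ∃ l : Fin n, l ≠ i ∧ l ≠ j := by
    have h2 : ({i, j} : Finset (Fin n)).card < (Finset.univ : Finset (Fin n)).card := by
      rw [Finset.card_univ, Fintype.card_fin]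
      exact lt_of_le_of_lt Finset.card_le_two hn
    obtain ⟨l, _, hl⟩ := Finset.exists_mem_notMem_of_card_lt_card h2
    rw [Finset.mem_insert, Finset.mem_singleton, not_or] at hl
    exact ⟨l, hl.1, hl.2⟩
  rw [q_comm_iff NN]
  have c0 : ⁅Kc j l, Kc i j⁆ ∈ NN :=
    mab_non NN h1 hij.symm (lx j l, lx j l) (Kc_mem_IA j l)
      (lx_mem_Sx hli.symm) (lx_mem_Sx hli.symm) (lx i j, lx i j) (Kc_mem_IA i j)
  have c1 := q_comm_conj NN (R l i) c0
  rw [id_ll hij hli hlj, id_cd hli.symm hij.symm hlj.symm, map_mul, map_mul] at c1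
  have c2 := ((q_comm_iff NN).1 c0).eq
  have c3 := ((q_comm_iff NN).1 (mab_3a NN h1 hlj.symm hij hli.symm).2).eq
  have c4 : ⁅Kc j i, Kd l j i⁆ ∈ NN :=
    mab_non NN h1 hlj.symm (lx j i, lx j i) (Kc_mem_IA j i)
      (lx_mem_Sx hli) (lx_mem_Sx hli) (1, ⁅lx l j, lx l i⁆) (Kd_mem_IA l j i)
  have c4' := ((q_comm_iff NN).1 c4).eq
  have c5 := c1.eq
  generalize QuotientGroup.mk' NN (Kc i j) = a at *
  generalize QuotientGroup.mk' NN (Kc j i) = b at *
  generalize QuotientGroup.mk' NN (Kc j l) = e at *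
  generalize QuotientGroup.mk' NN (Kd l j i) = f at *
  show a * b = b * a
  have e1 : e * b * (a * f) = e * (b * a) * f := by group
  have e2 : a * f * (e * b) = e * (a * b) * f := by
    calc a * f * (e * b) = a * (f * e) * b := by group
      _ = a * e * f * b := by rw [← c3]; group
      _ = e * a * f * b := by rw [← c2]
      _ = e * a * (f * b) := by group
      _ = e * (a * b) * f := by rw [← c4']; group
  rw [e1, e2] at c5
  exact (mul_left_cancel (mul_right_cancel c5)).symm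

/-- the class of `T i (1, c)`, `c` in the commutator subgroup, does not change under conjugation of `c` -/
theorem q_three (h1 : ∀ i, ∀ w : Sx i, w ∈ commutator (Sx i) → dl i w ∈ NN)
    (i : Fin n) (v c : Sx i) (hc : c ∈ commutator (Sx i)) :
    QuotientGroup.mk' NN (T i (1, v * c * v⁻¹)) = QuotientGroup.mk' NN (T i (1, c)) := by
  have h2 : T i (1, v * c * v⁻¹) = T i (1, ⁅v, c⁆) * T i (1, c) := by
    rw [← map_mul, Prod.mk_mul_mk, mul_one, commutatorElement_def]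
    congr 2
    group
  have h3 : QuotientGroup.mk' NN (T i (1, ⁅v, c⁆)) = 1 :=
    (QuotientGroup.eq_one_iff _).2 (mab_three NN h1 i v c hc)
  rw [h2, map_mul, h3, one_mul]

theorem mab_3c (h1 : ∀ i, ∀ w : Sx i, w ∈ commutator (Sx i) → dl i w ∈ NN)
    {i j k l : Fin n} (hij : i ≠ j) (hki : k ≠ i) (hkj : k ≠ j) (hli : l ≠ i) (hlj : l ≠ j) :
    ⁅Kd i k j, Kd j i l⁆ ∈ NN := by
  rw [q_comm_iff NN]
  have hcm : ∀ {G : Type} [Group G] (x y : G), ⁅x, y⁆ ∈ commutator G := fun x y =>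
    Subgroup.commutator_mem_commutator (Subgroup.mem_top _) (Subgroup.mem_top _)
  have c0 : ⁅Kc i j, Kd j i l⁆ ∈ NN := (mab_3a NN h1 hij hli hlj).2
  have c1 := q_comm_conj NN (R i k) c0
  have k1 : QuotientGroup.mk' NN (R i k * Kc i j * (R i k)⁻¹) =
      QuotientGroup.mk' NN (Kc i j) * QuotientGroup.mk' NN (Kd i k j) := by
    have h2 : R i k * Kc i j * (R i k)⁻¹ =
        Kc i j * T i (1, (lx i j)⁻¹ * ⁅lx i k, lx i j⁆ * ((lx i j)⁻¹)⁻¹) := by
      rw [R, Kc, ← map_inv, ← map_mul, ← map_mul, ← map_mul]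
      congr 1
      rw [Prod.inv_mk, Prod.mk_mul_mk, Prod.mk_mul_mk, Prod.mk_mul_mk, commutatorElement_def]
      congr 1
      · group
      · group
    rw [h2, map_mul, q_three NN h1 i _ _ (hcm _ _)]
    rfl
  have hρ : R i k ∈ Sti j := R_mem_Sti hij hkj
  have k2 : QuotientGroup.mk' NN (R i k * Kd j i l * (R i k)⁻¹) =
      QuotientGroup.mk' NN (Kd j k l) * QuotientGroup.mk' NN (Kd j i l) := by
    have h2 : R i k * Kd j i l * (R i k)⁻¹ =
        T j (1, lx j i * ⁅lx j k, lx j l⁆ * (lx j i)⁻¹) * Kd j i l := by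
      rw [Kd, Sti_conj _ hρ, ← map_mul]
      congr 1
      have a1 : act (R i k) hρ (lx j i) = lx j i * lx j k := by
        apply Subtype.ext
        rw [act_coe, Subgroup.coe_mul, lx_ne hij, lx_ne hkj, R_self hki]
      have a2 : act (R i k) hρ (lx j l) = lx j l := by
        apply Subtype.ext
        rw [act_coe, lx_ne hlj, R_ne hli]
      rw [Prod.mk_mul_mk, map_one, map_commutatorElement, a1, a2]
      simp only [commutatorElement_def]
      congr 1
      group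
    rw [h2, map_mul, q_three NN h1 j _ _ (hcm _ _)]
    rfl
  rw [k1, k2] at c1
  have hw : (((1, ⁅lx j k, lx j l⁆) : Sx j × Sx j).2 : FreeGroup (Fin n)) ∈ Sx i := by
    have h2 := lx_mem_Sx (i := j) hki.symm
    have h3 := lx_mem_Sx (i := j) hli.symm
    rw [commutatorElement_def]
    exact mul_mem (mul_mem (mul_mem h2 h3) (inv_mem h2)) (inv_mem h3)
  have c2 : ⁅Kd j k l, Kc i j⁆ ∈ NN :=
    mab_non NN h1 hij.symm (1, ⁅lx j k, lx j l⁆) (Kd_mem_IA j k l) (one_mem _) hw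
      (lx i j, lx i j) (Kc_mem_IA i j)
  have c3 : ⁅Kd j k l, Kd i k j⁆ ∈ NN :=
    mab_non NN h1 hij.symm (1, ⁅lx j k, lx j l⁆) (Kd_mem_IA j k l) (one_mem _) hw
      (1, ⁅lx i k, lx i j⁆) (Kd_mem_IA i k j)
  have c2' := ((q_comm_iff NN).1 c2).eq
  have c3' := ((q_comm_iff NN).1 c3).eq
  have c4' := ((q_comm_iff NN).1 c0).eq
  have c5 := c1.eq
  generalize QuotientGroup.mk' NN (Kc i j) = a at *
  generalize QuotientGroup.mk' NN (Kd i k j) = g at *
  generalize QuotientGroup.mk' NN (Kd j k l) = h at *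
  generalize QuotientGroup.mk' NN (Kd j i l) = m at *
  show g * m = m * g
  have e1 : a * g * (h * m) = h * a * (g * m) := by
    calc a * g * (h * m) = a * (g * h) * m := by group
      _ = a * h * g * m := by rw [← c3']; group
      _ = h * a * (g * m) := by rw [← c2']; group
  have e2 : h * m * (a * g) = h * a * (m * g) := by
    calc h * m * (a * g) = h * (m * a) * g := by group
      _ = h * a * (m * g) := by rw [← c4']; group
  rw [e1, e2] at c5
  exact mul_left_cancel c5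

end TOR
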