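import Mathlib
import Pool.Agent.Helper34.TOR.Defs
import Pool.Agent.Helper34.TOR.Api
import Pool.Agent.Helper34.TOR.LemG
import Pool.Agent.Helper34.TOR.Mab1
import Pool.Agent.Helper34.TOR.Mab2

/-!
# TOR-15: `⁅MM n, MM n⁆ ≤ NN` and exponents

PROOFS. `mab_gens`: let `κ = T i p`, `κ' = T a q` be generators (`gens n`); both in `IA n`. `i = a`: `mab_same`. `i ≠ a`: if the words of
`p` do not involve `x_a` (both components in `Sx a`): `mab_non`; if the words of `q` do not involve `x_i`: `mab_non` with the roles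
exchanged (`⁅x,y⁆⁻¹ = ⁅y,x⁆`). Otherwise `κ ∈ {Kc i a, Kd i a k, Kd i k a}` and `κ' ∈ {Kc a i, Kd a i l, Kd a l i}` with `k ≠ i, a`,
`l ≠ i, a` (if `k = i` or `k = a` then `Kd i a k = 1`: `lx i i = 1`, `⁅g,g⁆ = 1`, trivial; note `Kc i i = 1`). As
`Kd i a k = (Kd i k a)⁻¹`: the pairs are covered by `mab_3b` (`Kc i a, Kc a i`), `mab_3a` (`Kc i a` with `Kd a l i`, `Kd a i l`;
and exchanged), `mab_3c` (`Kd i k a` with `Kd a i l`). (`⁅x, y⁻¹⁆`, `⁅x⁻¹, y⁆` are conjugates of `⁅x,y⁆⁻¹`; simplest: work in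
`AF n ⧸ NN` with `Commute`, which is stable under inverses.)
`mab_comm`: the images of the generators in `AF n ⧸ NN` commute, so the image of the closure is commutative
(`Subgroup.closure_induction₂` or `Subgroup.isMulCommutative_closure`).
`mab_pow`: since the image of `MM n` in `AF n ⧸ NN` is commutative it is enough to treat the generators. `Kc i j = dl i (lx i j)`:
`h2`. `Kd i j k` (`j ≠ i`, `k ≠ i`; otherwise it is `1`): `T i (1, x_j) * T i (x_k, x_k) * T i (1, x_j)⁻¹ = T i (x_k, x_j x_k x_j⁻¹)` has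
`N`-th power in `NN`, and equals `Kc i k * T i (1, x_k⁻¹ x_j x_k x_j⁻¹)`; both factors are in `IA n` so commute modulo `NN`
(`mab_same`), hence `T i (1, x_k⁻¹ x_j x_k x_j⁻¹)^N ∈ NN`; conjugating by `T i (1, x_k)` gives
`T i (1, x_j x_k x_j⁻¹ x_k⁻¹)^N = (Kd i j k)^N ∈ NN`.
-/

namespace TOR

open Helper38.AutF
open scoped commutatorElement

variable {n : ℕ} (NN : Subgroup (AF n)) [NN.Normal]

private lemma cm_iff (x y : AF n) :
    ⁅x, y⁆ ∈ NN ↔ Commute (QuotientGroup.mk' NN x) (QuotientGroup.mk' NN y) := by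
  rw [← commutatorElement_eq_one_iff_commute, ← map_commutatorElement]
  exact (QuotientGroup.eq_one_iff _).symm

private lemma Kc_IA (i j : Fin n) : T i (lx i j, lx i j) ∈ IA n :=
  MM_le_IA n (Subgroup.subset_closure (Or.inl ⟨i, j, rfl⟩))

private lemma Kd_IA (i j k : Fin n) : T i (1, ⁅lx i j, lx i k⁆) ∈ IA n :=
  MM_le_IA n (Subgroup.subset_closure (Or.inr ⟨i, j, k, rfl⟩))

private lemma comm_mem_Sx {i j k a : Fin n} (hj : a ≠ j) (hk : a ≠ k) :
    ((⁅lx i j, lx i k⁆ : Sx i) : FreeGroup (Fin n)) ∈ Sx a := by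
  have h1 := lx_mem_Sx (i := i) hj
  have h2 := lx_mem_Sx (i := i) hk
  rw [commutatorElement_def]
  exact mul_mem (mul_mem (mul_mem h1 h2) (inv_mem h1)) (inv_mem h2)

private lemma Kd_inv (i j k : Fin n) : Kd i j k = (Kd i k j)⁻¹ := by
  rw [Kd, Kd, ← map_inv, Prod.inv_mk, inv_one, commutatorElement_inv]

private lemma Kd_diag (i j : Fin n) : Kd i j j = 1 := by
  rw [Kd, commutatorElement_self]
  exact map_one (T i)

private lemma Kd_one_left (i k : Fin n) : Kd i i k = 1 := by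
  rw [Kd, lx_self, commutatorElement_one_left]
  exact map_one (T i)

private lemma Kd_one_right (i j : Fin n) : Kd i j i = 1 := by
  rw [Kd_inv, Kd_one_left, inv_one]

/-- normal form of `Kd i j k` relative to `a` -/
private lemma Kd_nf {i a : Fin n} (hia : i ≠ a) (j k : Fin n) :
    (a ≠ j ∧ a ≠ k) ∨ Kd i j k = 1 ∨
      ∃ l, l ≠ i ∧ l ≠ a ∧ (Kd i j k = Kd i a l ∨ Kd i j k = (Kd i a l)⁻¹) := by
  by_cases hj : a = j
  · subst hj
    by_cases hki : k = i
    · subst hki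
      exact Or.inr (Or.inl (Kd_one_right _ _))
    by_cases hka : k = a
    · subst hka
      exact Or.inr (Or.inl (Kd_diag _ _))
    exact Or.inr (Or.inr ⟨k, hki, hka, Or.inl rfl⟩)
  by_cases hk : a = k
  · subst hk
    by_cases hji : j = i
    · subst hji
      exact Or.inr (Or.inl (Kd_one_left _ _))
    exact Or.inr (Or.inr ⟨j, hji, fun h => hj h.symm, Or.inr (Kd_inv _ _ _)⟩)
  exact Or.inl ⟨hj, hk⟩

private lemma com_KcKc (h1 : ∀ i, ∀ w : Sx i, w ∈ commutator (Sx i) → dl i w ∈ NN) (hn : 3 ≤ n)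
    {i a : Fin n} (hia : i ≠ a) (j b : Fin n) : ⁅Kc i j, Kc a b⁆ ∈ NN := by
  by_cases hj : a = j
  · subst hj
    by_cases hb : i = b
    · subst hb
      exact mab_3b NN h1 hn hia
    · rw [cm_iff]
      refine Commute.symm ?_
      rw [← cm_iff]
      exact mab_non NN h1 hia.symm _ (Kc_IA _ _) (lx_mem_Sx hb) (lx_mem_Sx hb) _ (Kc_IA _ _)
  · exact mab_non NN h1 hia _ (Kc_IA _ _) (lx_mem_Sx hj) (lx_mem_Sx hj) _ (Kc_IA _ _)

private lemma com_KcKd (h1 : ∀ i, ∀ w : Sx i, w ∈ commutator (Sx i) → dl i w ∈ NN)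
    {i a : Fin n} (hia : i ≠ a) (j b c : Fin n) : ⁅Kc i j, Kd a b c⁆ ∈ NN := by
  by_cases hj : a = j
  · subst hj
    rw [cm_iff]
    rcases Kd_nf hia.symm b c with ⟨hb, hc⟩ | h | ⟨l, hla, hli, h | h⟩
    · refine Commute.symm ?_
      rw [← cm_iff]
      exact mab_non NN h1 hia.symm _ (Kd_IA _ _ _) (one_mem _) (comm_mem_Sx hb hc) _ (Kc_IA _ _)
    · rw [h, map_one]
      exact Commute.one_right _
    · rw [h, ← cm_iff]
      exact (mab_3a NN h1 hia hli hla).2
    · rw [h, map_inv]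
      refine Commute.inv_right ?_
      rw [← cm_iff]
      exact (mab_3a NN h1 hia hli hla).2
  · exact mab_non NN h1 hia _ (Kc_IA _ _) (lx_mem_Sx hj) (lx_mem_Sx hj) _ (Kd_IA _ _ _)

private lemma com_KdKd (h1 : ∀ i, ∀ w : Sx i, w ∈ commutator (Sx i) → dl i w ∈ NN)
    {i a : Fin n} (hia : i ≠ a) (j k b c : Fin n) : ⁅Kd i j k, Kd a b c⁆ ∈ NN := by
  have key : ∀ l l' : Fin n, l ≠ i → l ≠ a → l' ≠ i → l' ≠ a →
      Commute (QuotientGroup.mk' NN (Kd i a l)) (QuotientGroup.mk' NN (Kd a i l')) := by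
    intro l l' h2 h3 h4 h5
    rw [Kd_inv, map_inv]
    refine Commute.inv_left ?_
    rw [← cm_iff]
    exact mab_3c NN h1 hia h2 h3 h4 h5
  rcases Kd_nf hia j k with ⟨hj, hk⟩ | h | ⟨l, hli, hla, h⟩
  · exact mab_non NN h1 hia _ (Kd_IA _ _ _) (one_mem _) (comm_mem_Sx hj hk) _ (Kd_IA _ _ _)
  · rw [cm_iff, h, map_one]
    exact Commute.one_left _
  · rcases Kd_nf hia.symm b c with ⟨hb, hc⟩ | h' | ⟨l', hla', hli', h'⟩
    · rw [cm_iff]
      refine Commute.symm ?_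
      rw [← cm_iff]
      exact mab_non NN h1 hia.symm _ (Kd_IA _ _ _) (one_mem _) (comm_mem_Sx hb hc) _
        (Kd_IA _ _ _)
    · rw [cm_iff, h', map_one]
      exact Commute.one_right _
    · have h0 := key l l' hli hla hli' hla'
      rw [cm_iff]
      rcases h with h | h <;> rcases h' with h' | h' <;> rw [h, h']
      · exact h0
      · rw [map_inv]; exact h0.inv_right
      · rw [map_inv]; exact h0.inv_left
      · rw [map_inv, map_inv]; exact h0.inv_inv

theorem mab_gens (h1 : ∀ i, ∀ w : Sx i, w ∈ commutator (Sx i) → dl i w ∈ NN) (hn : 3 ≤ n)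
    (κ κ' : AF n) (hκ : κ ∈ gens n) (hκ' : κ' ∈ gens n) : ⁅κ, κ'⁆ ∈ NN := by
  rcases hκ with ⟨i, j, rfl⟩ | ⟨i, j, k, rfl⟩ <;> rcases hκ' with ⟨a, b, rfl⟩ | ⟨a, b, c, rfl⟩ <;>
    rcases eq_or_ne i a with rfl | hia
  · exact mab_same NN h1 _ _ _ (Kc_IA _ _) (Kc_IA _ _)
  · exact com_KcKc NN h1 hn hia _ _
  · exact mab_same NN h1 _ _ _ (Kc_IA _ _) (Kd_IA _ _ _)
  · exact com_KcKd NN h1 hia _ _ _
  · exact mab_same NN h1 _ _ _ (Kd_IA _ _ _) (Kc_IA _ _)
  · rw [cm_iff]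
    refine Commute.symm ?_
    rw [← cm_iff]
    exact com_KcKd NN h1 hia.symm _ _ _
  · exact mab_same NN h1 _ _ _ (Kd_IA _ _ _) (Kd_IA _ _ _)
  · exact com_KdKd NN h1 hia _ _ _ _

theorem mab_comm (h1 : ∀ i, ∀ w : Sx i, w ∈ commutator (Sx i) → dl i w ∈ NN) (hn : 3 ≤ n)
    (κ κ' : AF n) (hκ : κ ∈ MM n) (hκ' : κ' ∈ MM n) : ⁅κ, κ'⁆ ∈ NN := by
  have h2 : ∀ x ∈ gens n, ∀ y ∈ MM n,
      Commute (QuotientGroup.mk' NN x) (QuotientGroup.mk' NN y) := by
    intro x hx y hy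
    refine Subgroup.closure_induction (p := fun y _ =>
      Commute (QuotientGroup.mk' NN x) (QuotientGroup.mk' NN y)) ?_ ?_ ?_ ?_ hy
    · intro y hy
      rw [← cm_iff]
      exact mab_gens NN h1 hn x y hx hy
    · rw [map_one]
      exact Commute.one_right _
    · intro a b _ _ ha hb
      rw [map_mul]
      exact ha.mul_right hb
    · intro a _ ha
      rw [map_inv]
      exact ha.inv_right
  rw [cm_iff]
  refine Subgroup.closure_induction (p := fun x _ =>
      Commute (QuotientGroup.mk' NN x) (QuotientGroup.mk' NN κ')) ?_ ?_ ?_ ?_ hκ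
  · intro x hx
    exact h2 x hx κ' hκ'
  · rw [map_one]
    exact Commute.one_left _
  · intro a b _ _ ha hb
    rw [map_mul]
    exact ha.mul_left hb
  · intro a _ ha
    rw [map_inv]
    exact ha.inv_left

theorem mab_pow (h1 : ∀ i, ∀ w : Sx i, w ∈ commutator (Sx i) → dl i w ∈ NN) (hn : 3 ≤ n)
    (N : ℕ) (h2 : ∀ i, ∀ w : Sx i, dl i w ^ N ∈ NN) (κ : AF n) (hκ : κ ∈ MM n) :
    κ ^ N ∈ NN := by
  have hm : ∀ x : AF n, x ^ N ∈ NN ↔ (QuotientGroup.mk' NN x) ^ N = 1 := by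
    intro x
    rw [← map_pow]
    exact (QuotientGroup.eq_one_iff _).symm
  have hc : ∀ g x : AF n, x ^ N ∈ NN → (g * x * g⁻¹) ^ N ∈ NN := by
    intro g x hx
    rw [conj_pow]
    exact Subgroup.Normal.conj_mem inferInstance _ hx g
  refine Subgroup.closure_induction (p := fun x _ => x ^ N ∈ NN) ?_ ?_ ?_ ?_ hκ
  · rintro x (⟨i, j, rfl⟩ | ⟨i, j, k, rfl⟩)
    · exact h2 i _
    · set p := lx i j with hp
      set q := lx i k with hq
      -- the conjugate of `dl i q` by `T i (1, p)`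
      have e1 : T i (1, p) * dl i q * (T i (1, p))⁻¹ = dl i q * T i (1, q⁻¹ * p * q * p⁻¹) := by
        rw [dl_apply, ← map_inv, ← map_mul, ← map_mul, ← map_mul]
        congr 1
        ext
        · simp
        · simp [mul_assoc]
      have e2 : T i (1, q) * T i (1, q⁻¹ * p * q * p⁻¹) * (T i (1, q))⁻¹ = Kd i j k := by
        rw [Kd, ← map_inv, ← map_mul, ← map_mul]
        congr 1
        ext
        · simp
        · simp [mul_assoc, commutatorElement_def, ← hp, ← hq]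
      have e3 : T i (1, q⁻¹ * p * q * p⁻¹) ∈ IA n := by
        have : T i (1, q⁻¹ * p * q * p⁻¹) =
            (dl i q)⁻¹ * (T i (1, p) * dl i q * (T i (1, p))⁻¹) := by
          rw [e1, inv_mul_cancel_left]
        rw [this]
        exact mul_mem (inv_mem (dl_mem_IA _ _))
          (Subgroup.Normal.conj_mem inferInstance _ (dl_mem_IA _ _) _)
      have e4 := hc (T i (1, p)) _ (h2 i q)
      rw [e1, hm, map_mul, Commute.mul_pow, (hm _).1 (h2 i q), one_mul, ← hm] at e4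
      · rw [← e2]
        exact hc _ _ e4
      · rw [← cm_iff]
        exact mab_same NN h1 i (q, q) _ (dl_mem_IA i q) e3
  · rw [one_pow]
    exact one_mem _
  · intro a b ha hb ha' hb'
    rw [hm] at ha' hb' ⊢
    rw [map_mul, Commute.mul_pow ((cm_iff NN a b).1 (mab_comm NN h1 hn a b ha hb)), ha', hb',
      one_mul]
  · intro a _ ha
    rw [inv_pow]
    exact inv_mem ha

end TOR
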