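import Mathlib
import Pool.Agent.Helper34.TOR.Defs

/-!
# TOR: definitions for the Nielsen theorem (`Aut(F_n)` is generated by Nielsen automorphisms)
-/

namespace TOR

open Helper38.AutF

/-- the subgroup generated by the Nielsen automorphisms -/
def GN (n : ℕ) : Subgroup (AF n) :=
  Subgroup.closure ({φ : AF n | ∃ i j, i ≠ j ∧ φ = R i j} ∪
    {φ | ∃ σ, φ = pm σ} ∪ {φ | ∃ a, φ = eps a})

/-- the length of the longest common prefix (Gromov product) -/
def cp {α : Type*} [DecidableEq α] (g h : FreeGroup α) : ℕ :=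
  (g.norm + h.norm - (g⁻¹ * h).norm) / 2

/-- the first half of a reduced word -/
def half {α : Type*} [DecidableEq α] (g : FreeGroup α) : List (α × Bool) :=
  g.toWord.take (g.norm / 2)

/-- digit of a letter -/
def dig {n : ℕ} (l : Fin n × Bool) : ℕ := 2 * (l.1 : ℕ) + (if l.2 then 1 else 0)

/-- a list of letters as a number in base `2 n` -/
def val {n : ℕ} (L : List (Fin n × Bool)) : ℕ := L.foldl (fun acc l => acc * (2 * n) + dig l) 0

/-- total length of the basis `ψ (x_i)` -/
def len {n : ℕ} (ψ : AF n) : ℕ := ∑ i, (ψ (FreeGroup.of i)).norm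

/-- the secondary measure -/
def th {n : ℕ} (ψ : AF n) : ℕ :=
  ∑ i, (val (half (ψ (FreeGroup.of i))) + val (half (ψ (FreeGroup.of i))⁻¹))

/-- the image of the letter `l = (i, b)` (`x_i` if `b = true`, `x_i⁻¹` if `b = false`) -/
def im {α β : Type*} (ψ : FreeGroup α →* FreeGroup β) (l : α × Bool) : FreeGroup β :=
  ψ (FreeGroup.mk [l])

end TOR
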