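import Mathlib
import Pool.Agent.Helper34.TOR.NDefs

/-!
# TOR-17: common prefixes in free groups

`g.toWord` = reduced word (list of `(letter, sign)`), `g.norm` its length.

PROOF. Let `u = g.toWord`, `w = h.toWord`, and let `c` be the length of their longest common prefix: `u = p ++ u'`, `w = p ++ w'`,
`|p| = c`, and `u', w'` do not start with the same letter. Then `(g⁻¹ * h).toWord = FreeGroup.invRev u' ++ w'`: this list is reduced
(`u'`, `w'` are contiguous subwords of reduced words, and at the junction the last letter of `invRev u'` is the inverse of the head of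
`u'`, which is not cancelled by the head of `w'` since the heads differ), and it represents `g⁻¹ h`
(`FreeGroup.mk`, `FreeGroup.inv_mk`, `FreeGroup.IsReduced`/`FreeGroup.reduce` API; a reduced list is the `toWord` of its
class). So `|g⁻¹ h| = |u| + |w| - 2 c` and `cp g h = c`. All statements follow: `cp_spec`; `cp_take`; `cp_max`: a common
prefix has length `≤ c`; `cp_ultra`: `u, w` agree up to `min`, etc.; `cp_comm` from `(g⁻¹h)⁻¹ = h⁻¹ g` (`FreeGroup.norm_inv_eq`).
`cp_sq`: let `a ≠ 1`, `u = a.toWord`, `ℓ = |u| ≥ 1`, and suppose `c = cp a⁻¹ a ≥ ℓ/2` (i.e. `ℓ ≤ 2c`). `a⁻¹.toWord = invRev u`, whose `m`-th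
letter is the inverse of the `(ℓ-1-m)`-th letter of `u`. Equality of prefixes of length `c`: `u[m] = inv u[ℓ-1-m]` for
`m < c`. `ℓ` odd: `m = (ℓ-1)/2 < c` gives `u[m] = inv u[m]`, impossible. `ℓ` even: `m = ℓ/2 - 1 < c` gives `u[m] = inv u[m+1]`,
impossible for a reduced word.
-/

namespace TOR

variable {α : Type*} [DecidableEq α]

/-- longest common prefix decomposition -/
private theorem exists_lcp {β : Type*} (u w : List β) :
    ∃ p u' w', u = p ++ u' ∧ w = p ++ w' ∧ (∀ a ∈ u'.head?, ∀ b ∈ w'.head?, a ≠ b) := by
  induction u generalizing w with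
  | nil => exact ⟨[], [], w, by simp, by simp, by simp⟩
  | cons x u ih =>
    cases w with
    | nil => exact ⟨[], x :: u, [], by simp, by simp, by simp⟩
    | cons y w =>
      by_cases hxy : x = y
      · obtain ⟨p, u', w', h1, h2, h3⟩ := ih w
        exact ⟨x :: p, u', w', by simp [h1], by simp [h2, hxy], h3⟩
      · refine ⟨[], x :: u, y :: w, by simp, by simp, ?_⟩
        intro a ha b hb
        simp only [List.head?_cons, Option.mem_def, Option.some.injEq] at ha hb
        rw [← ha, ← hb]
        exact hxy

/-- the reduced word of the quotient -/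
private theorem red_quot (p u' w' : List (α × Bool)) (hu : FreeGroup.IsReduced (p ++ u'))
    (hw : FreeGroup.IsReduced (p ++ w')) (h : ∀ a ∈ u'.head?, ∀ b ∈ w'.head?, a ≠ b) :
    ((FreeGroup.mk (p ++ u'))⁻¹ * FreeGroup.mk (p ++ w')).toWord =
      FreeGroup.invRev u' ++ w' := by
  have h1 : (FreeGroup.mk (p ++ u'))⁻¹ * FreeGroup.mk (p ++ w') =
      FreeGroup.mk (FreeGroup.invRev u' ++ w') := by
    rw [← FreeGroup.mul_mk, ← FreeGroup.mul_mk, ← FreeGroup.mul_mk, mul_inv_rev,
      ← FreeGroup.inv_mk]
    group
  have hru : FreeGroup.IsReduced u' := List.IsChain.right_of_append hu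
  have hrw : FreeGroup.IsReduced w' := List.IsChain.right_of_append hw
  have hri : FreeGroup.IsReduced (FreeGroup.invRev u') := by
    rw [FreeGroup.isReduced_iff_reduce_eq, FreeGroup.reduce_invRev, hru.reduce_eq]
  have hred : FreeGroup.IsReduced (FreeGroup.invRev u' ++ w') := by
    refine List.isChain_append.2 ⟨hri, hrw, ?_⟩
    intro x hx y hy hxy
    cases u' with
    | nil => simp at hx
    | cons a u'' =>
      have hx' : x = (a.1, !a.2) := by
        simp [FreeGroup.invRev] at hx
        exact hx.symm
      have hne : a ≠ y := h a (by simp) y hy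
      rw [hx'] at hxy ⊢
      simp only at hxy ⊢
      have h2 : a.2 ≠ y.2 := fun h3 => hne (Prod.ext hxy h3)
      cases ha : a.2 <;> cases hy2 : y.2 <;> simp_all
  rw [h1, FreeGroup.toWord_mk, hred.reduce_eq]

private theorem key (g h : FreeGroup α) :
    ∃ p u' w', g.toWord = p ++ u' ∧ h.toWord = p ++ w' ∧
      (∀ a ∈ u'.head?, ∀ b ∈ w'.head?, a ≠ b) ∧ cp g h = p.length ∧
      (g⁻¹ * h).norm = u'.length + w'.length := by
  obtain ⟨p, u', w', h1, h2, h3⟩ := exists_lcp g.toWord h.toWord
  have hg : FreeGroup.IsReduced (p ++ u') := h1 ▸ FreeGroup.isReduced_toWord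
  have hh : FreeGroup.IsReduced (p ++ w') := h2 ▸ FreeGroup.isReduced_toWord
  have hq := red_quot p u' w' hg hh h3
  have eg : g = FreeGroup.mk (p ++ u') := by rw [← h1, FreeGroup.mk_toWord]
  have eh : h = FreeGroup.mk (p ++ w') := by rw [← h2, FreeGroup.mk_toWord]
  rw [← eg, ← eh] at hq
  have hn : (g⁻¹ * h).norm = u'.length + w'.length := by
    rw [FreeGroup.norm, hq, List.length_append, FreeGroup.invRev_length]
  refine ⟨p, u', w', h1, h2, h3, ?_, hn⟩
  have e1 : g.norm = p.length + u'.length := by rw [FreeGroup.norm, h1, List.length_append]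
  have e2 : h.norm = p.length + w'.length := by rw [FreeGroup.norm, h2, List.length_append]
  rw [cp, hn, e1, e2]
  omega

theorem cp_spec (g h : FreeGroup α) : 2 * cp g h + (g⁻¹ * h).norm = g.norm + h.norm := by
  obtain ⟨p, u', w', h1, h2, -, h4, h5⟩ := key g h
  have e1 : g.norm = p.length + u'.length := by rw [FreeGroup.norm, h1, List.length_append]
  have e2 : h.norm = p.length + w'.length := by rw [FreeGroup.norm, h2, List.length_append]
  rw [h4, h5, e1, e2]
  ring

theorem cp_comm (g h : FreeGroup α) : cp g h = cp h g := by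
  have h1 : (h⁻¹ * g).norm = (g⁻¹ * h).norm := by
    rw [← FreeGroup.norm_inv_eq]
    congr 1
    group
  rw [cp, cp, h1, add_comm]

theorem cp_le_left (g h : FreeGroup α) : cp g h ≤ g.norm := by
  obtain ⟨p, u', w', h1, h2, -, h4, h5⟩ := key g h
  have e1 : g.norm = p.length + u'.length := by rw [FreeGroup.norm, h1, List.length_append]
  omega

private theorem cp_le_right (g h : FreeGroup α) : cp g h ≤ h.norm := by
  rw [cp_comm]
  exact cp_le_left h g

theorem cp_take (g h : FreeGroup α) : g.toWord.take (cp g h) = h.toWord.take (cp g h) := by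
  obtain ⟨p, u', w', h1, h2, -, h4, -⟩ := key g h
  rw [h4, h1, h2, List.take_left, List.take_left]

theorem cp_max (g h : FreeGroup α) (c : ℕ) (hg : c ≤ g.norm) (hh : c ≤ h.norm)
    (h1 : g.toWord.take c = h.toWord.take c) : c ≤ cp g h := by
  obtain ⟨p, u', w', e1, e2, e3, e4, -⟩ := key g h
  rw [e4]
  by_contra hc
  push Not at hc
  have l1 : g.norm = p.length + u'.length := by rw [FreeGroup.norm, e1, List.length_append]
  have l2 : h.norm = p.length + w'.length := by rw [FreeGroup.norm, e2, List.length_append]
  have q1 : u' ≠ [] := by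
    intro h3
    rw [h3, List.length_nil] at l1
    omega
  have q2 : w' ≠ [] := by
    intro h3
    rw [h3, List.length_nil] at l2
    omega
  obtain ⟨a, u'', rfl⟩ := List.exists_cons_of_ne_nil q1
  obtain ⟨b, w'', rfl⟩ := List.exists_cons_of_ne_nil q2
  have hab : a ≠ b := e3 a (by simp) b (by simp)
  apply hab
  have h2 : (g.toWord.take c)[p.length]? = (h.toWord.take c)[p.length]? := by rw [h1]
  rw [List.getElem?_take_of_lt hc, List.getElem?_take_of_lt hc, e1, e2] at h2
  simpa using h2

theorem cp_ultra (g h k : FreeGroup α) : min (cp g h) (cp h k) ≤ cp g k := by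
  apply cp_max
  · exact (min_le_left _ _).trans (cp_le_left g h)
  · exact (min_le_right _ _).trans (cp_le_right h k)
  · have h1 := congrArg (List.take (min (cp g h) (cp h k))) (cp_take g h)
    have h2 := congrArg (List.take (min (cp g h) (cp h k))) (cp_take h k)
    rw [List.take_take, List.take_take, min_eq_left (min_le_left _ _)] at h1
    rw [List.take_take, List.take_take, min_eq_left (min_le_right _ _)] at h2
    exact h1.trans h2

omit [DecidableEq α] in
private theorem inv_get (u : List (α × Bool)) (m : ℕ) (hm : m < u.length) :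
    (FreeGroup.invRev u)[m]? = (u[u.length - 1 - m]?).map (fun x => (x.1, !x.2)) := by
  rw [FreeGroup.invRev, List.getElem?_reverse (by simpa using hm), List.getElem?_map,
    List.length_map]

theorem cp_sq (a : FreeGroup α) (ha : a ≠ 1) : 2 * cp a⁻¹ a < a.norm := by
  by_contra hc
  push Not at hc
  have hl : a.norm ≠ 0 := by
    rw [Ne, FreeGroup.norm_eq_zero]
    exact ha
  have ht := cp_take a⁻¹ a
  rw [FreeGroup.toWord_inv] at ht
  have hn : a.toWord.length = a.norm := rfl
  have hred : FreeGroup.IsReduced a.toWord := FreeGroup.isReduced_toWord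
  have hget : ∀ m, m < cp a⁻¹ a → m < a.norm →
      a.toWord[m]? = (a.toWord[a.norm - 1 - m]?).map (fun x => (x.1, !x.2)) := by
    intro m hm hm2
    have h2 : ((FreeGroup.invRev a.toWord).take (cp a⁻¹ a))[m]? =
        (a.toWord.take (cp a⁻¹ a))[m]? := by rw [ht]
    rw [List.getElem?_take_of_lt hm, List.getElem?_take_of_lt hm,
      inv_get a.toWord m (by omega), hn] at h2
    exact h2.symm
  rcases Nat.even_or_odd' a.norm with ⟨k, hk | hk⟩
  · have h1 := hget (k - 1) (by omega) (by omega)
    have h2 : a.norm - 1 - (k - 1) = k - 1 + 1 := by omega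
    rw [h2, List.getElem?_eq_getElem (by omega), List.getElem?_eq_getElem (by omega),
      Option.map_some, Option.some.injEq] at h1
    have h3 := List.isChain_iff_getElem.1 hred (k - 1) (by omega)
    rw [h1] at h3
    simp at h3
  · have h1 := hget k (by omega) (by omega)
    have h2 : a.norm - 1 - k = k := by omega
    rw [h2, List.getElem?_eq_getElem (by omega), Option.map_some, Option.some.injEq] at h1
    have h3 := congrArg Prod.snd h1
    simp at h3

end TOR
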