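import Mathlib
import Pool.Agent.Helper34.TOR.NDefs

/-!
# TOR-18: lists as numbers

PROOFS. `val_append`: induction (generalise the accumulator: `foldl f acc L = acc * (2n)^|L| + foldl f 0 L`). `dig l < 2 n`, `dig`
injective. `val_inj`: lists of equal length with the same value coincide: `val L < (2n)^|L|`, induction from the end
(`List.reverseRecOn`, `val (L ++ [l]) = val L * (2n) + dig l`). `val_lt`: from `val_append` (`(2n)^|R| > 0` since a letter
exists, i.e. if `P` is nonempty then `n > 0`; if `P = []` then `Q = []` and `val P < val Q` is false).
-/

namespace TOR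

variable {n : ℕ}

private theorem foldl_acc (acc : ℕ) (L : List (Fin n × Bool)) :
    L.foldl (fun acc l => acc * (2 * n) + dig l) acc =
      acc * (2 * n) ^ L.length + L.foldl (fun acc l => acc * (2 * n) + dig l) 0 := by
  induction L generalizing acc with
  | nil => simp
  | cons a L ih =>
    rw [List.foldl_cons, List.foldl_cons, ih, ih (0 * (2 * n) + dig a), List.length_cons]
    ring

theorem val_append (L R : List (Fin n × Bool)) :
    val (L ++ R) = val L * (2 * n) ^ R.length + val R := by
  unfold val
  rw [List.foldl_append, foldl_acc]

private theorem dig_lt (l : Fin n × Bool) : dig l < 2 * n := by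
  unfold dig
  have := l.1.2
  split_ifs <;> omega

private theorem dig_inj {l l' : Fin n × Bool} (h : dig l = dig l') : l = l' := by
  obtain ⟨a, b⟩ := l
  obtain ⟨a', b'⟩ := l'
  unfold dig at h
  cases b <;> cases b' <;> simp only [Bool.false_eq_true, if_true, if_false] at h
  · have : a = a' := Fin.ext (by omega)
    rw [this]
  · omega
  · omega
  · have : a = a' := Fin.ext (by omega)
    rw [this]

private theorem val_concat (L : List (Fin n × Bool)) (l : Fin n × Bool) :
    val (L ++ [l]) = 2 * n * val L + dig l := by
  rw [val_append]
  have : val [l] = dig l := by simp [val]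
  rw [this]
  simp
  ring

theorem val_inj {P Q : List (Fin n × Bool)} (hl : P.length = Q.length) (h : val P = val Q) :
    P = Q := by
  induction P using List.reverseRecOn generalizing Q with
  | nil =>
    rw [List.length_nil] at hl
    exact (List.length_eq_zero_iff.1 hl.symm).symm
  | append_singleton L l ih =>
    rcases List.eq_nil_or_concat Q with hQ | ⟨L', l', hQ⟩
    · rw [hQ] at hl
      simp at hl
    · rw [List.concat_eq_append] at hQ
      subst hQ
      rw [val_concat, val_concat] at h
      have hl' : L.length = L'.length := by simpa using hl
      have hd : dig l = dig l' := by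
        have h1 := congrArg (fun t => t % (2 * n)) h
        simp only [Nat.mul_add_mod] at h1
        rwa [Nat.mod_eq_of_lt (dig_lt l), Nat.mod_eq_of_lt (dig_lt l')] at h1
      have hn : 0 < 2 * n := lt_of_le_of_lt (Nat.zero_le _) (dig_lt l)
      have hv : val L = val L' := by
        rw [hd] at h
        exact Nat.eq_of_mul_eq_mul_left hn (Nat.add_right_cancel h)
      rw [ih hl' hv, dig_inj hd]

theorem val_lt {P Q R : List (Fin n × Bool)} (hl : P.length = Q.length) (h : val P < val Q) :
    val (P ++ R) < val (Q ++ R) := by
  rw [val_append, val_append]
  have hn : 0 < n := by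
    cases P with
    | nil =>
      rw [List.length_nil] at hl
      have : Q = [] := List.length_eq_zero_iff.1 hl.symm
      rw [this] at h
      exact absurd h (lt_irrefl _)
    | cons a P => exact lt_of_le_of_lt (Nat.zero_le _) a.1.2
  have hB : 0 < (2 * n) ^ R.length := Nat.pow_pos (by omega)
  exact Nat.add_lt_add_right (Nat.mul_lt_mul_of_pos_right h hB) _

end TOR
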