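import Mathlib
import Pool.Agent.Helper34.TOR.NDefs
import Pool.Agent.Helper34.TOR.Api
import Pool.Agent.Helper34.TOR.Lcp
import Pool.Agent.Helper34.TOR.Val

/-!
# TOR-19: minimal bases are Nielsen reduced

`a l = im ψ l`: `a (i,true) = ψ x_i`, `a (i,false) = (ψ x_i)⁻¹`; `(l.1, !l.2)` is the inverse letter; `a l ≠ 1`.

PROOF. MOVES. For `i ≠ j` the automorphisms `x_i ↦ x_i x_j^{±1}` (`R i j`, its inverse) and `x_i ↦ x_j^{±1} x_i`
(`eps i * T i (1,u) * (eps i)⁻¹ = T i (u,1)`, `eps_conj`) are in `GN n`. Hence for letters `l, l'` with `l.1 ≠ l'.1` there is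
`g ∈ GN n` such that `ψ * g` has the same basis as `ψ` except that `a l'` is replaced by `a l * a l'` (i.e. `ψ x_{l'.1}` is replaced
by `a l ψ x` if `l'.2 = true` and by `ψ x (a l)⁻¹` if `l'.2 = false`). (`move` below.)
`n1` (from the minimality of `len`): for `l.1 ≠ l'.1`: `|a l * a l'| ≥ |a l'|` by `move`, and (replace `a l⁻¹` by `a l'⁻¹ a l⁻¹`, or
inverses) `≥ |a l|`; with `cp_spec` (`g = (a l)⁻¹`, `h = a l'`): `2 cp (a l)⁻¹ (a l') ≤ |a l|` and `≤ |a l'|`. For `l' = l`: `cp_sq`.
(`l' ≠ (l.1, !l.2)` and `l.1 = l'.1` means `l' = l`.)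
TIE: `l.1 ≠ l'.1` and `2 cp (a l)⁻¹ (a l') = |a l|` imply `val (half (a l)⁻¹) ≤ val (half (a l))`. PROOF: put `b = a l`, `c = a l'`,
`s = |b|/2 = cp b⁻¹ c`, `P = half b`, `Q = half b⁻¹` (length `s`). `c.toWord = Q ++ C'` (`cp_take`), `|c| ≥ 2 s` (`n1`), `b.toWord = P ++ invRev Q`,
so `b c` is represented by `P ++ C'`, of length `|b| + |c| - 2s = |c|`, hence `(b c).toWord = P ++ C'` (a list representing `b c` of
length `|b c|` is the reduced word). So replacing `c` by `b c` keeps `len`; `half (b c) = P ++ C''`, `half c = Q ++ C''` with the same `C''`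
(`s ≤ |c|/2`), and `half (b c)⁻¹ = half c⁻¹` (the last `|c| - s ≥ |c|/2` letters of `c` and `b c` are the same). All other basis
elements are unchanged. If `val P < val Q` then `val (half (b c)) < val (half c)` (`val_lt`), so `th` decreases strictly
(remember that `th` sums both halves of `ψ x_i`, so it does not matter whether `c` is `ψ x` or `(ψ x)⁻¹`), contradicting
`hmin`. So `val Q ≤ val P`.
`n2`: `l' ≠ (l.1,!l.2)`, `l'' ≠ (l'.1,!l'.2)`; `b = a l'`. `2 cp (a l)⁻¹ b ≤ |b|` and `2 cp b⁻¹ (a l'') ≤ |b|` by `n1` (and `cp_comm`). If the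
sum were `≥ |b|`, both are equalities; then `l.1 ≠ l'.1` and `l''.1 ≠ l'.1` by `cp_sq`. TIE for `(l', l'')`: `val (half b⁻¹) ≤ val (half b)`.
TIE for `((l'.1,!l'.2), (l.1,!l.2))` (`2 cp b (a l)⁻¹ = |b|`): `val (half b) ≤ val (half b⁻¹)`. So `half b = half b⁻¹` (`val_inj`, both of
length `|b|/2`, `|b|` even), which with `b.toWord = P ++ invRev Q` gives `b = 1`, contradiction.
-/

namespace TOR

open Helper38.AutF

private theorem inv_letter {α : Type*} (l : α × Bool) :
    FreeGroup.mk [(l.1, !l.2)] = (FreeGroup.mk [l])⁻¹ := by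
  rw [FreeGroup.inv_mk]
  rfl

private theorem im_inv {n : ℕ} (ψ : FreeGroup (Fin n) →* FreeGroup (Fin n)) (l : Fin n × Bool) :
    im ψ (l.1, !l.2) = (im ψ l)⁻¹ := by
  rw [im, im, inv_letter, map_inv]

private theorem im_true {n : ℕ} (ψ : AF n) (i : Fin n) :
    im ψ.toMonoidHom (i, true) = ψ (FreeGroup.of i) := rfl

private theorem im_false {n : ℕ} (ψ : AF n) (i : Fin n) :
    im ψ.toMonoidHom (i, false) = (ψ (FreeGroup.of i))⁻¹ := by
  have h := im_inv ψ.toMonoidHom (i, true)
  rw [im_true] at h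
  exact h

private theorem im_ne_one {n : ℕ} (ψ : AF n) (l : Fin n × Bool) : im ψ.toMonoidHom l ≠ 1 := by
  obtain ⟨i, b⟩ := l
  have h : ψ (FreeGroup.of i) ≠ 1 := by
    intro h
    exact FreeGroup.of_ne_one i (ψ.injective (by rw [h, map_one]))
  cases b with
  | true => rw [im_true]; exact h
  | false => rw [im_false]; exact inv_ne_one.2 h

private theorem letter_mem {n : ℕ} {i : Fin n} {l : Fin n × Bool} (h : l.1 ≠ i) :
    FreeGroup.mk [l] ∈ Sx i := by
  obtain ⟨j, b⟩ := l
  cases b with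
  | true => exact of_mem_Sx h
  | false =>
    have h1 := inv_letter (j, true)
    have h2 : FreeGroup.mk [(j, false)] = (FreeGroup.of j)⁻¹ := h1
    rw [h2]
    exact inv_mem (of_mem_Sx h)

private theorem T_right_mem {n : ℕ} {i : Fin n} {l : Fin n × Bool} (h : l.1 ≠ i) :
    T i (1, ⟨FreeGroup.mk [l], letter_mem h⟩) ∈ GN n := by
  obtain ⟨j, b⟩ := l
  have hR : R i j ∈ GN n := Subgroup.subset_closure (Or.inl (Or.inl ⟨i, j, Ne.symm h, rfl⟩))
  have h0 : j ≠ i := h
  cases b with
  | true =>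
    have h1 : (⟨FreeGroup.mk [(j, true)], letter_mem h⟩ : Sx i) = lx i j := by
      apply Subtype.ext
      rw [lx_ne h0]
      rfl
    rw [h1]
    exact hR
  | false =>
    have h1 : (⟨FreeGroup.mk [(j, false)], letter_mem h⟩ : Sx i) = (lx i j)⁻¹ := by
      apply Subtype.ext
      rw [Subgroup.coe_inv, lx_ne h0]
      exact inv_letter (j, true)
    rw [h1]
    have h2 : T i (1, (lx i j)⁻¹) = (R i j)⁻¹ := by
      rw [R, ← map_inv]
      congr 1
    rw [h2]
    exact inv_mem hR

private theorem T_left_mem {n : ℕ} {i : Fin n} {u : Sx i} (h : T i (1, u) ∈ GN n) :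
    T i (u, 1) ∈ GN n := by
  have he : eps i ∈ GN n := Subgroup.subset_closure (Or.inr ⟨i, rfl⟩)
  rw [← eps_conj]
  exact mul_mem (mul_mem he h) (inv_mem he)

theorem move {n : ℕ} (ψ : AF n) (l l' : Fin n × Bool) (h : l.1 ≠ l'.1) :
    ∃ g ∈ GN n,
      (∀ c, c ≠ l'.1 → (ψ * g) (FreeGroup.of c) = ψ (FreeGroup.of c)) ∧
      im (ψ * g : AF n).toMonoidHom l' = im (ψ : AF n).toMonoidHom l *
        im (ψ : AF n).toMonoidHom l' := by
  obtain ⟨i, b'⟩ := l'
  have hi : l.1 ≠ i := h
  cases b' with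
  | true =>
    refine ⟨T i (⟨FreeGroup.mk [l], letter_mem hi⟩⁻¹, 1), T_left_mem ?_, fun c hc => ?_, ?_⟩
    · have h2 : T i (1, (⟨FreeGroup.mk [l], letter_mem hi⟩ : Sx i)⁻¹) =
          (T i (1, (⟨FreeGroup.mk [l], letter_mem hi⟩ : Sx i)))⁻¹ := by
        rw [← map_inv]
        congr 1
      rw [h2]
      exact inv_mem (T_right_mem hi)
    · rw [MulAut.mul_apply, T_ne hc]
    · rw [im_true, im_true, MulAut.mul_apply, T_self, map_mul, map_mul]
      simp [im]
  | false =>
    refine ⟨T i (1, ⟨FreeGroup.mk [l], letter_mem hi⟩⁻¹), ?_, fun c hc => ?_, ?_⟩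
    · have h2 : T i (1, (⟨FreeGroup.mk [l], letter_mem hi⟩ : Sx i)⁻¹) =
          (T i (1, (⟨FreeGroup.mk [l], letter_mem hi⟩ : Sx i)))⁻¹ := by
        rw [← map_inv]
        congr 1
      rw [h2]
      exact inv_mem (T_right_mem hi)
    · rw [MulAut.mul_apply, T_ne hc]
    · rw [im_false, im_false, MulAut.mul_apply, T_self, map_mul, map_mul, Subgroup.coe_inv,
        map_inv]
      simp only [OneMemClass.coe_one, inv_one, map_one, one_mul, _root_.mul_inv_rev]
      rw [map_inv ψ (FreeGroup.mk [l]), inv_inv]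
      rfl

/-! ### words -/

private theorem invRev_take {α : Type*} (L : List (α × Bool)) (s : ℕ) :
    FreeGroup.invRev ((FreeGroup.invRev L).take s) = L.drop (L.length - s) := by
  unfold FreeGroup.invRev
  rw [List.take_reverse, List.map_reverse, List.reverse_reverse, List.map_drop, List.map_map,
    List.length_map]
  congr 1
  conv_rhs => rw [← List.map_id L]
  congr 1
  funext x
  simp

private theorem word_split {α : Type*} [DecidableEq α] {b : FreeGroup α} {s : ℕ}
    (h : b.norm = 2 * s) :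
    b.toWord = b.toWord.take s ++ FreeGroup.invRev (b⁻¹.toWord.take s) := by
  have hl : b.toWord.length = 2 * s := h
  rw [FreeGroup.toWord_inv, invRev_take, hl]
  have : 2 * s - s = s := by omega
  rw [this, List.take_append_drop]

private theorem half_eq {α : Type*} [DecidableEq α] {b : FreeGroup α} {s : ℕ}
    (h : b.norm = 2 * s) : half b = b.toWord.take s := by
  rw [half, h]
  congr 1
  omega

private theorem tie_words {n : ℕ} {b c : FreeGroup (Fin n)} {s : ℕ} (hs : cp b⁻¹ c = s)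
    (h1 : b.norm = 2 * s) (h2 : 2 * s ≤ c.norm) :
    (b * c).norm = c.norm ∧ half (b * c)⁻¹ = half c⁻¹ ∧
      (val (half b) < val (half b⁻¹) → val (half (b * c)) < val (half c)) := by
  have h1' : b⁻¹.norm = 2 * s := by rw [FreeGroup.norm_inv_eq, h1]
  have hspec := cp_spec b⁻¹ c
  rw [inv_inv, hs, h1'] at hspec
  have hn : (b * c).norm = c.norm := by omega
  have hct := cp_take b⁻¹ c
  rw [hs] at hct
  set P := b.toWord.take s with hP
  set Q := b⁻¹.toWord.take s with hQ
  set C := c.toWord.drop s with hC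
  have hcl : c.toWord.length = c.norm := rfl
  have hPl : P.length = s := by
    have : b.toWord.length = 2 * s := h1
    rw [hP, List.length_take, this]
    omega
  have hQl : Q.length = s := by
    have : b⁻¹.toWord.length = 2 * s := h1'
    rw [hQ, List.length_take, this]
    omega
  have hCl : C.length = c.norm - s := by
    rw [hC, List.length_drop, hcl]
  have hc : c.toWord = Q ++ C := by
    rw [hct, hC, List.take_append_drop]
  have hb : b.toWord = P ++ FreeGroup.invRev Q := word_split h1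
  have hbc : b * c = FreeGroup.mk (P ++ C) := by
    rw [← FreeGroup.mk_toWord (x := b), ← FreeGroup.mk_toWord (x := c), hb, hc,
      ← FreeGroup.mul_mk, ← FreeGroup.mul_mk, ← FreeGroup.mul_mk, ← FreeGroup.inv_mk]
    group
  have hw : (b * c).toWord = P ++ C := by
    have h3 : (b * c).toWord = FreeGroup.reduce (P ++ C) := by rw [hbc, FreeGroup.toWord_mk]
    have h4 : List.Sublist (FreeGroup.reduce (P ++ C)) (P ++ C) := FreeGroup.reduce.red.sublist
    rw [h3]
    refine h4.eq_of_length ?_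
    rw [← h3, List.length_append, hPl, hCl]
    have h5 : (b * c).toWord.length = c.norm := hn
    omega
  have hhalf : c.norm / 2 = s + (c.norm / 2 - s) := by omega
  refine ⟨hn, ?_, ?_⟩
  · rw [half, half, FreeGroup.norm_inv_eq, FreeGroup.norm_inv_eq, hn, FreeGroup.toWord_inv,
      FreeGroup.toWord_inv, hw, hc, FreeGroup.invRev_append, FreeGroup.invRev_append]
    rw [List.take_append_of_le_length, List.take_append_of_le_length]
    · rw [FreeGroup.invRev_length]; omega
    · rw [FreeGroup.invRev_length]; omega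
  · intro hv
    have e1 : half (b * c) = P ++ C.take (c.norm / 2 - s) := by
      rw [half, hn, hw, hhalf, List.take_append, hPl]
      congr 1
      rw [List.take_of_length_le]
      omega
    have e2 : half c = Q ++ C.take (c.norm / 2 - s) := by
      rw [half, hc, hhalf, List.take_append, hQl]
      congr 1
      rw [List.take_of_length_le]
      omega
    rw [e1, e2]
    refine val_lt (by rw [hPl, hQl]) ?_
    rw [half_eq h1, half_eq h1'] at hv
    exact hv

private theorem half_eq_one {n : ℕ} {b : FreeGroup (Fin n)} {s : ℕ} (h1 : b.norm = 2 * s)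
    (h : val (half b) = val (half b⁻¹)) : b = 1 := by
  have h1' : b⁻¹.norm = 2 * s := by rw [FreeGroup.norm_inv_eq, h1]
  rw [half_eq h1, half_eq h1'] at h
  have hl : (b.toWord.take s).length = (b⁻¹.toWord.take s).length := by
    have h2 : b.toWord.length = 2 * s := h1
    have h3 : b⁻¹.toWord.length = 2 * s := h1'
    rw [List.length_take, List.length_take, h2, h3]
  have h4 := val_inj hl h
  have h5 := word_split h1
  rw [h4] at h5
  rw [← FreeGroup.mk_toWord (x := b), h5, ← FreeGroup.mul_mk, ← FreeGroup.inv_mk, mul_inv_cancel]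

/-! ### moves -/

private def ta {n : ℕ} (w : FreeGroup (Fin n)) : ℕ := val (half w) + val (half w⁻¹)

private theorem ta_inv {n : ℕ} (w : FreeGroup (Fin n)) : ta w⁻¹ = ta w := by
  rw [ta, ta, inv_inv, add_comm]

private theorem norm_im {n : ℕ} (ψ : AF n) (l : Fin n × Bool) :
    (im ψ.toMonoidHom l).norm = (ψ (FreeGroup.of l.1)).norm := by
  obtain ⟨i, b⟩ := l
  cases b with
  | true => rfl
  | false => rw [im_false, FreeGroup.norm_inv_eq]

private theorem ta_im {n : ℕ} (ψ : AF n) (l : Fin n × Bool) :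
    ta (im ψ.toMonoidHom l) = ta (ψ (FreeGroup.of l.1)) := by
  obtain ⟨i, b⟩ := l
  cases b with
  | true => rfl
  | false => rw [im_false, ta_inv]

private theorem min_move {n : ℕ} {ψ : AF n}
    (hmin : ∀ g ∈ GN n, len ψ < len (ψ * g) ∨ (len ψ = len (ψ * g) ∧ th ψ ≤ th (ψ * g)))
    {l l' : Fin n × Bool} (h : l.1 ≠ l'.1) :
    (im ψ.toMonoidHom l').norm < (im ψ.toMonoidHom l * im ψ.toMonoidHom l').norm ∨
    ((im ψ.toMonoidHom l').norm = (im ψ.toMonoidHom l * im ψ.toMonoidHom l').norm ∧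
      ta (im ψ.toMonoidHom l') ≤ ta (im ψ.toMonoidHom l * im ψ.toMonoidHom l')) := by
  obtain ⟨g, hg, hg1, hg2⟩ := move ψ l l' h
  have hN := norm_im (ψ * g) l'
  have hT := ta_im (ψ * g) l'
  rw [hg2] at hN hT
  have hN' := norm_im ψ l'
  have hT' := ta_im ψ l'
  have e1 : ∑ i ∈ Finset.univ.erase l'.1, ((ψ * g) (FreeGroup.of i)).norm =
      ∑ i ∈ Finset.univ.erase l'.1, (ψ (FreeGroup.of i)).norm :=
    Finset.sum_congr rfl fun i hi => by rw [hg1 i (Finset.ne_of_mem_erase hi)]
  have e2 : ∑ i ∈ Finset.univ.erase l'.1, ta ((ψ * g) (FreeGroup.of i)) =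
      ∑ i ∈ Finset.univ.erase l'.1, ta (ψ (FreeGroup.of i)) :=
    Finset.sum_congr rfl fun i hi => by rw [hg1 i (Finset.ne_of_mem_erase hi)]
  have l1 : len ψ = (ψ (FreeGroup.of l'.1)).norm +
      ∑ i ∈ Finset.univ.erase l'.1, (ψ (FreeGroup.of i)).norm :=
    (Finset.add_sum_erase _ _ (Finset.mem_univ l'.1)).symm
  have l2 : len (ψ * g) = ((ψ * g) (FreeGroup.of l'.1)).norm +
      ∑ i ∈ Finset.univ.erase l'.1, ((ψ * g) (FreeGroup.of i)).norm :=
    (Finset.add_sum_erase _ _ (Finset.mem_univ l'.1)).symm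
  have l3 : th ψ = ta (ψ (FreeGroup.of l'.1)) +
      ∑ i ∈ Finset.univ.erase l'.1, ta (ψ (FreeGroup.of i)) :=
    (Finset.add_sum_erase _ _ (Finset.mem_univ l'.1)).symm
  have l4 : th (ψ * g) = ta ((ψ * g) (FreeGroup.of l'.1)) +
      ∑ i ∈ Finset.univ.erase l'.1, ta ((ψ * g) (FreeGroup.of i)) :=
    (Finset.add_sum_erase _ _ (Finset.mem_univ l'.1)).symm
  rcases hmin g hg with h1 | ⟨h1, h2⟩
  · left
    omega
  · right
    constructor
    · omega
    · omega

theorem min_props {n : ℕ} (ψ : AF n)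
    (hmin : ∀ g ∈ GN n, len ψ < len (ψ * g) ∨ (len ψ = len (ψ * g) ∧ th ψ ≤ th (ψ * g))) :
    (∀ l l' : Fin n × Bool, l' ≠ (l.1, !l.2) →
      2 * cp (im ψ.toMonoidHom l)⁻¹ (im ψ.toMonoidHom l') ≤ (im ψ.toMonoidHom l).norm) ∧
    (∀ l l' l'' : Fin n × Bool, l' ≠ (l.1, !l.2) → l'' ≠ (l'.1, !l'.2) →
      cp (im ψ.toMonoidHom l)⁻¹ (im ψ.toMonoidHom l') +
        cp (im ψ.toMonoidHom l')⁻¹ (im ψ.toMonoidHom l'') < (im ψ.toMonoidHom l').norm) := by
  set a := im ψ.toMonoidHom with ha
  -- first inequality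
  have f1 : ∀ l l' : Fin n × Bool, l' ≠ (l.1, !l.2) → 2 * cp (a l)⁻¹ (a l') ≤ (a l).norm := by
    intro l l' hl
    by_cases h : l.1 = l'.1
    · have h1 : l' = l := by
        obtain ⟨i, b⟩ := l
        obtain ⟨i', b'⟩ := l'
        simp only at h
        subst h
        cases b <;> cases b' <;> simp_all
      rw [h1]
      exact (cp_sq (a l) (im_ne_one ψ l)).le
    · have h1 := cp_spec (a l)⁻¹ (a l')
      rw [inv_inv, FreeGroup.norm_inv_eq] at h1
      have h2 : (a l').norm ≤ (a l * a l').norm := by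
        rcases min_move hmin h with h3 | ⟨h3, -⟩
        · exact h3.le
        · exact h3.le
      omega
  have f2 : ∀ l l' : Fin n × Bool, l' ≠ (l.1, !l.2) → 2 * cp (a l)⁻¹ (a l') ≤ (a l').norm := by
    intro l l' hl
    have h1 := f1 (l'.1, !l'.2) (l.1, !l.2) (by
      intro h
      apply hl
      obtain ⟨i, b⟩ := l
      obtain ⟨i', b'⟩ := l'
      simp only [Bool.not_not, Prod.mk.injEq] at h ⊢
      exact ⟨h.1.symm, h.2.symm⟩)
    rw [ha, im_inv, im_inv, inv_inv, FreeGroup.norm_inv_eq, cp_comm] at h1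
    exact h1
  have tie : ∀ l l' : Fin n × Bool, l' ≠ (l.1, !l.2) → l.1 ≠ l'.1 →
      2 * cp (a l)⁻¹ (a l') = (a l).norm → val (half (a l)⁻¹) ≤ val (half (a l)) := by
    intro l l' hl hne h
    by_contra hcon
    push Not at hcon
    obtain ⟨t1, t2, t3⟩ := tie_words (b := a l) (c := a l') rfl h.symm (f2 l l' hl)
    have t4 := t3 hcon
    rcases min_move hmin hne with h3 | ⟨h3, h4⟩
    · rw [← ha] at h3
      omega
    · rw [← ha, ta, ta, t2] at h4
      omega
  refine ⟨f1, fun l l' l'' hl hl' => ?_⟩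
  by_contra hcon
  push Not at hcon
  have g1 := f2 l l' hl
  have g2 := f1 l' l'' hl'
  have g3 : 2 * cp (a l)⁻¹ (a l') = (a l').norm := by omega
  have g4 : 2 * cp (a l')⁻¹ (a l'') = (a l').norm := by omega
  have hne1 : l.1 ≠ l'.1 := by
    intro h
    have h1 : l' = l := by
      obtain ⟨i, b⟩ := l
      obtain ⟨i', b'⟩ := l'
      simp only at h
      subst h
      cases b <;> cases b' <;> simp_all
    rw [h1] at g3
    exact (cp_sq (a l) (im_ne_one ψ l)).ne g3
  have hne2 : l'.1 ≠ l''.1 := by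
    intro h
    have h1 : l'' = l' := by
      obtain ⟨i, b⟩ := l'
      obtain ⟨i', b'⟩ := l''
      simp only at h
      subst h
      cases b <;> cases b' <;> simp_all
    rw [h1] at g4
    exact (cp_sq (a l') (im_ne_one ψ l')).ne g4
  have t1 := tie l' l'' hl' hne2 g4
  have t2 := tie (l'.1, !l'.2) (l.1, !l.2) (by
      intro h
      apply hl
      obtain ⟨i, b⟩ := l
      obtain ⟨i', b'⟩ := l'
      simp only [Bool.not_not, Prod.mk.injEq] at h ⊢
      exact ⟨h.1.symm, h.2.symm⟩) (Ne.symm hne1) (by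
      rw [ha, im_inv, im_inv, inv_inv, FreeGroup.norm_inv_eq, cp_comm]
      exact g3)
  rw [ha, im_inv, inv_inv, ← ha] at t2
  exact im_ne_one ψ l' (half_eq_one g4.symm (le_antisymm t2 t1))

end TOR
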