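import Mathlib
import Pool.Agent.Helper34.TOR.NDefs
import Pool.Agent.Helper34.TOR.Lcp

/-!
# TOR-20: local-to-global: Nielsen reduced families do not shorten words

PROOF. Write `a l = im ψ l`, `inv l = (l.1, !l.2)`; `|a l| ≥ 1` by `h0`. For a reduced nonempty list `L` of letters with last letter
`l`, let `y = ψ (FreeGroup.mk L)` (= product of the `a l_i`). CLAIM: for every letter `l' ≠ inv l`:
 (i) `cp y⁻¹ (a l') = cp (a l)⁻¹ (a l')`, (ii) `L.length + cp (a l)⁻¹ (a l') ≤ |y|`.
Induction on `L` from the right (`List.reverseRecOn`). `L = [l]`: (i) trivial; (ii): `2 cp (a l)⁻¹ (a l') ≤ |a l|` (`hN1`) and `|a l| ≥ 1`.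
Step: `L` with last letter `l`, `L' = L ++ [l']` reduced (`l' ≠ inv l`), `y' = y * a l'`, `q = cp y⁻¹ (a l') = cp (a l)⁻¹ (a l')`, and let
`l'' ≠ inv l'`, `r = cp (a l')⁻¹ (a l'')`. `hN2`: `q + r < |a l'|`. `cp_spec`: `|y'| = |y| + |a l'| - 2q`. `cp y'⁻¹ (a l')⁻¹`: `cp_spec` with
`y' * (a l')⁻¹ = y`: `2 cp y'⁻¹ (a l')⁻¹ = |y'| + |a l'| - |y| = 2 (|a l'| - q)`, so it is `|a l'| - q > r`. By `cp_ultra` (twice)
`cp y'⁻¹ (a l'') = r`: `≥ min (|a l'| - q) r = r`, and if it were `> r` then `r = cp (a l')⁻¹ (a l'') ≥ min (|a l'| - q) (cp y'⁻¹ (a l'')) > r`.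
(ii): `|y'| = |y| + |a l'| - 2q ≥ L.length + q + |a l'| - 2q ≥ L.length + 1 + r`.
Conclusion: `v = 1` trivial; otherwise apply (ii) to `L = v.toWord` (reduced) with `l' = l` (`l ≠ inv l`).
-/

namespace TOR

theorem len_ge {α β : Type*} [DecidableEq α] [DecidableEq β] (ψ : FreeGroup α →* FreeGroup β)
    (h0 : ∀ l : α × Bool, im ψ l ≠ 1)
    (hN1 : ∀ l l' : α × Bool, l' ≠ (l.1, !l.2) →
      2 * cp (im ψ l)⁻¹ (im ψ l') ≤ (im ψ l).norm)
    (hN2 : ∀ l l' l'' : α × Bool, l' ≠ (l.1, !l.2) → l'' ≠ (l'.1, !l'.2) →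
      cp (im ψ l)⁻¹ (im ψ l') + cp (im ψ l')⁻¹ (im ψ l'') < (im ψ l').norm)
    (v : FreeGroup α) : v.norm ≤ (ψ v).norm := by
  have happ : ∀ (K : List (α × Bool)) (l : α × Bool),
      ψ (FreeGroup.mk (K ++ [l])) = ψ (FreeGroup.mk K) * im ψ l := by
    intro K l
    unfold im
    rw [← FreeGroup.mul_mk, map_mul]
  have hpos : ∀ l, 1 ≤ (im ψ l).norm := by
    intro l
    rw [Nat.one_le_iff_ne_zero]
    intro h
    exact h0 l (FreeGroup.norm_eq_zero.1 h)
  have key : ∀ K : List (α × Bool), ∀ l, FreeGroup.IsReduced (K ++ [l]) →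
      ∀ l', l' ≠ (l.1, !l.2) →
        cp (ψ (FreeGroup.mk (K ++ [l])))⁻¹ (im ψ l') = cp (im ψ l)⁻¹ (im ψ l') ∧
        K.length + 1 + cp (im ψ l)⁻¹ (im ψ l') ≤ (ψ (FreeGroup.mk (K ++ [l]))).norm := by
    intro K
    induction K using List.reverseRecOn with
    | nil =>
      intro l _ l' hl'
      have h1 : ψ (FreeGroup.mk ([] ++ [l])) = im ψ l := rfl
      rw [h1]
      refine ⟨rfl, ?_⟩
      have h2 := hN1 l l' hl'
      have h3 := hpos l
      simp only [List.length_nil]
      omega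
    | append_singleton K₀ l₀ ih =>
      intro l hred l' hl'
      have hred₀ : FreeGroup.IsReduced (K₀ ++ [l₀]) :=
        (List.isChain_append.1 hred).1
      have hne : l ≠ (l₀.1, !l₀.2) := by
        have h1 : FreeGroup.IsReduced [l₀, l] := by
          have h0 := hred
          rw [List.append_assoc] at h0
          exact (List.isChain_append.1 h0).2.1
        have h2 := (FreeGroup.isReduced_cons_cons.1 h1).1
        intro h3
        rw [h3] at h2
        have h4 := h2 rfl
        simp at h4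
      obtain ⟨hq, hlen⟩ := ih l₀ hred₀ l hne
      have hN := hN2 l₀ l l' hne hl'
      set y := ψ (FreeGroup.mk (K₀ ++ [l₀])) with hy
      rw [happ]
      have s1 := cp_spec y⁻¹ (im ψ l)
      rw [inv_inv, FreeGroup.norm_inv_eq, hq] at s1
      have s2 := cp_spec (y * im ψ l)⁻¹ (im ψ l)⁻¹
      rw [inv_inv, mul_assoc, mul_inv_cancel, mul_one, FreeGroup.norm_inv_eq,
        FreeGroup.norm_inv_eq] at s2
      have u1 := cp_ultra (y * im ψ l)⁻¹ (im ψ l)⁻¹ (im ψ l')
      have u2 := cp_ultra (im ψ l)⁻¹ (y * im ψ l)⁻¹ (im ψ l')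
      rw [cp_comm (im ψ l)⁻¹ (y * im ψ l)⁻¹] at u2
      rw [← hy]
      have hp := hpos l
      rw [List.length_append, List.length_singleton]
      generalize cp (im ψ l)⁻¹ (im ψ l') = r at *
      generalize cp (y * im ψ l)⁻¹ (im ψ l)⁻¹ = t at *
      generalize cp (y * im ψ l)⁻¹ (im ψ l') = z at *
      generalize cp (im ψ l₀)⁻¹ (im ψ l) = q at *
      generalize (y * im ψ l).norm = Y' at *
      generalize (im ψ l).norm = al at *
      constructor
      · omega
      · omega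
  rcases List.eq_nil_or_concat v.toWord with h | ⟨K, l, h⟩
  · have : v.norm = 0 := by
      unfold FreeGroup.norm
      rw [h]
      rfl
    omega
  · rw [List.concat_eq_append] at h
    have hred : FreeGroup.IsReduced (K ++ [l]) := h ▸ FreeGroup.isReduced_toWord
    have hne : l ≠ (l.1, !l.2) := by
      intro h1
      have := congrArg Prod.snd h1
      simp at this
    have h2 := (key K l hred l hne).2
    rw [← h, FreeGroup.mk_toWord] at h2
    have h3 : v.norm = K.length + 1 := by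
      unfold FreeGroup.norm
      rw [h, List.length_append, List.length_singleton]
    omega

end TOR
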