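import Mathlib
import Pool.Agent.Helper34.TOR.NDefs
import Pool.Agent.Helper34.TOR.Api
import Pool.Agent.Helper34.TOR.Niel1
import Pool.Agent.Helper34.TOR.Niel2

/-!
# TOR-21: Nielsen's theorem

PROOF. `signed_mem`: let `φ = ψ⁻¹`. `|φ x_j| ≤ |ψ (φ x_j)| = |x_j| = 1` and `φ x_j ≠ 1`, so `φ x_j = x_{τ j}` or `x_{τ j}⁻¹` for a function
`τ : Fin n → Fin n` and signs. `τ` is injective (`τ j = τ j'` gives `φ x_j = (φ x_{j'})^{±1}`, so `x_j = x_{j'}^{±1}`, `j = j'`), hence a
permutation `τ`. `(pm τ)⁻¹ * φ` maps every letter `x_j` to `x_j^{±1}`; such an automorphism is in `GN n` by induction on the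
number of `j` with sign `-` (multiply on the right by `eps j`: `(χ * eps j) x_j = (χ x_j)⁻¹`). So `φ ∈ GN n`, `ψ ∈ GN n`.
`nielsen`: given `ψ`, choose `g ∈ GN n` with `(len (ψ * g), th (ψ * g))` minimal in the lexicographic order
(well-founded). `ψ' = ψ * g` satisfies the hypothesis `hmin` of `min_props` (`(ψ * g) * g' = ψ * (g * g')`), and `im ψ' l ≠ 1`
(injectivity), so `len_ge` gives `|v| ≤ |ψ' v|` for all `v`, and `signed_mem` gives `ψ' ∈ GN n`, `ψ = ψ' * g⁻¹ ∈ GN n`.
-/

namespace TOR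

open Helper38.AutF

private theorem n3_eps {n : ℕ} (a : Fin n) : eps a ∈ GN n :=
  Subgroup.subset_closure (Or.inr ⟨a, rfl⟩)

private theorem n3_pm {n : ℕ} (σ : Equiv.Perm (Fin n)) : pm σ ∈ GN n :=
  Subgroup.subset_closure (Or.inl (Or.inr ⟨σ, rfl⟩))

/-- automorphisms mapping every letter to itself or to its inverse -/
private theorem n3_sign {n : ℕ} (S : Finset (Fin n)) : ∀ χ : AF n,
    (∀ j, χ (FreeGroup.of j) = FreeGroup.of j ∨ χ (FreeGroup.of j) = (FreeGroup.of j)⁻¹) →
    (∀ j, j ∉ S → χ (FreeGroup.of j) = FreeGroup.of j) → χ ∈ GN n := by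
  classical
  induction S using Finset.induction_on with
  | empty =>
    intro χ _ h2
    have : χ = 1 := aut_ext (fun j => by
      rw [h2 j (by simp)]
      rfl)
    rw [this]
    exact one_mem _
  | insert a S ha ih =>
    intro χ h1 h2
    rcases h1 a with h | h
    · refine ih χ h1 (fun j hj => ?_)
      by_cases hja : j = a
      · rw [hja]
        exact h
      · exact h2 j (by simp [hja, hj])
    · have hmem : χ * eps a ∈ GN n := by
        have e1 : (χ * eps a : AF n) (FreeGroup.of a) = FreeGroup.of a := by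
          rw [MulAut.mul_apply, eps_apply, epsHom_self, map_inv, h, inv_inv]
        have e2 : ∀ j, j ≠ a → (χ * eps a : AF n) (FreeGroup.of j) = χ (FreeGroup.of j) := by
          intro j hj
          rw [MulAut.mul_apply, eps_apply, epsHom_ne hj]
        refine ih _ (fun j => ?_) (fun j hj => ?_)
        · by_cases hja : j = a
          · rw [hja]
            exact Or.inl e1
          · rw [e2 j hja]
            exact h1 j
        · by_cases hja : j = a
          · rw [hja]
            exact e1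
          · rw [e2 j hja]
            exact h2 j (by simp [hja, hj])
      have := mul_mem hmem (inv_mem (n3_eps a))
      rwa [mul_inv_cancel_right] at this

private theorem n3_of_ne {n : ℕ} (j j' : Fin n) : FreeGroup.of j ≠ (FreeGroup.of j')⁻¹ := by
  intro h
  have h1 := congrArg FreeGroup.toWord h
  rw [FreeGroup.toWord_inv, FreeGroup.toWord_of, FreeGroup.toWord_of] at h1
  simp [FreeGroup.invRev] at h1

private theorem n3_letter {n : ℕ} (c : Fin n) (b : Bool) :
    FreeGroup.mk [(c, b)] = FreeGroup.of c ∨ FreeGroup.mk [(c, b)] = (FreeGroup.of c)⁻¹ := by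
  cases b
  · right
    rw [FreeGroup.of, FreeGroup.inv_mk]
    rfl
  · left
    rfl

private theorem n3_mk_ne {α : Type*} [DecidableEq α] (l : α × Bool) : FreeGroup.mk [l] ≠ 1 := by
  intro h
  have h1 := congrArg FreeGroup.toWord h
  rw [FreeGroup.toWord_mk, FreeGroup.toWord_one] at h1
  simp [FreeGroup.reduce] at h1

theorem signed_mem {n : ℕ} (ψ : AF n) (h : ∀ v, v.norm ≤ (ψ v).norm) : ψ ∈ GN n := by
  classical
  have key : ∀ j : Fin n, ∃ c : Fin n, ψ⁻¹ (FreeGroup.of j) = FreeGroup.of c ∨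
      ψ⁻¹ (FreeGroup.of j) = (FreeGroup.of c)⁻¹ := by
    intro j
    have h1 := h (ψ⁻¹ (FreeGroup.of j))
    rw [MulAut.apply_inv_self, FreeGroup.norm_of] at h1
    have h2 : (ψ⁻¹ (FreeGroup.of j)).norm ≠ 0 := by
      intro h0
      rw [FreeGroup.norm_eq_zero] at h0
      have h3 := congrArg ψ h0
      rw [MulAut.apply_inv_self, map_one] at h3
      exact n3_mk_ne _ h3
    have h3 : (ψ⁻¹ (FreeGroup.of j)).toWord.length = 1 := by
      change (ψ⁻¹ (FreeGroup.of j)).norm = 1
      omega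
    obtain ⟨l, hl⟩ := List.length_eq_one_iff.1 h3
    have h4 : ψ⁻¹ (FreeGroup.of j) = FreeGroup.mk [l] := by
      rw [← hl, FreeGroup.mk_toWord]
    refine ⟨l.1, ?_⟩
    rw [h4]
    exact n3_letter l.1 l.2
  choose τ hτ using key
  have hinj : Function.Injective τ := by
    intro j j' hjj
    have h1 : ψ⁻¹ (FreeGroup.of j) = ψ⁻¹ (FreeGroup.of j') ∨
        ψ⁻¹ (FreeGroup.of j) = (ψ⁻¹ (FreeGroup.of j'))⁻¹ := by
      have e1 := hτ j
      have e2 := hτ j'
      rw [hjj] at e1
      rcases e1 with e1 | e1 <;> rcases e2 with e2 | e2 <;> rw [e1, e2] <;> simp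
    rcases h1 with h1 | h1
    · exact FreeGroup.of_injective ((ψ⁻¹ : AF n).injective h1)
    · rw [← map_inv] at h1
      exact absurd ((ψ⁻¹ : AF n).injective h1) (n3_of_ne j j')
  let σ : Equiv.Perm (Fin n) := Equiv.ofBijective τ (Finite.injective_iff_bijective.1 hinj)
  have hσ : ∀ j, (pm σ : AF n) (FreeGroup.of j) = FreeGroup.of (τ j) := by
    intro j
    change FreeGroup.map σ (FreeGroup.of j) = _
    rw [FreeGroup.map.of]
    rfl
  have hχ : ∀ j, ((pm σ)⁻¹ * ψ⁻¹ : AF n) (FreeGroup.of j) = FreeGroup.of j ∨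
      ((pm σ)⁻¹ * ψ⁻¹ : AF n) (FreeGroup.of j) = (FreeGroup.of j)⁻¹ := by
    intro j
    have e0 : (pm σ : AF n)⁻¹ (FreeGroup.of (τ j)) = FreeGroup.of j := by
      rw [← hσ j, MulAut.inv_apply_self]
    rw [MulAut.mul_apply]
    rcases hτ j with h1 | h1
    · left
      rw [h1, e0]
    · right
      rw [h1, map_inv, e0]
  have h1 : (pm σ)⁻¹ * ψ⁻¹ ∈ GN n :=
    n3_sign Finset.univ _ hχ (fun j hj => absurd (Finset.mem_univ j) hj)
  have h2 := mul_mem (n3_pm σ) h1
  rw [mul_inv_cancel_left] at h2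
  exact inv_mem_iff.1 h2

theorem nielsen (n : ℕ) : GN n = ⊤ := by
  classical
  rw [eq_top_iff]
  intro ψ _
  obtain ⟨g, hg, hmin⟩ := (InvImage.wf (fun g : AF n => toLex (len (ψ * g), th (ψ * g)))
    (wellFounded_lt (α := ℕ ×ₗ ℕ))).has_min (GN n : Set (AF n)) ⟨1, one_mem _⟩
  have hm : ∀ g' ∈ GN n, len (ψ * g) < len (ψ * g * g') ∨
      (len (ψ * g) = len (ψ * g * g') ∧ th (ψ * g) ≤ th (ψ * g * g')) := by
    intro g' hg'
    have h1 := hmin (g * g') (mul_mem hg hg')
    have h2 : toLex (len (ψ * g), th (ψ * g)) ≤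
        toLex (len (ψ * (g * g')), th (ψ * (g * g'))) := not_lt.1 h1
    rw [Prod.Lex.toLex_le_toLex] at h2
    rw [mul_assoc]
    exact h2
  obtain ⟨h1, h2⟩ := min_props (ψ * g) hm
  have h3 := signed_mem (ψ * g) (fun v => len_ge (ψ * g : AF n).toMonoidHom
    (fun l hl => by
      have e1 : (ψ * g : AF n) (FreeGroup.mk [l]) = (ψ * g : AF n) 1 := by
        rw [map_one]
        exact hl
      exact n3_mk_ne l ((ψ * g : AF n).injective e1)) h1 h2 v)
  have h4 := mul_mem h3 (inv_mem hg)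
  rwa [mul_inv_cancel_right] at h4

end TOR
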