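import Mathlib
import Pool.Agent.Helper34.TOR.Defs
import Pool.Agent.Helper34.TOR.Api
import Pool.Agent.Helper34.TOR.LemG

/-!
# TOR-16: `MM n` is normalised by the Nielsen automorphisms

PROOFS. Enough to treat generators `κ ∈ gens n` (closure induction).
`MM_conj_pm`: `pm σ * T i p * (pm σ)⁻¹ = T (σ i) (pm σ p)`: generators go to generators.
`MM_conj_eps` (`eps a` = inversion of `x_a`): `a ≠ i`: `eps a ∈ Sti i` and `eps a * T i p * (eps a)⁻¹ = T i (eps a p)` (`Sti_conj`), which is in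
`IA n` (normal) hence in `MM n` (`T_mem_MM`). `a = i`: `eps i * T i (u,v) * (eps i)⁻¹ = T i (v,u)` (check on letters), in `IA n`, so in `MM n`.
`MM_conj_R`: `ρ = R i j`, `i ≠ j`, `κ = T a p`, `κ = Kc a b` or `Kd a b c`.
 * `a = i`: `ρ = T i (1, x_j)`, so `ρ κ ρ⁻¹ = T i (…)` is in the range of `T i`, and in `IA n`: `T_mem_MM`.
 * `a ≠ i`, `a ≠ j`: `ρ ∈ Sti a` (`R_mem_Sti`), `ρ κ ρ⁻¹ = T a (ρ p)`, in `IA n`: `T_mem_MM`.
 * `a = j`, words of `κ` without `x_i` (i.e. `b, c ≠ i`): `κ = T j (u,v)`, `ρ κ ρ⁻¹` fixes all letters but `i, j`;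
   `x_j ↦ u⁻¹ x_j v`, `x_i ↦ x_i x_j (u⁻¹ x_j v)⁻¹ = x_i (x_j v⁻¹ x_j⁻¹ u)`. It equals `T j (u,v) * T i (1, z)` with
   `z = κ⁻¹(x_j v⁻¹ x_j⁻¹ u)`, `z` a word without `x_i`; so `T i (1,z) = κ⁻¹ (ρ κ ρ⁻¹) ∈ IA n`, hence in `MM n` (`T_mem_MM`).
 * `a = j`, `κ = Kc j i`: `ρ κ ρ⁻¹ = Kc i j * Kc j i`… precisely `x_j ↦ (x_i x_j)⁻¹ x_j (x_i x_j) = x_j⁻¹ x_i⁻¹ x_j x_i x_j`, `x_i ↦ x_j⁻¹ x_i x_j`, which
   is `Kc i j * Kc j i` (composition).
 * `a = j`, `κ = Kd j i k` or `Kd j k i = (Kd j i k)⁻¹`, `k ≠ i, j`: with `x = x_i, y = x_j, z = x_k`,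
   `Θ := ρ κ ρ⁻¹ : y ↦ y[xy,z], x ↦ x y [xy,z]⁻¹ y⁻¹`, `z ↦ z`. `Θ` is a product of 8 elements of `MM n` (found by computer). Below
   `Ki+j : x_i ↦ x_j x_i x_j⁻¹`, `Ki-j : x_i ↦ x_j⁻¹ x_i x_j` (so `Ki-j = Kc i j`, `Ki+j = (Kc i j)⁻¹`), `Ri[a,b] : x_i ↦ x_i [a,b]`,
   letters `1 = x, 2 = y, 3 = z`, `-3 = z⁻¹` etc. Starting from `Θ` and multiplying successively, `L` = on the left
   (`X ↦ g ∘ X`), `R` = on the right (`X ↦ X ∘ g`), by
     `L K1+2, R K1-2, L K2+1, L R1[-3,2], L K1-3, R R2[1,-3], L K2-1, L K2+3`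
   (in this order) one arrives at the identity. Please verify (each step is a direct computation on the three letters; if a
   convention is off, another factorisation is as good: only `Θ ∈ MM n` matters. Alternative: by Sti-type conjugations,
   `Θ` agrees with products of `T i (..)`, `T j (..)` elements of `IA n`, all of which are in `MM n` by `T_mem_MM`.)
 `(R i j)⁻¹ κ (R i j)`: `(R i j)⁻¹ = eps j * R i j * (eps j)⁻¹` (check on letters), so use `MM_conj_eps` (`(eps j)⁻¹ = eps j`).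
-/

namespace TOR

open Helper38.AutF
open scoped commutatorElement

variable {n : ℕ}

/-- Closure induction for conjugation. -/
theorem MM_conj_of_gens (g : AF n) (h : ∀ κ ∈ gens n, g * κ * g⁻¹ ∈ MM n) (κ : AF n)
    (hκ : κ ∈ MM n) : g * κ * g⁻¹ ∈ MM n := by
  have : MM n ≤ (MM n).comap (MulAut.conj g).toMonoidHom := by
    conv_lhs => rw [MM]
    rw [Subgroup.closure_le]
    intro κ hκ
    exact h κ hκ
  exact this hκ

theorem Kc_mem_MM (i j : Fin n) : Kc i j ∈ MM n := Subgroup.subset_closure (Or.inl ⟨i, j, rfl⟩)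

theorem Kd_mem_MM (i j k : Fin n) : Kd i j k ∈ MM n :=
  Subgroup.subset_closure (Or.inr ⟨i, j, k, rfl⟩)

theorem Kc_diag (i : Fin n) : Kc i i = 1 := by
  rw [Kc, lx_self]
  exact map_one (T i)

theorem Kd_diag1 (i k : Fin n) : Kd i i k = 1 := by
  rw [Kd, lx_self, commutatorElement_one_left]
  exact map_one (T i)

theorem Kd_diag2 (i j : Fin n) : Kd i j i = 1 := by
  rw [Kd, lx_self, commutatorElement_one_right]
  exact map_one (T i)

theorem Kd_diag3 (i j : Fin n) : Kd i j j = 1 := by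
  rw [Kd, commutatorElement_self]
  exact map_one (T i)

theorem Kd_inv (i j k : Fin n) : (Kd i j k)⁻¹ = Kd i k j := by
  rw [Kd, Kd, ← map_inv]
  congr 1
  rw [Prod.inv_mk, inv_one, commutatorElement_inv]

theorem pm_of (σ : Equiv.Perm (Fin n)) (c : Fin n) :
    pm σ (FreeGroup.of c) = FreeGroup.of (σ c) := by
  simp [pm]

theorem pm_inv (σ : Equiv.Perm (Fin n)) : (pm σ)⁻¹ = pm σ⁻¹ := by
  rw [inv_eq_iff_mul_eq_one]
  refine aut_ext fun c => ?_
  rw [MulAut.mul_apply, pm_of, pm_of, MulAut.one_apply]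
  simp

theorem pm_conj_T (σ : Equiv.Perm (Fin n)) (i : Fin n) (p : Sx i × Sx i)
    (p' : Sx (σ i) × Sx (σ i)) (h1 : (p'.1 : FreeGroup (Fin n)) = pm σ p.1)
    (h2 : (p'.2 : FreeGroup (Fin n)) = pm σ p.2) :
    pm σ * T i p * (pm σ)⁻¹ = T (σ i) p' := by
  rw [mul_inv_eq_iff_eq_mul]
  refine aut_ext fun c => ?_
  rw [MulAut.mul_apply, MulAut.mul_apply, pm_of]
  by_cases h : c = i
  · subst h
    rw [T_self, T_self, map_mul, map_mul, map_inv, pm_of, h1, h2]
  · rw [T_ne h, T_ne (fun h' => h (σ.injective h')), pm_of]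

theorem pm_lx (σ : Equiv.Perm (Fin n)) (i j : Fin n) :
    ((lx (σ i) (σ j) : Sx (σ i)) : FreeGroup (Fin n)) = pm σ (lx i j : Sx i) := by
  by_cases h : j = i
  · subst h
    rw [lx_self, lx_self]
    simp
  · rw [lx_ne h, lx_ne (fun h' => h (σ.injective h')), pm_of]

theorem MM_conj_pm (σ : Equiv.Perm (Fin n)) (κ : AF n) (hκ : κ ∈ MM n) :
    pm σ * κ * (pm σ)⁻¹ ∈ MM n := by
  refine MM_conj_of_gens _ ?_ κ hκ
  rintro κ (⟨i, j, rfl⟩ | ⟨i, j, k, rfl⟩)
  · rw [Kc, pm_conj_T σ i _ (lx (σ i) (σ j), lx (σ i) (σ j)) (pm_lx σ i j) (pm_lx σ i j)]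
    exact Kc_mem_MM _ _
  · rw [Kd, pm_conj_T σ i _ (1, ⁅lx (σ i) (σ j), lx (σ i) (σ k)⁆) (by simp)
      (by simp [commutatorElement_def, pm_lx])]
    exact Kd_mem_MM _ _ _

theorem eps_self (a : Fin n) : eps a (FreeGroup.of a) = (FreeGroup.of a)⁻¹ := epsHom_self a

theorem eps_ne {a c : Fin n} (h : c ≠ a) : eps a (FreeGroup.of c) = FreeGroup.of c := epsHom_ne h

theorem eps_mul_self (a : Fin n) : eps a * eps a = 1 := by
  refine aut_ext fun c => ?_
  rw [MulAut.mul_apply, MulAut.one_apply]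
  by_cases h : c = a
  · subst h
    rw [eps_self, map_inv, eps_self, inv_inv]
  · rw [eps_ne h, eps_ne h]

theorem eps_inv (a : Fin n) : (eps a)⁻¹ = eps a := by
  rw [inv_eq_iff_mul_eq_one]
  exact eps_mul_self a

theorem eps_mem_Sti {i a : Fin n} (h : i ≠ a) : eps a ∈ Sti i := by
  refine mem_Sti_of (eps_ne h) (fun c hc => ?_) (fun c hc => ?_)
  · by_cases hca : c = a
    · subst hca
      rw [eps_self]
      exact inv_mem (of_mem_Sx hc)
    · rw [eps_ne hca]
      exact of_mem_Sx hc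
  · rw [eps_inv]
    by_cases hca : c = a
    · subst hca
      rw [eps_self]
      exact inv_mem (of_mem_Sx hc)
    · rw [eps_ne hca]
      exact of_mem_Sx hc

theorem eps_conj_T (i : Fin n) (p : Sx i × Sx i) :
    eps i * T i p * (eps i)⁻¹ = T i (p.2, p.1) := by
  rw [mul_inv_eq_iff_eq_mul]
  refine aut_ext (fun j => ?_)
  rw [MulAut.mul_apply, MulAut.mul_apply]
  by_cases hj : j = i
  · subst hj
    rw [T_self, eps_self, map_mul, map_mul, map_inv, map_inv, T_self, eps_self,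
      eps_fix j p.1.2, eps_fix j p.2.2]
    group
  · rw [T_ne hj, eps_ne hj, T_ne hj]

/-- Conjugating elements of `MM n` of the form `T i p` by elements of `Sti i`. -/
theorem Sti_conj_MM {i : Fin n} {σ : AF n} (hσ : σ ∈ Sti i) (p : Sx i × Sx i)
    (h : T i p ∈ MM n) : σ * T i p * σ⁻¹ ∈ MM n := by
  have h1 : σ * T i p * σ⁻¹ ∈ IA n := (IA_normal n).conj_mem _ (MM_le_IA n h) σ
  rw [Sti_conj σ hσ] at h1 ⊢
  exact T_mem_MM _ _ h1

theorem eps_conj_MM (a i : Fin n) (p : Sx i × Sx i) (h : T i p ∈ MM n) :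
    eps a * T i p * (eps a)⁻¹ ∈ MM n := by
  by_cases hi : i = a
  · subst hi
    have h1 : eps i * T i p * (eps i)⁻¹ ∈ IA n := (IA_normal n).conj_mem _ (MM_le_IA n h) _
    rw [eps_conj_T] at h1 ⊢
    exact T_mem_MM _ _ h1
  · exact Sti_conj_MM (eps_mem_Sti hi) p h

theorem MM_conj_eps (a : Fin n) (κ : AF n) (hκ : κ ∈ MM n) :
    eps a * κ * (eps a)⁻¹ ∈ MM n := by
  refine MM_conj_of_gens _ ?_ κ hκ
  rintro κ (⟨i, j, rfl⟩ | ⟨i, j, k, rfl⟩)
  · exact eps_conj_MM a i _ (Kc_mem_MM i j)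
  · exact eps_conj_MM a i _ (Kd_mem_MM i j k)

theorem R_inv_self {i j : Fin n} (h : j ≠ i) :
    (R i j)⁻¹ (FreeGroup.of i) = FreeGroup.of i * (FreeGroup.of j)⁻¹ := by
  rw [R, ← map_inv, T_self]
  simp [lx_ne h]

theorem R_inv_ne {i j c : Fin n} (h : c ≠ i) : (R i j)⁻¹ (FreeGroup.of c) = FreeGroup.of c := by
  rw [R, ← map_inv, T_ne h]

/-- Case `a ≠ j`. -/
theorem R_conj_T {i j : Fin n} (a : Fin n) (haj : a ≠ j) (p : Sx a × Sx a)
    (h : T a p ∈ MM n) : R i j * T a p * (R i j)⁻¹ ∈ MM n := by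
  by_cases hai : a = i
  · subst hai
    have h1 : R a j * T a p * (R a j)⁻¹ ∈ IA n := (IA_normal n).conj_mem _ (MM_le_IA n h) _
    rw [R, ← map_inv, ← map_mul, ← map_mul] at h1 ⊢
    exact T_mem_MM _ _ h1
  · exact Sti_conj_MM (R_mem_Sti (fun h => hai h.symm) (fun h => haj h.symm)) p h

/-- Case `a = j`, words without `x_i`. -/
theorem R_conj_T' {i j : Fin n} (hij : i ≠ j) (p : Sx j × Sx j)
    (h1 : (p.1 : FreeGroup (Fin n)) ∈ Sx i) (h2 : (p.2 : FreeGroup (Fin n)) ∈ Sx i)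
    (h : T j p ∈ MM n) : R i j * T j p * (R i j)⁻¹ ∈ MM n := by
  have hS : T j p ∈ Sti i := T_mem_Sti hij.symm p h1 h2
  have hSi : (T j p)⁻¹ ∈ Sti i := (Sti i).inv_mem hS
  set u : FreeGroup (Fin n) := ((p.1 : Sx j) : FreeGroup (Fin n)) with hu
  set v : FreeGroup (Fin n) := ((p.2 : Sx j) : FreeGroup (Fin n)) with hv
  set y := FreeGroup.of j with hy
  have hyi : y ∈ Sx i := of_mem_Sx hij.symm
  have hw0 : y * v⁻¹ * y⁻¹ * u ∈ Sx i :=
    mul_mem (mul_mem (mul_mem hyi (inv_mem h2)) (inv_mem hyi)) h1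
  have hw : (T j p)⁻¹ (y * v⁻¹ * y⁻¹ * u) ∈ Sx i := (hSi.2 _).1 hw0
  set w : Sx i := ⟨(T j p)⁻¹ (y * v⁻¹ * y⁻¹ * u), hw⟩ with hwd
  have key : R i j * T j p * (R i j)⁻¹ = T j p * T i (1, w) := by
    refine aut_ext fun c => ?_
    rw [MulAut.mul_apply, MulAut.mul_apply, MulAut.mul_apply]
    by_cases hci : c = i
    · subst hci
      rw [R_inv_self hij.symm, map_mul, map_mul, map_inv, map_inv, T_ne hij, T_self,
        R_self hij.symm, map_mul (R c j), map_mul (R c j), map_inv (R c j), R_ne hij.symm,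
        ← hu, ← hv, R_fix h1, R_fix h2, T_self, map_mul, map_mul, T_ne hij]
      rw [hwd]
      rw [MulAut.apply_inv_self]
      simp only [OneMemClass.coe_one, inv_one, map_one, hy]
      group
    · rw [R_inv_ne hci, T_ne hci (1, w)]
      by_cases hcj : c = j
      · subst hcj
        rw [T_self, ← hu, ← hv, map_mul, map_mul, map_inv, R_fix h1, R_fix h2, R_ne hci]
      · rw [T_ne hcj, R_ne hci]
  have h3 : R i j * T j p * (R i j)⁻¹ ∈ IA n := (IA_normal n).conj_mem _ (MM_le_IA n h) _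
  rw [key] at h3 ⊢
  refine (MM n).mul_mem h ?_
  refine T_mem_MM _ _ ?_
  have h4 := (IA n).mul_mem ((IA n).inv_mem (MM_le_IA n h)) h3
  rwa [inv_mul_cancel_left] at h4

/-- Case `κ = Kc j i`. -/
theorem R_conj_Kc {i j : Fin n} (hij : i ≠ j) : R i j * Kc j i * (R i j)⁻¹ ∈ MM n := by
  have key : R i j * Kc j i * (R i j)⁻¹ = Kc i j * Kc j i := by
    refine aut_ext fun c => ?_
    rw [MulAut.mul_apply, MulAut.mul_apply, MulAut.mul_apply]
    by_cases hci : c = i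
    · subst hci
      rw [R_inv_self hij.symm, map_mul, map_mul, map_inv, map_inv, Kc_ne hij, Kc_self hij,
        Kc_self hij.symm, R_self hij.symm, map_mul (R c j), map_mul (R c j), map_inv (R c j),
        R_ne hij.symm, R_self hij.symm]
      group
    · rw [R_inv_ne hci]
      by_cases hcj : c = j
      · subst hcj
        rw [Kc_self hij, map_mul, map_mul, map_inv, map_mul, map_mul, map_inv, R_self hij.symm,
          R_ne hij.symm, Kc_self hij.symm, Kc_ne hij.symm]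
        group
      · rw [Kc_ne hcj, R_ne hci, Kc_ne hci]
  rw [key]
  exact (MM n).mul_mem (Kc_mem_MM _ _) (Kc_mem_MM _ _)

/-- `T i (w, w) ∈ MM n` -/
theorem dl_mem_MM (i : Fin n) (w : Sx i) : dl i w ∈ MM n := T_mem_MM _ _ (dl_mem_IA i w)

theorem T_comm_mem_MM (i : Fin n) (u v : Sx i) : T i (1, ⁅u, v⁆) ∈ MM n := by
  refine T_mem_MM _ _ ((T_mem_IA_iff _ _).2 ?_)
  have h : (⁅u, v⁆ : Sx i) ∈ commutator (Sx i) :=
    Subgroup.commutator_mem_commutator (Subgroup.mem_top _) (Subgroup.mem_top _)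
  rw [mem_comm_iff] at h
  simpa using h

/-- Case `κ = Kd j i k`. -/
theorem R_conj_Kd {i j k : Fin n} (hij : i ≠ j) (hki : k ≠ i) (hkj : k ≠ j) :
    R i j * Kd j i k * (R i j)⁻¹ ∈ MM n := by
  set Θ : AF n := R i j * Kd j i k * (R i j)⁻¹ with hΘ
  set x := FreeGroup.of i with hx
  set y := FreeGroup.of j with hy
  set z := FreeGroup.of k with hz
  have hΘx : Θ x = x * y * ⁅x * y, z⁆⁻¹ * y⁻¹ := by
    rw [hΘ, MulAut.mul_apply, MulAut.mul_apply, hx, R_inv_self hij.symm]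
    simp only [map_mul, map_inv, Kd_ne hij, Kd_self hij hkj, R_self hij.symm, R_ne hij.symm,
      R_ne hki, commutatorElement_def, hx, hy, hz]
    group
  have hΘy : Θ y = y * ⁅x * y, z⁆ := by
    rw [hΘ, MulAut.mul_apply, MulAut.mul_apply, hy, R_inv_ne hij.symm]
    simp only [map_mul, map_inv, Kd_self hij hkj, R_self hij.symm, R_ne hij.symm,
      R_ne hki, commutatorElement_def, hx, hy, hz]
    try group
  have hΘc : ∀ c, c ≠ i → c ≠ j → Θ (FreeGroup.of c) = FreeGroup.of c := by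
    intro c hci hcj
    rw [hΘ, MulAut.mul_apply, MulAut.mul_apply, R_inv_ne hci, Kd_ne hcj, R_ne hci]
  have hTi : ∀ (u v : Sx i), T i (u, v) x = (u : FreeGroup (Fin n))⁻¹ * x * v := fun u v =>
    T_self _ _
  have hTj : ∀ (u v : Sx j), T j (u, v) y = (u : FreeGroup (Fin n))⁻¹ * y * v := fun u v =>
    T_self _ _
  have hij1 : ((lx i j : Sx i) : FreeGroup (Fin n)) = y := lx_ne hij.symm
  have hik1 : ((lx i k : Sx i) : FreeGroup (Fin n)) = z := lx_ne hki
  have hji1 : ((lx j i : Sx j) : FreeGroup (Fin n)) = x := lx_ne hij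
  have hjk1 : ((lx j k : Sx j) : FreeGroup (Fin n)) = z := lx_ne hkj
  set g1 : AF n := dl i (lx i j)⁻¹ with hg1
  set h1 : AF n := dl i (lx i j) with hh1
  set g2 : AF n := dl j (lx j i)⁻¹ with hg2
  set g3 : AF n := T i (1, ⁅(lx i k)⁻¹, lx i j⁆) with hg3
  set g4 : AF n := dl i (lx i k) with hg4
  set h2 : AF n := T j (1, ⁅lx j i, (lx j k)⁻¹⁆) with hh2
  set g5 : AF n := dl j (lx j i) with hg5
  set g6 : AF n := dl j (lx j k)⁻¹ with hg6
  have g1x : g1 x = y * x * y⁻¹ := by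
    rw [hg1, dl_apply, hTi]; simp [hij1]
  have g1c : ∀ c, c ≠ i → g1 (FreeGroup.of c) = FreeGroup.of c := fun c hc => T_ne hc _
  have h1x : h1 x = y⁻¹ * x * y := by
    rw [hh1, dl_apply, hTi]; simp [hij1]
  have h1c : ∀ c, c ≠ i → h1 (FreeGroup.of c) = FreeGroup.of c := fun c hc => T_ne hc _
  have g2y : g2 y = x * y * x⁻¹ := by
    rw [hg2, dl_apply, hTj]; simp [hji1]
  have g2c : ∀ c, c ≠ j → g2 (FreeGroup.of c) = FreeGroup.of c := fun c hc => T_ne hc _
  have g3x : g3 x = x * ⁅z⁻¹, y⁆ := by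
    rw [hg3, hTi]; simp [hij1, hik1, commutatorElement_def]
  have g3c : ∀ c, c ≠ i → g3 (FreeGroup.of c) = FreeGroup.of c := fun c hc => T_ne hc _
  have g4x : g4 x = z⁻¹ * x * z := by
    rw [hg4, dl_apply, hTi]; simp [hik1]
  have g4c : ∀ c, c ≠ i → g4 (FreeGroup.of c) = FreeGroup.of c := fun c hc => T_ne hc _
  have h2y : h2 y = y * ⁅x, z⁻¹⁆ := by
    rw [hh2, hTj]; simp [hji1, hjk1, commutatorElement_def]
  have h2c : ∀ c, c ≠ j → h2 (FreeGroup.of c) = FreeGroup.of c := fun c hc => T_ne hc _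
  have g5y : g5 y = x⁻¹ * y * x := by
    rw [hg5, dl_apply, hTj]; simp [hji1]
  have g5c : ∀ c, c ≠ j → g5 (FreeGroup.of c) = FreeGroup.of c := fun c hc => T_ne hc _
  have g6y : g6 y = z * y * z⁻¹ := by
    rw [hg6, dl_apply, hTj]; simp [hjk1]
  have g6c : ∀ c, c ≠ j → g6 (FreeGroup.of c) = FreeGroup.of c := fun c hc => T_ne hc _
  have hΘz : Θ z = z := hΘc k hki hkj
  have g1y : g1 y = y := g1c j hij.symm
  have g1z : g1 z = z := g1c k hki
  have g3y : g3 y = y := g3c j hij.symm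
  have g3z : g3 z = z := g3c k hki
  have g4y : g4 y = y := g4c j hij.symm
  have g4z : g4 z = z := g4c k hki
  have h1y : h1 y = y := h1c j hij.symm
  have h1z : h1 z = z := h1c k hki
  have g2x : g2 x = x := g2c i hij
  have g2z : g2 z = z := g2c k hkj
  have h2x : h2 x = x := h2c i hij
  have h2z : h2 z = z := h2c k hkj
  have g5x : g5 x = x := g5c i hij
  have g5z : g5 z = z := g5c k hkj
  have g6x : g6 x = x := g6c i hij
  have g6z : g6 z = z := g6c k hkj
  have keyx : g6 (g5 (g4 (g3 (g2 (g1 (Θ (h1 (h2 x)))))))) = x := by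
    have e0 : h2 (x) = x := by
      simp only [map_mul, map_inv, h2x, h2y, h2z, commutatorElement_def]
      try group
    have e1 : h1 (x) = y⁻¹ * x * y := by
      simp only [map_mul, map_inv, h1x, h1y, h1z, commutatorElement_def]
      try group
    have e2 : Θ (y⁻¹ * x * y) = z * x * y * z⁻¹ * y⁻¹ * x⁻¹ * y⁻¹ * x * y := by
      simp only [map_mul, map_inv, hΘx, hΘy, hΘz, commutatorElement_def]
      try group
    have e3 : g1 (z * x * y * z⁻¹ * y⁻¹ * x⁻¹ * y⁻¹ * x * y) = z * y * x * z⁻¹ * x⁻¹ * y⁻¹ * x := by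
      simp only [map_mul, map_inv, g1x, g1y, g1z, commutatorElement_def]
      try group
    have e4 : g2 (z * y * x * z⁻¹ * x⁻¹ * y⁻¹ * x) = z * x * y * z⁻¹ * y⁻¹ := by
      simp only [map_mul, map_inv, g2x, g2y, g2z, commutatorElement_def]
      try group
    have e5 : g3 (z * x * y * z⁻¹ * y⁻¹) = z * x * z⁻¹ := by
      simp only [map_mul, map_inv, g3x, g3y, g3z, commutatorElement_def]
      try group
    have e6 : g4 (z * x * z⁻¹) = x := by
      simp only [map_mul, map_inv, g4x, g4y, g4z, commutatorElement_def]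
      try group
    have e7 : g5 (x) = x := by
      simp only [map_mul, map_inv, g5x, g5y, g5z, commutatorElement_def]
      try group
    have e8 : g6 (x) = x := by
      simp only [map_mul, map_inv, g6x, g6y, g6z, commutatorElement_def]
      try group
    rw [e0, e1, e2, e3, e4, e5, e6, e7, e8]
  have keyy : g6 (g5 (g4 (g3 (g2 (g1 (Θ (h1 (h2 y)))))))) = y := by
    have e0 : h2 (y) = y * x * z⁻¹ * x⁻¹ * z := by
      simp only [map_mul, map_inv, h2x, h2y, h2z, commutatorElement_def]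
      try group
    have e1 : h1 (y * x * z⁻¹ * x⁻¹ * z) = x * y * z⁻¹ * y⁻¹ * x⁻¹ * y * z := by
      simp only [map_mul, map_inv, h1x, h1y, h1z, commutatorElement_def]
      try group
    have e2 : Θ (x * y * z⁻¹ * y⁻¹ * x⁻¹ * y * z) = x * y * z⁻¹ * y⁻¹ * x⁻¹ * y * x * y * z * y⁻¹ * x⁻¹ := by
      simp only [map_mul, map_inv, hΘx, hΘy, hΘz, commutatorElement_def]
      try group
    have e3 : g1 (x * y * z⁻¹ * y⁻¹ * x⁻¹ * y * x * y * z * y⁻¹ * x⁻¹) = y * x * z⁻¹ * x⁻¹ * y * x * z * x⁻¹ * y⁻¹ := by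
      simp only [map_mul, map_inv, g1x, g1y, g1z, commutatorElement_def]
      try group
    have e4 : g2 (y * x * z⁻¹ * x⁻¹ * y * x * z * x⁻¹ * y⁻¹) = x * y * z⁻¹ * y * z * y⁻¹ * x⁻¹ := by
      simp only [map_mul, map_inv, g2x, g2y, g2z, commutatorElement_def]
      try group
    have e5 : g3 (x * y * z⁻¹ * y * z * y⁻¹ * x⁻¹) = x * z⁻¹ * y * z * x⁻¹ := by
      simp only [map_mul, map_inv, g3x, g3y, g3z, commutatorElement_def]
      try group
    have e6 : g4 (x * z⁻¹ * y * z * x⁻¹) = z⁻¹ * x * y * x⁻¹ * z := by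
      simp only [map_mul, map_inv, g4x, g4y, g4z, commutatorElement_def]
      try group
    have e7 : g5 (z⁻¹ * x * y * x⁻¹ * z) = z⁻¹ * y * z := by
      simp only [map_mul, map_inv, g5x, g5y, g5z, commutatorElement_def]
      try group
    have e8 : g6 (z⁻¹ * y * z) = y := by
      simp only [map_mul, map_inv, g6x, g6y, g6z, commutatorElement_def]
      try group
    rw [e0, e1, e2, e3, e4, e5, e6, e7, e8]
  have key : g6 * g5 * g4 * g3 * g2 * g1 * Θ * h1 * h2 = 1 := by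
    refine aut_ext fun c => ?_
    simp only [MulAut.mul_apply, MulAut.one_apply]
    by_cases hci : c = i
    · rw [hci]
      exact keyx
    · by_cases hcj : c = j
      · rw [hcj]
        exact keyy
      · rw [h2c c hcj, h1c c hci, hΘc c hci hcj, g1c c hci, g2c c hcj, g3c c hci, g4c c hci,
          g5c c hcj, g6c c hcj]
  have hmem : ∀ g ∈ [g1, g2, g3, g4, g5, g6, h1, h2], g ∈ MM n := by
    intro g hg
    simp only [List.mem_cons, List.not_mem_nil, or_false] at hg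
    rcases hg with rfl | rfl | rfl | rfl | rfl | rfl | rfl | rfl
    · exact dl_mem_MM _ _
    · exact dl_mem_MM _ _
    · exact T_comm_mem_MM _ _ _
    · exact dl_mem_MM _ _
    · exact dl_mem_MM _ _
    · exact dl_mem_MM _ _
    · exact dl_mem_MM _ _
    · exact T_comm_mem_MM _ _ _
  have hΘe : Θ = (g6 * g5 * g4 * g3 * g2 * g1)⁻¹ * (h1 * h2)⁻¹ := by
    have h0 : (g6 * g5 * g4 * g3 * g2 * g1) * Θ * (h1 * h2) = 1 := by
      rw [← key]
      group
    rwa [mul_eq_one_iff_eq_inv, ← eq_inv_mul_iff_mul_eq] at h0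
  rw [hΘe]
  refine (MM n).mul_mem ((MM n).inv_mem ?_) ((MM n).inv_mem ((MM n).mul_mem
    (hmem _ (by simp)) (hmem _ (by simp))))
  exact (MM n).mul_mem ((MM n).mul_mem ((MM n).mul_mem ((MM n).mul_mem ((MM n).mul_mem
    (hmem _ (by simp)) (hmem _ (by simp))) (hmem _ (by simp))) (hmem _ (by simp)))
    (hmem _ (by simp))) (hmem _ (by simp))

theorem MM_conj_R_aux {i j : Fin n} (hij : i ≠ j) (κ : AF n) (hκ : κ ∈ MM n) :
    R i j * κ * (R i j)⁻¹ ∈ MM n := by
  refine MM_conj_of_gens _ ?_ κ hκ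
  rintro κ (⟨a, b, rfl⟩ | ⟨a, b, c, rfl⟩)
  · by_cases haj : a = j
    · subst haj
      by_cases hbi : b = i
      · subst hbi
        exact R_conj_Kc hij
      · exact R_conj_T' hij _ (lx_mem_Sx (Ne.symm hbi)) (lx_mem_Sx (Ne.symm hbi)) (Kc_mem_MM a b)
    · exact R_conj_T a haj _ (Kc_mem_MM a b)
  · by_cases haj : a = j
    · subst haj
      by_cases hba : b = a
      · subst hba
        rw [Kd_diag1, mul_one, mul_inv_cancel]
        exact (MM n).one_mem
      by_cases hca : c = a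
      · subst hca
        rw [Kd_diag2, mul_one, mul_inv_cancel]
        exact (MM n).one_mem
      by_cases hbc : b = c
      · subst hbc
        rw [Kd_diag3, mul_one, mul_inv_cancel]
        exact (MM n).one_mem
      by_cases hbi : b = i
      · subst hbi
        exact R_conj_Kd hij (Ne.symm hbc) hca
      by_cases hci : c = i
      · subst hci
        have h := (MM n).inv_mem (R_conj_Kd hij hbc hba)
        rw [mul_inv_rev, mul_inv_rev, inv_inv, Kd_inv, ← mul_assoc] at h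
        exact h
      · refine R_conj_T' hij _ (one_mem _) ?_ (Kd_mem_MM a b c)
        have h1 := lx_mem_Sx (i := a) (Ne.symm hbi)
        have h2 := lx_mem_Sx (i := a) (Ne.symm hci)
        change ((⁅lx a b, lx a c⁆ : Sx a) : FreeGroup (Fin n)) ∈ Sx i
        rw [commutatorElement_def]
        exact mul_mem (mul_mem (mul_mem h1 h2) (inv_mem h1)) (inv_mem h2)
    · exact R_conj_T a haj _ (Kd_mem_MM a b c)

theorem R_inv_eq {i j : Fin n} (hij : i ≠ j) : (R i j)⁻¹ = eps j * R i j * eps j := by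
  refine aut_ext fun c => ?_
  rw [MulAut.mul_apply, MulAut.mul_apply]
  by_cases hci : c = i
  · subst hci
    rw [R_inv_self hij.symm, eps_ne hij, R_self hij.symm, map_mul, eps_ne hij, eps_self]
  · rw [R_inv_ne hci]
    by_cases hcj : c = j
    · subst hcj
      rw [eps_self, map_inv, R_ne hci, map_inv, eps_self, inv_inv]
    · rw [eps_ne hcj, R_ne hci, eps_ne hcj]

theorem MM_conj_R {i j : Fin n} (hij : i ≠ j) (κ : AF n) (hκ : κ ∈ MM n) :
    R i j * κ * (R i j)⁻¹ ∈ MM n ∧ (R i j)⁻¹ * κ * R i j ∈ MM n := by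
  refine ⟨MM_conj_R_aux hij κ hκ, ?_⟩
  have h1 := MM_conj_eps j _ (MM_conj_R_aux hij _ (MM_conj_eps j κ hκ))
  have h2 : R i j = eps j * (R i j)⁻¹ * eps j := by
    rw [R_inv_eq hij]
    calc R i j = (eps j * eps j) * R i j * (eps j * eps j) := by rw [eps_mul_self]; group
      _ = _ := by group
  have h3 : (R i j)⁻¹ * κ * R i j =
      eps j * (R i j * (eps j * κ * (eps j)⁻¹) * (R i j)⁻¹) * (eps j)⁻¹ := by
    calc (R i j)⁻¹ * κ * R i j =
          (eps j * R i j * eps j) * κ * (eps j * (R i j)⁻¹ * eps j) := by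
            rw [← R_inv_eq hij, ← h2]
      _ = _ := by
            rw [eps_inv]
            group
  rw [h3]
  exact h1

theorem MM_normal (hgen : Subgroup.closure ({φ : AF n | ∃ i j, i ≠ j ∧ φ = R i j} ∪
    {φ | ∃ σ, φ = pm σ} ∪ {φ | ∃ a, φ = eps a}) = ⊤) : (MM n).Normal := by
  have key : ∀ g : AF n, (∀ κ ∈ MM n, g * κ * g⁻¹ ∈ MM n) ∧ (∀ κ ∈ MM n, g⁻¹ * κ * g ∈ MM n) := by
    intro g
    have hg : g ∈ Subgroup.closure ({φ : AF n | ∃ i j, i ≠ j ∧ φ = R i j} ∪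
        {φ | ∃ σ, φ = pm σ} ∪ {φ | ∃ a, φ = eps a}) := by rw [hgen]; trivial
    induction hg using Subgroup.closure_induction with
    | mem g hg =>
      rcases hg with (⟨i, j, hij, rfl⟩ | ⟨σ, rfl⟩) | ⟨a, rfl⟩
      · exact ⟨fun κ hκ => (MM_conj_R hij κ hκ).1, fun κ hκ => (MM_conj_R hij κ hκ).2⟩
      · refine ⟨fun κ hκ => MM_conj_pm σ κ hκ, fun κ hκ => ?_⟩
        have := MM_conj_pm σ⁻¹ κ hκ
        rwa [← pm_inv, inv_inv] at this
      · refine ⟨fun κ hκ => MM_conj_eps a κ hκ, fun κ hκ => ?_⟩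
        have := MM_conj_eps a κ hκ
        rwa [eps_inv] at this ⊢
    | one => exact ⟨fun κ hκ => by simpa using hκ, fun κ hκ => by simpa using hκ⟩
    | mul a b _ _ ha hb =>
      refine ⟨fun κ hκ => ?_, fun κ hκ => ?_⟩
      · have := ha.1 _ (hb.1 κ hκ)
        rwa [show a * (b * κ * b⁻¹) * a⁻¹ = a * b * κ * (a * b)⁻¹ by group] at this
      · have := hb.2 _ (ha.2 κ hκ)
        rwa [show b⁻¹ * (a⁻¹ * κ * a) * b = (a * b)⁻¹ * κ * (a * b) by group] at this
    | inv a _ ha =>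
      refine ⟨fun κ hκ => ?_, fun κ hκ => ?_⟩
      · rw [inv_inv]; exact ha.2 κ hκ
      · rw [inv_inv]; exact ha.1 κ hκ
  exact ⟨fun κ hκ g => (key g).1 κ hκ⟩

end TOR
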