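import Mathlib
import Pool.Agent.Helper34.TOR.StDefs
import Pool.Agent.Helper34.TOR.Factor

/-!
# TOR-24: moving two columns and two rows into four coordinates

PROOFS. `euclid_col`: induction on `Σ_{i ∈ I} (v i).val` (natural representatives; `N > 0`): if two coordinates `i ≠ j` of `I` have
`0 < (v j).val ≤ (v i).val`, multiply by `transvection i j (-1)` (adds `- row j` to row `i`): the value at `i` becomes
`(v i).val - (v j).val`, the sum decreases. Otherwise at most one coordinate `j ∈ I` is nonzero; if `j ≠ i₀`, apply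
`transvection i₀ j 1` and then `transvection j i₀ (-1)`: `(0, a) ↦ (a, a) ↦ (a, 0)`. Every transvection with indices in `I` is
in `SLJ I`, with inverse `transvection i j (-c)`; products by `SLJ_mul`.
`euclid_row`: transpose (`SLJ_transpose`): `v ᵥ* t = tᵀ *ᵥ v`.
`four`: `I = univ.erase k`, `J₀ = {a,b,c,d}` (distinct, `≠ k`). (1) `euclid_col I a p₁`: `s₁`; `s₁ p₁` is supported on `{a}` (the coordinate
`k` stays `0`: for `i ∉ I`, `(s *ᵥ v) i = v i`). (2) `euclid_col (I \ {a}) b (s₁ p₂)`: `s₂ ∈ SLJ (I \ {a}) ⊆ SLJ I`; `s₂ s₁ p₂` is supported on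
`{a,b}`, `s₂ s₁ p₁ = s₁ p₁` (column `a` of `s₂` is `e_a`). (3) `euclid_row (I \ {a,b}) c (q₁ t₁ t₂)`: `t₃` (inverse `s₃`); `q₁ t₁ t₂ t₃` is
supported on `{a,b,c}`, and `s₃` fixes vectors supported on `{a,b}`. (4) `euclid_row (I \ {a,b,c}) d (q₂ t₁ t₂ t₃)`: `t₄`;
`q₂ t₁ t₂ t₃ t₄` is supported on `{a,b,c,d}`; `t₄` fixes rows supported on `{a,b,c}` (rows `a,b,c` of `t₄` are unit vectors) and
`s₄` fixes columns supported on `{a,b}`. `s = s₄ s₃ s₂ s₁`, `t = t₁ t₂ t₃ t₄`.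
-/

namespace TOR

variable {n N : ℕ}

private theorem h22_apply_notMem {I : Finset (Fin n)} {s : Matrix (Fin n) (Fin n) (ZMod N)}
    (hs : s ∈ SLJ I) (v : Fin n → ZMod N) {i : Fin n} (hi : i ∉ I) : s.mulVec v i = v i := by
  have h1 : s.mulVec v i = (1 : Matrix (Fin n) (Fin n) (ZMod N)).mulVec v i := by
    rw [Matrix.mulVec, Matrix.mulVec, dotProduct, dotProduct]
    exact Finset.sum_congr rfl fun j _ => by rw [hs.2 i j (Or.inl hi)]
  rw [h1, Matrix.one_mulVec]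

private theorem h22_fix {I : Finset (Fin n)} {s : Matrix (Fin n) (Fin n) (ZMod N)}
    (hs : s ∈ SLJ I) (v : Fin n → ZMod N) (hv : ∀ j ∈ I, v j = 0) : s.mulVec v = v := by
  funext i
  have h1 : s.mulVec v i = (1 : Matrix (Fin n) (Fin n) (ZMod N)).mulVec v i := by
    rw [Matrix.mulVec, Matrix.mulVec, dotProduct, dotProduct]
    refine Finset.sum_congr rfl fun j _ => ?_
    by_cases hj : j ∈ I
    · rw [hv j hj, mul_zero, mul_zero]
    · rw [hs.2 i j (Or.inr hj)]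
  rw [h1, Matrix.one_mulVec]

private theorem h22_trans_mem {I : Finset (Fin n)} {i j : Fin n} (hi : i ∈ I) (hj : j ∈ I)
    (hij : i ≠ j) (c : ZMod N) : Matrix.transvection i j c ∈ SLJ (N := N) I := by
  refine ⟨Matrix.det_transvection_of_ne i j hij c, fun a b hab => ?_⟩
  rw [Matrix.transvection, Matrix.add_apply]
  have : Matrix.single i j c a b = 0 := by
    rw [Matrix.single, Matrix.of_apply, if_neg]
    rintro ⟨rfl, rfl⟩
    rcases hab with h | h
    · exact h hi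
    · exact h hj
  rw [this, add_zero]

private theorem h22_trans_mulVec (i j : Fin n) (c : ZMod N) (v : Fin n → ZMod N) (a : Fin n) :
    (Matrix.transvection i j c).mulVec v a = v a + if a = i then c * v j else 0 := by
  rw [Matrix.transvection, Matrix.add_mulVec, Matrix.one_mulVec, Matrix.single_mulVec,
    Pi.add_apply, Function.update_apply]
  rfl

private theorem h22_one_mem (I : Finset (Fin n)) : (1 : Matrix (Fin n) (Fin n) (ZMod N)) ∈ SLJ I :=
  ⟨Matrix.det_one, fun _ _ _ => rfl⟩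

private theorem h22_euclid (hN : 0 < N) (I : Finset (Fin n)) (i₀ : Fin n) (hi₀ : i₀ ∈ I) :
    ∀ (K : ℕ) (v : Fin n → ZMod N), ∑ i ∈ I, (v i).val ≤ K →
      ∃ s ∈ SLJ (N := N) I, ∀ i ∈ I, i ≠ i₀ → s.mulVec v i = 0 := by
  have hNZ : NeZero N := ⟨hN.ne'⟩
  intro K
  induction K with
  | zero =>
    intro v hv
    refine ⟨1, h22_one_mem I, fun i hi _ => ?_⟩
    rw [Matrix.one_mulVec]
    have h1 : ∑ i ∈ I, (v i).val = 0 := Nat.le_zero.1 hv
    rw [Finset.sum_eq_zero_iff] at h1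
    exact (ZMod.val_eq_zero (v i)).1 (h1 i hi)
  | succ K ih =>
    intro v hv
    by_cases hex : ∃ i ∈ I, ∃ j ∈ I, i ≠ j ∧ 0 < (v j).val ∧ (v j).val ≤ (v i).val
    · obtain ⟨i, hi, j, hj, hij, h0, hle⟩ := hex
      have hT := h22_trans_mem (N := N) hi hj hij (-1)
      obtain ⟨s, hs, hs0⟩ := ih ((Matrix.transvection i j (-1 : ZMod N)).mulVec v) (by
        have hlt : ∑ a ∈ I, ((Matrix.transvection i j (-1 : ZMod N)).mulVec v a).val <
            ∑ a ∈ I, (v a).val := by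
          refine Finset.sum_lt_sum (fun a _ => ?_) ⟨i, hi, ?_⟩
          · rw [h22_trans_mulVec]
            by_cases ha : a = i
            · subst ha
              rw [if_pos rfl, neg_one_mul, ← sub_eq_add_neg, ZMod.val_sub hle]
              exact Nat.sub_le _ _
            · rw [if_neg ha, add_zero]
          · rw [h22_trans_mulVec, if_pos rfl, neg_one_mul, ← sub_eq_add_neg, ZMod.val_sub hle]
            exact Nat.sub_lt (lt_of_lt_of_le h0 hle) h0
        omega)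
      refine ⟨s * Matrix.transvection i j (-1), SLJ_mul hs hT, fun a ha hne => ?_⟩
      rw [← Matrix.mulVec_mulVec]
      exact hs0 a ha hne
    · push Not at hex
      have huniq : ∀ i ∈ I, ∀ j ∈ I, v i ≠ 0 → v j ≠ 0 → i = j := by
        intro i hi j hj h1 h2
        by_contra hij
        have p1 : 0 < (v i).val := Nat.pos_of_ne_zero fun h => h1 ((ZMod.val_eq_zero _).1 h)
        have p2 : 0 < (v j).val := Nat.pos_of_ne_zero fun h => h2 ((ZMod.val_eq_zero _).1 h)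
        have q1 := hex i hi j hj hij p2
        have q2 := hex j hj i hi (Ne.symm hij) p1
        omega
      by_cases hall : ∀ i ∈ I, i ≠ i₀ → v i = 0
      · refine ⟨1, h22_one_mem I, fun i hi h => ?_⟩
        rw [Matrix.one_mulVec]
        exact hall i hi h
      · push Not at hall
        obtain ⟨j, hj, hne, hvj⟩ := hall
        have hz : ∀ i ∈ I, i ≠ j → v i = 0 := by
          intro i hi hij
          by_contra h
          exact hij (huniq i hi j hj h hvj)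
        refine ⟨Matrix.transvection j i₀ (-1) * Matrix.transvection i₀ j 1,
          SLJ_mul (h22_trans_mem hj hi₀ hne _) (h22_trans_mem hi₀ hj (Ne.symm hne) _),
          fun a ha hane => ?_⟩
        rw [← Matrix.mulVec_mulVec, h22_trans_mulVec, h22_trans_mulVec, h22_trans_mulVec,
          if_neg hane, if_pos rfl, hz i₀ hi₀ (Ne.symm hne)]
        by_cases haj : a = j
        · subst haj
          rw [if_pos rfl]
          ring
        · rw [if_neg haj, hz a ha haj]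
          ring

theorem euclid_col (hN : 0 < N) (I : Finset (Fin n)) (i₀ : Fin n) (hi₀ : i₀ ∈ I)
    (v : Fin n → ZMod N) :
    ∃ s ∈ SLJ (N := N) I, ∃ t ∈ SLJ (N := N) I, s * t = 1 ∧ t * s = 1 ∧
      (∀ i ∈ I, i ≠ i₀ → s.mulVec v i = 0) ∧ ∀ i, i ∉ I → s.mulVec v i = v i := by
  obtain ⟨s, hs, hs0⟩ := h22_euclid hN I i₀ hi₀ _ v le_rfl
  obtain ⟨h1, h2, h3⟩ := SLJ_inv hs
  exact ⟨s, hs, s⁻¹, h1, h2, h3, hs0, fun i hi => h22_apply_notMem hs v hi⟩

theorem euclid_row (hN : 0 < N) (I : Finset (Fin n)) (i₀ : Fin n) (hi₀ : i₀ ∈ I)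
    (v : Fin n → ZMod N) :
    ∃ s ∈ SLJ (N := N) I, ∃ t ∈ SLJ (N := N) I, s * t = 1 ∧ t * s = 1 ∧
      (∀ i ∈ I, i ≠ i₀ → Matrix.vecMul v t i = 0) ∧ ∀ i, i ∉ I → Matrix.vecMul v t i = v i := by
  obtain ⟨s, hs, t, ht, hst, hts, h0, h1⟩ := euclid_col hN I i₀ hi₀ v
  refine ⟨t.transpose, SLJ_transpose ht, s.transpose, SLJ_transpose hs, ?_, ?_, ?_, ?_⟩
  · rw [← Matrix.transpose_mul, hst, Matrix.transpose_one]
  · rw [← Matrix.transpose_mul, hts, Matrix.transpose_one]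
  · intro i hi hne
    rw [Matrix.vecMul_transpose]
    exact h0 i hi hne
  · intro i hi
    rw [Matrix.vecMul_transpose]
    exact h1 i hi

private theorem h22_vec_notMem {I : Finset (Fin n)} {s : Matrix (Fin n) (Fin n) (ZMod N)}
    (hs : s ∈ SLJ I) (v : Fin n → ZMod N) {i : Fin n} (hi : i ∉ I) :
    Matrix.vecMul v s i = v i := by
  rw [← Matrix.mulVec_transpose]
  exact h22_apply_notMem (SLJ_transpose hs) v hi

private theorem h22_vec_fix {I : Finset (Fin n)} {s : Matrix (Fin n) (Fin n) (ZMod N)}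
    (hs : s ∈ SLJ I) (v : Fin n → ZMod N) (hv : ∀ j ∈ I, v j = 0) : Matrix.vecMul v s = v := by
  rw [← Matrix.mulVec_transpose]
  exact h22_fix (SLJ_transpose hs) v hv

private theorem h22_mono {I J : Finset (Fin n)} (h : I ⊆ J) {s : Matrix (Fin n) (Fin n) (ZMod N)}
    (hs : s ∈ SLJ I) : s ∈ SLJ J :=
  ⟨hs.1, fun i j hij => hs.2 i j (hij.imp (fun h1 h2 => h1 (h h2)) fun h1 h2 => h1 (h h2))⟩

theorem four (hN : 0 < N) (k : Fin n) (J₀ : Finset (Fin n)) (hk : k ∉ J₀) (h4 : J₀.card = 4)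
    (p₁ p₂ q₁ q₂ : Fin n → ZMod N) (hp₁ : Supp (Finset.univ.erase k) p₁)
    (hp₂ : Supp (Finset.univ.erase k) p₂) (hq₁ : Supp (Finset.univ.erase k) q₁)
    (hq₂ : Supp (Finset.univ.erase k) q₂) :
    ∃ s ∈ SLJ (N := N) (Finset.univ.erase k), ∃ t ∈ SLJ (N := N) (Finset.univ.erase k),
      s * t = 1 ∧ t * s = 1 ∧ Supp J₀ (s.mulVec p₁) ∧ Supp J₀ (s.mulVec p₂) ∧
      Supp J₀ (Matrix.vecMul q₁ t) ∧ Supp J₀ (Matrix.vecMul q₂ t) := by
  classical
  obtain ⟨a, J₁, haJ, hJ, h3⟩ := Finset.card_eq_succ.1 h4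
  obtain ⟨b, c, d, hbc, hbd, hcd, rfl⟩ := Finset.card_eq_three.1 h3
  subst hJ
  simp only [Finset.mem_insert, Finset.mem_singleton, not_or] at haJ hk
  obtain ⟨hab, hac, had⟩ := haJ
  obtain ⟨hka, hkb, hkc, hkd⟩ := hk
  set I : Finset (Fin n) := Finset.univ.erase k with hI
  have memI : ∀ {i : Fin n}, i ∈ I ↔ i ≠ k := by
    intro i
    rw [hI, Finset.mem_erase]
    exact ⟨fun h => h.1, fun h => ⟨h, Finset.mem_univ i⟩⟩
  have haI : a ∈ I := memI.2 (Ne.symm hka)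
  have hbI : b ∈ I.erase a := Finset.mem_erase.2 ⟨Ne.symm hab, memI.2 (Ne.symm hkb)⟩
  have hcI : c ∈ (I.erase a).erase b :=
    Finset.mem_erase.2 ⟨Ne.symm hbc, Finset.mem_erase.2 ⟨Ne.symm hac, memI.2 (Ne.symm hkc)⟩⟩
  have hdI : d ∈ ((I.erase a).erase b).erase c :=
    Finset.mem_erase.2 ⟨Ne.symm hcd, Finset.mem_erase.2 ⟨Ne.symm hbd,
      Finset.mem_erase.2 ⟨Ne.symm had, memI.2 (Ne.symm hkd)⟩⟩⟩
  have sub1 : I.erase a ⊆ I := Finset.erase_subset _ _
  have sub2 : (I.erase a).erase b ⊆ I := (Finset.erase_subset _ _).trans sub1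
  have sub3 : ((I.erase a).erase b).erase c ⊆ I := (Finset.erase_subset _ _).trans sub2
  have hkI : k ∉ I := fun h => memI.1 h rfl
  obtain ⟨s₁, hs₁, t₁, ht₁, hst₁, hts₁, h10, -⟩ := euclid_col hN I a haI p₁
  obtain ⟨s₂, hs₂, t₂, ht₂, hst₂, hts₂, h20, -⟩ :=
    euclid_col hN (I.erase a) b hbI (s₁.mulVec p₂)
  obtain ⟨s₃, hs₃, t₃, ht₃, hst₃, hts₃, h30, -⟩ :=
    euclid_row hN ((I.erase a).erase b) c hcI (Matrix.vecMul (Matrix.vecMul q₁ t₁) t₂)
  obtain ⟨s₄, hs₄, t₄, ht₄, hst₄, hts₄, h40, -⟩ :=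
    euclid_row hN (((I.erase a).erase b).erase c) d hdI
      (Matrix.vecMul (Matrix.vecMul (Matrix.vecMul q₂ t₁) t₂) t₃)
  -- the four supports
  have x1 : ∀ i, i ≠ a → s₁.mulVec p₁ i = 0 := by
    intro i hi
    by_cases hik : i = k
    · subst hik
      rw [h22_apply_notMem hs₁ p₁ hkI]
      exact hp₁ _ hkI
    · exact h10 i (memI.2 hik) hi
  have x2 : ∀ i, i ≠ a → i ≠ b → s₂.mulVec (s₁.mulVec p₂) i = 0 := by
    intro i hia hib
    by_cases hik : i = k
    · subst hik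
      rw [h22_apply_notMem hs₂ _ (fun h => hkI (sub1 h)), h22_apply_notMem hs₁ p₂ hkI]
      exact hp₂ _ hkI
    · exact h20 i (Finset.mem_erase.2 ⟨hia, memI.2 hik⟩) hib
  have y1 : ∀ i, i ≠ a → i ≠ b → i ≠ c →
      Matrix.vecMul (Matrix.vecMul (Matrix.vecMul q₁ t₁) t₂) t₃ i = 0 := by
    intro i hia hib hic
    by_cases hik : i = k
    · subst hik
      rw [h22_vec_notMem ht₃ _ (fun h => hkI (sub2 h)), h22_vec_notMem ht₂ _
        (fun h => hkI (sub1 h)), h22_vec_notMem ht₁ _ hkI]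
      exact hq₁ _ hkI
    · exact h30 i (Finset.mem_erase.2 ⟨hib, Finset.mem_erase.2 ⟨hia, memI.2 hik⟩⟩) hic
  have y2 : ∀ i, i ≠ a → i ≠ b → i ≠ c → i ≠ d →
      Matrix.vecMul (Matrix.vecMul (Matrix.vecMul (Matrix.vecMul q₂ t₁) t₂) t₃) t₄ i = 0 := by
    intro i hia hib hic hid
    by_cases hik : i = k
    · subst hik
      rw [h22_vec_notMem ht₄ _ (fun h => hkI (sub3 h)), h22_vec_notMem ht₃ _
        (fun h => hkI (sub2 h)), h22_vec_notMem ht₂ _ (fun h => hkI (sub1 h)),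
        h22_vec_notMem ht₁ _ hkI]
      exact hq₂ _ hkI
    · exact h40 i (Finset.mem_erase.2 ⟨hic, Finset.mem_erase.2 ⟨hib,
        Finset.mem_erase.2 ⟨hia, memI.2 hik⟩⟩⟩) hid
  refine ⟨s₄ * (s₃ * (s₂ * s₁)),
    SLJ_mul (h22_mono sub3 hs₄) (SLJ_mul (h22_mono sub2 hs₃) (SLJ_mul (h22_mono sub1 hs₂) hs₁)),
    t₁ * (t₂ * (t₃ * t₄)),
    SLJ_mul ht₁ (SLJ_mul (h22_mono sub1 ht₂) (SLJ_mul (h22_mono sub2 ht₃) (h22_mono sub3 ht₄))),
    ?_, ?_, ?_, ?_, ?_, ?_⟩
  · calc s₄ * (s₃ * (s₂ * s₁)) * (t₁ * (t₂ * (t₃ * t₄)))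
        = s₄ * (s₃ * (s₂ * (s₁ * t₁) * t₂) * t₃) * t₄ := by simp only [mul_assoc]
      _ = 1 := by rw [hst₁, mul_one, hst₂, mul_one, hst₃, mul_one, hst₄]
  · calc t₁ * (t₂ * (t₃ * t₄)) * (s₄ * (s₃ * (s₂ * s₁)))
        = t₁ * (t₂ * (t₃ * (t₄ * s₄) * s₃) * s₂) * s₁ := by simp only [mul_assoc]
      _ = 1 := by rw [hts₄, mul_one, hts₃, mul_one, hts₂, mul_one, hts₁]
  · intro i hi
    simp only [Finset.mem_insert, Finset.mem_singleton, not_or] at hi
    rw [← Matrix.mulVec_mulVec, ← Matrix.mulVec_mulVec, ← Matrix.mulVec_mulVec,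
      h22_fix hs₂ _ (fun j hj => x1 j (Finset.mem_erase.1 hj).1),
      h22_fix hs₃ _ (fun j hj => x1 j (Finset.mem_erase.1 (Finset.mem_erase.1 hj).2).1),
      h22_fix hs₄ _ (fun j hj => x1 j
        (Finset.mem_erase.1 (Finset.mem_erase.1 (Finset.mem_erase.1 hj).2).2).1)]
    exact x1 i hi.1
  · intro i hi
    simp only [Finset.mem_insert, Finset.mem_singleton, not_or] at hi
    rw [← Matrix.mulVec_mulVec, ← Matrix.mulVec_mulVec, ← Matrix.mulVec_mulVec,
      h22_fix hs₃ _ (fun j hj => x2 j (Finset.mem_erase.1 (Finset.mem_erase.1 hj).2).1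
        (Finset.mem_erase.1 hj).1),
      h22_fix hs₄ _ (fun j hj => x2 j
        (Finset.mem_erase.1 (Finset.mem_erase.1 (Finset.mem_erase.1 hj).2).2).1
        (Finset.mem_erase.1 (Finset.mem_erase.1 hj).2).1)]
    exact x2 i hi.1 hi.2.1
  · intro i hi
    simp only [Finset.mem_insert, Finset.mem_singleton, not_or] at hi
    rw [← Matrix.vecMul_vecMul, ← Matrix.vecMul_vecMul, ← Matrix.vecMul_vecMul,
      h22_vec_fix ht₄ _ (fun j hj => y1 j
        (Finset.mem_erase.1 (Finset.mem_erase.1 (Finset.mem_erase.1 hj).2).2).1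
        (Finset.mem_erase.1 (Finset.mem_erase.1 hj).2).1 (Finset.mem_erase.1 hj).1)]
    exact y1 i hi.1 hi.2.1 hi.2.2.1
  · intro i hi
    simp only [Finset.mem_insert, Finset.mem_singleton, not_or] at hi
    rw [← Matrix.vecMul_vecMul, ← Matrix.vecMul_vecMul, ← Matrix.vecMul_vecMul]
    exact y2 i hi.1 hi.2.1 hi.2.2.1 hi.2.2.2

end TOR
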