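import Mathlib
import Pool.Agent.Helper34.TOR.StDefs
import Pool.Agent.Helper34.TOR.Factor

/-!
# TOR-25: column and row groups in a Steinberg group

PROOFS (`D : StData n N G`, `e = D.e`, `k ∉ J`). Everything for `QJ` is analogous to `PJ` (or reduce to it).
`conj_P`: generators: `g = e i j` (`i,j ∈ J`), `p = e l k` (`l ∈ J`). `l ≠ j`: `hst1` (`i ≠ k`, `j ≠ l`), so they commute. `l = j`:
`e i j * e j k * (e i j)⁻¹ = ⁅e i j, e j k⁆ * e j k = e i k * e j k ∈ PJ`, and since `e i j` commutes with `e i k` (`hst1`),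
`(e i j)⁻¹ * e j k * e i j = (e i k)⁻¹ * e j k ∈ PJ`. So both conjugations by `e i j` preserve `PJ` (conjugation is a
homomorphism, closure induction), hence all of `GJ J` normalises `PJ`. (`QJ`: `e k l`: `⁅e k i, e i j⁆ = e k j`.)
`pi_P`: closure induction: `π (e l k) = transvection l k 1 = colm k (Pi.single l 1)`, `colm_mul` (all vectors have `k`-entry `0`).
`P_vec`: `v` supported on `J`: finset induction on `J`, `e l k ^ (v l).val ↦ colm k (Pi.single l (v l))` (`hN : 0 < N`).
`P_ker`: `p ∈ PJ J k`, `π p = 1 → p = 1`: finset induction on `J`: `PJ (insert l J) k = zpowers (e l k) ⊔ PJ J k` and `e l k` commutes with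
`PJ J k` (`hst1`), so `p = (e l k)^a * p'`, `a : ℤ`, `p' ∈ PJ J k`; the entry `(l,k)` of `π p` is `a` (mod `N`), so `N ∣ a`,
`(e l k)^a = 1` (`hord`), and `π p' = 1`, `p' = 1` by induction.
`central`: `g ∈ GJ J`, `π g = 1`, `k ∉ J`. For every `k' ∉ J` and `p ∈ PJ J k'`: `g p g⁻¹ p⁻¹ ∈ PJ J k'` (`conj_P`) has `π = 1`, so it is `1`
(`P_ker`): `g` commutes with `PJ J k'`, `QJ J k'`. `e i j` with `i, j ∈ J`: equals `⁅e i k, e k j⁆` (`hst2`), so commutes with `g`.
`i ∈ J`, `j ∉ J`: in `PJ J j`. `i ∉ J`, `j ∈ J`: in `QJ J i`. `i, j ∉ J`: commutes with all generators of `GJ J` (`hst1`). So `g` commutes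
with all generators of `G` (`hgen`).
-/

namespace TOR

open scoped commutatorElement

variable {n N : ℕ} {G : Type*} [Group G] (D : StData n N G)

private theorem gen_P {J : Finset (Fin n)} {k : Fin n} {l : Fin n} (hl : l ∈ J) :
    D.e l k ∈ D.PJ J k := Subgroup.subset_closure ⟨l, hl, rfl⟩

private theorem ne_of {J : Finset (Fin n)} {k l : Fin n} (hk : k ∉ J) (hl : l ∈ J) : l ≠ k :=
  fun h => hk (h ▸ hl)

private theorem gens_conj {J : Finset (Fin n)} {k : Fin n} (hk : k ∉ J) {i j : Fin n} (hi : i ∈ J)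
    (hj : j ∈ J) (hij : i ≠ j) {l : Fin n} (hl : l ∈ J) :
    D.e i j * D.e l k * (D.e i j)⁻¹ ∈ D.PJ J k ∧
    (D.e i j)⁻¹ * D.e l k * D.e i j ∈ D.PJ J k := by
  have hik := ne_of hk hi
  have hjk := ne_of hk hj
  have hlk := ne_of hk hl
  by_cases hlj : l = j
  · subst hlj
    have h1 := D.hst2 i l k hij hjk hik
    rw [commutatorElement_def] at h1
    have h2 : Commute (D.e i l) (D.e i k) := D.hst1 i l i k hij hik hik hij.symm
    have h3 : D.e i l * D.e l k * (D.e i l)⁻¹ = D.e i k * D.e l k := by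
      rw [← h1]
      group
    constructor
    · rw [h3]
      exact (D.PJ J k).mul_mem (gen_P D hi) (gen_P D hl)
    · have h4 : (D.e i l)⁻¹ * D.e l k * D.e i l = (D.e i k)⁻¹ * D.e l k := by
        have h5 : D.e l k = (D.e i k)⁻¹ * (D.e i l * D.e l k * (D.e i l)⁻¹) := by
          rw [h3]
          group
        have h6 : (D.e i l)⁻¹ * (D.e i k)⁻¹ * D.e i l = (D.e i k)⁻¹ := by
          have h7 := h2.inv_left.inv_right
          rw [h7.eq]
          group
        calc (D.e i l)⁻¹ * D.e l k * D.e i l =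
              (D.e i l)⁻¹ * ((D.e i k)⁻¹ * (D.e i l * D.e l k * (D.e i l)⁻¹)) * D.e i l := by
              rw [← h5]
          _ = ((D.e i l)⁻¹ * (D.e i k)⁻¹ * D.e i l) * D.e l k := by group
          _ = (D.e i k)⁻¹ * D.e l k := by rw [h6]
      rw [h4]
      exact (D.PJ J k).mul_mem ((D.PJ J k).inv_mem (gen_P D hi)) (gen_P D hl)
  · have h1 : Commute (D.e i j) (D.e l k) := D.hst1 i j l k hij hlk hik (fun h => hlj h.symm)
    constructor
    · rw [h1.eq, mul_inv_cancel_right]
      exact gen_P D hl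
    · rw [mul_assoc, ← h1.eq, inv_mul_cancel_left]
      exact gen_P D hl

private theorem norm_P {J : Finset (Fin n)} {k : Fin n} (hk : k ∉ J) :
    D.GJ J ≤ Subgroup.normalizer (D.PJ J k : Set G) := by
  unfold StData.GJ
  rw [Subgroup.closure_le]
  rintro _ ⟨i, hi, j, hj, hij, rfl⟩
  have h1 : ∀ p ∈ D.PJ J k, D.e i j * p * (D.e i j)⁻¹ ∈ D.PJ J k := by
    intro p hp
    have h : D.PJ J k ≤ (D.PJ J k).comap (MulAut.conj (D.e i j)).toMonoidHom := by
      conv_lhs => unfold StData.PJ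
      rw [Subgroup.closure_le]
      rintro _ ⟨l, hl, rfl⟩
      exact (gens_conj D hk hi hj hij hl).1
    exact h hp
  have h2 : ∀ p ∈ D.PJ J k, (D.e i j)⁻¹ * p * D.e i j ∈ D.PJ J k := by
    intro p hp
    have h : D.PJ J k ≤ (D.PJ J k).comap (MulAut.conj (D.e i j)⁻¹).toMonoidHom := by
      conv_lhs => unfold StData.PJ
      rw [Subgroup.closure_le]
      rintro _ ⟨l, hl, rfl⟩
      have := (gens_conj D hk hi hj hij hl).2
      change (D.e i j)⁻¹ * D.e l k * (D.e i j)⁻¹⁻¹ ∈ D.PJ J k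
      rwa [inv_inv]
    have h3 := h hp
    change (D.e i j)⁻¹ * p * (D.e i j)⁻¹⁻¹ ∈ D.PJ J k at h3
    rwa [inv_inv] at h3
  refine SetLike.mem_coe.2 (Subgroup.mem_normalizer_iff.2 fun h => ⟨h1 h, fun hh => ?_⟩)
  have h3 := h2 _ hh
  have h4 : (D.e i j)⁻¹ * (D.e i j * h * (D.e i j)⁻¹) * D.e i j = h := by group
  rwa [h4] at h3

theorem conj_P {J : Finset (Fin n)} {k : Fin n} (hk : k ∉ J) {g p : G} (hg : g ∈ D.GJ J)
    (hp : p ∈ D.PJ J k) : g * p * g⁻¹ ∈ D.PJ J k :=
  (Subgroup.mem_normalizer_iff.1 (norm_P D hk hg) p).1 hp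

/-! ### The dual data -/

/-- the dual data: `e' i j = (e j i)⁻¹`, `π' g = (π g⁻¹)ᵀ` -/
private def dual : StData n N G where
  e i j := (D.e j i)⁻¹
  π := 
    { toFun := fun g => (D.π g⁻¹).transpose
      map_one' := by rw [inv_one, map_one, Matrix.transpose_one]
      map_mul' := fun g h => by rw [mul_inv_rev, map_mul, Matrix.transpose_mul] }
  hπ i j hij := by
    change (D.π ((D.e j i)⁻¹)⁻¹).transpose = _
    rw [inv_inv, D.hπ j i hij.symm, Matrix.transvection, Matrix.transvection,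
      Matrix.transpose_add, Matrix.transpose_one, Matrix.transpose_single]
  hord i j hij := by rw [inv_pow, D.hord j i hij.symm, inv_one]
  hst1 i j k l hij hkl hil hjk :=
    (D.hst1 j i l k hij.symm hkl.symm hjk hil).inv_left.inv_right
  hst2 i j k hij hjk hik := by
    have h1 := D.hst2 k j i hjk.symm hij.symm hik.symm
    have c1 : Commute (D.e k i) (D.e j i) := D.hst1 k i j i hik.symm hij.symm hik.symm hij
    have c2 : Commute (D.e k i) (D.e k j) := D.hst1 k i k j hik.symm hjk.symm hjk.symm hik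
    rw [commutatorElement_def] at h1
    rw [commutatorElement_def, inv_inv, inv_inv]
    -- `b a b⁻¹ a⁻¹ = c`, show `a⁻¹ b⁻¹ a b = c⁻¹`
    have h2 : D.e k j * D.e j i = D.e k i * D.e j i * D.e k j := by
      rw [← h1]
      group
    have h3 : D.e k i * (D.e j i * D.e k j) = D.e j i * D.e k j * D.e k i := by
      have := (c1.mul_right c2).eq
      exact this
    have h4 : D.e k j * D.e j i = D.e j i * D.e k j * D.e k i := by
      rw [h2, mul_assoc, h3]
    have h5 : (D.e j i)⁻¹ * (D.e k j)⁻¹ * D.e j i * D.e k j =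
        (D.e k j * D.e j i)⁻¹ * (D.e j i * D.e k j) := by group
    rw [h5, h4]
    group
  hgen := by
    rw [eq_top_iff, ← D.hgen, Subgroup.closure_le]
    rintro _ ⟨i, j, hij, rfl⟩
    have h : (D.e i j)⁻¹ ∈ Subgroup.closure {g | ∃ i j, i ≠ j ∧ g = (D.e j i)⁻¹} :=
      Subgroup.subset_closure ⟨j, i, hij.symm, rfl⟩
    have h2 := Subgroup.inv_mem _ h
    rwa [inv_inv] at h2

private theorem dual_GJ (J : Finset (Fin n)) : (dual D).GJ J = D.GJ J := by
  apply le_antisymm
  · unfold StData.GJ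
    rw [Subgroup.closure_le]
    rintro _ ⟨i, hi, j, hj, hij, rfl⟩
    exact Subgroup.inv_mem _ (Subgroup.subset_closure ⟨j, hj, i, hi, hij.symm, rfl⟩)
  · unfold StData.GJ
    rw [Subgroup.closure_le]
    rintro _ ⟨i, hi, j, hj, hij, rfl⟩
    have h : (dual D).e j i ∈ Subgroup.closure
        {g | ∃ i ∈ J, ∃ j ∈ J, i ≠ j ∧ g = (dual D).e i j} :=
      Subgroup.subset_closure ⟨j, hj, i, hi, hij.symm, rfl⟩
    have h2 := Subgroup.inv_mem _ h
    change ((D.e i j)⁻¹)⁻¹ ∈ _ at h2
    rwa [inv_inv] at h2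

private theorem dual_PJ (J : Finset (Fin n)) (k : Fin n) : (dual D).PJ J k = D.QJ J k := by
  apply le_antisymm
  · unfold StData.PJ StData.QJ
    rw [Subgroup.closure_le]
    rintro _ ⟨j, hj, rfl⟩
    exact Subgroup.inv_mem _ (Subgroup.subset_closure ⟨j, hj, rfl⟩)
  · unfold StData.PJ StData.QJ
    rw [Subgroup.closure_le]
    rintro _ ⟨j, hj, rfl⟩
    have h : (dual D).e j k ∈ Subgroup.closure {g | ∃ j ∈ J, g = (dual D).e j k} :=
      Subgroup.subset_closure ⟨j, hj, rfl⟩
    have h2 := Subgroup.inv_mem _ h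
    change ((D.e k j)⁻¹)⁻¹ ∈ _ at h2
    rwa [inv_inv] at h2

private theorem dual_pi (g : G) : (dual D).π g = (D.π g⁻¹).transpose := rfl

theorem conj_Q {J : Finset (Fin n)} {k : Fin n} (hk : k ∉ J) {g p : G} (hg : g ∈ D.GJ J)
    (hp : p ∈ D.QJ J k) : g * p * g⁻¹ ∈ D.QJ J k := by
  rw [← dual_PJ] at hp ⊢
  rw [← dual_GJ] at hg
  exact conj_P (dual D) hk hg hp

private theorem colm_zero (k : Fin n) : colm k (0 : Fin n → ZMod N) = 1 := by
  ext i j
  simp [colm]

private theorem pi_gen {k l : Fin n} (hlk : l ≠ k) :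
    D.π (D.e l k) = colm k (Pi.single l 1) := by
  rw [D.hπ l k hlk]
  ext i j
  simp only [colm, Matrix.transvection, Matrix.add_apply, Matrix.of_apply, Matrix.single_apply,
    Pi.single_apply]
  congr 1
  by_cases h1 : j = k
  · by_cases h2 : i = l
    · simp [h1, h2]
    · have h3 : ¬ l = i := fun h => h2 h.symm
      simp [h1, h2, h3]
  · have h3 : ¬ k = j := fun h => h1 h.symm
    simp [h1, h3]

private theorem pi_mul_inv (g : G) : D.π g * D.π g⁻¹ = 1 := by
  rw [← map_mul, mul_inv_cancel, map_one]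

private theorem pi_inv_mul (g : G) : D.π g⁻¹ * D.π g = 1 := by
  rw [← map_mul, inv_mul_cancel, map_one]

theorem pi_P {J : Finset (Fin n)} {k : Fin n} (hk : k ∉ J) {p : G} (hp : p ∈ D.PJ J k) :
    ∃ v : Fin n → ZMod N, Supp J v ∧ D.π p = colm k v := by
  unfold StData.PJ at hp
  induction hp using Subgroup.closure_induction with
  | mem x hx =>
    obtain ⟨l, hl, rfl⟩ := hx
    refine ⟨Pi.single l 1, fun i hi => ?_, pi_gen D (ne_of hk hl)⟩
    have hil : ¬ i = l := fun h => hi (by rw [h]; exact hl)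
    rw [Pi.single_apply, if_neg hil]
  | one => exact ⟨0, fun _ _ => rfl, by rw [map_one, colm_zero]⟩
  | mul x y _ _ hx hy =>
    obtain ⟨v, hv, hxv⟩ := hx
    obtain ⟨w, hw, hyw⟩ := hy
    refine ⟨v + w, fun i hi => ?_, ?_⟩
    · rw [Pi.add_apply, hv i hi, hw i hi, add_zero]
    · rw [map_mul, hxv, hyw, colm_mul (hw k hk)]
  | inv x _ hx =>
    obtain ⟨v, hv, hxv⟩ := hx
    refine ⟨-v, fun i hi => ?_, ?_⟩
    · rw [Pi.neg_apply, hv i hi, neg_zero]
    · have h1 : colm k v * colm k (-v) = 1 := by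
        rw [colm_mul (by rw [Pi.neg_apply, hv k hk, neg_zero]), add_neg_cancel, colm_zero]
      calc D.π x⁻¹ = D.π x⁻¹ * (colm k v * colm k (-v)) := by rw [h1, mul_one]
        _ = D.π x⁻¹ * D.π x * colm k (-v) := by rw [hxv, mul_assoc]
        _ = colm k (-v) := by rw [pi_inv_mul, one_mul]

private theorem rowm_transpose (k : Fin n) (v : Fin n → ZMod N) :
    (rowm k v).transpose = colm k v := by
  rw [← colm_transpose, Matrix.transpose_transpose]

theorem pi_Q {J : Finset (Fin n)} {k : Fin n} (hk : k ∉ J) {p : G} (hp : p ∈ D.QJ J k) :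
    ∃ v : Fin n → ZMod N, Supp J v ∧ D.π p = rowm k v := by
  have hp' : p⁻¹ ∈ (dual D).PJ J k := by
    rw [dual_PJ]
    exact Subgroup.inv_mem _ hp
  obtain ⟨v, hv, h⟩ := pi_P (dual D) hk hp'
  refine ⟨v, hv, ?_⟩
  rw [dual_pi, inv_inv] at h
  rw [← colm_transpose, ← h, Matrix.transpose_transpose]

private theorem pi_pow {k l : Fin n} (hlk : l ≠ k) (m : ℕ) :
    D.π (D.e l k ^ m) = colm k (Pi.single l (m : ZMod N)) := by
  induction m with
  | zero => simp [colm_zero]
  | succ m ih =>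
    rw [pow_succ, map_mul, ih, pi_gen D hlk, colm_mul (by
      rw [Pi.single_apply, if_neg hlk.symm])]
    congr 1
    rw [← Pi.single_add]
    push_cast
    rfl

private theorem PJ_mono {J J' : Finset (Fin n)} (h : J ⊆ J') (k : Fin n) :
    D.PJ J k ≤ D.PJ J' k := by
  unfold StData.PJ
  refine Subgroup.closure_mono ?_
  rintro _ ⟨l, hl, rfl⟩
  exact ⟨l, h hl, rfl⟩

theorem P_vec (hN : 0 < N) {J : Finset (Fin n)} {k : Fin n} (hk : k ∉ J) (v : Fin n → ZMod N)
    (hv : Supp J v) : ∃ p ∈ D.PJ J k, D.π p = colm k v := by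
  classical
  haveI : NeZero N := ⟨hN.ne'⟩
  induction J using Finset.induction_on generalizing v with
  | empty =>
    refine ⟨1, Subgroup.one_mem _, ?_⟩
    have h0 : v = 0 := funext fun i => hv i (Finset.notMem_empty i)
    rw [h0, map_one, colm_zero]
  | insert l J hl ih =>
    have hkJ : k ∉ J := fun h => hk (Finset.mem_insert_of_mem h)
    have hlk : l ≠ k := ne_of hk (Finset.mem_insert_self l J)
    obtain ⟨p, hp, hpv⟩ := ih hkJ (Function.update v l 0) (fun i hi => by
      by_cases h : i = l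
      · subst h
        rw [Function.update_self]
      · rw [Function.update_of_ne h]
        refine hv i fun hh => ?_
        rcases Finset.mem_insert.1 hh with h1 | h1
        · exact h h1
        · exact hi h1)
    refine ⟨D.e l k ^ (v l).val * p, (D.PJ _ k).mul_mem
      ((D.PJ _ k).pow_mem (gen_P D (Finset.mem_insert_self l J)) _)
      (PJ_mono D (Finset.subset_insert l J) k hp), ?_⟩
    have hvk : v k = 0 := hv k hk
    rw [map_mul, pi_pow D hlk, hpv, colm_mul (by rw [Function.update_of_ne hlk.symm, hvk])]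
    congr 1
    ext i
    rw [ZMod.natCast_zmod_val]
    by_cases h : i = l
    · subst h
      simp
    · rw [Pi.add_apply, Pi.single_apply, if_neg h, Function.update_of_ne h, zero_add]

theorem Q_vec (hN : 0 < N) {J : Finset (Fin n)} {k : Fin n} (hk : k ∉ J) (v : Fin n → ZMod N)
    (hv : Supp J v) : ∃ p ∈ D.QJ J k, D.π p = rowm k v := by
  obtain ⟨p, hp, h⟩ := P_vec (dual D) hN hk v hv
  rw [dual_PJ] at hp
  refine ⟨p⁻¹, Subgroup.inv_mem _ hp, ?_⟩
  rw [dual_pi] at h
  rw [← colm_transpose, ← h, Matrix.transpose_transpose]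

private theorem pi_zpow {k l : Fin n} (hlk : l ≠ k) (a : ℤ) :
    D.π (D.e l k ^ a) = colm k (Pi.single l (a : ZMod N)) := by
  obtain ⟨m, rfl | rfl⟩ := Int.eq_nat_or_neg a
  · rw [zpow_natCast, pi_pow D hlk]
    simp
  · rw [zpow_neg, zpow_natCast]
    have h1 : colm k (Pi.single l (m : ZMod N)) * colm k (Pi.single l (((-(m : ℤ)) : ℤ) : ZMod N)) =
        1 := by
      rw [colm_mul (by rw [Pi.single_apply, if_neg hlk.symm]), ← Pi.single_add]
      push_cast
      rw [add_neg_cancel, Pi.single_zero, colm_zero]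
    calc D.π (D.e l k ^ m)⁻¹ = D.π (D.e l k ^ m)⁻¹ *
          (colm k (Pi.single l (m : ZMod N)) *
            colm k (Pi.single l (((-(m : ℤ)) : ℤ) : ZMod N))) := by rw [h1, mul_one]
      _ = D.π (D.e l k ^ m)⁻¹ * D.π (D.e l k ^ m) *
            colm k (Pi.single l (((-(m : ℤ)) : ℤ) : ZMod N)) := by rw [pi_pow D hlk, mul_assoc]
      _ = _ := by rw [pi_inv_mul, one_mul]

private theorem comm_P {J : Finset (Fin n)} {k l : Fin n} (hk : k ∉ J) (hlk : l ≠ k) {p : G}
    (hp : p ∈ D.PJ J k) : Commute (D.e l k) p := by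
  have h : D.PJ J k ≤ Subgroup.centralizer {D.e l k} := by
    unfold StData.PJ
    rw [Subgroup.closure_le]
    rintro _ ⟨j, hj, rfl⟩
    refine Subgroup.mem_centralizer_singleton_iff.2 ?_
    exact (D.hst1 j k l k (ne_of hk hj) hlk (ne_of hk hj) hlk.symm).eq
  exact (Subgroup.mem_centralizer_singleton_iff.1 (h hp)).symm

private theorem insert_form {J : Finset (Fin n)} {k l : Fin n} (hk : k ∉ insert l J) {p : G}
    (hp : p ∈ D.PJ (insert l J) k) : ∃ a : ℤ, ∃ p' ∈ D.PJ J k, p = D.e l k ^ a * p' := by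
  have hkJ : k ∉ J := fun h => hk (Finset.mem_insert_of_mem h)
  have hlk : l ≠ k := ne_of hk (Finset.mem_insert_self l J)
  unfold StData.PJ at hp
  induction hp using Subgroup.closure_induction with
  | mem x hx =>
    obtain ⟨j, hj, rfl⟩ := hx
    rcases Finset.mem_insert.1 hj with h | h
    · subst h
      exact ⟨1, 1, Subgroup.one_mem _, by simp⟩
    · exact ⟨0, D.e j k, gen_P D h, by simp⟩
  | one => exact ⟨0, 1, Subgroup.one_mem _, by simp⟩
  | mul x y _ _ hx hy =>
    obtain ⟨a, p, hp, rfl⟩ := hx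
    obtain ⟨b, q, hq, rfl⟩ := hy
    refine ⟨a + b, p * q, Subgroup.mul_mem _ hp hq, ?_⟩
    have h1 : Commute (D.e l k ^ b) p := (comm_P D hkJ hlk hp).zpow_left b
    rw [zpow_add, mul_assoc, mul_assoc, ← mul_assoc p, ← h1.eq, mul_assoc]
  | inv x _ hx =>
    obtain ⟨a, p, hp, rfl⟩ := hx
    refine ⟨-a, p⁻¹, Subgroup.inv_mem _ hp, ?_⟩
    have h1 : Commute (D.e l k ^ a) p := (comm_P D hkJ hlk hp).zpow_left a
    rw [h1.eq, mul_inv_rev, zpow_neg]

theorem P_ker {J : Finset (Fin n)} {k : Fin n} (hk : k ∉ J) {p : G} (hp : p ∈ D.PJ J k)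
    (h : D.π p = 1) : p = 1 := by
  classical
  induction J using Finset.induction_on generalizing p with
  | empty =>
    have h0 : D.PJ ∅ k = ⊥ := by
      unfold StData.PJ
      rw [Subgroup.closure_eq_bot_iff]
      rintro _ ⟨j, hj, -⟩
      exact absurd hj (Finset.notMem_empty j)
    rw [h0, Subgroup.mem_bot] at hp
    exact hp
  | insert l J hl ih =>
    have hkJ : k ∉ J := fun h => hk (Finset.mem_insert_of_mem h)
    have hlk : l ≠ k := ne_of hk (Finset.mem_insert_self l J)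
    obtain ⟨a, p', hp', rfl⟩ := insert_form D hk hp
    obtain ⟨v, hv, hv'⟩ := pi_P D hkJ hp'
    have ha : (a : ZMod N) = 0 := by
      rw [map_mul, pi_zpow D hlk, hv', colm_mul (hv k hkJ)] at h
      have h1 := congrFun (congrFun h l) k
      rw [Matrix.one_apply_ne hlk] at h1
      simp only [colm, Matrix.add_apply, Matrix.of_apply, Matrix.one_apply_ne hlk, if_true,
        Pi.add_apply, Pi.single_eq_same, hv l hl, add_zero, zero_add] at h1
      exact h1
    have hNa : (N : ℤ) ∣ a := (CharP.intCast_eq_zero_iff (ZMod N) N a).1 ha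
    have he : D.e l k ^ a = 1 := by
      obtain ⟨b, rfl⟩ := hNa
      rw [zpow_mul, zpow_natCast, D.hord l k hlk, one_zpow]
    rw [he, one_mul] at h ⊢
    exact ih hkJ hp' h

theorem Q_ker {J : Finset (Fin n)} {k : Fin n} (hk : k ∉ J) {p : G} (hp : p ∈ D.QJ J k)
    (h : D.π p = 1) : p = 1 := by
  rw [← dual_PJ] at hp
  refine P_ker (dual D) hk hp ?_
  rw [dual_pi]
  have h1 := pi_mul_inv D p
  rw [h, one_mul] at h1
  rw [h1, Matrix.transpose_one]

private theorem comm_of_P {J : Finset (Fin n)} {k : Fin n} (hk : k ∉ J) {g p : G}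
    (hg : g ∈ D.GJ J) (h : D.π g = 1) (hp : p ∈ D.PJ J k) : Commute g p := by
  have h1 : g * p * g⁻¹ * p⁻¹ ∈ D.PJ J k :=
    Subgroup.mul_mem _ (conj_P D hk hg hp) (Subgroup.inv_mem _ hp)
  have h2 : D.π g⁻¹ = 1 := by
    have := pi_mul_inv D g
    rwa [h, one_mul] at this
  have h3 := P_ker D hk h1 (by rw [map_mul, map_mul, map_mul, h, h2, one_mul, mul_one, pi_mul_inv])
  have h4 : g * p = p * g := by
    have h5 : g * p * g⁻¹ = p := by
      rwa [mul_inv_eq_one] at h3
    calc g * p = g * p * g⁻¹ * g := by group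
      _ = p * g := by rw [h5]
  exact h4

private theorem comm_of_Q {J : Finset (Fin n)} {k : Fin n} (hk : k ∉ J) {g p : G}
    (hg : g ∈ D.GJ J) (h : D.π g = 1) (hp : p ∈ D.QJ J k) : Commute g p := by
  have h1 : g * p * g⁻¹ * p⁻¹ ∈ D.QJ J k :=
    Subgroup.mul_mem _ (conj_Q D hk hg hp) (Subgroup.inv_mem _ hp)
  have h2 : D.π g⁻¹ = 1 := by
    have := pi_mul_inv D g
    rwa [h, one_mul] at this
  have h3 := Q_ker D hk h1 (by rw [map_mul, map_mul, map_mul, h, h2, one_mul, mul_one, pi_mul_inv])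
  have h4 : g * p = p * g := by
    have h5 : g * p * g⁻¹ = p := by
      rwa [mul_inv_eq_one] at h3
    calc g * p = g * p * g⁻¹ * g := by group
      _ = p * g := by rw [h5]
  exact h4

theorem central {J : Finset (Fin n)} {k : Fin n} (hk : k ∉ J) {g : G} (hg : g ∈ D.GJ J)
    (h : D.π g = 1) (x : G) : Commute g x := by
  have hall : ∀ i j, i ≠ j → Commute g (D.e i j) := by
    intro i j hij
    by_cases hi : i ∈ J
    · by_cases hj : j ∈ J
      · have hik := ne_of hk hi
        have hjk := ne_of hk hj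
        rw [← D.hst2 i k j hik hjk.symm hij]
        have c1 : Commute g (D.e i k) := comm_of_P D hk hg h (gen_P D hi)
        have c2 : Commute g (D.e k j) :=
          comm_of_Q D hk hg h (Subgroup.subset_closure ⟨j, hj, rfl⟩)
        rw [commutatorElement_def]
        exact ((c1.mul_right c2).mul_right c1.inv_right).mul_right c2.inv_right
      · exact comm_of_P D hj hg h (gen_P D hi)
    · by_cases hj : j ∈ J
      · exact comm_of_Q D hi hg h (Subgroup.subset_closure ⟨j, hj, rfl⟩)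
      · have h1 : D.GJ J ≤ Subgroup.centralizer {D.e i j} := by
          unfold StData.GJ
          rw [Subgroup.closure_le]
          rintro _ ⟨a, ha, b, hb, hab, rfl⟩
          refine Subgroup.mem_centralizer_singleton_iff.2 ?_
          exact (D.hst1 a b i j hab hij (fun hh => hj (hh ▸ ha)) (fun hh => hi (hh ▸ hb))).eq
        exact Subgroup.mem_centralizer_singleton_iff.1 (h1 hg)
  have h1 : (⊤ : Subgroup G) ≤ Subgroup.centralizer {g} := by
    rw [← D.hgen, Subgroup.closure_le]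
    rintro _ ⟨i, j, hij, rfl⟩
    refine Subgroup.mem_centralizer_singleton_iff.2 ?_
    exact (hall i j hij).eq.symm
  exact (Subgroup.mem_centralizer_singleton_iff.1 (h1 (Subgroup.mem_top x))).symm

end TOR
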