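import Mathlib
import Pool.Agent.Helper34.TOR.StDefs
import Pool.Agent.Helper34.TOR.Factor
import Pool.Agent.Helper34.TOR.StGrp

/-!
# TOR-26: the groups `GJ` are finite for `J ≠ univ`

PROOFS. `pi_GJ`: closure induction, transvections with indices in `J` are in `SLJ J` (and inverses, `SLJ_mul`, `SLJ_inv`; note
`π g⁻¹` is the inverse matrix of `π g`: `π g * π g⁻¹ = 1`).
`surj`: strong induction on `J.card`. If `J.card ≤ 1` then `M = 1` (`J = {j}`: `M` is diagonal with entries `1` and `M j j`,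
`det M = M j j = 1`): `g = 1`. If `J.card ≥ 2`: choose `k ∈ J`, `factor`: `M = colm k p₁ * rowm k q₁ * colm k p₂ * rowm k q₂ * M'`,
`M' = π g'` with `g' ∈ GJ (J.erase k) ≤ GJ J` by induction, and the other factors by `P_vec`, `Q_vec` (`k ∉ J.erase k`;
`PJ (J.erase k) k ≤ GJ J`, `QJ (J.erase k) k ≤ GJ J`).
`GJ_finite`: let `k ∉ J`. `H = GJ J`, `K = {g ∈ H : π g = 1}` is contained in the center of `H` (`central`) and has finite index in `H`
(the matrices over `ZMod N` are a finite set since `N > 0`). So `center H` has finite index; then the set of commutators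
of `H` is finite (`⁅g z, h w⁆ = ⁅g,h⁆` for central `z, w`), so `commutator H` is finite (Schur; Mathlib: instance
`Finite (_root_.commutator G)` from `Finite (commutatorSet G)`, in `Mathlib/GroupTheory/Schreier.lean`). `H` is perfect: every
generator `e i j` (`i, j ∈ J`) equals `⁅e i l, e l j⁆` with a third `l ∈ J` (`3 ≤ J.card`, `hst2`). So `H = commutator H` is finite.
-/

namespace TOR

open scoped commutatorElement

variable {n N : ℕ} {G : Type*} [Group G] (D : StData n N G)

theorem pi_GJ {J : Finset (Fin n)} {g : G} (hg : g ∈ D.GJ J) : D.π g ∈ SLJ (N := N) J := by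
  induction hg using Subgroup.closure_induction with
  | mem x hx =>
    obtain ⟨i, hi, j, hj, hij, rfl⟩ := hx
    rw [D.hπ i j hij]
    refine ⟨Matrix.det_transvection_of_ne i j hij 1, fun a b hab => ?_⟩
    rw [Matrix.transvection, Matrix.add_apply, Matrix.single_apply_of_ne, add_zero]
    rintro ⟨rfl, rfl⟩
    rcases hab with h | h
    · exact h hi
    · exact h hj
  | one =>
    rw [map_one]
    exact ⟨Matrix.det_one, fun _ _ _ => rfl⟩
  | mul x y _ _ hx hy =>
    rw [map_mul]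
    exact SLJ_mul hx hy
  | inv x _ hx =>
    have h1 : D.π x * D.π x⁻¹ = 1 := by rw [← map_mul, mul_inv_cancel, map_one]
    rw [← Matrix.inv_eq_right_inv h1]
    exact (SLJ_inv hx).1

theorem surj (hN : 0 < N) (J : Finset (Fin n)) (M : Matrix (Fin n) (Fin n) (ZMod N))
    (hM : M ∈ SLJ J) : ∃ g ∈ D.GJ J, D.π g = M := by
  induction hm : J.card using Nat.strong_induction_on generalizing J M with
  | _ m ih =>
    by_cases hc : J.card ≤ 1
    · have hoff : ∀ i j, i ≠ j → M i j = 0 := by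
        intro i j hij
        by_cases hJ : i ∈ J ∧ j ∈ J
        · exact absurd (Finset.card_le_one.1 hc i hJ.1 j hJ.2) hij
        · rw [hM.2 i j (not_and_or.1 hJ), Matrix.one_apply_ne hij]
      have hdiag : M = Matrix.diagonal fun i => M i i := by
        ext i j
        by_cases hij : i = j
        · rw [hij, Matrix.diagonal_apply_eq]
        · rw [hoff i j hij, Matrix.diagonal_apply_ne _ hij]
      have hone : ∀ i, M i i = 1 := by
        intro i
        by_cases hi : i ∈ J
        · have hdet := hM.1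
          rw [hdiag, Matrix.det_diagonal] at hdet
          rw [← hdet]
          symm
          refine Finset.prod_eq_single i (fun b _ hb => ?_) (fun h => absurd (Finset.mem_univ i) h)
          have hbJ : b ∉ J := fun hbJ => hb (Finset.card_le_one.1 hc b hbJ i hi)
          rw [hM.2 b b (Or.inl hbJ), Matrix.one_apply_eq]
        · rw [hM.2 i i (Or.inl hi), Matrix.one_apply_eq]
      refine ⟨1, Subgroup.one_mem _, ?_⟩
      rw [map_one, hdiag]
      ext i j
      by_cases hij : i = j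
      · rw [hij, Matrix.one_apply_eq, Matrix.diagonal_apply_eq, hone]
      · rw [Matrix.one_apply_ne hij, Matrix.diagonal_apply_ne _ hij]
    · have hc2 : 1 < J.card := not_le.1 hc
      obtain ⟨k, hk⟩ : J.Nonempty := Finset.card_pos.1 (by omega)
      have hcard : (J.erase k).card = J.card - 1 := Finset.card_erase_of_mem hk
      have hJ : (J.erase k).Nonempty := Finset.card_pos.1 (by omega)
      have hkk : k ∉ J.erase k := Finset.notMem_erase k J
      obtain ⟨p₁, q₁, p₂, q₂, hp₁, hq₁, hp₂, hq₂, M', hM', hMeq⟩ := factor hN hk hJ hM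
      obtain ⟨g', hg', hπg'⟩ := ih (J.erase k).card (by omega) (J.erase k) M' hM' rfl
      obtain ⟨a₁, ha₁, hπa₁⟩ := P_vec D hN hkk p₁ hp₁
      obtain ⟨b₁, hb₁, hπb₁⟩ := Q_vec D hN hkk q₁ hq₁
      obtain ⟨a₂, ha₂, hπa₂⟩ := P_vec D hN hkk p₂ hp₂
      obtain ⟨b₂, hb₂, hπb₂⟩ := Q_vec D hN hkk q₂ hq₂
      have hPle : D.PJ (J.erase k) k ≤ D.GJ J := by
        rw [StData.PJ, Subgroup.closure_le]
        rintro _ ⟨j, hj, rfl⟩
        exact Subgroup.subset_closure
          ⟨j, (Finset.mem_erase.1 hj).2, k, hk, (Finset.mem_erase.1 hj).1, rfl⟩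
      have hQle : D.QJ (J.erase k) k ≤ D.GJ J := by
        rw [StData.QJ, Subgroup.closure_le]
        rintro _ ⟨j, hj, rfl⟩
        exact Subgroup.subset_closure
          ⟨k, hk, j, (Finset.mem_erase.1 hj).2, (Finset.mem_erase.1 hj).1.symm, rfl⟩
      have hGle : D.GJ (J.erase k) ≤ D.GJ J := by
        refine Subgroup.closure_mono ?_
        rintro _ ⟨i, hi, j, hj, hij, rfl⟩
        exact ⟨i, Finset.mem_of_mem_erase hi, j, Finset.mem_of_mem_erase hj, hij, rfl⟩
      refine ⟨a₁ * b₁ * a₂ * b₂ * g', ?_, ?_⟩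
      · exact Subgroup.mul_mem _ (Subgroup.mul_mem _ (Subgroup.mul_mem _ (Subgroup.mul_mem _
          (hPle ha₁) (hQle hb₁)) (hPle ha₂)) (hQle hb₂)) (hGle hg')
      · rw [map_mul, map_mul, map_mul, map_mul, hπa₁, hπb₁, hπa₂, hπb₂, hπg', hMeq]

theorem GJ_finite (hN : 0 < N) {J : Finset (Fin n)} {k : Fin n} (hk : k ∉ J)
    (h3 : 3 ≤ J.card) : Finite (D.GJ J) := by
  haveI : NeZero N := ⟨hN.ne'⟩
  -- commutators only depend on the matrices
  have hcen : ∀ x x' : D.GJ J, D.π (x : G) = D.π (x' : G) → ∃ z : D.GJ J, x = x' * z ∧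
      ∀ y : D.GJ J, z * y = y * z := by
    intro x x' hx
    refine ⟨x'⁻¹ * x, by group, fun y => ?_⟩
    have h1 : D.π ((x'⁻¹ * x : D.GJ J) : G) = 1 := by
      rw [Subgroup.coe_mul, map_mul, hx, ← map_mul, ← Subgroup.coe_mul, inv_mul_cancel,
        Subgroup.coe_one, map_one]
    have h2 := central D hk (x'⁻¹ * x : D.GJ J).2 h1 (y : G)
    exact Subtype.ext h2
  have hcomm : ∀ x x' y y' : D.GJ J, D.π (x : G) = D.π (x' : G) → D.π (y : G) = D.π (y' : G) →
      ⁅x, y⁆ = ⁅x', y'⁆ := by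
    intro x x' y y' hx hy
    obtain ⟨z, rfl, hz⟩ := hcen x x' hx
    obtain ⟨w, rfl, hw⟩ := hcen y y' hy
    have hzi : ∀ t : D.GJ J, z⁻¹ * t = t * z⁻¹ := fun t =>
      ((show Commute z t from hz t).inv_left).eq
    have hwi : ∀ t : D.GJ J, w⁻¹ * t = t * w⁻¹ := fun t =>
      ((show Commute w t from hw t).inv_left).eq
    rw [commutatorElement_def, commutatorElement_def, mul_inv_rev, mul_inv_rev]
    calc x' * z * (y' * w) * (z⁻¹ * x'⁻¹) * (w⁻¹ * y'⁻¹)
        = x' * (z * (y' * w)) * (z⁻¹ * x'⁻¹) * (w⁻¹ * y'⁻¹) := by group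
      _ = x' * ((y' * w) * z) * (z⁻¹ * x'⁻¹) * (w⁻¹ * y'⁻¹) := by rw [hz]
      _ = x' * y' * (w * x'⁻¹) * (w⁻¹ * y'⁻¹) := by group
      _ = x' * y' * (x'⁻¹ * w) * (w⁻¹ * y'⁻¹) := by rw [hw]
      _ = x' * y' * x'⁻¹ * y'⁻¹ := by group
  classical
  let F : Matrix (Fin n) (Fin n) (ZMod N) × Matrix (Fin n) (Fin n) (ZMod N) → D.GJ J := fun A =>
    if h : ∃ x y : D.GJ J, D.π (x : G) = A.1 ∧ D.π (y : G) = A.2 then
      ⁅h.choose, h.choose_spec.choose⁆ else 1
  have hfin : (commutatorSet (D.GJ J)).Finite := by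
    refine (Set.finite_range F).subset ?_
    rintro _ ⟨x, y, rfl⟩
    have h : ∃ x' y' : D.GJ J, D.π (x' : G) = D.π (x : G) ∧ D.π (y' : G) = D.π (y : G) :=
      ⟨x, y, rfl, rfl⟩
    refine ⟨(D.π (x : G), D.π (y : G)), ?_⟩
    have h1 : F (D.π (x : G), D.π (y : G)) = ⁅h.choose, h.choose_spec.choose⁆ := dif_pos h
    rw [h1]
    exact hcomm _ _ _ _ h.choose_spec.choose_spec.1 h.choose_spec.choose_spec.2
  haveI : Finite (commutatorSet (D.GJ J)) := hfin
  have hfin2 : Finite (_root_.commutator (D.GJ J)) := inferInstance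
  have hfin3 : (((_root_.commutator (D.GJ J)).map (D.GJ J).subtype : Subgroup G) : Set G).Finite := by
    rw [Subgroup.coe_map]
    exact Set.Finite.image _ (Set.toFinite _)
  have hle : D.GJ J ≤ (_root_.commutator (D.GJ J)).map (D.GJ J).subtype := by
    conv_lhs => rw [StData.GJ]
    rw [Subgroup.closure_le]
    rintro _ ⟨i, hi, j, hj, hij, rfl⟩
    have hcard : 0 < ((J.erase i).erase j).card := by
      rw [Finset.card_erase_of_mem (Finset.mem_erase.2 ⟨hij.symm, hj⟩),
        Finset.card_erase_of_mem hi]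
      omega
    obtain ⟨l, hl⟩ := Finset.card_pos.1 hcard
    rw [Finset.mem_erase, Finset.mem_erase] at hl
    obtain ⟨hlj, hli, hlJ⟩ := hl
    have hx : D.e i l ∈ D.GJ J := Subgroup.subset_closure ⟨i, hi, l, hlJ, hli.symm, rfl⟩
    have hy : D.e l j ∈ D.GJ J := Subgroup.subset_closure ⟨l, hlJ, j, hj, hlj, rfl⟩
    refine ⟨⁅(⟨D.e i l, hx⟩ : D.GJ J), (⟨D.e l j, hy⟩ : D.GJ J)⁆, ?_, ?_⟩
    · exact Subgroup.commutator_mem_commutator (Subgroup.mem_top _) (Subgroup.mem_top _)
    · rw [map_commutatorElement]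
      exact D.hst2 i l j hli.symm hlj hij
  exact (hfin3.subset hle).to_subtype

end TOR
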