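import Mathlib
import Pool.Agent.Helper34.TOR.StDefs
import Pool.Agent.Helper34.TOR.Factor
import Pool.Agent.Helper34.TOR.Four
import Pool.Agent.Helper34.TOR.StGrp
import Pool.Agent.Helper34.TOR.StFin

/-!
# TOR-27: a group with Steinberg data over `ZMod N`, `n ≥ 6`, is finite

PROOF. Fix `k : Fin n`, `J₀` with 4 elements, `k ∉ J₀`, `J = insert k J₀` (5 elements, `≠ univ` as `n ≥ 6`), `I = univ.erase k` (`≥ 5` elements,
`J₀ ⊆ I`). `G' = GJ I` and `GJ J` are finite (`GJ_finite`). Let `X = {a * b * c : a ∈ G', b ∈ GJ J, c ∈ G'}`, a finite set containing `1`.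
CLAIM: `p * b ∈ X` for `p ∈ PJ I k`, `b ∈ GJ J`. PROOF: `π b ∈ SLJ J` (`pi_GJ`), `J.erase k = J₀`; `factor`:
`π b = colm k p₁ * rowm k q₁ * colm k p₂ * rowm k q₂ * M'`, `P₁, P₂ ∈ PJ J₀ k`, `Q₁, Q₂ ∈ QJ J₀ k` with these images (`P_vec`, `Q_vec`), `h ∈ GJ J₀`
with `π h = M'` (`surj`). `z := (P₁ Q₁ P₂ Q₂ h)⁻¹ b ∈ GJ J` has `π z = 1`, so `z` is central (`central`, `J ≠ univ`). `p P₁ ∈ PJ I k`
(`PJ J₀ k ≤ PJ I k`); let `w` be its vector (`pi_P`). `four` for `(w, p₂, q₁, q₂)` gives `s, t`; choose `S ∈ G'` with `π S = s` (`surj`); then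
`π S⁻¹ = t`. `S (p P₁) S⁻¹ ∈ PJ I k` (`conj_P`) has image `s * colm k w * t = colm k (s *ᵥ w)` (row `k` of `t` is `e_k`, as `t ∈ SLJ I`), and
`s *ᵥ w` is supported on `J₀`, so by `P_vec` and `P_ker` (in `PJ I k`) it lies in `PJ J₀ k ≤ GJ J`. Same for `S P₂ S⁻¹`, and for
`S Q₁ S⁻¹`, `S Q₂ S⁻¹` (`s * rowm k q * t = rowm k (q ᵥ* t)`, column `k` of `s` is `e_k`). So `x := S (p P₁) Q₁ P₂ Q₂ S⁻¹ ∈ GJ J` and
`p b = (p P₁) Q₁ P₂ Q₂ h z = S⁻¹ * (x z) * (S h)`, `S h ∈ G'` (`GJ J₀ ≤ GJ I`). Same CLAIM for `q ∈ QJ I k`, with `factor'`.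
Hence `p * (a b c) = a * ((a⁻¹ p a) b) * c ∈ X` for `p ∈ PJ I k` (`conj_P`: `a⁻¹ p a ∈ PJ I k`), same for `QJ I k`, and clearly
`G' * X ⊆ X`. All generators `e i j` and their inverses lie in `G'` (`i, j ≠ k`), `PJ I k` (`j = k`) or `QJ I k` (`i = k`), so by
`hgen` (`Subgroup.closure_induction_left`) `X = G`.
-/

namespace TOR

private theorem GJ_mono {n N : ℕ} {G : Type*} [Group G] (D : StData n N G) {J J' : Finset (Fin n)}
    (h : J ⊆ J') : D.GJ J ≤ D.GJ J' :=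
  Subgroup.closure_mono (by rintro g ⟨i, hi, j, hj, hij, rfl⟩; exact ⟨i, h hi, j, h hj, hij, rfl⟩)

private theorem PJ_mono {n N : ℕ} {G : Type*} [Group G] (D : StData n N G) {J J' : Finset (Fin n)}
    (h : J ⊆ J') (k : Fin n) : D.PJ J k ≤ D.PJ J' k :=
  Subgroup.closure_mono (by rintro g ⟨j, hj, rfl⟩; exact ⟨j, h hj, rfl⟩)

private theorem QJ_mono {n N : ℕ} {G : Type*} [Group G] (D : StData n N G) {J J' : Finset (Fin n)}
    (h : J ⊆ J') (k : Fin n) : D.QJ J k ≤ D.QJ J' k :=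
  Subgroup.closure_mono (by rintro g ⟨j, hj, rfl⟩; exact ⟨j, h hj, rfl⟩)

private theorem PJ_le {n N : ℕ} {G : Type*} [Group G] (D : StData n N G) {J J' : Finset (Fin n)}
    {k : Fin n} (h : J ⊆ J') (hk : k ∈ J') (hkJ : k ∉ J) : D.PJ J k ≤ D.GJ J' := by
  refine (Subgroup.closure_le _).2 ?_
  rintro g ⟨j, hj, rfl⟩
  exact Subgroup.subset_closure ⟨j, h hj, k, hk, fun hjk => hkJ (hjk ▸ hj), rfl⟩

private theorem QJ_le {n N : ℕ} {G : Type*} [Group G] (D : StData n N G) {J J' : Finset (Fin n)}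
    {k : Fin n} (h : J ⊆ J') (hk : k ∈ J') (hkJ : k ∉ J) : D.QJ J k ≤ D.GJ J' := by
  refine (Subgroup.closure_le _).2 ?_
  rintro g ⟨j, hj, rfl⟩
  exact Subgroup.subset_closure ⟨k, hk, j, h hj, fun hjk => hkJ (hjk ▸ hj), rfl⟩

private theorem colm_conj {n N : ℕ} {I : Finset (Fin n)} {k : Fin n} (hk : k ∉ I)
    {s t : Matrix (Fin n) (Fin n) (ZMod N)} (ht : t ∈ SLJ I) (hst : s * t = 1)
    (w : Fin n → ZMod N) : s * colm k w * t = colm k (s.mulVec w) := by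
  have h1 : s * colm k w * t = 1 + s * Matrix.of (fun i j => if j = k then w i else 0) * t := by
    rw [colm, mul_add, mul_one, add_mul, hst]
  rw [h1, colm]
  congr 1
  ext i j
  rw [Matrix.mul_apply]
  have h2 : ∀ l, (s * Matrix.of (fun i j => if j = k then w i else 0)) i l =
      if l = k then s.mulVec w i else 0 := by
    intro l
    rw [Matrix.mul_apply]
    by_cases hl : l = k
    · simp [hl, Matrix.mulVec, dotProduct]
    · simp [hl]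
  simp only [h2, ite_mul, zero_mul, Finset.sum_ite_eq', Finset.mem_univ, if_true, Matrix.of_apply]
  rw [ht.2 k j (Or.inl hk), Matrix.one_apply]
  by_cases hj : j = k
  · subst hj
    simp
  · rw [if_neg (fun h => hj h.symm), if_neg hj, mul_zero]

private theorem rowm_conj {n N : ℕ} {I : Finset (Fin n)} {k : Fin n} (hk : k ∉ I)
    {s t : Matrix (Fin n) (Fin n) (ZMod N)} (hs : s ∈ SLJ I) (hst : s * t = 1)
    (w : Fin n → ZMod N) : s * rowm k w * t = rowm k (Matrix.vecMul w t) := by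
  have h1 : s * rowm k w * t = 1 + s * (Matrix.of (fun i j => if i = k then w j else 0) * t) := by
    rw [rowm, mul_add, mul_one, add_mul, hst, mul_assoc]
  rw [h1, rowm]
  congr 1
  ext i j
  rw [Matrix.mul_apply]
  have h2 : ∀ l, (Matrix.of (fun i j => if i = k then w j else 0) * t) l j =
      if l = k then Matrix.vecMul w t j else 0 := by
    intro l
    rw [Matrix.mul_apply]
    by_cases hl : l = k
    · simp [hl, Matrix.vecMul, dotProduct]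
    · simp [hl]
  simp only [h2, mul_ite, mul_zero, Finset.sum_ite_eq', Finset.mem_univ, if_true, Matrix.of_apply]
  rw [hs.2 i k (Or.inr hk), Matrix.one_apply]
  by_cases hi : i = k
  · subst hi
    simp
  · rw [if_neg hi, if_neg hi, zero_mul]

private theorem pi_inv {n N : ℕ} {G : Type*} [Group G] (D : StData n N G) {S : G}
    {s t : Matrix (Fin n) (Fin n) (ZMod N)} (hS : D.π S = s) (hts : t * s = 1) : D.π S⁻¹ = t := by
  have h1 : s * D.π S⁻¹ = 1 := by rw [← hS, ← map_mul, mul_inv_cancel, map_one]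
  calc D.π S⁻¹ = (t * s) * D.π S⁻¹ := by rw [hts, one_mul]
    _ = t * (s * D.π S⁻¹) := by rw [mul_assoc]
    _ = t := by rw [h1, mul_one]

private theorem moveP {n N : ℕ} (hN : 0 < N) {G : Type*} [Group G] (D : StData n N G)
    {I J₀ : Finset (Fin n)} {k : Fin n} (hkI : k ∉ I) (hJI : J₀ ⊆ I)
    {s t : Matrix (Fin n) (Fin n) (ZMod N)} (ht : t ∈ SLJ I) (hst : s * t = 1) (hts : t * s = 1)
    {S P : G} (hS : S ∈ D.GJ I) (hπS : D.π S = s) (hP : P ∈ D.PJ I k) {w : Fin n → ZMod N}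
    (hπP : D.π P = colm k w) (hw : Supp J₀ (s.mulVec w)) : S * P * S⁻¹ ∈ D.PJ J₀ k := by
  have h1 : S * P * S⁻¹ ∈ D.PJ I k := conj_P D hkI hS hP
  have h2 : D.π (S * P * S⁻¹) = colm k (s.mulVec w) := by
    rw [map_mul, map_mul, hπS, hπP, pi_inv D hπS hts]
    exact colm_conj hkI ht hst w
  obtain ⟨P', hP', hπ'⟩ := P_vec D hN (fun h => hkI (hJI h)) (s.mulVec w) hw
  have h3 : P'⁻¹ * (S * P * S⁻¹) ∈ D.PJ I k := mul_mem (inv_mem (PJ_mono D hJI k hP')) h1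
  have h4 : D.π (P'⁻¹ * (S * P * S⁻¹)) = 1 := by
    rw [map_mul, h2, ← hπ', ← map_mul, inv_mul_cancel, map_one]
  have h5 := P_ker D hkI h3 h4
  rw [inv_mul_eq_one] at h5
  rw [← h5]
  exact hP'

private theorem moveQ {n N : ℕ} (hN : 0 < N) {G : Type*} [Group G] (D : StData n N G)
    {I J₀ : Finset (Fin n)} {k : Fin n} (hkI : k ∉ I) (hJI : J₀ ⊆ I)
    {s t : Matrix (Fin n) (Fin n) (ZMod N)} (hs : s ∈ SLJ I) (hst : s * t = 1) (hts : t * s = 1)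
    {S P : G} (hS : S ∈ D.GJ I) (hπS : D.π S = s) (hP : P ∈ D.QJ I k) {w : Fin n → ZMod N}
    (hπP : D.π P = rowm k w) (hw : Supp J₀ (Matrix.vecMul w t)) : S * P * S⁻¹ ∈ D.QJ J₀ k := by
  have h1 : S * P * S⁻¹ ∈ D.QJ I k := conj_Q D hkI hS hP
  have h2 : D.π (S * P * S⁻¹) = rowm k (Matrix.vecMul w t) := by
    rw [map_mul, map_mul, hπS, hπP, pi_inv D hπS hts]
    exact rowm_conj hkI hs hst w
  obtain ⟨P', hP', hπ'⟩ := Q_vec D hN (fun h => hkI (hJI h)) (Matrix.vecMul w t) hw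
  have h3 : P'⁻¹ * (S * P * S⁻¹) ∈ D.QJ I k := mul_mem (inv_mem (QJ_mono D hJI k hP')) h1
  have h4 : D.π (P'⁻¹ * (S * P * S⁻¹)) = 1 := by
    rw [map_mul, h2, ← hπ', ← map_mul, inv_mul_cancel, map_one]
  have h5 := Q_ker D hkI h3 h4
  rw [inv_mul_eq_one] at h5
  rw [← h5]
  exact hP'

/-- the finite set `G' * GJ J * G'` -/
private def XX {G : Type*} [Group G] (H K : Subgroup G) : Set G :=
  {x | ∃ a ∈ H, ∃ b ∈ K, ∃ c ∈ H, x = a * b * c}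

private theorem key {G : Type*} [Group G] {H K : Subgroup G} {A B C E h z S : G} (hS : S ∈ H)
    (hA : S * A * S⁻¹ ∈ K) (hB : S * B * S⁻¹ ∈ K) (hC : S * C * S⁻¹ ∈ K) (hE : S * E * S⁻¹ ∈ K)
    (hh : h ∈ H) (hz : z ∈ K) (hc : ∀ x, Commute z x) : A * B * C * E * h * z ∈ XX H K := by
  refine ⟨S⁻¹, inv_mem hS, (S * A * S⁻¹) * (S * B * S⁻¹) * (S * C * S⁻¹) * (S * E * S⁻¹) * z,
    mul_mem (mul_mem (mul_mem (mul_mem hA hB) hC) hE) hz, S * h, mul_mem hS hh, ?_⟩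
  have h1 : z * (S * h) = S * h * z := (hc (S * h)).eq
  calc A * B * C * E * h * z = S⁻¹ * ((S * A * S⁻¹) * (S * B * S⁻¹) * (S * C * S⁻¹) *
      (S * E * S⁻¹)) * (S * h * z) := by group
    _ = S⁻¹ * ((S * A * S⁻¹) * (S * B * S⁻¹) * (S * C * S⁻¹) *
      (S * E * S⁻¹)) * (z * (S * h)) := by rw [h1]
    _ = _ := by simp only [mul_assoc]

private theorem claimP {n N : ℕ} (hN : 0 < N) {G : Type*} [Group G] (D : StData n N G)
    {k l : Fin n} {J₀ : Finset (Fin n)} (hk : k ∉ J₀) (h4 : J₀.card = 4) (hl : l ∉ insert k J₀)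
    {p b : G} (hp : p ∈ D.PJ (Finset.univ.erase k) k) (hb : b ∈ D.GJ (insert k J₀)) :
    p * b ∈ XX (D.GJ (Finset.univ.erase k)) (D.GJ (insert k J₀)) := by
  have hkI : k ∉ Finset.univ.erase k := Finset.notMem_erase k _
  have hJI : J₀ ⊆ Finset.univ.erase k := fun j hj =>
    Finset.mem_erase.2 ⟨fun h => hk (h ▸ hj), Finset.mem_univ _⟩
  have hJJ : J₀ ⊆ insert k J₀ := Finset.subset_insert k J₀
  have hkJ : k ∈ insert k J₀ := Finset.mem_insert_self k J₀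
  have he : (insert k J₀).erase k = J₀ := Finset.erase_insert hk
  have hne : J₀.Nonempty := Finset.card_pos.1 (by omega)
  obtain ⟨p₁, q₁, p₂, q₂, hp₁, hq₁, hp₂, hq₂, M', hM', hM⟩ :=
    factor hN hkJ (by rw [he]; exact hne) (pi_GJ D hb)
  rw [he] at hp₁ hq₁ hp₂ hq₂ hM'
  obtain ⟨P₁, hP₁, hπP₁⟩ := P_vec D hN hk p₁ hp₁
  obtain ⟨Q₁, hQ₁, hπQ₁⟩ := Q_vec D hN hk q₁ hq₁
  obtain ⟨P₂, hP₂, hπP₂⟩ := P_vec D hN hk p₂ hp₂
  obtain ⟨Q₂, hQ₂, hπQ₂⟩ := Q_vec D hN hk q₂ hq₂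
  obtain ⟨h, hh, hπh⟩ := surj D hN J₀ M' hM'
  have hy : P₁ * Q₁ * P₂ * Q₂ * h ∈ D.GJ (insert k J₀) :=
    mul_mem (mul_mem (mul_mem (mul_mem (PJ_le D hJJ hkJ hk hP₁) (QJ_le D hJJ hkJ hk hQ₁))
      (PJ_le D hJJ hkJ hk hP₂)) (QJ_le D hJJ hkJ hk hQ₂)) (GJ_mono D hJJ hh)
  have hz : (P₁ * Q₁ * P₂ * Q₂ * h)⁻¹ * b ∈ D.GJ (insert k J₀) := mul_mem (inv_mem hy) hb
  have hπz : D.π ((P₁ * Q₁ * P₂ * Q₂ * h)⁻¹ * b) = 1 := by
    have h1 : D.π b = D.π (P₁ * Q₁ * P₂ * Q₂ * h) := by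
      rw [hM, map_mul, map_mul, map_mul, map_mul, hπP₁, hπQ₁, hπP₂, hπQ₂, hπh]
    rw [map_mul, h1, ← map_mul, inv_mul_cancel, map_one]
  have hc := central D hl hz hπz
  have hA : p * P₁ ∈ D.PJ (Finset.univ.erase k) k := mul_mem hp (PJ_mono D hJI k hP₁)
  obtain ⟨w, hw, hπA⟩ := pi_P D hkI hA
  obtain ⟨s, hs, t, ht, hst, hts, hw1, hw2, hw3, hw4⟩ := four hN k J₀ hk h4 w p₂ q₁ q₂ hw
    (fun i hi => hp₂ i (fun hi' => hi (hJI hi'))) (fun i hi => hq₁ i (fun hi' => hi (hJI hi')))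
    (fun i hi => hq₂ i (fun hi' => hi (hJI hi')))
  obtain ⟨S, hS, hπS⟩ := surj D hN _ s hs
  have e1 := PJ_le D hJJ hkJ hk (moveP hN D hkI hJI ht hst hts hS hπS hA hπA hw1)
  have e2 := QJ_le D hJJ hkJ hk (moveQ hN D hkI hJI hs hst hts hS hπS (QJ_mono D hJI k hQ₁)
    hπQ₁ hw3)
  have e3 := PJ_le D hJJ hkJ hk (moveP hN D hkI hJI ht hst hts hS hπS (PJ_mono D hJI k hP₂)
    hπP₂ hw2)
  have e4 := QJ_le D hJJ hkJ hk (moveQ hN D hkI hJI hs hst hts hS hπS (QJ_mono D hJI k hQ₂)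
    hπQ₂ hw4)
  have h5 := key hS e1 e2 e3 e4 (GJ_mono D hJI hh) hz hc
  have h6 : p * P₁ * Q₁ * P₂ * Q₂ * h * ((P₁ * Q₁ * P₂ * Q₂ * h)⁻¹ * b) = p * b := by group
  rwa [h6] at h5

private theorem claimQ {n N : ℕ} (hN : 0 < N) {G : Type*} [Group G] (D : StData n N G)
    {k l : Fin n} {J₀ : Finset (Fin n)} (hk : k ∉ J₀) (h4 : J₀.card = 4) (hl : l ∉ insert k J₀)
    {p b : G} (hp : p ∈ D.QJ (Finset.univ.erase k) k) (hb : b ∈ D.GJ (insert k J₀)) :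
    p * b ∈ XX (D.GJ (Finset.univ.erase k)) (D.GJ (insert k J₀)) := by
  have hkI : k ∉ Finset.univ.erase k := Finset.notMem_erase k _
  have hJI : J₀ ⊆ Finset.univ.erase k := fun j hj =>
    Finset.mem_erase.2 ⟨fun h => hk (h ▸ hj), Finset.mem_univ _⟩
  have hJJ : J₀ ⊆ insert k J₀ := Finset.subset_insert k J₀
  have hkJ : k ∈ insert k J₀ := Finset.mem_insert_self k J₀
  have he : (insert k J₀).erase k = J₀ := Finset.erase_insert hk
  have hne : J₀.Nonempty := Finset.card_pos.1 (by omega)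
  obtain ⟨q₁, p₁, q₂, p₂, hq₁, hp₁, hq₂, hp₂, M', hM', hM⟩ :=
    factor' hN hkJ (by rw [he]; exact hne) (pi_GJ D hb)
  rw [he] at hp₁ hq₁ hp₂ hq₂ hM'
  obtain ⟨P₁, hP₁, hπP₁⟩ := P_vec D hN hk p₁ hp₁
  obtain ⟨Q₁, hQ₁, hπQ₁⟩ := Q_vec D hN hk q₁ hq₁
  obtain ⟨P₂, hP₂, hπP₂⟩ := P_vec D hN hk p₂ hp₂
  obtain ⟨Q₂, hQ₂, hπQ₂⟩ := Q_vec D hN hk q₂ hq₂
  obtain ⟨h, hh, hπh⟩ := surj D hN J₀ M' hM'
  have hy : Q₁ * P₁ * Q₂ * P₂ * h ∈ D.GJ (insert k J₀) :=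
    mul_mem (mul_mem (mul_mem (mul_mem (QJ_le D hJJ hkJ hk hQ₁) (PJ_le D hJJ hkJ hk hP₁))
      (QJ_le D hJJ hkJ hk hQ₂)) (PJ_le D hJJ hkJ hk hP₂)) (GJ_mono D hJJ hh)
  have hz : (Q₁ * P₁ * Q₂ * P₂ * h)⁻¹ * b ∈ D.GJ (insert k J₀) := mul_mem (inv_mem hy) hb
  have hπz : D.π ((Q₁ * P₁ * Q₂ * P₂ * h)⁻¹ * b) = 1 := by
    have h1 : D.π b = D.π (Q₁ * P₁ * Q₂ * P₂ * h) := by
      rw [hM, map_mul, map_mul, map_mul, map_mul, hπP₁, hπQ₁, hπP₂, hπQ₂, hπh]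
    rw [map_mul, h1, ← map_mul, inv_mul_cancel, map_one]
  have hc := central D hl hz hπz
  have hA : p * Q₁ ∈ D.QJ (Finset.univ.erase k) k := mul_mem hp (QJ_mono D hJI k hQ₁)
  obtain ⟨w, hw, hπA⟩ := pi_Q D hkI hA
  obtain ⟨s, hs, t, ht, hst, hts, hw1, hw2, hw3, hw4⟩ := four hN k J₀ hk h4 p₁ p₂ w q₂
    (fun i hi => hp₁ i (fun hi' => hi (hJI hi'))) (fun i hi => hp₂ i (fun hi' => hi (hJI hi')))
    hw (fun i hi => hq₂ i (fun hi' => hi (hJI hi')))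
  obtain ⟨S, hS, hπS⟩ := surj D hN _ s hs
  have e1 := QJ_le D hJJ hkJ hk (moveQ hN D hkI hJI hs hst hts hS hπS hA hπA hw3)
  have e2 := PJ_le D hJJ hkJ hk (moveP hN D hkI hJI ht hst hts hS hπS (PJ_mono D hJI k hP₁)
    hπP₁ hw1)
  have e3 := QJ_le D hJJ hkJ hk (moveQ hN D hkI hJI hs hst hts hS hπS (QJ_mono D hJI k hQ₂)
    hπQ₂ hw4)
  have e4 := PJ_le D hJJ hkJ hk (moveP hN D hkI hJI ht hst hts hS hπS (PJ_mono D hJI k hP₂)
    hπP₂ hw2)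
  have h5 := key hS e1 e2 e3 e4 (GJ_mono D hJI hh) hz hc
  have h6 : p * Q₁ * P₁ * Q₂ * P₂ * h * ((Q₁ * P₁ * Q₂ * P₂ * h)⁻¹ * b) = p * b := by group
  rwa [h6] at h5

theorem st_finite {n N : ℕ} (hn : 6 ≤ n) (hN : 0 < N) {G : Type*} [Group G]
    (D : StData n N G) : Finite G := by
  set k : Fin n := ⟨0, by omega⟩ with hkdef
  have hcI : (Finset.univ.erase k : Finset (Fin n)).card = n - 1 := by
    rw [Finset.card_erase_of_mem (Finset.mem_univ _), Finset.card_univ, Fintype.card_fin]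
  obtain ⟨J₀, hJI, h4⟩ : ∃ J₀ ⊆ (Finset.univ.erase k : Finset (Fin n)), J₀.card = 4 :=
    Finset.exists_subset_card_eq (by omega)
  have hk : k ∉ J₀ := fun h => Finset.notMem_erase k _ (hJI h)
  have hkI : k ∉ (Finset.univ.erase k : Finset (Fin n)) := Finset.notMem_erase k _
  have hcJ : (insert k J₀).card = 5 := by rw [Finset.card_insert_of_notMem hk, h4]
  obtain ⟨l, -, hl⟩ : ∃ l ∈ (Finset.univ : Finset (Fin n)), l ∉ insert k J₀ := by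
    refine Finset.exists_mem_notMem_of_card_lt_card ?_
    rw [hcJ, Finset.card_univ, Fintype.card_fin]
    omega
  have f1 : Finite (D.GJ (Finset.univ.erase k)) := GJ_finite D hN hkI (by omega)
  have f2 : Finite (D.GJ (insert k J₀)) := GJ_finite D hN hl (by omega)
  have hX : (XX (D.GJ (Finset.univ.erase k)) (D.GJ (insert k J₀))).Finite := by
    have h1 : (D.GJ (Finset.univ.erase k) : Set G).Finite := Set.toFinite _
    have h2 : (D.GJ (insert k J₀) : Set G).Finite := Set.toFinite _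
    refine ((h1.mul h2).mul h1).subset ?_
    rintro x ⟨a, ha, b, hb, c, hc, rfl⟩
    exact Set.mul_mem_mul (Set.mul_mem_mul ha hb) hc
  have hleft : ∀ g ∈ D.GJ (Finset.univ.erase k), ∀ x ∈ XX (D.GJ (Finset.univ.erase k))
      (D.GJ (insert k J₀)), g * x ∈ XX (D.GJ (Finset.univ.erase k)) (D.GJ (insert k J₀)) := by
    rintro g hg x ⟨a, ha, b, hb, c, hc, rfl⟩
    exact ⟨g * a, mul_mem hg ha, b, hb, c, hc, by simp only [mul_assoc]⟩
  have hright : ∀ g ∈ D.GJ (Finset.univ.erase k), ∀ x ∈ XX (D.GJ (Finset.univ.erase k))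
      (D.GJ (insert k J₀)), x * g ∈ XX (D.GJ (Finset.univ.erase k)) (D.GJ (insert k J₀)) := by
    rintro g hg x ⟨a, ha, b, hb, c, hc, rfl⟩
    exact ⟨a, ha, b, hb, c * g, mul_mem hc hg, by simp only [mul_assoc]⟩
  have hP : ∀ p ∈ D.PJ (Finset.univ.erase k) k, ∀ x ∈ XX (D.GJ (Finset.univ.erase k))
      (D.GJ (insert k J₀)), p * x ∈ XX (D.GJ (Finset.univ.erase k)) (D.GJ (insert k J₀)) := by
    rintro p hp x ⟨a, ha, b, hb, c, hc, rfl⟩
    have h1 : a⁻¹ * p * a⁻¹⁻¹ ∈ D.PJ (Finset.univ.erase k) k := conj_P D hkI (inv_mem ha) hp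
    have h2 := hright c hc _ (hleft a ha _ (claimP hN D hk h4 hl h1 hb))
    have h3 : a * (a⁻¹ * p * a⁻¹⁻¹ * b) * c = p * (a * b * c) := by group
    rwa [h3] at h2
  have hQ : ∀ p ∈ D.QJ (Finset.univ.erase k) k, ∀ x ∈ XX (D.GJ (Finset.univ.erase k))
      (D.GJ (insert k J₀)), p * x ∈ XX (D.GJ (Finset.univ.erase k)) (D.GJ (insert k J₀)) := by
    rintro p hp x ⟨a, ha, b, hb, c, hc, rfl⟩
    have h1 : a⁻¹ * p * a⁻¹⁻¹ ∈ D.QJ (Finset.univ.erase k) k := conj_Q D hkI (inv_mem ha) hp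
    have h2 := hright c hc _ (hleft a ha _ (claimQ hN D hk h4 hl h1 hb))
    have h3 : a * (a⁻¹ * p * a⁻¹⁻¹ * b) * c = p * (a * b * c) := by group
    rwa [h3] at h2
  have hgen : ∀ g ∈ {g | ∃ i j, i ≠ j ∧ g = D.e i j}, ∀ x ∈ XX (D.GJ (Finset.univ.erase k))
      (D.GJ (insert k J₀)), g * x ∈ XX (D.GJ (Finset.univ.erase k)) (D.GJ (insert k J₀)) ∧
        g⁻¹ * x ∈ XX (D.GJ (Finset.univ.erase k)) (D.GJ (insert k J₀)) := by
    rintro g ⟨i, j, hij, rfl⟩ x hx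
    by_cases hj : j = k
    · have h1 : D.e i j ∈ D.PJ (Finset.univ.erase k) k := by
        rw [hj]
        exact Subgroup.subset_closure ⟨i, Finset.mem_erase.2 ⟨hj ▸ hij, Finset.mem_univ _⟩, rfl⟩
      exact ⟨hP _ h1 x hx, hP _ (inv_mem h1) x hx⟩
    · by_cases hi : i = k
      · have h1 : D.e i j ∈ D.QJ (Finset.univ.erase k) k := by
          rw [hi]
          exact Subgroup.subset_closure ⟨j, Finset.mem_erase.2 ⟨hj, Finset.mem_univ _⟩, rfl⟩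
        exact ⟨hQ _ h1 x hx, hQ _ (inv_mem h1) x hx⟩
      · have h1 : D.e i j ∈ D.GJ (Finset.univ.erase k) :=
          Subgroup.subset_closure ⟨i, Finset.mem_erase.2 ⟨hi, Finset.mem_univ _⟩, j,
            Finset.mem_erase.2 ⟨hj, Finset.mem_univ _⟩, hij, rfl⟩
        exact ⟨hleft _ h1 x hx, hleft _ (inv_mem h1) x hx⟩
  have hall : ∀ g : G, g ∈ XX (D.GJ (Finset.univ.erase k)) (D.GJ (insert k J₀)) := by
    intro g
    have hg : g ∈ Subgroup.closure {g | ∃ i j, i ≠ j ∧ g = D.e i j} := by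
      rw [D.hgen]
      exact Subgroup.mem_top g
    refine Subgroup.closure_induction_left
      (p := fun x _ => x ∈ XX (D.GJ (Finset.univ.erase k)) (D.GJ (insert k J₀))) ?_ ?_ ?_ hg
    · exact ⟨1, one_mem _, 1, one_mem _, 1, one_mem _, by group⟩
    · intro x hx y _ hy
      exact (hgen x hx y hy).1
    · intro x hx y _ hy
      exact (hgen x hx y hy).2
  have hu : (Set.univ : Set G).Finite := hX.subset fun g _ => hall g
  exact Set.finite_univ_iff.1 hu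

end TOR
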