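import Mathlib
import Pool.Agent.Helper34.TOR.Defs
import Pool.Agent.Helper34.TOR.Api
import Pool.Agent.Helper34.TOR.LemG
import Pool.Agent.Helper34.TOR.Norm
import Pool.Agent.Helper34.TOR.Niel3
import Pool.Agent.Helper34.TOR.StMain

/-!
# TOR-28: `Aut(F_n)` modulo `MM n` and the `N`-th powers of transvections is finite, `n ≥ 6`

PROOF. `MM n` is normal (`MM_normal` and `nielsen n : GN n = ⊤`, unfold `GN`). `K := MM n ⊔ normalClosure {(R i j)^N}` is normal;
`Q := AF n ⧸ K`. It is enough that `Q` is finite. Let `e i j` = class of `R j i` (`x_j ↦ x_j x_i`), `i ≠ j`.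
RELATIONS. `e i j ^ N = 1`. `hst1`: `i ≠ l`, `j ≠ k`: `R j i`, `R l k`; if `j ≠ l` they commute (`R j i` moves `x_j`, uses `x_i`; `R l k` moves
`x_l`, uses `x_k`: check on letters, or `Sti_conj`); if `j = l`: `R j i = T j (1,x_i)`, `R j k = T j (1,x_k)`, commutator
`T j (1, ⁅x_i,x_k⁆) ∈ MM n` (= `Kd j i k`). `hst2` (`i,j,k` distinct): `R j i ∈ Sti k`, so
`R j i * R k j * (R j i)⁻¹ = T k (1, x_j x_i)` and `⁅R j i, R k j⁆ = T k (1, x_j x_i x_j⁻¹) ≡ T k (1, x_i) = R k i` modulo `MM n`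
(quotient `T k (1, ⁅x_j,x_i⁆) = Kd k j i`).
MATRIX. `π₀ : AF n →* Matrix (Fin n) (Fin n) (ZMod N)`, `(π₀ φ) i j` = exponent sum of `x_i` in `φ x_j`, mod `N`
(`FreeGroup.lift (fun c => Multiplicative.ofAdd (Pi.single c 1)) : FreeGroup (Fin n) →* Multiplicative (Fin n → ZMod N)`; the
exponent vector `ν (φ w) = (π₀ φ) *ᵥ ν w`, which gives multiplicativity). `π₀ (R j i) = transvection i j 1`; `π₀` is trivial on `MM n`
(`MM_le_IA`: elements of `IA n` do not change exponent vectors) and on `(R j i)^N` and its conjugates; so it factors through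
`Q` (`QuotientGroup.lift`), giving `π`.
Let `E ≤ Q` be the subgroup generated by the `e i j`; `StData n N E` (restrict), `st_finite`: `E` is finite. `E` is normalised by the
classes of `pm σ` (`pm σ * R i j * (pm σ)⁻¹ = R (σ i) (σ j)`) and of `eps a` (`a ≠ i,j`: commutes with `R i j`; `a = j`: `R i j ↦ (R i j)⁻¹`;
`a = i`: `R i j ↦ T i (x_j, 1)` (`eps_conj`), which is `≡ (R i j)⁻¹` mod `MM n` as `T i (x_j,x_j) = Kc i j ∈ MM n`). Let `W` be the subgroup of `AF n`
generated by the `pm σ` and `eps a`: every element of `W` permutes the set `{x_i^{±1}}`, and is determined by that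
permutation, so `W` is finite. By `nielsen`, `Q` is generated by `E` and the image `W'` of `W`, and `E` is normalised by `W'`, so
`Q = E W'` is finite.
-/

namespace TOR

open Helper38.AutF
open scoped commutatorElement

theorem MM_normal' (n : ℕ) : (MM n).Normal := by
  refine MM_normal ?_
  have h := nielsen n
  unfold GN at h
  exact h

/-! ### The exponent matrix modulo `N` -/

private def qfNu (n N : ℕ) : FreeGroup (Fin n) →* Multiplicative (Fin n → ZMod N) :=
  FreeGroup.lift fun c => Multiplicative.ofAdd (Pi.single c 1)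

private theorem qfNu_of (n N : ℕ) (c : Fin n) :
    qfNu n N (FreeGroup.of c) = Multiplicative.ofAdd (Pi.single c 1) := by
  unfold qfNu
  rw [FreeGroup.lift_apply_of]

/-- the exponent sums of a word -/
private def qfV {n : ℕ} (N : ℕ) (w : FreeGroup (Fin n)) : Fin n → ZMod N := (qfNu n N w).toAdd

private theorem qfV_of {n : ℕ} (N : ℕ) (c : Fin n) : qfV N (FreeGroup.of c) = Pi.single c 1 := by
  unfold qfV
  rw [qfNu_of, toAdd_ofAdd]

private theorem qfV_mul {n : ℕ} (N : ℕ) (w w' : FreeGroup (Fin n)) :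
    qfV N (w * w') = qfV N w + qfV N w' := by
  unfold qfV
  rw [map_mul, toAdd_mul]

private def qfM {n : ℕ} (N : ℕ) (φ : AF n) : Matrix (Fin n) (Fin n) (ZMod N) :=
  Matrix.of fun i j => qfV N (φ (FreeGroup.of j)) i

private theorem qfM_mulVec {n N : ℕ} (φ : AF n) (w : FreeGroup (Fin n)) :
    qfV N (φ w) = (qfM N φ).mulVec (qfV N w) := by
  have h : (qfNu n N).comp (φ : FreeGroup (Fin n) →* FreeGroup (Fin n)) =
      (AddMonoidHom.toMultiplicative (Matrix.mulVecLin (qfM N φ)).toAddMonoidHom).comp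
        (qfNu n N) := by
    refine FreeGroup.ext_hom _ _ fun c => ?_
    rw [MonoidHom.comp_apply, MonoidHom.comp_apply, qfNu_of]
    apply Multiplicative.toAdd.injective
    funext i
    change qfV N (φ (FreeGroup.of c)) i = (qfM N φ).mulVec (Pi.single c 1) i
    rw [Matrix.mulVec_single_one]
    rfl
  have h1 := DFunLike.congr_fun h w
  exact congrArg Multiplicative.toAdd h1

private def qfPi (n N : ℕ) : AF n →* Matrix (Fin n) (Fin n) (ZMod N) where
  toFun := qfM N
  map_one' := by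
    ext i j
    unfold qfM
    rw [Matrix.of_apply, MulAut.one_apply, qfV_of, Matrix.one_apply, Pi.single_apply]
  map_mul' φ ψ := by
    ext i j
    rw [Matrix.mul_apply]
    change qfV N ((φ * ψ) (FreeGroup.of j)) i = _
    rw [MulAut.mul_apply, qfM_mulVec]
    rfl

private theorem qfPi_apply {n N : ℕ} (φ : AF n) (i j : Fin n) :
    qfPi n N φ i j = qfV N (φ (FreeGroup.of j)) i := rfl

private theorem qfPi_R {n N : ℕ} {i j : Fin n} (hij : i ≠ j) :
    qfPi n N (R j i) = Matrix.transvection i j 1 := by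
  ext a b
  rw [qfPi_apply, Matrix.transvection, Matrix.add_apply, Matrix.one_apply,
    Matrix.single_apply]
  by_cases hb : b = j
  · subst hb
    rw [R_self hij, qfV_mul, qfV_of, qfV_of, Pi.add_apply, Pi.single_apply, Pi.single_apply]
    congr 1
    by_cases ha : a = i
    · rw [if_pos ha, if_pos ⟨ha.symm, rfl⟩]
    · rw [if_neg ha, if_neg fun h => ha h.1.symm]
  · rw [R_ne hb, qfV_of, Pi.single_apply, if_neg (fun h : i = a ∧ j = b => hb h.2.symm), add_zero]

private theorem qfPi_IA {n N : ℕ} {φ : AF n} (h : φ ∈ IA n) : qfPi n N φ = 1 := by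
  rw [← map_one (qfPi n N)]
  ext i j
  rw [qfPi_apply, qfPi_apply, MulAut.one_apply]
  have h1 : ∀ w : FreeGroup (Fin n), qfNu n N w =
      Abelianization.lift (qfNu n N) (Abelianization.of w) := fun w => by
    rw [Abelianization.lift_apply_of]
  unfold qfV
  rw [h1, h1 (FreeGroup.of j), h (FreeGroup.of j)]

private theorem qf_transv_pow {n N : ℕ} {i j : Fin n} (hij : i ≠ j) (k : ℕ) :
    (Matrix.transvection i j (1 : ZMod N)) ^ k = Matrix.transvection i j (k : ZMod N) := by
  induction k with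
  | zero => rw [pow_zero, Nat.cast_zero, Matrix.transvection_zero]
  | succ k ih =>
    rw [pow_succ, ih, Matrix.transvection_mul_transvection_same i j hij, Nat.cast_succ]

private theorem qfPi_pow {n N : ℕ} {i j : Fin n} (hij : i ≠ j) : qfPi n N (R i j ^ N) = 1 := by
  rw [map_pow, qfPi_R hij.symm, qf_transv_pow hij.symm, ZMod.natCast_self,
    Matrix.transvection_zero]

/-! ### The quotient -/

private def qfK (n N : ℕ) : Subgroup (AF n) :=
  MM n ⊔ Subgroup.normalClosure {φ : AF n | ∃ i j, i ≠ j ∧ φ = R i j ^ N}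

private instance qfK_normal (n N : ℕ) : (qfK n N).Normal := by
  have := MM_normal' n
  unfold qfK
  infer_instance

private theorem qfK_MM {n N : ℕ} {φ : AF n} (h : φ ∈ MM n) : φ ∈ qfK n N :=
  (le_sup_left : MM n ≤ qfK n N) h

private theorem qfK_pow {n N : ℕ} {i j : Fin n} (h : i ≠ j) : R i j ^ N ∈ qfK n N :=
  (le_sup_right : Subgroup.normalClosure {φ : AF n | ∃ i j, i ≠ j ∧ φ = R i j ^ N} ≤ qfK n N)
    (Subgroup.subset_normalClosure ⟨i, j, h, rfl⟩)

private theorem qfK_le (n N : ℕ) : qfK n N ≤ (qfPi n N).ker := by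
  refine sup_le (fun φ hφ => ?_) (Subgroup.normalClosure_le_normal ?_)
  · rw [MonoidHom.mem_ker]
    exact qfPi_IA (MM_le_IA n hφ)
  · rintro _ ⟨i, j, hij, rfl⟩
    exact (MonoidHom.mem_ker).2 (qfPi_pow hij)

private abbrev qfQ (n N : ℕ) := AF n ⧸ qfK n N

private def qfq (n N : ℕ) : AF n →* qfQ n N := QuotientGroup.mk' (qfK n N)

private theorem qfq_eq_one {n N : ℕ} {φ : AF n} (h : φ ∈ qfK n N) : qfq n N φ = 1 :=
  (QuotientGroup.eq_one_iff φ).2 h

private def qfE (n N : ℕ) : Subgroup (qfQ n N) :=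
  Subgroup.closure {g | ∃ i j, i ≠ j ∧ g = qfq n N (R j i)}

private theorem R_diag {n : ℕ} (i : Fin n) : R i i = 1 := by
  rw [R, lx_self]
  exact map_one (T i)

private theorem qf_mem_E {n N : ℕ} (i j : Fin n) : qfq n N (R j i) ∈ qfE n N := by
  by_cases h : i = j
  · subst h
    rw [R_diag, map_one]
    exact one_mem _
  · exact Subgroup.subset_closure ⟨i, j, h, rfl⟩

private theorem qf_comm1 {n N : ℕ} (i j k l : Fin n) (hij : i ≠ j) (hkl : k ≠ l) (hil : i ≠ l)
    (hjk : j ≠ k) : Commute (qfq n N (R j i)) (qfq n N (R l k)) := by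
  by_cases hjl : j = l
  · subst hjl
    rw [← commutatorElement_eq_one_iff_commute, ← map_commutatorElement]
    apply qfq_eq_one
    apply qfK_MM
    have h1 : ⁅R j i, R j k⁆ = T j (1, ⁅lx j i, lx j k⁆) := by
      unfold R
      rw [← map_commutatorElement]
      congr 1
    rw [h1]
    exact T_comm_mem_MM _ _ _
  · have hS : R j i ∈ Sti l := R_mem_Sti hjl hil
    have h1 := Sti_conj (R j i) hS (1, lx l k)
    have h2 : act (R j i) hS (lx l k) = lx l k := by
      apply Subtype.ext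
      rw [act_coe, lx_ne hkl, R_ne (Ne.symm hjk)]
    have h3 : act (R j i) hS 1 = 1 := map_one _
    dsimp only at h1
    rw [h2, h3] at h1
    have h4 : Commute (R j i) (R l k) := by
      change R j i * R l k = R l k * R j i
      exact mul_inv_eq_iff_eq_mul.1 h1
    exact h4.map (qfq n N)

private theorem qf_comm2 {n N : ℕ} (i j k : Fin n) (hij : i ≠ j) (hjk : j ≠ k) (hik : i ≠ k) :
    ⁅qfq n N (R j i), qfq n N (R k j)⁆ = qfq n N (R k i) := by
  rw [← map_commutatorElement]
  have hS : R j i ∈ Sti k := R_mem_Sti hjk hik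
  have h1 := Sti_conj (R j i) hS (1, lx k j)
  have h2 : act (R j i) hS (lx k j) = lx k j * lx k i := by
    apply Subtype.ext
    rw [act_coe, lx_ne hjk, R_self hij, Subgroup.coe_mul, lx_ne hjk, lx_ne hik]
  have h3 : act (R j i) hS 1 = 1 := map_one _
  dsimp only at h1
  rw [h2, h3] at h1
  have h4 : ⁅R j i, R k j⁆ = T k (1, ⁅lx k j, lx k i⁆) * R k i := by
    rw [commutatorElement_def]
    change R j i * T k (1, lx k j) * (R j i)⁻¹ * (T k (1, lx k j))⁻¹ = _
    rw [h1]
    unfold R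
    rw [← map_inv, ← map_mul, ← map_mul]
    congr 1
    rw [Prod.inv_mk, Prod.mk_mul_mk, Prod.mk_mul_mk, inv_one, one_mul, commutatorElement_def]
    congr 1
    group
  rw [h4, map_mul, qfq_eq_one (qfK_MM (T_comm_mem_MM _ _ _)), one_mul]

private def qfData (n N : ℕ) : StData n N (qfE n N) where
  e i j := ⟨qfq n N (R j i), qf_mem_E i j⟩
  π := (QuotientGroup.lift (qfK n N) (qfPi n N) (qfK_le n N)).comp (qfE n N).subtype
  hπ i j hij := qfPi_R hij
  hord i j hij := by
    apply Subtype.ext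
    rw [Subgroup.coe_pow, ← map_pow]
    exact qfq_eq_one (qfK_pow hij.symm)
  hst1 i j k l hij hkl hil hjk := by
    have h := qf_comm1 (N := N) i j k l hij hkl hil hjk
    exact Subtype.ext h
  hst2 i j k hij hjk hik := by
    have h := qf_comm2 (N := N) i j k hij hjk hik
    exact Subtype.ext h
  hgen := by
    have h := Subgroup.closure_closure_coe_preimage
      (k := {g : qfQ n N | ∃ i j, i ≠ j ∧ g = qfq n N (R j i)})
    rw [eq_top_iff]
    refine h.ge.trans (Subgroup.closure_mono ?_)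
    rintro ⟨g, hg⟩ ⟨i, j, hij, hgij⟩
    exact ⟨i, j, hij, Subtype.ext hgij⟩

/-! ### Signed permutations -/

private theorem qf_pm_R {n : ℕ} (σ : Equiv.Perm (Fin n)) (i j : Fin n) :
    pm σ * R i j * (pm σ)⁻¹ = R (σ i) (σ j) := by
  unfold R
  exact pm_conj_T σ i (1, lx i j) (1, lx (σ i) (σ j)) (by simp) (pm_lx σ i j)

private theorem qf_conj_E {n N : ℕ} (g : AF n)
    (h : ∀ i j, i ≠ j → qfq n N (g * R j i * g⁻¹) ∈ qfE n N) {x : qfQ n N}
    (hx : x ∈ qfE n N) : qfq n N g * x * (qfq n N g)⁻¹ ∈ qfE n N := by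
  have h1 : qfE n N ≤ (qfE n N).comap (MulAut.conj (qfq n N g)).toMonoidHom := by
    conv_lhs => rw [qfE]
    rw [Subgroup.closure_le]
    rintro _ ⟨i, j, hij, rfl⟩
    have h2 := h i j hij
    rw [map_mul, map_mul, map_inv] at h2
    exact h2
  exact h1 hx

private theorem qf_conj_pm {n N : ℕ} (σ : Equiv.Perm (Fin n)) {x : qfQ n N}
    (hx : x ∈ qfE n N) : qfq n N (pm σ) * x * (qfq n N (pm σ))⁻¹ ∈ qfE n N := by
  refine qf_conj_E _ (fun i j _ => ?_) hx
  rw [qf_pm_R]
  exact qf_mem_E _ _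

private theorem qf_conj_eps {n N : ℕ} (a : Fin n) {x : qfQ n N}
    (hx : x ∈ qfE n N) : qfq n N (eps a) * x * (qfq n N (eps a))⁻¹ ∈ qfE n N := by
  refine qf_conj_E _ (fun i j hij => ?_) hx
  by_cases haj : j = a
  · subst haj
    unfold R
    rw [eps_conj]
    have h1 : T j (lx j i, 1) * T j (1, lx j i) ∈ qfK n N := by
      apply qfK_MM
      rw [← map_mul, Prod.mk_mul_mk, one_mul, mul_one]
      exact dl_mem_MM j (lx j i)
    have h2 := qfq_eq_one h1
    rw [map_mul] at h2
    rw [eq_inv_of_mul_eq_one_left h2]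
    exact (qfE n N).inv_mem (qf_mem_E i j)
  · have hS : eps a ∈ Sti j := eps_mem_Sti haj
    have h1 := Sti_conj (eps a) hS (1, lx j i)
    have h3 : act (eps a) hS 1 = 1 := map_one _
    dsimp only at h1
    rw [h3] at h1
    unfold R
    rw [h1]
    by_cases hai : i = a
    · subst hai
      have h2 : act (eps i) hS (lx j i) = (lx j i)⁻¹ := by
        apply Subtype.ext
        rw [act_coe, lx_ne hij, eps_self, Subgroup.coe_inv, lx_ne hij]
      have h4 : T j (1, (lx j i)⁻¹) = (R j i)⁻¹ := by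
        unfold R
        rw [← map_inv, Prod.inv_mk, inv_one]
      rw [h2, h4, map_inv]
      exact (qfE n N).inv_mem (qf_mem_E i j)
    · have h2 : act (eps a) hS (lx j i) = lx j i := by
        apply Subtype.ext
        rw [act_coe, lx_ne hij, eps_ne hai]
      rw [h2]
      exact qf_mem_E i j

/-- the automorphisms which map letters to letters or inverses of letters -/
private def qfW (n : ℕ) : Set (AF n) :=
  {φ | ∀ j, ∃ k, φ (FreeGroup.of j) = FreeGroup.of k ∨ φ (FreeGroup.of j) = (FreeGroup.of k)⁻¹}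

private theorem qfW_one (n : ℕ) : (1 : AF n) ∈ qfW n := fun j => ⟨j, Or.inl rfl⟩

private theorem qfW_pm {n : ℕ} (σ : Equiv.Perm (Fin n)) : pm σ ∈ qfW n :=
  fun j => ⟨σ j, Or.inl (pm_of σ j)⟩

private theorem qfW_eps {n : ℕ} (a : Fin n) : eps a ∈ qfW n := by
  intro j
  by_cases h : j = a
  · subst h
    exact ⟨j, Or.inr (eps_self j)⟩
  · exact ⟨j, Or.inl (eps_ne h)⟩

private theorem qfW_mul {n : ℕ} {φ ψ : AF n} (hφ : φ ∈ qfW n) (hψ : ψ ∈ qfW n) :
    φ * ψ ∈ qfW n := by
  intro j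
  obtain ⟨k, hk⟩ := hψ j
  obtain ⟨l, hl⟩ := hφ k
  refine ⟨l, ?_⟩
  rw [MulAut.mul_apply]
  rcases hk with hk | hk <;> rcases hl with hl | hl <;> rw [hk]
  · exact Or.inl hl
  · exact Or.inr hl
  · rw [map_inv, hl]
    exact Or.inr rfl
  · rw [map_inv, hl, inv_inv]
    exact Or.inl rfl

private theorem qfW_finite (n : ℕ) : (qfW n).Finite := by
  have hinj : Function.Injective fun (φ : AF n) (j : Fin n) => φ (FreeGroup.of j) := by
    intro φ ψ h
    exact aut_ext fun j => congrFun h j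
  have hX : (Set.range (FreeGroup.of : Fin n → FreeGroup (Fin n)) ∪
      Set.range (fun k : Fin n => (FreeGroup.of k)⁻¹)).Finite :=
    (Set.finite_range _).union (Set.finite_range _)
  have hpi := Set.Finite.pi (ι := Fin n) (fun _ => hX)
  refine (hpi.preimage hinj.injOn).subset fun φ hφ => ?_
  rw [Set.mem_preimage, Set.mem_univ_pi]
  intro j
  obtain ⟨k, hk | hk⟩ := hφ j
  · exact Or.inl ⟨k, hk.symm⟩
  · exact Or.inr ⟨k, hk.symm⟩

private theorem qf_all {n N : ℕ} (g : AF n) :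
    ∃ x ∈ qfE n N, ∃ w ∈ qfW n, qfq n N g = x * qfq n N w := by
  have hg : g ∈ GN n := by
    rw [nielsen]
    exact Subgroup.mem_top g
  unfold GN at hg
  have hstep : ∀ s : AF n, s ∈ ({φ : AF n | ∃ i j, i ≠ j ∧ φ = R i j} ∪
      {φ | ∃ σ, φ = pm σ} ∪ {φ | ∃ a, φ = eps a}) → ∀ y : AF n,
      (∃ x ∈ qfE n N, ∃ w ∈ qfW n, qfq n N y = x * qfq n N w) →
      (∃ x ∈ qfE n N, ∃ w ∈ qfW n, qfq n N (s * y) = x * qfq n N w) ∧
      (∃ x ∈ qfE n N, ∃ w ∈ qfW n, qfq n N (s⁻¹ * y) = x * qfq n N w) := by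
    rintro s hs y ⟨x, hx, w, hw, hy⟩
    have hgen : ∀ t : AF n, t ∈ qfW n →
        qfq n N t * x * (qfq n N t)⁻¹ ∈ qfE n N →
        ∃ x ∈ qfE n N, ∃ w ∈ qfW n, qfq n N (t * y) = x * qfq n N w := by
      intro t ht htx
      refine ⟨_, htx, t * w, qfW_mul ht hw, ?_⟩
      rw [map_mul, map_mul, hy]
      group
    rcases hs with (⟨i, j, hij, rfl⟩ | ⟨σ, rfl⟩) | ⟨a, rfl⟩
    · constructor
      · refine ⟨qfq n N (R i j) * x, (qfE n N).mul_mem (qf_mem_E j i) hx, w, hw, ?_⟩
        rw [map_mul, hy, mul_assoc]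
      · refine ⟨(qfq n N (R i j))⁻¹ * x,
          (qfE n N).mul_mem ((qfE n N).inv_mem (qf_mem_E j i)) hx, w, hw, ?_⟩
        rw [map_mul, hy, map_inv, mul_assoc]
    · constructor
      · exact hgen _ (qfW_pm σ) (qf_conj_pm σ hx)
      · rw [pm_inv]
        exact hgen _ (qfW_pm σ⁻¹) (qf_conj_pm σ⁻¹ hx)
    · constructor
      · exact hgen _ (qfW_eps a) (qf_conj_eps a hx)
      · rw [eps_inv]
        exact hgen _ (qfW_eps a) (qf_conj_eps a hx)
  induction hg using Subgroup.closure_induction_left with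
  | one => exact ⟨1, one_mem _, 1, qfW_one n, by rw [map_one, mul_one]⟩
  | mul_left s hs y _ ih => exact (hstep s hs y ih).1
  | inv_mul_cancel s hs y _ ih => exact (hstep s hs y ih).2

theorem q_fin {n N : ℕ} (hn : 6 ≤ n) (hN : 0 < N) :
    (MM n ⊔ Subgroup.normalClosure {φ : AF n | ∃ i j, i ≠ j ∧ φ = R i j ^ N}).index ≠ 0 := by
  have hfin : Finite (qfE n N) := st_finite hn hN (qfData n N)
  have hE : (qfE n N : Set (qfQ n N)).Finite := Set.toFinite _
  have h1 : (Set.univ : Set (qfQ n N)) ⊆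
      (fun p : qfQ n N × AF n => p.1 * qfq n N p.2) '' ((qfE n N : Set (qfQ n N)) ×ˢ qfW n) := by
    intro y _
    obtain ⟨g, rfl⟩ := QuotientGroup.mk'_surjective (qfK n N) y
    obtain ⟨x, hx, w, hw, h⟩ := qf_all (N := N) g
    exact ⟨(x, w), ⟨hx, hw⟩, h.symm⟩
  have h2 : (Set.univ : Set (qfQ n N)).Finite := ((hE.prod (qfW_finite n)).image _).subset h1
  have h3 : Finite (qfQ n N) := Set.finite_univ_iff.1 h2
  change (qfK n N).index ≠ 0
  exact Subgroup.index_ne_zero_of_finite

end TOR
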