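import Mathlib
import Pool.Agent.Helper34.TOR.C1c
import Pool.Agent.Helper34.TOR.C2
import Pool.Agent.Helper34.TOR.QFin
import Pool.Agent.Helper34.TOR.Mab3
import Pool.Agent.Helper34.TOR.Induce

/-!
# TOR: assembly
-/

namespace TOR

open Helper38.AutF
open scoped commutatorElement

/-- `c1` for commutators and powers -/
theorem c1' {n : ℕ} (hn : 4 ≤ n) (H : Subgroup (AF n)) (hI : IA n ≤ H)
    {V : Type*} [AddCommGroup V] [Module ℂ V] [FiniteDimensional ℂ V]
    (f : H →* Module.End ℂ V) (hdim : Module.finrank ℂ V + 2 ≤ n) (N : ℕ) (hN0 : 0 < N)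
    (hN : ∀ g : AF n, g ^ N ∈ H) (i : Fin n) :
    (∀ w ∈ commutator (Sx i), psi H hI f i w = 1) ∧ ∀ w, psi H hI f i (w ^ N) = 1 := by
  refine ⟨fun w hw => c1 hn H hI f hdim N hN0 hN i w ?_,
    fun w => c1 hn H hI f hdim N hN0 hN i _ (pow_mem_TR' (by omega) H hI f hdim N hN i w)⟩
  have h : commutator (Sx i) ≤ TR (psi H hI f i) := by
    rw [commutator_def, Subgroup.commutator_le]
    intro a _ b _
    rw [commutatorElement_def]
    exact comm_mem_TR (by omega) H hI f hdim i a b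
  exact h hw

/-- the conjugate representation -/
def cjg {n : ℕ} {M : Type*} [Monoid M] (H : Subgroup (AF n)) (f : H →* M) (g : AF n) :
    H.comap (MulAut.conj g).toMonoidHom →* M :=
  f.comp ((MulAut.conj g).toMonoidHom.subgroupComap H)

theorem cjg_apply {n : ℕ} {M : Type*} [Monoid M] (H : Subgroup (AF n)) (f : H →* M) (g : AF n)
    (x : AF n) (h : x ∈ H.comap (MulAut.conj g).toMonoidHom) :
    cjg H f g ⟨x, h⟩ = f ⟨g * x * g⁻¹, h⟩ := rfl

theorem IA_le_comap {n : ℕ} (H : Subgroup (AF n)) (hI : IA n ≤ H) (g : AF n) :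
    IA n ≤ H.comap (MulAut.conj g).toMonoidHom := by
  intro x hx
  exact hI ((IA_normal n).conj_mem x hx g)

/-- elements of `IA n` all of whose conjugates are killed by `f` -/
def NK {n : ℕ} {M : Type*} [Monoid M] (H : Subgroup (AF n)) (hI : IA n ≤ H) (f : H →* M) :
    Subgroup (AF n) where
  carrier := {φ | φ ∈ IA n ∧ ∀ g, ∀ h : g * φ * g⁻¹ ∈ H, f ⟨_, h⟩ = 1}
  mul_mem' := by
    rintro a b ⟨ha, ha'⟩ ⟨hb, hb'⟩
    refine ⟨mul_mem ha hb, fun g h => ?_⟩
    have h1 : g * a * g⁻¹ ∈ H := hI ((IA_normal n).conj_mem a ha g)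
    have h2 : g * b * g⁻¹ ∈ H := hI ((IA_normal n).conj_mem b hb g)
    have h3 : (⟨g * (a * b) * g⁻¹, h⟩ : H) = ⟨g * a * g⁻¹, h1⟩ * ⟨g * b * g⁻¹, h2⟩ := by
      apply Subtype.ext
      show g * (a * b) * g⁻¹ = g * a * g⁻¹ * (g * b * g⁻¹)
      group
    rw [h3, map_mul, ha', hb', one_mul]
  one_mem' := by
    refine ⟨one_mem _, fun g h => ?_⟩
    have h3 : (⟨g * 1 * g⁻¹, h⟩ : H) = 1 := by
      apply Subtype.ext
      show g * 1 * g⁻¹ = 1
      group
    rw [h3, map_one]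
  inv_mem' := by
    rintro a ⟨ha, ha'⟩
    refine ⟨inv_mem ha, fun g h => ?_⟩
    have h1 : g * a * g⁻¹ ∈ H := hI ((IA_normal n).conj_mem a ha g)
    have h3 : (⟨g * a * g⁻¹, h1⟩ : H) * ⟨g * a⁻¹ * g⁻¹, h⟩ = 1 := by
      apply Subtype.ext
      show g * a * g⁻¹ * (g * a⁻¹ * g⁻¹) = 1
      group
    have h4 := congrArg f h3
    rwa [map_mul, map_one, ha', one_mul] at h4

instance NK_normal {n : ℕ} {M : Type*} [Monoid M] (H : Subgroup (AF n)) (hI : IA n ≤ H)
    (f : H →* M) : (NK H hI f).Normal := by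
  refine ⟨?_⟩
  rintro a ⟨ha, ha'⟩ γ
  refine ⟨(IA_normal n).conj_mem a ha γ, fun g h => ?_⟩
  have h1 : g * γ * a * (g * γ)⁻¹ ∈ H := hI ((IA_normal n).conj_mem a ha (g * γ))
  have h3 : (⟨g * (γ * a * γ⁻¹) * g⁻¹, h⟩ : H) = ⟨g * γ * a * (g * γ)⁻¹, h1⟩ := by
    apply Subtype.ext
    show g * (γ * a * γ⁻¹) * g⁻¹ = g * γ * a * (g * γ)⁻¹
    group
  rw [h3, ha']

theorem gens_finite (n : ℕ) : (gens n).Finite := by
  refine Set.Finite.union ?_ ?_
  · have : {κ : AF n | ∃ i j, κ = Kc i j} = Set.range (fun p : Fin n × Fin n => Kc p.1 p.2) := by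
      ext κ
      constructor
      · rintro ⟨i, j, rfl⟩
        exact ⟨(i, j), rfl⟩
      · rintro ⟨p, rfl⟩
        exact ⟨p.1, p.2, rfl⟩
    rw [this]
    exact Set.finite_range _
  · have : {κ : AF n | ∃ i j k, κ = Kd i j k} =
        Set.range (fun p : Fin n × Fin n × Fin n => Kd p.1 p.2.1 p.2.2) := by
      ext κ
      constructor
      · rintro ⟨i, j, k, rfl⟩
        exact ⟨(i, j, k), rfl⟩
      · rintro ⟨p, rfl⟩
        exact ⟨p.1, p.2.1, p.2.2, rfl⟩
    rw [this]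
    exact Set.finite_range _

theorem MM_fg (n : ℕ) : Group.FG (MM n) := by
  rw [Group.fg_iff_subgroup_fg, MM]
  exact ⟨(gens_finite n).toFinset, by rw [Set.Finite.coe_toFinset]⟩

/-- a homomorphism from `MM n` killing commutators and `N`-th powers has finite image -/
theorem MM_range_finite {n : ℕ} {M : Type*} [Group M] (u : MM n →* M)
    (hc : ∀ a b : MM n, u a * u b = u b * u a) (N : ℕ) (hN0 : 0 < N)
    (hN : ∀ a : MM n, u a ^ N = 1) : Finite u.range := by
  have h0 : Group.FG (MM n) := MM_fg n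
  have h1 : Group.FG u.range := Group.fg_range u
  letI : CommGroup u.range :=
    { (inferInstance : Group u.range) with
      mul_comm := by
        rintro ⟨_, a, rfl⟩ ⟨_, b, rfl⟩
        exact Subtype.ext (hc a b) }
  have h2 : IsMulTorsion u.range := by
    rintro ⟨_, a, rfl⟩
    rw [isOfFinOrder_iff_pow_eq_one]
    exact ⟨N, hN0, Subtype.ext (hN a)⟩
  exact CommGroup.finite_of_fg_isMulTorsion _ h2

/-- a homomorphism on a group is finite if it is finite on a subgroup of finite index -/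
theorem range_finite_of_index {G M : Type*} [Group G] [Group M] (u : G →* M) (J : Subgroup G)
    (hJ : J.index ≠ 0) (hfin : (J.map u : Set M).Finite) : (Set.range u).Finite := by
  have h1 : ((J.map u.rangeRestrict).index) ≠ 0 := by
    intro h
    have h2 := Subgroup.index_map_dvd J u.rangeRestrict_surjective
    rw [h] at h2
    exact hJ (zero_dvd_iff.1 h2)
  have h3 : Finite (J.map u.rangeRestrict) := by
    have h4 : Function.Injective (fun x : J.map u.rangeRestrict =>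
        (⟨((x : u.range) : M), by
          obtain ⟨y, hy, hy'⟩ := x.2
          exact ⟨y, hy, by rw [← hy']; rfl⟩⟩ : (J.map u : Set M))) := by
      intro x y hxy
      apply Subtype.ext
      apply Subtype.ext
      exact congrArg (fun z : (J.map u : Set M) => (z : M)) hxy
    have := hfin.to_subtype
    exact Finite.of_injective _ h4
  have h5 := Subgroup.card_mul_index (J.map u.rangeRestrict)
  have h6 : Nat.card u.range ≠ 0 := by
    rw [← h5]
    exact Nat.mul_ne_zero Nat.card_pos.ne' h1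
  have h7 : Finite u.range := Nat.finite_of_card_ne_zero h6
  have h8 : Set.range u = (u.range : Set M) := rfl
  rw [h8]
  exact Set.toFinite _

/-- the main theorem for subgroups containing `IA n` -/
theorem main_IA {n : ℕ} (hn : 6 ≤ n) (H : Subgroup (AF n)) (hH : H.index ≠ 0) (hI : IA n ≤ H)
    {V : Type*} [AddCommGroup V] [Module ℂ V] [FiniteDimensional ℂ V]
    (f : H →* Module.End ℂ V) (hdim : Module.finrank ℂ V + 2 ≤ n) : (Set.range f).Finite := by
  classical
  obtain ⟨N, hN0, hN⟩ : ∃ N : ℕ, 0 < N ∧ ∀ g : AF n, g ^ N ∈ H := by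
    refine ⟨H.index.factorial, Nat.factorial_pos _, fun g => ?_⟩
    exact H.pow_mem_of_index_ne_zero_of_dvd hH g (fun m h1 h2 => Nat.dvd_factorial h1 h2)
  have hMn : (MM n).Normal := MM_normal' n
  have hMI : MM n ≤ IA n := MM_le_IA n
  have hMH : MM n ≤ H := hMI.trans hI
  -- the conjugates of `f`
  let Hg : AF n → Subgroup (AF n) := fun g => H.comap (MulAut.conj g).toMonoidHom
  have hgI : ∀ g, IA n ≤ Hg g := IA_le_comap H hI
  have hgN : ∀ g (x : AF n), x ^ N ∈ Hg g := by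
    intro g x
    show g * x ^ N * g⁻¹ ∈ H
    rw [← conj_pow]
    exact hN _
  have hc1 := fun g i => c1' (by omega) (Hg g) (hgI g) (cjg H f g) hdim N hN0 (hgN g) i
  have h1 : ∀ i, ∀ w : Sx i, w ∈ commutator (Sx i) → dl i w ∈ NK H hI f := by
    intro i w hw
    refine ⟨dl_mem_IA i w, fun g h => ?_⟩
    exact (hc1 g i).1 w hw
  have h2 : ∀ i, ∀ w : Sx i, dl i w ^ N ∈ NK H hI f := by
    intro i w
    rw [← map_pow]
    refine ⟨dl_mem_IA i _, fun g h => ?_⟩
    exact (hc1 g i).2 w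
  have hcomm := mab_comm (NK H hI f) h1 (by omega)
  have hpow := mab_pow (NK H hI f) h1 (by omega) N h2
  have hNK : ∀ x : AF n, x ∈ NK H hI f → ∀ h : x ∈ H, f ⟨x, h⟩ = 1 := by
    intro x hx h
    have h3 := hx.2 1 (by rwa [one_mul, inv_one, mul_one])
    have h4 : (⟨1 * x * 1⁻¹, by rwa [one_mul, inv_one, mul_one]⟩ : H) = ⟨x, h⟩ :=
      Subtype.ext (by show 1 * x * 1⁻¹ = x; rw [one_mul, inv_one, mul_one])
    rw [← h4]
    exact h3
  -- the image of `MM n` is finite
  let U : H →* (Module.End ℂ V)ˣ := f.toHomUnits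
  have hUf : ∀ x : H, ((U x : (Module.End ℂ V)ˣ) : Module.End ℂ V) = f x := fun x => rfl
  have hU1 : ∀ x : H, f x = 1 → U x = 1 := fun x hx => Units.ext hx
  let u : MM n →* (Module.End ℂ V)ˣ := U.comp (Subgroup.inclusion hMH)
  have hufin : Finite u.range := by
    refine MM_range_finite u ?_ N hN0 ?_
    · intro a b
      have h3 := hNK _ (hcomm a b a.2 b.2) (hMH (by
        rw [commutatorElement_def]
        exact mul_mem (mul_mem (mul_mem a.2 b.2) (inv_mem a.2)) (inv_mem b.2)))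
      have h4 : u ⁅a, b⁆ = 1 := hU1 _ h3
      rw [map_commutatorElement, commutatorElement_eq_one_iff_mul_comm] at h4
      exact h4
    · intro a
      have h3 := hNK _ (hpow a a.2) (hMH (pow_mem a.2 N))
      rw [← map_pow]
      exact hU1 _ h3
  -- the finite set `f (MM n)`
  let X : Set (Module.End ℂ V) := {A | ∃ κ : H, (κ : AF n) ∈ MM n ∧ A = f κ}
  have hXfin : X.Finite := by
    have h3 : X ⊆ (fun v : (Module.End ℂ V)ˣ => (v : Module.End ℂ V)) '' (u.range : Set _) := by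
      rintro _ ⟨κ, hκ, rfl⟩
      exact ⟨U κ, ⟨⟨κ, hκ⟩, rfl⟩, rfl⟩
    exact ((Set.toFinite _).image _).subset h3
  have hXg : ∀ g, {A : Module.End ℂ V | ∃ κ : Hg g, (κ : AF n) ∈ MM n ∧ A = cjg H f g κ} = X := by
    intro g
    ext A
    constructor
    · rintro ⟨κ, hκ, rfl⟩
      exact ⟨⟨g * κ * g⁻¹, κ.2⟩, hMn.conj_mem _ hκ g, rfl⟩
    · rintro ⟨κ, hκ, rfl⟩
      have h3 : g⁻¹ * (κ : AF n) * g ∈ MM n := by
        have := hMn.conj_mem _ hκ g⁻¹
        rwa [inv_inv] at this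
      refine ⟨⟨g⁻¹ * κ * g, hgI g (hMI h3)⟩, h3, ?_⟩
      rw [cjg_apply]
      congr 1
      apply Subtype.ext
      show (κ : AF n) = g * (g⁻¹ * κ * g) * g⁻¹
      group
  set a := X.ncard with ha
  have ha0 : 0 < a := by
    rw [ha, Set.ncard_pos hXfin]
    exact ⟨f 1, 1, one_mem _, rfl⟩
  set N' := (N * a.factorial) ^ 2 * a ^ 2 * (Module.finrank ℂ V).factorial with hN'
  have hN'0 : 0 < N' := by
    have := Nat.factorial_pos a
    have := Nat.factorial_pos (Module.finrank ℂ V)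
    positivity
  have hNN' : N ∣ N' := by
    rw [hN']
    exact Dvd.dvd.mul_right (Dvd.dvd.mul_right (Dvd.dvd.trans (Dvd.intro _ rfl)
      (dvd_pow_self _ two_ne_zero)) _) _
  have hRH : ∀ g (x : AF n), g * x ^ N' * g⁻¹ ∈ H := by
    intro g x
    obtain ⟨M, hM⟩ := hNN'
    rw [hM, pow_mul, ← conj_pow]
    rw [← conj_pow]
    exact pow_mem (hN _) M
  have hR1 : ∀ g i k, i ≠ k → ∀ h, f ⟨g * R i k ^ N' * g⁻¹, h⟩ = 1 := by
    intro g i k hik h
    exact c2 (by omega) hMn (Hg g) (hgI g) (cjg H f g) (by omega) N (hgN g) a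
      (by rw [hXg]; exact hXfin) (by rw [hXg]) hik h
  set Z : Subgroup (AF n) :=
    Subgroup.normalClosure {φ : AF n | ∃ i j, i ≠ j ∧ φ = R i j ^ N'} with hZ
  have hZK : Z ≤ U.ker.map H.subtype := by
    rw [hZ, Subgroup.normalClosure, Subgroup.closure_le]
    intro x hx
    rw [Group.mem_conjugatesOfSet_iff] at hx
    obtain ⟨y, ⟨i, j, hij, rfl⟩, hy⟩ := hx
    rw [isConj_iff] at hy
    obtain ⟨g, rfl⟩ := hy
    refine ⟨⟨g * R i j ^ N' * g⁻¹, hRH g _⟩, ?_, rfl⟩
    exact hU1 _ (hR1 g i j hij _)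
  have hZH : Z ≤ H := by
    refine hZK.trans ?_
    rintro _ ⟨x, _, rfl⟩
    exact x.2
  have hqf : (MM n ⊔ Z).index ≠ 0 := q_fin hn hN'0
  have hJ : ((MM n ⊔ Z).subgroupOf H).index ≠ 0 := by
    show (MM n ⊔ Z).relIndex H ≠ 0
    exact fun h => hqf (Subgroup.index_eq_zero_of_relIndex_eq_zero h)
  have hfinU : (Set.range U).Finite := by
    refine range_finite_of_index U _ hJ ?_
    refine (Set.toFinite (u.range : Set (Module.End ℂ V)ˣ)).subset ?_
    rintro _ ⟨x, hx, rfl⟩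
    have hx' : (x : AF n) ∈ MM n ⊔ Z := hx
    rw [Subgroup.mem_sup_of_normal_right] at hx'
    obtain ⟨y, hy, z, hz, hyz⟩ := hx'
    obtain ⟨z', hz', hzz⟩ := hZK hz
    refine ⟨⟨y, hy⟩, ?_⟩
    have h3 : x = ⟨y, hMH hy⟩ * z' := by
      apply Subtype.ext
      rw [← hyz, ← hzz]
      rfl
    rw [h3, map_mul]
    have h4 : U z' = 1 := hz'
    rw [h4, mul_one]
    rfl
  have h5 : Set.range f = (fun v : (Module.End ℂ V)ˣ => (v : Module.End ℂ V)) '' Set.range U := by
    rw [← Set.range_comp]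
    rfl
  rw [h5]
  exact hfinU.image _

end TOR
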