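import Mathlib
import Pool.Agent.Helper34.TOR.Main

/-!
# TOR: the general statement
-/

namespace TOR

open Helper38.AutF

/-- `[H ⊔ K : H] = [K : H ⊓ K]` for `K` normal -/
theorem relIndex_sup_normal {G : Type*} [Group G] (H K : Subgroup G) [K.Normal] :
    H.relIndex (H ⊔ K) = H.relIndex K := by
  have hinj := (Subgroup.quotientSubgroupOfEmbeddingOfLE H (le_sup_right : K ≤ H ⊔ K)).injective
  have hsurj : Function.Surjective
      (Subgroup.quotientSubgroupOfEmbeddingOfLE H (le_sup_right : K ≤ H ⊔ K)) := by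
    intro x
    induction x using QuotientGroup.induction_on with
    | H z =>
      obtain ⟨z, hz⟩ := z
      have hz' := hz
      rw [sup_comm, Subgroup.mem_sup_of_normal_left] at hz'
      obtain ⟨k, hk, h, hh, hkh⟩ := hz'
      refine ⟨QuotientGroup.mk ⟨k, hk⟩, ?_⟩
      rw [Subgroup.quotientSubgroupOfEmbeddingOfLE_apply_mk, QuotientGroup.eq]
      rw [Subgroup.mem_subgroupOf]
      have : ((((Subgroup.inclusion (le_sup_right : K ≤ H ⊔ K)) ⟨k, hk⟩)⁻¹ * ⟨z, hz⟩ :
          (H ⊔ K : Subgroup G)) : G) = h := by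
        show k⁻¹ * z = h
        rw [← hkh]
        group
      rw [this]
      exact hh
  exact (Nat.card_congr (Equiv.ofBijective _ ⟨hinj, hsurj⟩)).symm

/-- the general statement for complex representations -/
theorem main_gen {n m : ℕ} (hn : 6 ≤ n) (H : Subgroup (AF n)) (hH : H.index ≠ 0)
    (hm : m * H.relIndex (IA n) + 2 ≤ n) (f : H →* Matrix.GeneralLinearGroup (Fin m) ℂ) :
    (Set.range f).Finite := by
  classical
  set L : Subgroup (AF n) := H ⊔ IA n with hL
  have hHL : H ≤ L := le_sup_left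
  have hIL : IA n ≤ L := le_sup_right
  have hLi : L.index ≠ 0 := by
    intro h
    have h1 := Subgroup.index_dvd_of_le hHL
    rw [h] at h1
    exact hH (zero_dvd_iff.1 h1)
  have hidx : (H.subgroupOf L).index = H.relIndex (IA n) := relIndex_sup_normal H (IA n)
  have hidx0 : (H.subgroupOf L).index ≠ 0 := by
    intro h
    exact hH (Subgroup.index_eq_zero_of_relIndex_eq_zero h)
  let e : H.subgroupOf L ≃* H := Subgroup.subgroupOfEquivOfLe hHL
  let f' : H.subgroupOf L →* Matrix.GeneralLinearGroup (Fin m) ℂ := f.comp e.toMonoidHom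
  obtain ⟨V, i1, i2, i3, F, hdim, hF⟩ := induce (L := L) (H.subgroupOf L) hidx0 f'
  have hfin : (Set.range F).Finite := by
    refine main_IA hn L hLi hIL F ?_
    rw [hdim, hidx]
    exact hm
  let G0 : H →* Module.End ℂ V := F.comp (Subgroup.inclusion hHL)
  have hG0 : (Set.range G0).Finite := by
    refine hfin.subset ?_
    rintro _ ⟨x, rfl⟩
    exact ⟨Subgroup.inclusion hHL x, rfl⟩
  have h1 : ∀ x : H, G0 x = 1 → f x = 1 := by
    intro x hx
    have h2 := hF ⟨Subgroup.inclusion hHL x, x.2⟩ hx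
    exact h2
  have h3 : ∀ x y : H, G0 x = G0 y → f x = f y := by
    intro x y hxy
    have h4 : G0 (x⁻¹ * y) = 1 := by
      rw [map_mul, ← hxy, ← map_mul, inv_mul_cancel, map_one]
    have h5 := h1 _ h4
    rw [map_mul, map_inv] at h5
    exact (inv_mul_eq_one.1 h5)
  let φ : Module.End ℂ V → Matrix.GeneralLinearGroup (Fin m) ℂ := fun A =>
    if h : ∃ x, G0 x = A then f h.choose else 1
  refine (hG0.image φ).subset ?_
  rintro _ ⟨x, rfl⟩
  refine ⟨G0 x, ⟨x, rfl⟩, ?_⟩
  have h6 : ∃ y, G0 y = G0 x := ⟨x, rfl⟩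
  show (if h : ∃ y, G0 y = G0 x then f h.choose else 1) = f x
  rw [dif_pos h6]
  exact h3 _ _ h6.choose_spec

/-- the general statement for integral representations -/
theorem main_gen_int {n m : ℕ} (hn : 6 ≤ n) (H : Subgroup (AF n)) (hH : H.index ≠ 0)
    (hm : m * H.relIndex (IA n) + 2 ≤ n) (f : H →* Matrix.GeneralLinearGroup (Fin m) ℤ) :
    (Set.range f).Finite := by
  let ι : Matrix.GeneralLinearGroup (Fin m) ℤ →* Matrix.GeneralLinearGroup (Fin m) ℂ :=
    Matrix.GeneralLinearGroup.map (Int.castRingHom ℂ)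
  have hι : Function.Injective ι := by
    intro a b hab
    apply Units.ext
    ext i j
    have h := congrArg (fun A : Matrix.GeneralLinearGroup (Fin m) ℂ =>
      (A : Matrix (Fin m) (Fin m) ℂ) i j) hab
    simpa [ι] using h
  have h := main_gen hn H hH hm (ι.comp f)
  have h2 : Set.range (ι.comp f) = ι '' Set.range f := by
    rw [← Set.range_comp]
    rfl
  rw [h2] at h
  exact h.of_finite_image hι.injOn

end TOR
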